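import Mathlib

set_option autoImplicit false

/-! Definitions for the two rigidity theorems on hedgehogs (MP_7dc3d9_gt, Theorems A and B). -/

namespace Pool.Agent.HH

open Complex Set MeasureTheory Topology

/-- derivative of `F` in the first variable -/
noncomputable def px (F : ℝ × ℝ → ℂ) (p : ℝ × ℝ) : ℂ := fderiv ℝ F p (1, 0)

/-- derivative of `F` in the second variable -/
noncomputable def py (F : ℝ × ℝ → ℂ) (p : ℝ × ℝ) : ℂ := fderiv ℝ F p (0, 1)

/-- Jacobian determinant of `P : ℝ² → ℂ = ℝ²` -/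
noncomputable def Jac (P : ℝ × ℝ → ℂ) (p : ℝ × ℝ) : ℝ :=
  ((starRingEnd ℂ) (px P p) * py P p).im

/-- derivative of `g : ℂ → ℝ` in the direction `1` -/
noncomputable def g1 (g : ℂ → ℝ) (z : ℂ) : ℝ := fderiv ℝ g z 1

/-- derivative of `g : ℂ → ℝ` in the direction `i` -/
noncomputable def g2 (g : ℂ → ℝ) (z : ℂ) : ℝ := fderiv ℝ g z Complex.I

/-- Laplacian -/
noncomputable def lap (g : ℂ → ℝ) (z : ℂ) : ℝ := g1 (g1 g) z + g2 (g2 g) z

/-- the open square with centre `(a, b)` and half side `δ` -/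
def Rect (a b δ : ℝ) : Set (ℝ × ℝ) := Ioo (a - δ) (a + δ) ×ˢ Ioo (b - δ) (b + δ)

/-- the functions `F_x, F_y, x F_x + y F_y - F, F_xy / F_xx` along `(s, y) ↦ (ξ(s,y), y)` -/
noncomputable def chP (F : ℝ × ℝ → ℂ) (ξ : ℝ × ℝ → ℝ) (q : ℝ × ℝ) : ℂ := px F (ξ q, q.2)
@[inherit_doc chP]
noncomputable def chQ (F : ℝ × ℝ → ℂ) (ξ : ℝ × ℝ → ℝ) (q : ℝ × ℝ) : ℂ := py F (ξ q, q.2)
@[inherit_doc chP]
noncomputable def chX (F : ℝ × ℝ → ℂ) (ξ : ℝ × ℝ → ℝ) (q : ℝ × ℝ) : ℂ :=
  (ξ q : ℂ) * px F (ξ q, q.2) + (q.2 : ℂ) * py F (ξ q, q.2) - F (ξ q, q.2)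
@[inherit_doc chP]
noncomputable def chb (F : ℝ × ℝ → ℂ) (ξ : ℝ × ℝ → ℝ) (q : ℝ × ℝ) : ℂ :=
  py (px F) (ξ q, q.2) / px (px F) (ξ q, q.2)

/-- the complex Monge-Ampere equation `F_xx F_yy = F_xy²` -/
def MA (F : ℝ × ℝ → ℂ) : Prop := ∀ p, px (px F) p * py (py F) p = py (px F) p ^ 2

/-- near `p` the Hessian of `F` has a real direction: `Im (conj F_xx * F_xy) = 0` -/
def IntK (F : ℝ × ℝ → ℂ) (p : ℝ × ℝ) : Prop :=
  ∀ᶠ q in 𝓝 p, ((starRingEnd ℂ) (px (px F) q) * py (px F) q).im = 0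

/-- `(0, y)` is inside the degenerate region and the Hessian there is
`diag(lam / (1 + kap y), 0)` -/
def Good (F : ℝ × ℝ → ℂ) (lam kap y : ℝ) : Prop :=
  IntK F (0, y) ∧ py (px F) (0, y) = 0 ∧ px (px F) (0, y) * ((1 + kap * y : ℝ) : ℂ) = (lam : ℂ)

/-- three dimensional Euclidean space -/
abbrev E3 : Type := EuclideanSpace ℝ (Fin 3)

/-- the standard basis vectors -/
noncomputable def ev (i : Fin 3) : E3 := EuclideanSpace.single i (1 : ℝ)

/-- second derivative as a bilinear form -/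
noncomputable def D2 (H : E3 → ℂ) (x a b : E3) : ℂ := fderiv ℝ (fderiv ℝ H) x a b

/-- A complex 1-homogeneous `C²` function on `ℝ³ ∖ 0` whose Hessian has rank at most one
everywhere (a complex support function with identically zero curvature function). -/
structure IsNull (H : E3 → ℂ) : Prop where
  hom : ∀ (x : E3) (c : ℝ), 0 < c → H (c • x) = (c : ℂ) * H x
  smooth : ContDiffOn ℝ 2 H {x : E3 | x ≠ 0}
  rank1 : ∀ x : E3, x ≠ 0 → ∃ w : E3 →L[ℝ] ℂ, ∀ a b : E3, D2 H x a b = w a * w b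

/-- stereographic parametrisation (not normalised) of the directions different from `k` -/
noncomputable def sig (e f k : E3) (p : ℝ × ℝ) : E3 :=
  (2 * p.1) • e + (2 * p.2) • f + (p.1 ^ 2 + p.2 ^ 2 - 1) • k

/-- Entry `(i, j)` of the Hessian of `f` at `u`. -/
noncomputable def hessEntry (f : EuclideanSpace ℝ (Fin 3) → ℝ) (u : EuclideanSpace ℝ (Fin 3))
    (i j : Fin 3) : ℝ :=
  fderiv ℝ (fderiv ℝ f) u (EuclideanSpace.single i (1 : ℝ)) (EuclideanSpace.single j (1 : ℝ))

/-- The curvature function of the hedgehog with (1-homogeneous) support function `f`: the sum of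
the principal `2 × 2` minors of the Hessian of `f` at the unit vector `u`. As `u` is in the kernel
of the Hessian, this is the determinant of the Hessian restricted to the tangent plane at `u`. -/
noncomputable def curvatureFunction (f : EuclideanSpace ℝ (Fin 3) → ℝ)
    (u : EuclideanSpace ℝ (Fin 3)) : ℝ :=
  (hessEntry f u 0 0 * hessEntry f u 1 1 - hessEntry f u 0 1 * hessEntry f u 1 0)
    + (hessEntry f u 0 0 * hessEntry f u 2 2 - hessEntry f u 0 2 * hessEntry f u 2 0)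
    + (hessEntry f u 1 1 * hessEntry f u 2 2 - hessEntry f u 1 2 * hessEntry f u 2 1)

/-- The hedgehog with (1-homogeneous) support function `f`: the image of the unit sphere under
the gradient of `f`. -/
noncomputable def hedgehog (f : EuclideanSpace ℝ (Fin 3) → ℝ) :
    Set (EuclideanSpace ℝ (Fin 3)) :=
  (fun u => gradient f u) '' Metric.sphere (0 : EuclideanSpace ℝ (Fin 3)) 1

/-- `f` is (the 1-homogeneous extension of) a `C²` support function -/
structure IsSupp (f : EuclideanSpace ℝ (Fin 3) → ℝ) : Prop where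
  hom : ∀ (x : EuclideanSpace ℝ (Fin 3)) (c : ℝ), 0 < c → f (c • x) = c * f x
  smooth : ContDiffOn ℝ 2 f {x : EuclideanSpace ℝ (Fin 3) | x ≠ 0}

/-- the function minus the linear function with the same values at the standard basis -/
noncomputable def hat (f : E3 → ℝ) (x : E3) : ℝ := f x - ∑ i : Fin 3, x i * f (ev i)

end Pool.Agent.HH
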