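import Pool.Agent.Lib.MP_7dc3d9_gt.ThA.Stm

set_option autoImplicit false

/-! AFF: affine structure in the degenerate region. -/

namespace Pool.Agent.HH

open Complex Set MeasureTheory Topology

private theorem aff_hx {E : Type*} [NormedAddCommGroup E] [NormedSpace ℝ E] {g : ℝ × ℝ → E}
    {s y : ℝ} (h : DifferentiableAt ℝ g (s, y)) :
    HasDerivAt (fun t : ℝ => g (t, y)) (fderiv ℝ g (s, y) (1, 0)) s := by
  have h1 : HasDerivAt (fun t : ℝ => ((t, y) : ℝ × ℝ)) ((1, 0) : ℝ × ℝ) s :=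
    (hasDerivAt_id s).prodMk (hasDerivAt_const s y)
  exact h.hasFDerivAt.comp_hasDerivAt s h1

private theorem aff_hy {E : Type*} [NormedAddCommGroup E] [NormedSpace ℝ E] {g : ℝ × ℝ → E}
    {s y : ℝ} (h : DifferentiableAt ℝ g (s, y)) :
    HasDerivAt (fun t : ℝ => g (s, t)) (fderiv ℝ g (s, y) (0, 1)) y := by
  have h1 : HasDerivAt (fun t : ℝ => ((s, t) : ℝ × ℝ)) ((0, 1) : ℝ × ℝ) y :=
    (hasDerivAt_const y s).prodMk (hasDerivAt_id y)
  exact h.hasFDerivAt.comp_hasDerivAt y h1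

/-- a function with zero `y` derivative does not depend on `y`, nor does its `x` derivative -/
private theorem aff_const {s1 s2 y1 y2 : ℝ} {g : ℝ × ℝ → ℂ}
    (hg : ContDiffOn ℝ 1 g (Ioo s1 s2 ×ˢ Ioo y1 y2))
    (h0 : ∀ q ∈ Ioo s1 s2 ×ˢ Ioo y1 y2, py g q = 0) {s y y' : ℝ} (hs : s ∈ Ioo s1 s2)
    (hy : y ∈ Ioo y1 y2) (hy' : y' ∈ Ioo y1 y2) :
    g (s, y) = g (s, y') ∧ px g (s, y) = px g (s, y') := by
  have hopen : IsOpen (Ioo s1 s2 ×ˢ Ioo y1 y2) := isOpen_Ioo.prod isOpen_Ioo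
  have hd : ∀ q ∈ Ioo s1 s2 ×ˢ Ioo y1 y2, DifferentiableAt ℝ g q := fun q hq =>
    (hg.differentiableOn (by norm_num)).differentiableAt (hopen.mem_nhds hq)
  have key : ∀ t ∈ Ioo s1 s2, g (t, y) = g (t, y') := by
    intro t ht
    have hder : ∀ z ∈ Ioo y1 y2, HasDerivAt (fun w : ℝ => g (t, w)) 0 z := by
      intro z hz
      have h1 := aff_hy (hd (t, z) ⟨ht, hz⟩)
      have h2 : fderiv ℝ g (t, z) (0, 1) = 0 := h0 (t, z) ⟨ht, hz⟩
      rwa [h2] at h1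
    refine isOpen_Ioo.is_const_of_deriv_eq_zero (convex_Ioo y1 y2).isPreconnected
      (fun z hz => (hder z hz).differentiableAt.differentiableWithinAt)
      (fun z hz => (hder z hz).deriv) hy hy'
  refine ⟨key s hs, ?_⟩
  have h1 := aff_hx (hd (s, y) ⟨hs, hy⟩)
  have h2 := aff_hx (hd (s, y') ⟨hs, hy'⟩)
  have h3 : HasDerivAt (fun t : ℝ => g (t, y')) (fderiv ℝ g (s, y) (1, 0)) s := by
    refine h1.congr_of_eventuallyEq ?_
    filter_upwards [isOpen_Ioo.mem_nhds hs] with t ht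
    exact (key t ht).symm
  exact h3.unique h2

theorem p_AFF : S_AFF := by
  intro s1 s2 y1 y2 ξ P Q X b hy12 hξ hP hQ hX H
  set R : Set (ℝ × ℝ) := Ioo s1 s2 ×ˢ Ioo y1 y2 with hR
  have hopen : IsOpen R := isOpen_Ioo.prod isOpen_Ioo
  have hdP : ∀ q ∈ R, DifferentiableAt ℝ P q := fun q hq =>
    (hP.differentiableOn (by norm_num)).differentiableAt (hopen.mem_nhds hq)
  have hdξ : ∀ q ∈ R, DifferentiableAt ℝ ξ q := fun q hq =>
    (hξ.differentiableOn (by norm_num)).differentiableAt (hopen.mem_nhds hq)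
  have hre : ∀ q ∈ R, (px P q).re = 1 ∧ (py P q).re = 0 := by
    intro q hq
    have h1 : HasFDerivAt (fun p : ℝ × ℝ => (P p).re) (Complex.reCLM.comp (fderiv ℝ P q)) q :=
      Complex.reCLM.hasFDerivAt.comp q (hdP q hq).hasFDerivAt
    have h2 : HasFDerivAt (fun p : ℝ × ℝ => (P p).re) (ContinuousLinearMap.fst ℝ ℝ ℝ) q := by
      have h3 : HasFDerivAt (fun p : ℝ × ℝ => p.1) (ContinuousLinearMap.fst ℝ ℝ ℝ) q :=
        hasFDerivAt_fst
      refine h3.congr_of_eventuallyEq ?_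
      filter_upwards [hopen.mem_nhds hq] with p hp
      exact (H p hp).1
    have huniq := h1.unique h2
    constructor
    · have := congrArg (fun L : ℝ × ℝ →L[ℝ] ℝ => L (1, 0)) huniq
      simpa [px] using this
    · have := congrArg (fun L : ℝ × ℝ →L[ℝ] ℝ => L (0, 1)) huniq
      simpa [py] using this
  have hpyP : ∀ q ∈ R, py P q = 0 := by
    intro q hq
    obtain ⟨h1, h2⟩ := hre q hq
    have h3 := (H q hq).2.1
    rw [Jac, Complex.mul_im, Complex.conj_re, Complex.conj_im, h1, h2] at h3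
    apply Complex.ext
    · simpa using h2
    · simpa using h3
  have hpyQ : ∀ q ∈ R, py Q q = 0 := by
    intro q hq
    rw [(H q hq).2.2.2.1, hpyP q hq, mul_zero]
  have hpyX : ∀ q ∈ R, py X q = 0 := by
    intro q hq
    rw [(H q hq).2.2.2.2.2, hpyP q hq, mul_zero]
  have hne : ∀ q ∈ R, px P q ≠ 0 := by
    intro q hq h0
    have := (hre q hq).1
    rw [h0] at this
    simp at this
  obtain ⟨m, hm1, hm2⟩ := exists_between hy12
  obtain ⟨m', hm1', hm2'⟩ := exists_between hm2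
  have hm : m ∈ Ioo y1 y2 := ⟨hm1, hm2⟩
  have hm' : m' ∈ Ioo y1 y2 := ⟨hm1.trans hm1', hm2'⟩
  have hmm : m' - m ≠ 0 := (sub_pos.2 hm1').ne'
  -- `b` and `ξ + y b` depend on `s` only
  have hb : ∀ s ∈ Ioo s1 s2, ∀ y ∈ Ioo y1 y2, ∀ y' ∈ Ioo y1 y2, b (s, y) = b (s, y') := by
    intro s hs y hy y' hy'
    have e1 := (H (s, y) ⟨hs, hy⟩).2.2.1
    have e2 := (H (s, y') ⟨hs, hy'⟩).2.2.1
    have e3 := (aff_const hP hpyP hs hy hy').2
    have e4 := (aff_const hQ hpyQ hs hy hy').2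
    have e5 := hne (s, y') ⟨hs, hy'⟩
    rw [e4, e3, e2] at e1
    exact (mul_right_cancel₀ e5 e1).symm
  have hx : ∀ s ∈ Ioo s1 s2, ∀ y ∈ Ioo y1 y2, ∀ y' ∈ Ioo y1 y2,
      ((ξ (s, y) : ℝ) : ℂ) + (y : ℂ) * b (s, y) = ((ξ (s, y') : ℝ) : ℂ) + (y' : ℂ) * b (s, y') := by
    intro s hs y hy y' hy'
    have e1 := (H (s, y) ⟨hs, hy⟩).2.2.2.2.1
    have e2 := (H (s, y') ⟨hs, hy'⟩).2.2.2.2.1
    have e3 := (aff_const hP hpyP hs hy hy').2
    have e4 := (aff_const hX hpyX hs hy hy').2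
    have e5 := hne (s, y') ⟨hs, hy'⟩
    rw [e4, e3, e2] at e1
    exact (mul_right_cancel₀ e5 e1).symm
  let B : ℝ → ℝ := fun s => (ξ (s, m') - ξ (s, m)) / (m' - m)
  let A : ℝ → ℝ := fun s => ξ (s, m) - B s * m
  have hbB : ∀ s ∈ Ioo s1 s2, b (s, m) = -((B s : ℝ) : ℂ) := by
    intro s hs
    have e1 := hx s hs m hm m' hm'
    rw [hb s hs m' hm' m hm] at e1
    have hc : ((m' - m : ℝ) : ℂ) ≠ 0 := by exact_mod_cast hmm
    have e2 : ((m' - m : ℝ) : ℂ) * b (s, m) = -((ξ (s, m') - ξ (s, m) : ℝ) : ℂ) := by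
      push_cast
      linear_combination -e1
    have e3 : ((B s : ℝ) : ℂ) * ((m' - m : ℝ) : ℂ) = ((ξ (s, m') - ξ (s, m) : ℝ) : ℂ) := by
      rw [← Complex.ofReal_mul]
      congr 1
      exact div_mul_cancel₀ _ hmm
    apply mul_left_cancel₀ hc
    rw [e2, ← e3]
    ring
  have hform : ∀ s ∈ Ioo s1 s2, ∀ y ∈ Ioo y1 y2, ξ (s, y) = A s + B s * y := by
    intro s hs y hy
    have e1 := hx s hs y hy m hm
    rw [hb s hs y hy m hm, hbB s hs] at e1
    have e2 : ((ξ (s, y) : ℝ) : ℂ) = ((A s + B s * y : ℝ) : ℂ) := by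
      change _ = ((ξ (s, m) - B s * m + B s * y : ℝ) : ℂ)
      push_cast
      linear_combination e1
    exact_mod_cast e2
  have hline : ∀ y ∈ Ioo y1 y2, ContDiffOn ℝ 1 (fun s : ℝ => ξ (s, y)) (Ioo s1 s2) := by
    intro y hy
    have h1 : ContDiffOn ℝ 1 (fun s : ℝ => ((s, y) : ℝ × ℝ)) (Ioo s1 s2) :=
      (contDiff_id.prodMk contDiff_const).contDiffOn
    exact hξ.comp h1 (fun s hs => ⟨hs, hy⟩)
  have hB : ContDiffOn ℝ 1 B (Ioo s1 s2) := ((hline m' hm').sub (hline m hm)).div_const _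
  have hA : ContDiffOn ℝ 1 A (Ioo s1 s2) := (hline m hm).sub (hB.mul contDiffOn_const)
  refine ⟨A, B, fun s => px P (s, m), hA, hB, ?_⟩
  rintro ⟨s, y⟩ ⟨hs, hy⟩
  change s ∈ Ioo s1 s2 at hs
  change y ∈ Ioo y1 y2 at hy
  refine ⟨hform s hs y hy, ?_, (aff_const hP hpyP hs hy hm).2, ?_⟩
  · rw [hb s hs y hy m hm, hbB s hs]
  · have h1 := aff_hx (hdξ (s, y) ⟨hs, hy⟩)
    have hAd : HasDerivAt A (deriv A s) s :=
      ((hA.differentiableOn (by norm_num)).differentiableAt (isOpen_Ioo.mem_nhds hs)).hasDerivAt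
    have hBd : HasDerivAt B (deriv B s) s :=
      ((hB.differentiableOn (by norm_num)).differentiableAt (isOpen_Ioo.mem_nhds hs)).hasDerivAt
    have h2 : HasDerivAt (fun t : ℝ => A t + B t * y) (deriv A s + deriv B s * y) s :=
      hAd.add (hBd.mul_const y)
    have h3 : HasDerivAt (fun t : ℝ => ξ (t, y)) (deriv A s + deriv B s * y) s := by
      refine h2.congr_of_eventuallyEq ?_
      filter_upwards [isOpen_Ioo.mem_nhds hs] with t ht
      exact hform t ht y hy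
    exact h1.unique h3

end Pool.Agent.HH
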