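import Pool.Agent.Lib.MP_7dc3d9_gt.ThA.Stm

set_option autoImplicit false

/-! Piece `ALG`: a complex symmetric `3 × 3` matrix with a real unit kernel vector and vanishing sum
of principal `2 × 2` minors is `w wᵀ`. -/

namespace Pool.Agent.HH

open Complex Set MeasureTheory Topology

private lemma alg_minors (a b c d e f x y z : ℂ) (hs : x ^ 2 + y ^ 2 + z ^ 2 = 1)
    (h0 : a * x + b * y + c * z = 0) (h1 : b * x + d * y + e * z = 0)
    (h2 : c * x + e * y + f * z = 0)
    (ht : (a * d - b * b) + (a * f - c * c) + (d * f - e * e) = 0) :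
    a * d = b * b ∧ a * f = c * c ∧ d * f = e * e ∧ a * e = b * c ∧ d * c = b * e ∧
      f * b = c * e := by
  have k1 : (d * f - e * e) * y = (c * e - b * f) * x := by linear_combination f * h1 - e * h2
  have k2 : (c * e - b * f) * y = (a * f - c * c) * x := by linear_combination -f * h0 + c * h2
  have k3 : (d * f - e * e) * z = (b * e - c * d) * x := by linear_combination -e * h1 + d * h2
  have k4 : (b * e - c * d) * z = (a * d - b * b) * x := by linear_combination -d * h0 + b * h1
  have k5 : (c * e - b * f) * z = (b * c - a * e) * x := by linear_combination e * h0 - b * h2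
  have k6 : (b * e - c * d) * y = (b * c - a * e) * x := by linear_combination e * h0 - c * h1
  have k7 : (b * c - a * e) * y = (a * f - c * c) * z := by linear_combination c * h0 - a * h2
  have k8 : (b * c - a * e) * z = (a * d - b * b) * y := by linear_combination b * h0 - a * h1
  have c00 : d * f - e * e = 0 := by
    linear_combination -(d * f - e * e) * hs + y * k1 + z * k3 + x * k2 + x * k4 + x ^ 2 * ht
  have c01 : c * e - b * f = 0 := by
    linear_combination -(c * e - b * f) * hs - x * k1 + y * k2 + z * k5 + x * k8 + x * y * ht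
  have c02 : b * e - c * d = 0 := by
    linear_combination -(b * e - c * d) * hs - x * k3 + y * k6 + x * k7 + z * k4 + x * z * ht
  have c11 : a * f - c * c = 0 := by
    linear_combination -(a * f - c * c) * hs - x * k2 - y * k1 - z * k7 + y * k8 + y ^ 2 * ht
  have c22 : a * d - b * b = 0 := by
    linear_combination -(a * d - b * b) * hs - x * k4 - z * k3 - y * k8 + z * k7 + z ^ 2 * ht
  have c12 : b * c - a * e = 0 := by
    linear_combination -(b * c - a * e) * hs - x * k5 - z * k1 + y * k7 + z * k8 + y * z * ht
  refine ⟨?_, ?_, ?_, ?_, ?_, ?_⟩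
  · linear_combination c22
  · linear_combination c11
  · linear_combination c00
  · linear_combination -c12
  · linear_combination -c02
  · linear_combination -c01

theorem p_ALG : S_ALG := by
  intro M u hsym hs hk ht
  have s1 : M 1 0 = M 0 1 := hsym 1 0
  have s2 : M 2 0 = M 0 2 := hsym 2 0
  have s3 : M 2 1 = M 1 2 := hsym 2 1
  have hs' : (u 0 : ℂ) ^ 2 + (u 1 : ℂ) ^ 2 + (u 2 : ℂ) ^ 2 = 1 := by
    have : ((∑ i, (u i) ^ 2 : ℝ) : ℂ) = 1 := by rw [hs]; simp
    rw [Fin.sum_univ_three] at this
    push_cast at this
    exact this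
  have e0 := hk 0
  have e1 := hk 1
  have e2 := hk 2
  rw [Fin.sum_univ_three] at e0 e1 e2
  rw [s1] at e1
  rw [s2, s3] at e2
  rw [s1, s2, s3] at ht
  obtain ⟨m1, m2, m3, m4, m5, m6⟩ := alg_minors (M 0 0) (M 0 1) (M 0 2) (M 1 1) (M 1 2) (M 2 2)
    (u 0) (u 1) (u 2) hs' e0 e1 e2 ht
  have key : ∀ i j k, M i i * M j k = M i j * M i k := by
    intro i j k
    fin_cases i <;> fin_cases j <;> fin_cases k <;> simp only [Fin.zero_eta, Fin.mk_one,
      Fin.reduceFinMk, s1, s2, s3] <;> first
      | linear_combination m1
      | linear_combination m2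
      | linear_combination m3
      | linear_combination m4
      | linear_combination m5
      | linear_combination m6
      | ring
  by_cases hd : ∃ i, M i i ≠ 0
  · obtain ⟨i, hi⟩ := hd
    obtain ⟨z, hz⟩ := IsAlgClosed.exists_pow_nat_eq (M i i) (n := 2) (by norm_num)
    have hz0 : z ≠ 0 := by
      intro h
      rw [h] at hz
      apply hi
      rw [← hz]
      simp
    refine ⟨fun j => M i j / z, fun j k => ?_⟩
    have := key i j k
    field_simp
    rw [hz]
    linear_combination this
  · push Not at hd
    refine ⟨fun _ => 0, fun j k => ?_⟩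
    have := key j k k
    rw [hd j, zero_mul] at this
    have h2 := mul_self_eq_zero.1 this.symm
    rw [h2]
    simp

end Pool.Agent.HH
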