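import Pool.Agent.Lib.MP_7dc3d9_gt.ThA.Stm

set_option autoImplicit false

namespace Pool.Agent.HH

open Complex Set MeasureTheory Topology

theorem p_BAS : S_BAS := by
  intro H hH
  have hO : IsOpen {x : E3 | x ≠ 0} := isOpen_ne
  have hat : ∀ x : E3, x ≠ 0 → ContDiffAt ℝ 2 H x :=
    fun x hx => hH.smooth.contDiffAt (hO.mem_nhds hx)
  have hd : ∀ x : E3, x ≠ 0 → DifferentiableAt ℝ H x :=
    fun x hx => (hat x hx).differentiableAt (by norm_num)
  have hC1 : ContDiffOn ℝ 1 (fderiv ℝ H) {x : E3 | x ≠ 0} :=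
    hH.smooth.fderiv_of_isOpen hO (by norm_num)
  have hd2 : ∀ x : E3, x ≠ 0 → DifferentiableAt ℝ (fderiv ℝ H) x :=
    fun x hx => (hC1.contDiffAt (hO.mem_nhds hx)).differentiableAt (by norm_num)
  have hC0 : ContinuousOn (fderiv ℝ (fderiv ℝ H)) {x : E3 | x ≠ 0} :=
    hC1.continuousOn_fderiv_of_isOpen hO (by norm_num)
  have h1 : ∀ x : E3, x ≠ 0 → ∀ c : ℝ, 0 < c → fderiv ℝ H (c • x) = fderiv ℝ H x := by
    intro x hx c hc
    have hcx : c • x ≠ 0 := smul_ne_zero hc.ne' hx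
    have e1 : HasFDerivAt (fun y : E3 => H (c • y))
        ((fderiv ℝ H (c • x)).comp (c • ContinuousLinearMap.id ℝ E3)) x :=
      (hd _ hcx).hasFDerivAt.comp x ((hasFDerivAt_id x).const_smul c)
    have e2 : HasFDerivAt (fun y : E3 => (c : ℂ) * H y) ((c : ℂ) • fderiv ℝ H x) x :=
      (hd x hx).hasFDerivAt.const_mul (c : ℂ)
    have e3 : (fun y : E3 => H (c • y)) = fun y => (c : ℂ) * H y :=
      funext fun y => hH.hom y c hc
    rw [e3] at e1
    have e4 := e1.unique e2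
    have hc' : (c : ℂ) ≠ 0 := by exact_mod_cast hc.ne'
    ext v
    have e5 := DFunLike.congr_fun e4 v
    simp only [ContinuousLinearMap.comp_apply, ContinuousLinearMap.smul_apply,
      ContinuousLinearMap.id_apply, map_smul, Complex.real_smul, smul_eq_mul] at e5
    exact mul_left_cancel₀ hc' e5
  have h2 : ∀ x : E3, x ≠ 0 → fderiv ℝ H x x = H x := by
    intro x hx
    have e0 : HasDerivAt (fun c : ℝ => c • x) x 1 := by
      simpa using (hasDerivAt_id (1 : ℝ)).smul_const x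
    have e1 : HasDerivAt (fun c : ℝ => H (c • x)) (fderiv ℝ H x x) 1 := by
      have e : HasFDerivAt H (fderiv ℝ H x) ((1 : ℝ) • x) := by
        rw [one_smul]
        exact (hd x hx).hasFDerivAt
      exact e.comp_hasDerivAt (1 : ℝ) e0
    have e2 : HasDerivAt (fun c : ℝ => (c : ℂ) * H x) (H x) 1 := by
      simpa using (Complex.ofRealCLM.hasDerivAt (x := (1 : ℝ))).mul_const (H x)
    have e3 : (fun c : ℝ => H (c • x)) =ᶠ[𝓝 (1 : ℝ)] fun c : ℝ => (c : ℂ) * H x := by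
      filter_upwards [lt_mem_nhds (zero_lt_one : (0 : ℝ) < 1)] with c hc using hH.hom x c hc
    exact (e1.congr_of_eventuallyEq e3.symm).unique e2
  have h3' : ∀ x : E3, x ≠ 0 → ∀ c : ℝ, 0 < c →
      fderiv ℝ (fderiv ℝ H) (c • x) = c⁻¹ • fderiv ℝ (fderiv ℝ H) x := by
    intro x hx c hc
    have hcx : c • x ≠ 0 := smul_ne_zero hc.ne' hx
    have e1 : HasFDerivAt (fun y : E3 => fderiv ℝ H (c • y))
        ((fderiv ℝ (fderiv ℝ H) (c • x)).comp (c • ContinuousLinearMap.id ℝ E3)) x :=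
      (hd2 _ hcx).hasFDerivAt.comp x ((hasFDerivAt_id x).const_smul c)
    have e3 : (fun y : E3 => fderiv ℝ H (c • y)) =ᶠ[𝓝 x] fun y => fderiv ℝ H y := by
      filter_upwards [hO.mem_nhds hx] with y hy using h1 y hy c hc
    have e4 := (e1.congr_of_eventuallyEq e3.symm).unique (hd2 x hx).hasFDerivAt
    rw [← e4]
    ext v w
    simp only [ContinuousLinearMap.comp_apply, ContinuousLinearMap.smul_apply,
      ContinuousLinearMap.id_apply, map_smul, smul_smul]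
    rw [inv_mul_cancel₀ hc.ne', one_smul]
  have h4' : ∀ x : E3, x ≠ 0 → fderiv ℝ (fderiv ℝ H) x x = 0 := by
    intro x hx
    have e0 : HasDerivAt (fun c : ℝ => c • x) x 1 := by
      simpa using (hasDerivAt_id (1 : ℝ)).smul_const x
    have e1 : HasDerivAt (fun c : ℝ => fderiv ℝ H (c • x)) (fderiv ℝ (fderiv ℝ H) x x) 1 := by
      have e : HasFDerivAt (fderiv ℝ H) (fderiv ℝ (fderiv ℝ H) x) ((1 : ℝ) • x) := by
        rw [one_smul]
        exact (hd2 x hx).hasFDerivAt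
      exact e.comp_hasDerivAt (1 : ℝ) e0
    have e3 : (fun c : ℝ => fderiv ℝ H (c • x)) =ᶠ[𝓝 (1 : ℝ)] fun _ : ℝ => fderiv ℝ H x := by
      filter_upwards [lt_mem_nhds (zero_lt_one : (0 : ℝ) < 1)] with c hc using h1 x hx c hc
    exact (e1.congr_of_eventuallyEq e3.symm).unique (hasDerivAt_const (1 : ℝ) (fderiv ℝ H x))
  have h5 : ∀ x : E3, x ≠ 0 → ∀ a b, D2 H x a b = D2 H x b a := by
    intro x hx a b
    exact (hat x hx).isSymmSndFDerivAt (by simp) a b
  have hS : IsCompact (Metric.sphere (0 : E3) 1) := isCompact_sphere _ _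
  have hSO : Metric.sphere (0 : E3) 1 ⊆ {x : E3 | x ≠ 0} := by
    intro x hx h0
    rw [mem_sphere_zero_iff_norm, h0, norm_zero] at hx
    exact zero_ne_one hx
  have hun : ∀ x : E3, x ≠ 0 → ‖x‖⁻¹ • x ∈ Metric.sphere (0 : E3) 1 := by
    intro x hx
    rw [mem_sphere_zero_iff_norm, norm_smul, norm_inv, norm_norm,
      inv_mul_cancel₀ (norm_ne_zero_iff.2 hx)]
  refine ⟨h1, h2, ?_, ?_, h5, hC1, hC0, ?_, ?_⟩
  · intro x hx c hc a b
    unfold D2
    rw [h3' x hx c hc]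
    simp only [ContinuousLinearMap.smul_apply, Complex.real_smul]
  · intro x hx a
    have e : D2 H x x a = 0 := by
      unfold D2
      rw [h4' x hx]
      rfl
    exact ⟨e, (h5 x hx a x).trans e⟩
  · obtain ⟨C, hC⟩ := hS.exists_bound_of_continuousOn (f := fderiv ℝ (fderiv ℝ H))
      (hC0.mono hSO)
    refine ⟨C, fun x hx => ?_⟩
    have hx0 : 0 < ‖x‖ := norm_pos_iff.2 hx
    have hC0' : 0 ≤ C := (norm_nonneg _).trans (hC _ (hun x hx))
    have hu : ‖x‖⁻¹ • x ≠ 0 := smul_ne_zero (inv_ne_zero hx0.ne') hx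
    have e0 : ‖x‖ • (‖x‖⁻¹ • x) = x := by
      rw [smul_smul, mul_inv_cancel₀ hx0.ne', one_smul]
    have e1 := h3' (‖x‖⁻¹ • x) hu ‖x‖ hx0
    rw [e0] at e1
    refine ContinuousLinearMap.opNorm_le_bound _ (div_nonneg hC0' hx0.le) fun v => ?_
    have e2 : fderiv ℝ (fderiv ℝ H) x v
        = ‖x‖⁻¹ • (fderiv ℝ (fderiv ℝ H) (‖x‖⁻¹ • x) v) := by
      rw [e1]
      rfl
    rw [e2, norm_smul, norm_inv, norm_norm]
    have e3 := (fderiv ℝ (fderiv ℝ H) (‖x‖⁻¹ • x)).le_of_opNorm_le (hC _ (hun x hx)) v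
    calc ‖x‖⁻¹ * ‖fderiv ℝ (fderiv ℝ H) (‖x‖⁻¹ • x) v‖ ≤ ‖x‖⁻¹ * (C * ‖v‖) :=
          mul_le_mul_of_nonneg_left e3 (inv_nonneg.2 hx0.le)
      _ = C / ‖x‖ * ‖v‖ := by
          rw [div_eq_mul_inv]
          ring
  · obtain ⟨M, hM⟩ := hS.exists_bound_of_continuousOn (f := fderiv ℝ H)
      (hC1.continuousOn.mono hSO)
    refine ⟨M, fun x hx => ?_⟩
    have hx0 : 0 < ‖x‖ := norm_pos_iff.2 hx
    have e1 := h1 x hx ‖x‖⁻¹ (inv_pos.2 hx0)
    have e2 := hM _ (hun x hx)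
    rwa [e1] at e2

end Pool.Agent.HH
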