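import Pool.Agent.Lib.MP_7dc3d9_gt.ThA.Stm

set_option autoImplicit false

/-! CH1: the coordinates `s = Re F_x`, `y` (inverse function theorem). -/

namespace Pool.Agent.HH

open Complex Set MeasureTheory Topology

private theorem ch1_rect (a b δ : ℝ) : Rect a b δ = Metric.ball ((a, b) : ℝ × ℝ) δ := by
  rw [← ball_prod_same, Real.ball_eq_Ioo, Real.ball_eq_Ioo]
  rfl

private theorem ch1_nhds {a b : ℝ} {s : Set (ℝ × ℝ)} (hs : s ∈ 𝓝 ((a, b) : ℝ × ℝ)) :
    ∃ δ : ℝ, 0 < δ ∧ Rect a b δ ⊆ s := by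
  obtain ⟨δ, hδ, h⟩ := Metric.mem_nhds_iff.1 hs
  exact ⟨δ, hδ, by rw [ch1_rect]; exact h⟩

private theorem ch1_px {F : ℝ × ℝ → ℂ} (hF : ContDiff ℝ 2 F) : ContDiff ℝ 1 (px F) := by
  have h : ContDiff ℝ 1 (fderiv ℝ F) := hF.fderiv_right (by norm_num)
  exact h.clm_apply contDiff_const

private theorem ch1_pxx {F : ℝ × ℝ → ℂ} (hF : ContDiff ℝ 1 F) : Continuous (px F) := by
  have h : Continuous (fderiv ℝ F) := hF.continuous_fderiv (by norm_num)
  exact h.clm_apply continuous_const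

theorem p_CH1 : S_CH1 := by
  intro F x1 y1 hF hpos
  have hP : ContDiff ℝ 1 (px F) := ch1_px hF
  have hPP : Continuous (px (px F)) := ch1_pxx hP
  let Ψ : ℝ × ℝ → ℝ × ℝ := fun p => ((px F p).re, p.2)
  have hre : ContDiff ℝ 1 (fun p => (px F p).re) := Complex.reCLM.contDiff.comp hP
  have hΨ : ContDiff ℝ 1 Ψ := hre.prodMk contDiff_snd
  let p0 : ℝ × ℝ := (x1, y1)
  let L : ℝ × ℝ →L[ℝ] ℝ := Complex.reCLM.comp (fderiv ℝ (px F) p0)
  have hL : HasFDerivAt (fun p => (px F p).re) L p0 :=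
    Complex.reCLM.hasFDerivAt.comp p0 ((hP.differentiable (by norm_num)) p0).hasFDerivAt
  have hL1 : L (1, 0) = (px (px F) (x1, y1)).re := rfl
  have hA : 0 < L (1, 0) := by rw [hL1]; exact hpos
  have hLab : ∀ a b : ℝ, L (a, b) = a * L (1, 0) + b * L (0, 1) := by
    intro a b
    have : ((a, b) : ℝ × ℝ) = a • ((1, 0) : ℝ × ℝ) + b • ((0, 1) : ℝ × ℝ) := by
      ext <;> simp
    rw [this, map_add, map_smul, map_smul, smul_eq_mul, smul_eq_mul]
  -- the derivative as an equivalence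
  let T : ℝ × ℝ →L[ℝ] ℝ × ℝ := L.prod (ContinuousLinearMap.snd ℝ ℝ ℝ)
  let S : ℝ × ℝ →L[ℝ] ℝ × ℝ :=
    ((L (1, 0))⁻¹ • (ContinuousLinearMap.fst ℝ ℝ ℝ - (L (0, 1)) • ContinuousLinearMap.snd ℝ ℝ ℝ)).prod
      (ContinuousLinearMap.snd ℝ ℝ ℝ)
  have hST : Function.LeftInverse S T := by
    rintro ⟨a, b⟩
    have : L (a, b) = a * L (1, 0) + b * L (0, 1) := hLab a b
    ext
    · simp only [S, T, ContinuousLinearMap.prod_apply, smul_apply,
        sub_apply, ContinuousLinearMap.coe_fst', ContinuousLinearMap.coe_snd',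
        smul_eq_mul, this]
      field_simp
      ring
    · simp [S, T]
  have hTS : Function.RightInverse S T := by
    rintro ⟨a, b⟩
    ext
    · simp only [S, T, ContinuousLinearMap.prod_apply, smul_apply,
        sub_apply, ContinuousLinearMap.coe_fst', ContinuousLinearMap.coe_snd',
        smul_eq_mul]
      rw [hLab]
      field_simp
      ring
    · simp [S, T]
  let E : (ℝ × ℝ) ≃L[ℝ] (ℝ × ℝ) := ContinuousLinearEquiv.equivOfInverse T S hST hTS
  have hE : HasFDerivAt Ψ (E : ℝ × ℝ →L[ℝ] ℝ × ℝ) p0 := by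
    have h2 : HasFDerivAt (fun p : ℝ × ℝ => p.2) (ContinuousLinearMap.snd ℝ ℝ ℝ) p0 :=
      hasFDerivAt_snd
    exact hL.prodMk h2
  have hc : ContDiffAt ℝ 1 Ψ p0 := hΨ.contDiffAt
  let e := hc.toOpenPartialHomeomorph Ψ hE (by norm_num)
  have hecoe : (e : ℝ × ℝ → ℝ × ℝ) = Ψ := hc.toOpenPartialHomeomorph_coe hE (by norm_num)
  have hp0 : p0 ∈ e.source := hc.mem_toOpenPartialHomeomorph_source hE (by norm_num)
  have hq0 : Ψ p0 ∈ e.target := by
    have := e.map_source hp0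
    rwa [hecoe] at this
  have hinv : ContDiffAt ℝ 1 e.symm (Ψ p0) := hc.to_localInverse hE (by norm_num)
  have hsym0 : e.symm (Ψ p0) = p0 := by
    have := e.left_inv hp0
    rwa [hecoe] at this
  have hev : ∀ᶠ q in 𝓝 (Ψ p0), ContDiffAt ℝ 1 e.symm q := hinv.eventually (by norm_num)
  have htar : ∀ᶠ q in 𝓝 (Ψ p0), q ∈ e.target := e.open_target.mem_nhds hq0
  have hposev : ∀ᶠ q in 𝓝 (Ψ p0), 0 < (px (px F) (e.symm q)).re := by
    have h1 : ContinuousAt (fun q => (px (px F) (e.symm q)).re) (Ψ p0) := by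
      apply Complex.continuous_re.continuousAt.comp
      exact ContinuousAt.comp (g := px (px F)) (f := e.symm) hPP.continuousAt hinv.continuousAt
    have h2 : 0 < (px (px F) (e.symm (Ψ p0))).re := by rw [hsym0]; exact hpos
    exact h1.eventually (lt_mem_nhds h2)
  obtain ⟨δ, hδ, hsub⟩ := ch1_nhds (a := (px F (x1, y1)).re) (b := y1)
    (hev.and (htar.and hposev))
  have hkey : ∀ q ∈ Rect (px F (x1, y1)).re y1 δ, ((e.symm q).1, q.2) = e.symm q ∧
      (px F (e.symm q)).re = q.1 := by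
    intro q hq
    have h1 := (hsub hq).2.1
    have h2 : Ψ (e.symm q) = q := by
      have := e.right_inv h1
      rwa [hecoe] at this
    have h3 : (Ψ (e.symm q)).2 = q.2 := by rw [h2]
    have h4 : (Ψ (e.symm q)).1 = q.1 := by rw [h2]
    change (e.symm q).2 = q.2 at h3
    change (px F (e.symm q)).re = q.1 at h4
    exact ⟨by rw [← h3], h4⟩
  refine ⟨δ, hδ, fun q => (e.symm q).1, ?_, ?_, ?_, ?_⟩
  · intro q hq
    exact (contDiffAt_fst.comp q (hsub hq).1).contDiffWithinAt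
  · change (e.symm (Ψ p0)).1 = x1
    rw [hsym0]
  · intro q hq
    obtain ⟨h1, h2⟩ := hkey q hq
    refine ⟨?_, ?_⟩
    · change (px F ((e.symm q).1, q.2)).re = q.1
      rw [h1]; exact h2
    · change 0 < (px (px F) ((e.symm q).1, q.2)).re
      rw [h1]; exact (hsub hq).2.2
  · have h1 : ∀ᶠ p in 𝓝 p0, Ψ p ∈ Rect (px F (x1, y1)).re y1 δ := by
      apply hΨ.continuous.continuousAt.eventually
      rw [ch1_rect]
      exact Metric.ball_mem_nhds _ hδ
    have h2 : ∀ᶠ p in 𝓝 p0, p ∈ e.source := e.open_source.mem_nhds hp0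
    obtain ⟨ε, hε, hsub2⟩ := ch1_nhds (a := x1) (b := y1) (h1.and h2)
    refine ⟨ε, hε, fun p hp => ⟨(hsub2 hp).1, ?_⟩⟩
    have h3 : e.symm (Ψ p) = p := by
      have := e.left_inv (hsub2 hp).2
      rwa [hecoe] at this
    change (e.symm (Ψ p)).1 = p.1
    rw [h3]

end Pool.Agent.HH
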