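import Pool.Agent.Lib.MP_7dc3d9_gt.ThA.Stm

set_option autoImplicit false

/-! CH2: the structure equations in the coordinates `(s, y)`. -/

namespace Pool.Agent.HH

open Complex Set MeasureTheory Topology

private theorem ch2_px {F : ℝ × ℝ → ℂ} (hF : ContDiff ℝ 2 F) : ContDiff ℝ 1 (px F) := by
  have h : ContDiff ℝ 1 (fderiv ℝ F) := hF.fderiv_right (by norm_num)
  exact h.clm_apply contDiff_const

private theorem ch2_py {F : ℝ × ℝ → ℂ} (hF : ContDiff ℝ 2 F) : ContDiff ℝ 1 (py F) := by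
  have h : ContDiff ℝ 1 (fderiv ℝ F) := hF.fderiv_right (by norm_num)
  exact h.clm_apply contDiff_const

private theorem ch2_cpx {F : ℝ × ℝ → ℂ} (hF : ContDiff ℝ 1 F) : Continuous (px F) := by
  have h : Continuous (fderiv ℝ F) := hF.continuous_fderiv (by norm_num)
  exact h.clm_apply continuous_const

private theorem ch2_cpy {F : ℝ × ℝ → ℂ} (hF : ContDiff ℝ 1 F) : Continuous (py F) := by
  have h : Continuous (fderiv ℝ F) := hF.continuous_fderiv (by norm_num)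
  exact h.clm_apply continuous_const

/-- symmetry of second derivatives -/
private theorem ch2_symm {F : ℝ × ℝ → ℂ} (hF : ContDiff ℝ 2 F) (p : ℝ × ℝ) :
    px (py F) p = py (px F) p := by
  have h1 : Differentiable ℝ (fderiv ℝ F) :=
    (hF.fderiv_right (m := 1) (by norm_num)).differentiable (by norm_num)
  have h2 : IsSymmSndFDerivAt ℝ F p := by
    refine (hF.contDiffAt).isSymmSndFDerivAt ?_
    simp
  have e1 : px (py F) p = fderiv ℝ (fderiv ℝ F) p (1, 0) (0, 1) := by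
    change fderiv ℝ (fun q => fderiv ℝ F q (0, 1)) p (1, 0) = _
    rw [fderiv_clm_apply (h1 p) (differentiableAt_const _)]
    simp
  have e2 : py (px F) p = fderiv ℝ (fderiv ℝ F) p (0, 1) (1, 0) := by
    change fderiv ℝ (fun q => fderiv ℝ F q (1, 0)) p (0, 1) = _
    rw [fderiv_clm_apply (h1 p) (differentiableAt_const _)]
    simp
  rw [e1, e2]
  exact h2 _ _

/-- chain rule along `q ↦ (ξ q, q.2)` -/
private theorem ch2_fd {g : ℝ × ℝ → ℂ} {ξ : ℝ × ℝ → ℝ} {q : ℝ × ℝ}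
    (hg : DifferentiableAt ℝ g (ξ q, q.2)) (hξ : DifferentiableAt ℝ ξ q) :
    HasFDerivAt (fun p : ℝ × ℝ => g (ξ p, p.2))
      ((fderiv ℝ g (ξ q, q.2)).comp ((fderiv ℝ ξ q).prod (ContinuousLinearMap.snd ℝ ℝ ℝ))) q := by
  have h1 : HasFDerivAt (fun p : ℝ × ℝ => (ξ p, p.2))
      ((fderiv ℝ ξ q).prod (ContinuousLinearMap.snd ℝ ℝ ℝ)) q :=
    hξ.hasFDerivAt.prodMk hasFDerivAt_snd
  exact HasFDerivAt.comp q (g := g) (f := fun p : ℝ × ℝ => (ξ p, p.2)) hg.hasFDerivAt h1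

private theorem ch2_ev (g : ℝ × ℝ → ℂ) (p : ℝ × ℝ) (a b : ℝ) :
    fderiv ℝ g p (a, b) = (a : ℂ) * px g p + (b : ℂ) * py g p := by
  have h : ((a, b) : ℝ × ℝ) = a • ((1, 0) : ℝ × ℝ) + b • ((0, 1) : ℝ × ℝ) := by
    ext <;> simp
  rw [h, map_add, map_smul, map_smul, real_smul, real_smul]
  rfl

private theorem ch2_ev1 {g : ℝ × ℝ → ℂ} {ξ : ℝ × ℝ → ℝ} {q : ℝ × ℝ} :
    ((fderiv ℝ g (ξ q, q.2)).comp ((fderiv ℝ ξ q).prod (ContinuousLinearMap.snd ℝ ℝ ℝ))) (1, 0) =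
      ((fderiv ℝ ξ q (1, 0) : ℝ) : ℂ) * px g (ξ q, q.2) := by
  have h : ((fderiv ℝ ξ q).prod (ContinuousLinearMap.snd ℝ ℝ ℝ)) (1, 0) =
      (fderiv ℝ ξ q (1, 0), (0 : ℝ)) := rfl
  rw [ContinuousLinearMap.comp_apply, h, ch2_ev]
  simp

private theorem ch2_ev2 {g : ℝ × ℝ → ℂ} {ξ : ℝ × ℝ → ℝ} {q : ℝ × ℝ} :
    ((fderiv ℝ g (ξ q, q.2)).comp ((fderiv ℝ ξ q).prod (ContinuousLinearMap.snd ℝ ℝ ℝ))) (0, 1) =
      ((fderiv ℝ ξ q (0, 1) : ℝ) : ℂ) * px g (ξ q, q.2) + py g (ξ q, q.2) := by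
  have h : ((fderiv ℝ ξ q).prod (ContinuousLinearMap.snd ℝ ℝ ℝ)) (0, 1) =
      (fderiv ℝ ξ q (0, 1), (1 : ℝ)) := rfl
  rw [ContinuousLinearMap.comp_apply, h, ch2_ev]
  simp

theorem p_CH2 : S_CH2 := by
  intro F R ξ hF hMA hR hξ hre
  have hP : ContDiff ℝ 1 (px F) := ch2_px hF
  have hQ : ContDiff ℝ 1 (py F) := ch2_py hF
  have hF1 : ContDiff ℝ 1 F := hF.of_le (by norm_num)
  have hw : ContDiffOn ℝ 1 (fun q : ℝ × ℝ => (ξ q, q.2)) R := hξ.prodMk contDiff_snd.contDiffOn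
  have hcP : ContDiffOn ℝ 1 (chP F ξ) R := hP.comp_contDiffOn hw
  have hcQ : ContDiffOn ℝ 1 (chQ F ξ) R := hQ.comp_contDiffOn hw
  have hcF : ContDiffOn ℝ 1 (fun q : ℝ × ℝ => F (ξ q, q.2)) R := hF1.comp_contDiffOn hw
  have hcξ : ContDiffOn ℝ 1 (fun q : ℝ × ℝ => ((ξ q : ℝ) : ℂ)) R :=
    Complex.ofRealCLM.contDiff.comp_contDiffOn hξ
  have hc2 : ContDiffOn ℝ 1 (fun q : ℝ × ℝ => ((q.2 : ℝ) : ℂ)) R :=
    (Complex.ofRealCLM.contDiff.comp contDiff_snd).contDiffOn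
  have hne : ∀ q ∈ R, px (px F) (ξ q, q.2) ≠ 0 := by
    intro q hq h0
    have := (hre q hq).2
    rw [h0] at this
    simp at this
  refine ⟨hcP, hcQ, ((hcξ.mul hcP).add (hc2.mul hcQ)).sub hcF, ?_, ?_⟩
  · exact ((ch2_cpy hP).comp_continuousOn hw.continuousOn).div
      ((ch2_cpx hP).comp_continuousOn hw.continuousOn) hne
  intro q hq
  have hξd : DifferentiableAt ℝ ξ q :=
    (hξ.differentiableOn (by norm_num)).differentiableAt (hR.mem_nhds hq)
  have hPd : Differentiable ℝ (px F) := hP.differentiable (by norm_num)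
  have hQd : Differentiable ℝ (py F) := hQ.differentiable (by norm_num)
  have hFd : Differentiable ℝ F := hF1.differentiable (by norm_num)
  have dP := ch2_fd (hPd (ξ q, q.2)) hξd
  have dQ := ch2_fd (hQd (ξ q, q.2)) hξd
  have dF := ch2_fd (hFd (ξ q, q.2)) hξd
  set a : ℝ := fderiv ℝ ξ q (1, 0) with ha
  set c : ℝ := fderiv ℝ ξ q (0, 1) with hc
  set A : ℂ := px (px F) (ξ q, q.2) with hA
  set B : ℂ := py (px F) (ξ q, q.2) with hB
  set C : ℂ := py (py F) (ξ q, q.2) with hC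
  have hMAq : A * C = B ^ 2 := hMA _
  have hsym : px (py F) (ξ q, q.2) = B := ch2_symm hF _
  have hA0 : A ≠ 0 := hne q hq
  have hAre : 0 < A.re := (hre q hq).2
  -- derivatives
  have P1 : px (chP F ξ) q = (a : ℂ) * A := by
    have h : fderiv ℝ (chP F ξ) q = _ := dP.fderiv
    rw [px, h, ch2_ev1]
  have P2 : py (chP F ξ) q = (c : ℂ) * A + B := by
    have h : fderiv ℝ (chP F ξ) q = _ := dP.fderiv
    rw [py, h, ch2_ev2]
  have Q1 : px (chQ F ξ) q = (a : ℂ) * B := by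
    have h : fderiv ℝ (chQ F ξ) q = _ := dQ.fderiv
    rw [px, h, ch2_ev1, hsym]
  have Q2 : py (chQ F ξ) q = (c : ℂ) * B + C := by
    have h : fderiv ℝ (chQ F ξ) q = _ := dQ.fderiv
    rw [py, h, ch2_ev2, hsym]
  -- the real part
  have hred : HasFDerivAt (fun p : ℝ × ℝ => (chP F ξ p).re)
      (Complex.reCLM.comp (fderiv ℝ (chP F ξ) q)) q := by
    have h1 : HasFDerivAt (chP F ξ) (fderiv ℝ (chP F ξ) q) q := by
      have h : fderiv ℝ (chP F ξ) q = _ := dP.fderiv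
      rw [h]; exact dP
    exact Complex.reCLM.hasFDerivAt.comp q h1
  have hred2 : HasFDerivAt (fun p : ℝ × ℝ => (chP F ξ p).re)
      (ContinuousLinearMap.fst ℝ ℝ ℝ) q := by
    have h1 : HasFDerivAt (fun p : ℝ × ℝ => p.1) (ContinuousLinearMap.fst ℝ ℝ ℝ) q :=
      hasFDerivAt_fst
    refine h1.congr_of_eventuallyEq ?_
    filter_upwards [hR.mem_nhds hq] with p hp
    exact (hre p hp).1
  have huniq := hred.unique hred2
  have hre1 : (px (chP F ξ) q).re = 1 := by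
    have := congrArg (fun L : ℝ × ℝ →L[ℝ] ℝ => L (1, 0)) huniq
    simpa [px] using this
  have hre2 : (py (chP F ξ) q).re = 0 := by
    have := congrArg (fun L : ℝ × ℝ →L[ℝ] ℝ => L (0, 1)) huniq
    simpa [py] using this
  have haA : a * A.re = 1 := by
    rw [P1] at hre1
    simpa using hre1
  have hcA : c * A.re + B.re = 0 := by
    rw [P2] at hre2
    simpa using hre2
  have ha' : a = 1 / A.re := by
    field_simp
    exact haA
  have hb : chb F ξ q = B / A := rfl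
  -- X
  have hX : HasFDerivAt (chX F ξ)
      (((ξ q : ℂ) • ((fderiv ℝ (px F) (ξ q, q.2)).comp
          ((fderiv ℝ ξ q).prod (ContinuousLinearMap.snd ℝ ℝ ℝ))) +
        (px F (ξ q, q.2)) • (Complex.ofRealCLM.comp (fderiv ℝ ξ q)) +
        (((q.2 : ℂ)) • ((fderiv ℝ (py F) (ξ q, q.2)).comp
          ((fderiv ℝ ξ q).prod (ContinuousLinearMap.snd ℝ ℝ ℝ))) +
        (py F (ξ q, q.2)) • (Complex.ofRealCLM.comp (ContinuousLinearMap.snd ℝ ℝ ℝ))) -
        ((fderiv ℝ F (ξ q, q.2)).comp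
          ((fderiv ℝ ξ q).prod (ContinuousLinearMap.snd ℝ ℝ ℝ))))) q := by
    have dξ : HasFDerivAt (fun p : ℝ × ℝ => ((ξ p : ℝ) : ℂ))
        (Complex.ofRealCLM.comp (fderiv ℝ ξ q)) q :=
      Complex.ofRealCLM.hasFDerivAt.comp q hξd.hasFDerivAt
    have d2 : HasFDerivAt (fun p : ℝ × ℝ => ((p.2 : ℝ) : ℂ))
        (Complex.ofRealCLM.comp (ContinuousLinearMap.snd ℝ ℝ ℝ)) q :=
      Complex.ofRealCLM.hasFDerivAt.comp q hasFDerivAt_snd
    exact ((dξ.mul dP).add (d2.mul dQ)).sub dF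
  have X1 : px (chX F ξ) q = (ξ q : ℂ) * ((a : ℂ) * A) + (q.2 : ℂ) * ((a : ℂ) * B) := by
    rw [px, hX.fderiv]
    simp only [add_apply, sub_apply, smul_apply, ch2_ev1, hsym]
    simp only [ContinuousLinearMap.comp_apply, Complex.ofRealCLM_apply,
      ContinuousLinearMap.coe_snd', smul_eq_mul, Complex.ofReal_zero, mul_zero, add_zero]
    rw [← ha]
    change (ξ q : ℂ) * ((a : ℂ) * A) + px F (ξ q, q.2) * (a : ℂ) + (q.2 : ℂ) * ((a : ℂ) * B) -
      (a : ℂ) * px F (ξ q, q.2) = _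
    ring
  have X2 : py (chX F ξ) q =
      (ξ q : ℂ) * ((c : ℂ) * A + B) + (q.2 : ℂ) * ((c : ℂ) * B + C) := by
    rw [py, hX.fderiv]
    simp only [add_apply, sub_apply, smul_apply, ch2_ev2, hsym]
    simp only [ContinuousLinearMap.comp_apply, Complex.ofRealCLM_apply,
      ContinuousLinearMap.coe_snd', smul_eq_mul, Complex.ofReal_one, mul_one]
    rw [← hc]
    change (ξ q : ℂ) * ((c : ℂ) * A + B) + px F (ξ q, q.2) * (c : ℂ) +
      ((q.2 : ℂ) * ((c : ℂ) * B + C) + py F (ξ q, q.2)) -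
      ((c : ℂ) * px F (ξ q, q.2) + py F (ξ q, q.2)) = _
    ring
  have hCeq : C = B / A * B := by
    field_simp
    rw [mul_comm]
    exact hMAq
  refine ⟨?_, ?_, ?_, ?_, ?_, ?_, ha', ?_⟩
  · rw [P1, ha']
    push_cast
    ring
  · rw [Jac, P1, P2, ha']
    simp only [map_mul, conj_ofReal]
    simp only [Complex.mul_im, Complex.mul_re, Complex.add_re, Complex.add_im, Complex.conj_re,
      Complex.conj_im, Complex.ofReal_re, Complex.ofReal_im]
    field_simp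
    ring
  · rw [Q1, P1, hb]
    field_simp
  · rw [Q2, P2, hb, hCeq]
    field_simp
  · rw [X1, P1, hb]
    field_simp
  · rw [X2, P2, hb, hCeq]
    field_simp
  · rw [hb, Complex.sq_norm, Complex.div_im]
    have hn : Complex.normSq A ≠ 0 := fun h => hA0 (Complex.normSq_eq_zero.1 h)
    rw [Complex.mul_im, Complex.conj_re, Complex.conj_im]
    field_simp
    ring

end Pool.Agent.HH
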