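import Pool.Agent.Lib.MP_7dc3d9_gt.ThA.Stm

set_option autoImplicit false

namespace Pool.Agent.HH

open Complex Set MeasureTheory Topology

private theorem comp_im_mul (a b e : ℂ) :
    ((starRingEnd ℂ) (a * e) * (b * e)).im = Complex.normSq e * ((starRingEnd ℂ) a * b).im := by
  have h : (starRingEnd ℂ) (a * e) * (b * e) = ((Complex.normSq e : ℝ) : ℂ) *
      ((starRingEnd ℂ) a * b) := by
    rw [map_mul, Complex.normSq_eq_conj_mul_self]
    ring
  rw [h, Complex.im_ofReal_mul]

private theorem comp_im_mul' (a b : ℂ) :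
    ((starRingEnd ℂ) (a * a) * (a * b)).im = Complex.normSq a * ((starRingEnd ℂ) a * b).im := by
  have h := comp_im_mul a b a
  rw [mul_comm b a] at h
  exact h

theorem p_COMP (h1 : S_BAS) (h2 : S_INTK) (h3 : S_E3D) : S_COMP := by
  intro H i θ c x1 x2 hH hev hθ hx1 hx2 hc1 hc2 V hV
  obtain ⟨b1, -, b3, b4, b5, b6, b7, -, -⟩ := h1 H hH
  set Z : Set E3 := {x : E3 | x ≠ 0} with hZ
  have hZo : IsOpen Z := isOpen_ne
  set ρ : E3 → ℝ := fun x => (θ * fderiv ℝ H x (ev i)).re with hρ
  have hDc : ContinuousOn (fun x => fderiv ℝ H x (ev i)) Z :=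
    b6.continuousOn.clm_apply continuousOn_const
  have hρc : ContinuousOn ρ Z :=
    Complex.continuous_re.comp_continuousOn (continuousOn_const.mul hDc)
  set S : Set E3 := {x : E3 | x ≠ 0 ∧ c < (θ * fderiv ℝ H x (ev i)).re} with hS
  have hSo : IsOpen S := hρc.isOpen_inter_preimage hZo isOpen_Ioi
  have hx1S : x1 ∈ S := ⟨hx1, hc1⟩
  have hVo : IsOpen V := by rw [hV]; exact hSo.connectedComponentIn
  have hVc : IsConnected V := by rw [hV]; exact isConnected_connectedComponentIn_iff.2 hx1S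
  have hVS : V ⊆ S := by rw [hV]; exact connectedComponentIn_subset _ _
  have hVZ : V ⊆ Z := fun x hx => (hVS hx).1
  have hx1V : x1 ∈ V := by rw [hV]; exact mem_connectedComponentIn hx1S
  have hVx : ∀ x ∈ V, connectedComponentIn S x = V := by
    intro x hx
    rw [hV] at hx ⊢
    exact (connectedComponentIn_eq hx).symm
  have hx2V : x2 ∉ V := fun h => absurd (hVS h).2 (not_lt.2 hc2)
  -- positive scaling
  have hpos : ∀ x ∈ V, ∀ t : ℝ, 0 < t → t • x ∈ V := by
    intro x hx t ht
    have hr : IsPreconnected ((fun s : ℝ => s • x) '' Ioi 0) :=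
      isPreconnected_Ioi.image _ (by fun_prop)
    have hsub : (fun s : ℝ => s • x) '' Ioi 0 ⊆ S := by
      rintro _ ⟨s, hs, rfl⟩
      have hs' : (0 : ℝ) < s := hs
      refine ⟨smul_ne_zero hs'.ne' (hVZ hx), ?_⟩
      have := (hVS hx).2
      simp only [b1 x (hVZ hx) s hs']
      exact this
    have h := hr.subset_connectedComponentIn (x := x) ⟨1, by simp, by simp⟩ hsub
    rw [hVx x hx] at h
    exact h ⟨t, ht, rfl⟩
  -- relatively closed
  have hcl : ∀ x ∈ S, x ∈ closure V → x ∈ V := by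
    intro x hxS hxc
    obtain ⟨ε, hε, hball⟩ := Metric.isOpen_iff.1 hSo x hxS
    obtain ⟨y, hyV, hy⟩ := Metric.mem_closure_iff.1 hxc ε hε
    have hyb : y ∈ Metric.ball x ε := by rw [Metric.mem_ball, dist_comm]; exact hy
    have h := (convex_ball x ε).isPreconnected.subset_connectedComponentIn hyb hball
    rw [hVx y hyV] at h
    exact h (Metric.mem_ball_self hε)
  -- it is enough to find an antipodal pair
  suffices hu : ∃ u ∈ V, -u ∈ V by
    obtain ⟨u, huV, hnu⟩ := hu
    have hneg : ∀ x ∈ V, -x ∈ V := by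
      have hpre : IsPreconnected ((fun x : E3 => -x) '' V) :=
        hVc.isPreconnected.image _ (by fun_prop)
      have hsub : (fun x : E3 => -x) '' V ⊆ S := by
        rintro _ ⟨x, hx, rfl⟩
        refine ⟨neg_ne_zero.2 (hVZ hx), ?_⟩
        have := (hVS hx).2
        simp only [hev x (hVZ hx)]
        exact this
      have h := hpre.subset_connectedComponentIn (x := -u) ⟨u, huV, rfl⟩ hsub
      rw [hVx _ hnu] at h
      exact fun x hx => h ⟨x, hx, rfl⟩
    refine ⟨hVo, hVc, ?_⟩
    intro x hx t ht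
    rcases lt_or_gt_of_ne ht with ht | ht
    · have := hneg _ (hpos x hx (-t) (by linarith))
      rwa [neg_smul, neg_neg] at this
    · exact hpos x hx t ht
  set U0 : Set E3 := {x | x ∈ V ∧ ∃ v w : E3,
    ((starRingEnd ℂ) (D2 H x v (ev i)) * D2 H x w (ev i)).im ≠ 0} with hU0
  have hD2c : ∀ v w : E3, ContinuousOn (fun x => D2 H x v w) Z := by
    intro v w
    exact (b7.clm_apply continuousOn_const).clm_apply continuousOn_const
  by_cases hne : U0.Nonempty
  · have hU0o : IsOpen U0 := by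
      have : U0 = ⋃ v : E3, ⋃ w : E3, V ∩ (fun x =>
          ((starRingEnd ℂ) (D2 H x v (ev i)) * D2 H x w (ev i)).im) ⁻¹' {0}ᶜ := by
        ext x
        simp only [hU0, mem_ofPred_eq, mem_iUnion, mem_inter_iff, mem_preimage, mem_compl_iff,
          mem_singleton_iff, exists_and_left]
      rw [this]
      refine isOpen_iUnion fun v => isOpen_iUnion fun w => ?_
      refine ContinuousOn.isOpen_inter_preimage ?_ hVo isOpen_compl_singleton
      refine Complex.continuous_im.comp_continuousOn ?_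
      exact (Complex.continuous_conj.comp_continuousOn ((hD2c v (ev i)).mono hVZ)).mul
        ((hD2c w (ev i)).mono hVZ)
    have hcone : ∀ x ∈ U0, ∀ t : ℝ, 0 < t → t • x ∈ U0 := by
      rintro x ⟨hxV, v, w, hvw⟩ t ht
      refine ⟨hpos x hxV t ht, v, w, ?_⟩
      rw [b3 x (hVZ hxV) t ht, b3 x (hVZ hxV) t ht]
      have h := comp_im_mul (D2 H x v (ev i)) (D2 H x w (ev i)) ((t⁻¹ : ℝ) : ℂ)
      rw [mul_comm (((t⁻¹ : ℝ) : ℂ)), mul_comm (((t⁻¹ : ℝ) : ℂ)), h]
      refine mul_ne_zero ?_ hvw
      rw [Complex.normSq_ofReal]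
      have : t⁻¹ ≠ 0 := inv_ne_zero ht.ne'
      exact mul_ne_zero this this
    obtain ⟨u, hu, hnu, -⟩ := h3 H i θ c V U0 x2 hH hθ hVo (fun x hx => hVS hx) hpos
      (fun x hx hcx hxc => hcl x ⟨hx, hcx⟩ hxc) hx2 hx2V hU0o hne (fun x hx => hx.1) hcone
      (fun x hx => hx.2)
    exact ⟨u, hu.1, hnu⟩
  · exfalso
    have hall : ∀ x ∈ V, ∀ v w : E3,
        ((starRingEnd ℂ) (D2 H x v (ev i)) * D2 H x w (ev i)).im = 0 := by
      intro x hx v w
      by_contra h
      exact hne ⟨x, hx, v, w, h⟩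
    -- `D²H (·, ev i) (ev i) = 0` on `V`
    have hzero : ∀ x ∈ V, D2 H x (ev i) (ev i) = 0 := by
      intro x0 hx0
      by_contra hx0ne
      have hnear : ∀ᶠ x in 𝓝 x0, x ∈ V ∧ D2 H x (ev i) (ev i) ≠ 0 := by
        have ho : IsOpen (V ∩ (fun x => D2 H x (ev i) (ev i)) ⁻¹' {0}ᶜ) :=
          ((hD2c (ev i) (ev i)).mono hVZ).isOpen_inter_preimage hVo isOpen_compl_singleton
        exact ho.mem_nhds ⟨hx0, hx0ne⟩
      have hK : ∀ᶠ x in 𝓝 x0, ∀ v w : E3,
          ((starRingEnd ℂ) (D2 H x v v) * D2 H x v w).im = 0 := by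
        filter_upwards [hnear] with x hx v w
        obtain ⟨ω, hω⟩ := hH.rank1 x (hVZ hx.1)
        have he : ω (ev i) ≠ 0 := by
          intro h0
          exact hx.2 (by rw [hω, h0, zero_mul])
        have h4 := hall x hx.1 v w
        rw [hω, hω, comp_im_mul] at h4
        have h5 : ((starRingEnd ℂ) (ω v) * ω w).im = 0 := by
          rcases mul_eq_zero.1 h4 with h | h
          · exact absurd (Complex.normSq_eq_zero.1 h) he
          · exact h
        rw [hω, hω, comp_im_mul', h5, mul_zero]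
      exact hx0ne (h2 H x0 hH (hVZ hx0) hK (ev i) (ev i))
    have hfd : ∀ x ∈ V, fderiv ℝ (fun y => fderiv ℝ H y (ev i)) x = 0 := by
      intro x hx
      have hd : DifferentiableAt ℝ (fderiv ℝ H) x :=
        (b6.differentiableOn (by norm_num)).differentiableAt (hZo.mem_nhds (hVZ hx))
      have h6 : fderiv ℝ (fun y => fderiv ℝ H y (ev i)) x =
          (fderiv ℝ (fderiv ℝ H) x).flip (ev i) := by
        rw [fderiv_clm_apply hd (differentiableAt_const _)]
        ext v
        simp
      rw [h6]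
      ext v
      have h7 : D2 H x v (ev i) = 0 := by
        obtain ⟨ω, hω⟩ := hH.rank1 x (hVZ hx)
        have h8 := hzero x hx
        rw [hω] at h8
        have h9 : ω (ev i) = 0 := mul_self_eq_zero.1 h8
        rw [hω, h9, mul_zero]
      simpa [D2] using h7
    have hconst : ∀ x ∈ V, fderiv ℝ H x (ev i) = fderiv ℝ H x1 (ev i) := by
      intro x hx
      refine hVo.is_const_of_fderiv_eq_zero (𝕜 := ℝ) (f := fun y => fderiv ℝ H y (ev i))
        hVc.isPreconnected ?_ hfd hx hx1V
      intro y hy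
      have hd : DifferentiableAt ℝ (fderiv ℝ H) y :=
        (b6.differentiableOn (by norm_num)).differentiableAt (hZo.mem_nhds (hVZ hy))
      exact (hd.clm_apply (differentiableAt_const _)).differentiableWithinAt
    have hpc : IsPreconnected Z := by
      have : Z = {0}ᶜ := by ext x; simp [hZ]
      rw [this]
      refine (isConnected_compl_singleton_of_one_lt_rank ?_ (0 : E3)).isPreconnected
      rw [← Module.finrank_eq_rank, finrank_euclideanSpace_fin]
      norm_num
    have hZV : Z ⊆ V := by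
      refine hpc.subset_of_closure_inter_subset hVo ⟨x1, hx1, hx1V⟩ ?_
      rintro x ⟨hxc, hxZ⟩
      refine hcl x ⟨hxZ, ?_⟩ hxc
      have hne' : (𝓝[V] x).NeBot := mem_closure_iff_nhdsWithin_neBot.1 hxc
      have ht1 : Filter.Tendsto ρ (𝓝[V] x) (𝓝 (ρ x)) :=
        (hρc x hxZ).mono_left (nhdsWithin_mono x hVZ)
      have ht2 : Filter.Tendsto ρ (𝓝[V] x) (𝓝 (ρ x1)) := by
        refine tendsto_const_nhds.congr' ?_
        filter_upwards [self_mem_nhdsWithin] with y hy
        simp only [hρ, hconst y hy]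
      have := tendsto_nhds_unique ht1 ht2
      change c < ρ x
      rw [this]
      exact hc1
    exact hx2V (hZV hx2)

end Pool.Agent.HH
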