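import Pool.Agent.Lib.MP_7dc3d9_gt.ThA.Stm
set_option autoImplicit false
namespace Pool.Agent.HH

open Complex Set MeasureTheory Topology

private lemma cur_split (χ : ℂ → ℝ) (z w : ℂ) :
    fderiv ℝ χ z w = w.re * g1 χ z + w.im * g2 χ z := by
  unfold g1 g2
  have h : w = w.re • (1 : ℂ) + w.im • Complex.I := by
    apply Complex.ext <;> simp
  conv_lhs => rw [h]
  rw [map_add, map_smul, map_smul, smul_eq_mul, smul_eq_mul]

private lemma cur_key (P a : ℝ × ℝ → ℂ) (χ : ℂ → ℝ) (p : ℝ × ℝ)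
    (hP : DifferentiableAt ℝ P p) (ha : DifferentiableAt ℝ a p) (hχ : DifferentiableAt ℝ χ (P p))
    (hda : px a p * py P p = py a p * px P p) :
    px (fun q => (χ (P q) : ℂ) * a q) p * py P p - py (fun q => (χ (P q) : ℂ) * a q) p * px P p
      = Complex.I * (((g1 χ (P p) : ℂ) + Complex.I * (g2 χ (P p) : ℂ)) * a p * (Jac P p : ℂ)) := by
  have h1 : HasFDerivAt (fun q => χ (P q)) ((fderiv ℝ χ (P p)).comp (fderiv ℝ P p)) p :=
    hχ.hasFDerivAt.comp p hP.hasFDerivAt
  have h2 : HasFDerivAt (fun q => (χ (P q) : ℂ))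
      (Complex.ofRealCLM.comp ((fderiv ℝ χ (P p)).comp (fderiv ℝ P p))) p :=
    Complex.ofRealCLM.hasFDerivAt.comp p h1
  have h3 := h2.mul ha.hasFDerivAt
  have ex : ∀ v : ℝ × ℝ, fderiv ℝ (fun q => (χ (P q) : ℂ) * a q) p v
      = (χ (P p) : ℂ) * fderiv ℝ a p v
        + a p * ((fderiv ℝ χ (P p) (fderiv ℝ P p v) : ℝ) : ℂ) := by
    intro v
    have := h3.fderiv
    have e : (fun q => (χ (P q) : ℂ) * a q) = (fun q => (χ (P q) : ℂ)) * a := rfl
    rw [e, this]
    simp
  have hx : px (fun q => (χ (P q) : ℂ) * a q) p = (χ (P p) : ℂ) * px a p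
      + a p * (((px P p).re * g1 χ (P p) + (px P p).im * g2 χ (P p) : ℝ) : ℂ) := by
    have := ex (1, 0)
    rw [cur_split] at this
    exact this
  have hy : py (fun q => (χ (P q) : ℂ) * a q) p = (χ (P p) : ℂ) * py a p
      + a p * (((py P p).re * g1 χ (P p) + (py P p).im * g2 χ (P p) : ℝ) : ℂ) := by
    have := ex (0, 1)
    rw [cur_split] at this
    exact this
  rw [hx, hy]
  have hJ : Jac P p = (px P p).re * (py P p).im - (px P p).im * (py P p).re := by
    unfold Jac
    rw [Complex.mul_im, Complex.conj_re, Complex.conj_im]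
    ring
  have e1 : ((χ (P p) : ℂ) * px a p
      + a p * (((px P p).re * g1 χ (P p) + (px P p).im * g2 χ (P p) : ℝ) : ℂ)) * py P p
      - ((χ (P p) : ℂ) * py a p
      + a p * (((py P p).re * g1 χ (P p) + (py P p).im * g2 χ (P p) : ℝ) : ℂ)) * px P p
      = (χ (P p) : ℂ) * (px a p * py P p - py a p * px P p)
      + a p * ((((px P p).re * g1 χ (P p) + (px P p).im * g2 χ (P p) : ℝ) : ℂ) * py P p
      - (((py P p).re * g1 χ (P p) + (py P p).im * g2 χ (P p) : ℝ) : ℂ) * px P p) := by ring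
  rw [e1, hda, sub_self, mul_zero, zero_add, hJ]
  have e2 : (((px P p).re * g1 χ (P p) + (px P p).im * g2 χ (P p) : ℝ) : ℂ) * py P p
      - (((py P p).re * g1 χ (P p) + (py P p).im * g2 χ (P p) : ℝ) : ℂ) * px P p
      = Complex.I * (((g1 χ (P p) : ℂ) + Complex.I * (g2 χ (P p) : ℂ))
        * (((px P p).re * (py P p).im - (px P p).im * (py P p).re : ℝ) : ℂ)) := by
    apply Complex.ext
    · simp
      ring
    · simp
      ring
  rw [e2]
  ring

theorem p_CUR (h1 : S_L2) : S_CUR := by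
  intro W C P a χ hW hC hCW hP ha hda hχ hsupp
  have hχ1 : ContDiff ℝ 1 χ := hχ.of_le (by norm_num)
  have hΘ : ContDiffOn ℝ 1 (fun p => (χ (P p) : ℂ) * a p) W :=
    (Complex.ofRealCLM.contDiff.comp_contDiffOn (hχ1.comp_contDiffOn hP)).mul ha
  have hz : ∀ p ∈ W, p ∉ C → (fun p => (χ (P p) : ℂ) * a p) p = 0 := by
    intro p hp hpC
    have h0 : χ (P p) = 0 := by
      by_contra hne
      exact hpC (hsupp p hp (subset_tsupport χ (Function.mem_support.2 hne)))
    simp [h0]
  obtain ⟨-, h2⟩ := h1 W C (fun p => (χ (P p) : ℂ) * a p) P hW hC hCW hΘ hz hP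
  have h3 : ∫ p in W, (px (fun q => (χ (P q) : ℂ) * a q) p * py P p
      - py (fun q => (χ (P q) : ℂ) * a q) p * px P p)
      = ∫ p in W, Complex.I *
        (((g1 χ (P p) : ℂ) + Complex.I * (g2 χ (P p) : ℂ)) * a p * (Jac P p : ℂ)) := by
    apply setIntegral_congr_fun hW.measurableSet
    intro p hp
    exact cur_key P a χ p ((hP.contDiffAt (hW.mem_nhds hp)).differentiableAt (by norm_num))
      ((ha.contDiffAt (hW.mem_nhds hp)).differentiableAt (by norm_num))
      (hχ1.differentiable (by norm_num) (P p)) (hda p hp)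
  rw [h3, integral_const_mul] at h2
  exact (mul_eq_zero.1 h2).resolve_left Complex.I_ne_zero

end Pool.Agent.HH
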