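import Pool.Agent.Lib.MP_7dc3d9_gt.ThA.Stm
set_option autoImplicit false
namespace Pool.Agent.HH

open Complex Set MeasureTheory Topology

/-! Piece DEG (the signed sum of `a` over a regular fibre vanishes). -/

private noncomputable abbrev tc : ℝ × ℝ →L[ℝ] ℂ :=
  (Complex.equivRealProdCLM.symm : ℝ × ℝ →L[ℝ] ℂ)

private lemma dg_det (L : ℝ × ℝ →L[ℝ] ℂ) :
    (((Complex.equivRealProdCLM : ℂ →L[ℝ] ℝ × ℝ).comp L) : ℝ × ℝ →L[ℝ] ℝ × ℝ).det =
      ((starRingEnd ℂ) (L (1, 0)) * L (0, 1)).im := by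
  rw [ContinuousLinearMap.det, ← LinearMap.det_toMatrix (Module.Basis.finTwoProd ℝ),
    Matrix.det_fin_two]
  simp [LinearMap.toMatrix_apply, Complex.mul_im]
  ring

private lemma dg_jac {W : Set (ℝ × ℝ)} {P : ℝ × ℝ → ℂ} (hW : IsOpen W)
    (hP : ContDiffOn ℝ 1 P W) : ContinuousOn (Jac P) W := by
  have h : ContinuousOn (fderiv ℝ P) W := hP.continuousOn_fderiv_of_isOpen hW (by simp)
  have h1 : ContinuousOn (px P) W := h.clm_apply continuousOn_const
  have h2 : ContinuousOn (py P) W := h.clm_apply continuousOn_const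
  exact Complex.continuous_im.comp_continuousOn
    ((Complex.continuous_conj.comp_continuousOn h1).mul h2)

/-- change of variables along a section -/
private lemma dg_cov {W : Set (ℝ × ℝ)} {P : ℝ × ℝ → ℂ} {s : ℂ → ℝ × ℝ} {z0 : ℂ} {r : ℝ}
    (hW : IsOpen W) (hP : ContDiffOn ℝ 1 P W) (hs : ContDiffOn ℝ 1 s (Metric.ball z0 r))
    (h : ∀ z ∈ Metric.ball z0 r, s z ∈ W ∧ P (s z) = z ∧ Jac P (s z) ≠ 0)
    (g : ℝ × ℝ → ℂ) :
    ∫ p in s '' Metric.ball z0 r, g p =
      ∫ q in tc ⁻¹' Metric.ball z0 r, (|Jac P (s (tc q))|⁻¹ : ℝ) • g (s (tc q)) := by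
  have hB : IsOpen (tc ⁻¹' Metric.ball z0 r) := Metric.isOpen_ball.preimage tc.continuous
  have hd : ∀ z ∈ Metric.ball z0 r, HasFDerivAt s (fderiv ℝ s z) z := fun z hz =>
    ((hs.contDiffAt (Metric.isOpen_ball.mem_nhds hz)).differentiableAt (by simp)).hasFDerivAt
  have hdP : ∀ p ∈ W, HasFDerivAt P (fderiv ℝ P p) p := fun p hp =>
    ((hP.contDiffAt (hW.mem_nhds hp)).differentiableAt (by simp)).hasFDerivAt
  have himg : s '' Metric.ball z0 r = (fun q => s (tc q)) '' (tc ⁻¹' Metric.ball z0 r) := by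
    ext p
    constructor
    · rintro ⟨z, hz, rfl⟩
      have e : tc (Complex.equivRealProdCLM z) = z :=
        Complex.equivRealProdCLM.symm_apply_apply z
      refine ⟨Complex.equivRealProdCLM z, ?_, ?_⟩
      · show tc (Complex.equivRealProdCLM z) ∈ Metric.ball z0 r
        rw [e]; exact hz
      · show s (tc (Complex.equivRealProdCLM z)) = s z
        rw [e]
    · rintro ⟨q, hq, rfl⟩
      exact ⟨tc q, hq, rfl⟩
  rw [himg, integral_image_eq_integral_abs_det_fderiv_smul volume hB.measurableSet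
    (f' := fun q => (fderiv ℝ s (tc q)).comp tc)]
  · refine setIntegral_congr_fun hB.measurableSet fun q hq => ?_
    have hq' : tc q ∈ Metric.ball z0 r := hq
    have hj := (h _ hq').2.2
    have key : (((fderiv ℝ s (tc q)).comp tc : ℝ × ℝ →L[ℝ] ℝ × ℝ)).det * Jac P (s (tc q)) = 1 := by
      have e1 : (fderiv ℝ P (s (tc q))).comp (fderiv ℝ s (tc q)) = ContinuousLinearMap.id ℝ ℂ := by
        have h1 : HasFDerivAt (fun z => P (s z))
            ((fderiv ℝ P (s (tc q))).comp (fderiv ℝ s (tc q))) (tc q) :=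
          (hdP _ (h _ hq').1).comp (tc q) (hd _ hq')
        have h2 : HasFDerivAt (fun z : ℂ => z) (ContinuousLinearMap.id ℝ ℂ) (tc q) :=
          hasFDerivAt_id _
        have h3 : (fun z => P (s z)) =ᶠ[𝓝 (tc q)] fun z => z := by
          filter_upwards [Metric.isOpen_ball.mem_nhds hq'] with z hz
          exact (h z hz).2.1
        exact h1.unique (h2.congr_of_eventuallyEq h3)
      have e2 : Jac P (s (tc q)) = (((Complex.equivRealProdCLM : ℂ →L[ℝ] ℝ × ℝ).comp
          (fderiv ℝ P (s (tc q)))) : ℝ × ℝ →L[ℝ] ℝ × ℝ).det := by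
        rw [dg_det]; rfl
      rw [e2, mul_comm, ContinuousLinearMap.det, ContinuousLinearMap.det, ← LinearMap.det_comp]
      have e3 : (((Complex.equivRealProdCLM : ℂ →L[ℝ] ℝ × ℝ).comp
          (fderiv ℝ P (s (tc q))) : ℝ × ℝ →L[ℝ] ℝ × ℝ) : ℝ × ℝ →ₗ[ℝ] ℝ × ℝ) ∘ₗ
          (((fderiv ℝ s (tc q)).comp tc : ℝ × ℝ →L[ℝ] ℝ × ℝ) : ℝ × ℝ →ₗ[ℝ] ℝ × ℝ) =
          LinearMap.id := by
        refine LinearMap.ext fun v => ?_
        have h6 : fderiv ℝ P (s (tc q)) (fderiv ℝ s (tc q) (tc v)) = tc v :=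
          congrArg (fun L : ℂ →L[ℝ] ℂ => L (tc v)) e1
        show Complex.equivRealProdCLM (fderiv ℝ P (s (tc q)) (fderiv ℝ s (tc q) (tc v))) = v
        rw [h6]
        exact Complex.equivRealProdCLM.apply_symm_apply v
      rw [e3, LinearMap.det_id]
    have e4 : |(((fderiv ℝ s (tc q)).comp tc : ℝ × ℝ →L[ℝ] ℝ × ℝ)).det| =
        |Jac P (s (tc q))|⁻¹ := by
      have h5 := congrArg abs key
      rw [abs_mul, abs_one] at h5
      exact eq_inv_of_mul_eq_one_left h5
    show |(((fderiv ℝ s (tc q)).comp tc : ℝ × ℝ →L[ℝ] ℝ × ℝ)).det| • g (s (tc q)) = _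
    rw [e4]
  · intro q hq
    exact ((hd _ hq).comp q tc.hasFDerivAt).hasFDerivWithinAt
  · intro q hq q' hq' he
    have h1 : P (s (tc q)) = P (s (tc q')) := congrArg P he
    rw [(h _ hq).2.1, (h _ hq').2.1] at h1
    exact Complex.equivRealProdCLM.symm.injective h1


/-- a continuous function on `U` that vanishes off a compact subset is integrable on `U` -/
private lemma dg_int {U K : Set (ℝ × ℝ)} {F : ℝ × ℝ → ℂ} (hU : MeasurableSet U)
    (hK : IsCompact K) (hF : ContinuousOn F K) (h0 : ∀ p ∈ U \ K, F p = 0) :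
    IntegrableOn F U :=
  (hF.integrableOn_compact hK).of_forall_sdiff_eq_zero hU h0

/-- **DEG** -/
theorem p_DEG (h1 : S_HZ) (h2 : S_STK) : S_DEG := by
  classical
  intro W P a c M z0 S hW hP ha hc hM hcpt hz0 hS hJ
  -- sections
  set c' : ℝ := (c + z0.re) / 2 with hc'
  have hcc' : c < c' := by rw [hc']; linarith
  set r0 : ℝ := z0.re - c' with hr0
  have hr0pos : 0 < r0 := by rw [hr0, hc']; linarith
  have hKc : IsCompact {p | p ∈ W ∧ c' ≤ (P p).re} := hcpt c' hcc'
  have hcl : ∀ t : ℝ, t ≤ r0 → IsCompact {p | p ∈ W ∧ P p ∈ Metric.closedBall z0 t} := by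
    intro t ht
    have hsub : {p | p ∈ W ∧ P p ∈ Metric.closedBall z0 t} =
        {p | p ∈ W ∧ c' ≤ (P p).re} ∩ P ⁻¹' Metric.closedBall z0 t := by
      ext p
      simp only [mem_ofPred_eq, mem_inter_iff, mem_preimage]
      constructor
      · rintro ⟨hp, hb⟩
        refine ⟨⟨hp, ?_⟩, hb⟩
        have h3 : |(P p - z0).re| ≤ ‖P p - z0‖ := Complex.abs_re_le_norm _
        rw [Metric.mem_closedBall, dist_eq_norm] at hb
        rw [Complex.sub_re] at h3
        have h4 := (abs_le.mp (h3.trans (hb.trans ht))).1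
        rw [hr0] at h4
        linarith
      · rintro ⟨⟨hp, _⟩, hb⟩
        exact ⟨hp, hb⟩
    rw [hsub]
    refine hKc.of_isClosed_subset ?_ inter_subset_left
    exact (hP.continuousOn.mono fun p hp => hp.1).preimage_isClosed_of_isClosed hKc.isClosed
      Metric.isClosed_closedBall
  obtain ⟨n, s, r1, hr1, hs1, hs2, hs3⟩ := h2 W P z0 r0 hW hP hr0pos (hcl r0 le_rfl)
    (fun p hp hpz => hJ p ((hS p).mpr ⟨hp, hpz⟩))
  -- shrink
  set r : ℝ := min r1 r0 with hr
  have hrpos : 0 < r := lt_min hr1 hr0pos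
  have hball : Metric.ball z0 r ⊆ Metric.ball z0 r1 := Metric.ball_subset_ball (min_le_left _ _)
  have hsr : ∀ j, ContDiffOn ℝ 1 (s j) (Metric.ball z0 r) := fun j => (hs1 j).mono hball
  have hs2r : ∀ j, ∀ z ∈ Metric.ball z0 r, s j z ∈ W ∧ P (s j z) = z ∧ Jac P (s j z) ≠ 0 :=
    fun j z hz => hs2 j z (hball hz)
  have hz0r : z0 ∈ Metric.ball z0 r := Metric.mem_ball_self hrpos
  -- the sum over the fibre
  set h : Fin n → ℂ → ℂ := fun j z =>
    ((Jac P (s j z) / |Jac P (s j z)| : ℝ) : ℂ) * a (s j z) with hh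
  set H : ℂ → ℂ := fun z => ∑ j, h j z with hHdef
  have hsum : ∑ p ∈ S, ((Jac P p / |Jac P p| : ℝ) : ℂ) * a p = H z0 := by
    rw [hHdef]
    symm
    refine Finset.sum_bij (fun j _ => s j z0) ?_ ?_ ?_ ?_
    · intro j _
      exact (hS _).mpr ⟨(hs2r j z0 hz0r).1, (hs2r j z0 hz0r).2.1⟩
    · intro i _ j _ hij
      obtain ⟨k, _, hk⟩ := hs3 z0 (hball hz0r) (s j z0) (hs2r j z0 hz0r).1 (hs2r j z0 hz0r).2.1
      rw [hk i hij, hk j rfl]
    · intro p hp
      obtain ⟨hpW, hpz⟩ := (hS p).mp hp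
      obtain ⟨k, hk, _⟩ := hs3 z0 (hball hz0r) p hpW hpz
      exact ⟨k, Finset.mem_univ _, hk⟩
    · intro j _
      rfl
  rw [hsum]
  -- continuity
  have hJc := dg_jac hW hP
  have hmaps : ∀ j, MapsTo (s j) (Metric.ball z0 r) W := fun j z hz => (hs2r j z hz).1
  have hhc : ∀ j, ContinuousOn (h j) (Metric.ball z0 r) := by
    intro j
    have hc1 : ContinuousOn (fun z => Jac P (s j z)) (Metric.ball z0 r) :=
      hJc.comp (hsr j).continuousOn (hmaps j)
    have hc2 : ContinuousOn (fun z => Jac P (s j z) / |Jac P (s j z)|) (Metric.ball z0 r) :=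
      hc1.div hc1.abs fun z hz => abs_ne_zero.mpr (hs2r j z hz).2.2
    exact (Complex.continuous_ofReal.comp_continuousOn hc2).mul
      (ha.continuousOn.comp (hsr j).continuousOn (hmaps j))
  have hHc : ContinuousOn H (Metric.ball z0 r) := continuousOn_finsetSum _ fun j _ => hhc j
  have hHat : ContinuousAt H z0 := hHc.continuousAt (Metric.isOpen_ball.mem_nhds hz0r)
  -- it is enough to bound the norm by every positive number
  by_contra hne
  have hη : 0 < ‖H z0‖ / 2 := half_pos (norm_pos_iff.mpr hne)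
  obtain ⟨δ, hδ, hδH⟩ := Metric.continuousAt_iff.mp hHat _ hη
  set ε : ℝ := min δ (r / 2) with hε
  have hεpos : 0 < ε := lt_min hδ (half_pos hrpos)
  have hεδ : ε ≤ δ := min_le_left _ _
  have hεr : ε < r := lt_of_le_of_lt (min_le_right _ _) (half_lt_self hrpos)
  let φ : ContDiffBump (0 : ℂ) := ⟨ε / 2, ε, half_pos hεpos, half_lt_self hεpos⟩
  have hφ0 : ∀ z : ℂ, ε ≤ ‖z‖ → φ z = 0 := by
    intro z hz
    apply φ.zero_of_le_dist
    rw [dist_zero_right]
    exact hz
  have hcε : c + ε < z0.re := by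
    have h5 : ε < r0 := hεr.trans_le (min_le_right _ _)
    rw [hr0] at h5
    linarith
  have hZ : ∫ p in W, (φ (P p - z0) : ℂ) * a p * (Jac P p : ℂ) = 0 :=
    h1 W P a c M ε φ z0 hW hP ha hc hM hcpt φ.contDiff hεpos hφ0 hcε
  -- localisation
  set B : Set (ℝ × ℝ) := tc ⁻¹' Metric.ball z0 r with hB
  have hBo : IsOpen B := Metric.isOpen_ball.preimage tc.continuous
  set F : ℝ × ℝ → ℂ := fun p => (φ (P p - z0) : ℂ) * a p * (Jac P p : ℂ) with hF
  have hU : ∀ j, MeasurableSet (s j '' Metric.ball z0 r) := by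
    intro j
    refine Metric.isOpen_ball.measurableSet.image_of_continuousOn_injOn (hsr j).continuousOn ?_
    intro z hz z' hz' he
    have := congrArg P he
    rwa [(hs2r j z hz).2.1, (hs2r j z' hz').2.1] at this
  have hdisj : Pairwise (Function.onFun Disjoint fun j => s j '' Metric.ball z0 r) := by
    intro i j hij
    refine Set.disjoint_left.mpr ?_
    rintro p ⟨z, hz, rfl⟩ ⟨z', hz', he⟩
    have e1 : z' = z := by
      have := congrArg P he
      rwa [(hs2r j z' hz').2.1, (hs2r i z hz).2.1] at this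
    subst e1
    obtain ⟨k, _, hk⟩ := hs3 z' (hball hz') (s i z') (hs2r i z' hz').1 (hs2r i z' hz').2.1
    exact hij ((hk i rfl).trans (hk j he).symm)
  have hUW : (⋃ j, s j '' Metric.ball z0 r) ⊆ W := by
    rintro p hp
    obtain ⟨j, z, hz, rfl⟩ := mem_iUnion.mp hp
    exact hmaps j hz
  have hFcont : ContinuousOn F W := by
    refine (ContinuousOn.mul ?_ ha.continuousOn).mul (Complex.continuous_ofReal.comp_continuousOn hJc)
    exact Complex.continuous_ofReal.comp_continuousOn
      (φ.continuous.comp_continuousOn (hP.continuousOn.sub continuousOn_const))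
  have hFint : IntegrableOn F W := by
    refine dg_int hW.measurableSet (hcl ε (hεr.le.trans (min_le_right _ _)))
      (hFcont.mono fun p hp => hp.1) ?_
    rintro p ⟨hp, hp'⟩
    have : ε ≤ ‖P p - z0‖ := by
      by_contra h6
      push Not at h6
      exact hp' ⟨hp, by rw [Metric.mem_closedBall, dist_eq_norm]; exact h6.le⟩
    simp [hF, hφ0 _ this]
  have hsplit : ∫ p in W, F p = ∑ j, ∫ p in s j '' Metric.ball z0 r, F p := by
    rw [setIntegral_eq_of_subset_of_forall_sdiff_eq_zero hW.measurableSet hUW]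
    · exact integral_iUnion_fintype hU hdisj fun j => hFint.mono_set
        ((subset_iUnion (fun j => s j '' Metric.ball z0 r) j).trans hUW)
    · rintro p ⟨hp, hp'⟩
      have : ε ≤ ‖P p - z0‖ := by
        by_contra h6
        push Not at h6
        have hPb : P p ∈ Metric.ball z0 r := by
          rw [Metric.mem_ball, dist_eq_norm]; exact h6.trans hεr
        obtain ⟨j, hj, _⟩ := hs3 (P p) (hball hPb) p hp rfl
        exact hp' (mem_iUnion.mpr ⟨j, P p, hPb, hj⟩)
      simp [hF, hφ0 _ this]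
  have hterm : ∀ j, ∫ p in s j '' Metric.ball z0 r, F p =
      ∫ q in B, (φ (tc q - z0) : ℂ) * h j (tc q) := by
    intro j
    rw [dg_cov hW hP (hsr j) (hs2r j) F]
    refine setIntegral_congr_fun hBo.measurableSet fun q hq => ?_
    have hq' : tc q ∈ Metric.ball z0 r := hq
    have h7 := hs2r j _ hq'
    simp only [hF, hh]
    rw [h7.2.1, Complex.real_smul]
    push_cast
    ring
  have hcontB : ∀ g : ℂ → ℂ, ContinuousOn g (Metric.ball z0 r) →
      IntegrableOn (fun q => (φ (tc q - z0) : ℂ) * g (tc q)) B := by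
    intro g hg
    have hK : IsCompact (tc ⁻¹' Metric.closedBall z0 ε) :=
      Complex.equivRealProdCLM.symm.toHomeomorph.isClosedEmbedding.isCompact_preimage
        (isCompact_closedBall z0 ε)
    refine dg_int hBo.measurableSet hK ?_ ?_
    · refine ContinuousOn.mul ?_ (hg.comp tc.continuous.continuousOn ?_)
      · exact (Complex.continuous_ofReal.comp (φ.continuous.comp
          (tc.continuous.sub continuous_const))).continuousOn
      · intro q hq
        exact Metric.closedBall_subset_ball hεr hq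
    · rintro q ⟨hq, hq'⟩
      have : ε ≤ ‖tc q - z0‖ := by
        by_contra h6
        push Not at h6
        exact hq' (by
          show tc q ∈ Metric.closedBall z0 ε
          rw [Metric.mem_closedBall, dist_eq_norm]; exact h6.le)
      show (φ (tc q - z0) : ℂ) * g (tc q) = 0
      rw [hφ0 _ this]
      simp
  have hzero : ∫ q in B, (φ (tc q - z0) : ℂ) * H (tc q) = 0 := by
    have e1 : ∀ q, (φ (tc q - z0) : ℂ) * H (tc q) = ∑ j, (φ (tc q - z0) : ℂ) * h j (tc q) := by
      intro q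
      rw [hHdef, Finset.mul_sum]
    simp only [e1]
    rw [integral_finsetSum _ fun j _ => hcontB (h j) (hhc j)]
    exact (Finset.sum_congr rfl fun j _ => (hterm j).symm).trans (hsplit.symm.trans hZ)
  -- the integral of the bump
  have hφint : IntegrableOn (fun q => φ (tc q - z0)) B := by
    have h5 := (hcontB (fun _ => 1) continuousOn_const).norm
    have h6 : (fun q => ‖(φ (tc q - z0) : ℂ) * (1 : ℂ)‖) = fun q => φ (tc q - z0) := by
      funext q
      rw [mul_one, Complex.norm_real, Real.norm_of_nonneg φ.nonneg]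
    rw [h6] at h5
    exact h5
  have hI : 0 < ∫ q in B, φ (tc q - z0) := by
    rw [setIntegral_pos_iff_support_of_nonneg_ae
      (Filter.Eventually.of_forall fun q => φ.nonneg) hφint]
    have hopen : IsOpen (Function.support (fun q => φ (tc q - z0)) ∩ B) := by
      refine IsOpen.inter ?_ hBo
      exact (φ.continuous.comp (tc.continuous.sub continuous_const)).isOpen_support
    refine hopen.measure_pos volume ⟨Complex.equivRealProdCLM z0, ?_, ?_⟩
    · have e : tc (Complex.equivRealProdCLM z0) = z0 :=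
        Complex.equivRealProdCLM.symm_apply_apply z0
      rw [Function.mem_support, e, sub_self]
      exact (φ.pos_of_mem_ball (Metric.mem_ball_self hεpos)).ne'
    · have e : tc (Complex.equivRealProdCLM z0) = z0 :=
        Complex.equivRealProdCLM.symm_apply_apply z0
      show tc (Complex.equivRealProdCLM z0) ∈ Metric.ball z0 r
      rw [e]; exact hz0r
  -- comparison
  have hcmp : ‖∫ q in B, (φ (tc q - z0) : ℂ) * (H z0 - H (tc q))‖ ≤
      ∫ q in B, φ (tc q - z0) * (‖H z0‖ / 2) := by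
    refine norm_integral_le_of_norm_le (hφint.mul_const _) ?_
    refine Filter.Eventually.of_forall fun q => ?_
    rw [norm_mul, Complex.norm_real, Real.norm_of_nonneg φ.nonneg]
    by_cases hq : ‖tc q - z0‖ < ε
    · refine mul_le_mul_of_nonneg_left ?_ φ.nonneg
      have h8 : dist (tc q) z0 < δ := by rw [dist_eq_norm]; exact hq.trans_le hεδ
      have h9 := hδH h8
      rw [dist_comm, dist_eq_norm] at h9
      exact h9.le
    · rw [hφ0 _ (not_lt.mp hq)]
      simp
  have heq : ∫ q in B, (φ (tc q - z0) : ℂ) * (H z0 - H (tc q)) =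
      ((∫ q in B, φ (tc q - z0) : ℝ) : ℂ) * H z0 := by
    have e1 : ∀ q, (φ (tc q - z0) : ℂ) * (H z0 - H (tc q)) =
        (φ (tc q - z0) : ℂ) * H z0 - (φ (tc q - z0) : ℂ) * H (tc q) := fun q => mul_sub _ _ _
    simp only [e1]
    rw [integral_sub (hcontB (fun _ => H z0) continuousOn_const) (hcontB H hHc), hzero, sub_zero,
      integral_mul_const]
    congr 1
    exact integral_ofReal
  rw [heq, norm_mul, Complex.norm_real, Real.norm_of_nonneg hI.le, integral_mul_const] at hcmp
  have h10 := le_of_mul_le_mul_left hcmp hI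
  linarith [norm_pos_iff.mpr hne]

end Pool.Agent.HH
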