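import Pool.Agent.Lib.MP_7dc3d9_gt.ThA.Stm
set_option autoImplicit false
namespace Pool.Agent.HH

open Complex Set MeasureTheory Topology

/-! Piece E2D (a partner point). -/

private lemma e2_det (L : ℝ × ℝ →L[ℝ] ℂ) :
    (((Complex.equivRealProdCLM : ℂ →L[ℝ] ℝ × ℝ).comp L) : ℝ × ℝ →L[ℝ] ℝ × ℝ).det =
      ((starRingEnd ℂ) (L (1, 0)) * L (0, 1)).im := by
  rw [ContinuousLinearMap.det, ← LinearMap.det_toMatrix (Module.Basis.finTwoProd ℝ),
    Matrix.det_fin_two]
  simp [LinearMap.toMatrix_apply, Complex.mul_im]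
  ring

private lemma e2_ne {P : ℝ × ℝ → ℂ} {p : ℝ × ℝ} (h : Jac P p ≠ 0) : px P p ≠ 0 := by
  intro h0
  apply h
  simp [Jac, h0]

private lemma e2_surj {P : ℝ × ℝ → ℂ} {p : ℝ × ℝ} (h : Jac P p ≠ 0) :
    (fderiv ℝ P p : ℝ × ℝ →L[ℝ] ℂ).range = ⊤ := by
  have h1 : (((Complex.equivRealProdCLM : ℂ →L[ℝ] ℝ × ℝ).comp (fderiv ℝ P p)) :
      ℝ × ℝ →L[ℝ] ℝ × ℝ).det ≠ 0 := by
    rw [e2_det]; exact h
  have h2 := LinearMap.range_eq_top.mpr
    ((LinearMap.equivOfDetNeZero _ h1).surjective)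
  rw [LinearMap.range_eq_top]
  intro z
  obtain ⟨v, hv⟩ := (LinearMap.equivOfDetNeZero _ h1).surjective (Complex.equivRealProdCLM z)
  refine ⟨v, ?_⟩
  have h3 : Complex.equivRealProdCLM (fderiv ℝ P p v) = Complex.equivRealProdCLM z := hv
  exact Complex.equivRealProdCLM.injective h3

/-- there is a regular value in `P '' U0` -/
private lemma e2_sard {W U0 : Set (ℝ × ℝ)} {P : ℝ × ℝ → ℂ} (hW : IsOpen W)
    (hP : ContDiffOn ℝ 1 P W) (hU : IsOpen U0) (hne : U0.Nonempty) (hUW : U0 ⊆ W)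
    (hJ : ∀ p ∈ U0, Jac P p ≠ 0) :
    ∃ u0 ∈ U0, ∀ p ∈ W, P p = P u0 → Jac P p ≠ 0 := by
  by_contra hcon
  push Not at hcon
  obtain ⟨p0, hp0⟩ := hne
  set f : ℝ × ℝ → ℝ × ℝ := fun p => Complex.equivRealProdCLM (P p) with hf
  set K : Set (ℝ × ℝ) := {p | p ∈ W ∧ Jac P p = 0} with hK
  have hdP : ∀ p ∈ W, HasStrictFDerivAt P (fderiv ℝ P p) p := fun p hp =>
    (hP.contDiffAt (hW.mem_nhds hp)).hasStrictFDerivAt (by simp)
  have hnull : volume (f '' K) = 0 := by
    apply addHaar_image_eq_zero_of_det_fderivWithin_eq_zero volume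
      (f' := fun p => (Complex.equivRealProdCLM : ℂ →L[ℝ] ℝ × ℝ).comp (fderiv ℝ P p))
    · intro p hp
      exact ((Complex.equivRealProdCLM : ℂ →L[ℝ] ℝ × ℝ).hasFDerivAt.comp p
        (hdP p hp.1).hasFDerivAt).hasFDerivWithinAt
    · intro p hp
      rw [e2_det]
      exact hp.2
  have hsub : f '' U0 ⊆ f '' K := by
    rintro _ ⟨u, hu, rfl⟩
    obtain ⟨p, hpW, hpe, hpJ⟩ := hcon u hu
    exact ⟨p, ⟨hpW, hpJ⟩, by simp only [hf, hpe]⟩
  have hmem : f '' U0 ∈ 𝓝 (f p0) := by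
    have h1 := (hdP p0 (hUW hp0)).map_nhds_eq_of_surj (e2_surj (hJ p0 hp0))
    have h2 : P '' U0 ∈ 𝓝 (P p0) := by
      rw [← h1]
      exact Filter.image_mem_map (hU.mem_nhds hp0)
    have h3 : f '' U0 = Complex.equivRealProdCLM '' (P '' U0) := by
      rw [Set.image_image]
    rw [h3]
    exact (Complex.equivRealProdCLM.toHomeomorph.isOpenMap).image_mem_nhds h2
  have hpos := Measure.measure_pos_of_mem_nhds (volume : Measure (ℝ × ℝ)) hmem
  exact absurd (measure_mono_null hsub hnull) hpos.ne'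

/-- finite unions of relatively closed sets with an open set inside -/
private lemma e2_baire {n : ℕ} (G : Fin n → ℂ → (Fin 3 → ℂ)) {B : Set ℂ}
    (hG : ∀ j, ContinuousOn (G j) B) (J : Finset (Fin n)) :
    ∀ O : Set ℂ, IsOpen O → O.Nonempty → O ⊆ B → (∀ z ∈ O, ∃ j ∈ J, G j z = 0) →
    ∃ j ∈ J, ∃ O' : Set ℂ, IsOpen O' ∧ O'.Nonempty ∧ O' ⊆ O ∧ ∀ z ∈ O', G j z = 0 := by
  classical
  induction J using Finset.induction_on with
  | empty =>
    intro O _ hne _ h
    obtain ⟨z, hz⟩ := hne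
    obtain ⟨j, hj, _⟩ := h z hz
    simp at hj
  | insert j J _ ih =>
    intro O hO hne hOB h
    by_cases hc : ∀ z ∈ O, G j z = 0
    · exact ⟨j, Finset.mem_insert_self _ _, O, hO, hne, subset_rfl, hc⟩
    · push Not at hc
      obtain ⟨z0, hz0, hz0'⟩ := hc
      have hopen : IsOpen (O ∩ G j ⁻¹' ({0}ᶜ)) :=
        ((hG j).mono hOB).isOpen_inter_preimage hO isOpen_compl_singleton
      obtain ⟨i, hi, O', h1, h2, h3, h4⟩ := ih (O ∩ G j ⁻¹' ({0}ᶜ)) hopen ⟨z0, hz0, hz0'⟩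
        (inter_subset_left.trans hOB) (by
          intro z hz
          obtain ⟨i, hi, hi'⟩ := h z hz.1
          rcases Finset.mem_insert.mp hi with rfl | hi
          · exact absurd hi' hz.2
          · exact ⟨i, hi, hi'⟩)
      exact ⟨i, Finset.mem_insert_of_mem hi, O', h1, h2, h3.trans inter_subset_left, h4⟩

/-- the class of functions `a` with `da ∧ dP = 0` -/
private def E2G (W : Set (ℝ × ℝ)) (P a : ℝ × ℝ → ℂ) : Prop :=
  ContDiffOn ℝ 1 a W ∧ ∀ p ∈ W, px a p * py P p = py a p * px P p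

private lemma e2_one {W : Set (ℝ × ℝ)} {P : ℝ × ℝ → ℂ} : E2G W P 1 := by
  refine ⟨contDiffOn_const, fun p _ => ?_⟩
  simp only [px, py]
  have : fderiv ℝ (1 : ℝ × ℝ → ℂ) p = 0 := by
    have : (1 : ℝ × ℝ → ℂ) = fun _ => (1 : ℂ) := rfl
    rw [this]; simp
  simp [this]

private lemma e2_mul {W : Set (ℝ × ℝ)} {P a b : ℝ × ℝ → ℂ} (hW : IsOpen W) (ha : E2G W P a)
    (hb : E2G W P b) : E2G W P (a * b) := by
  refine ⟨ha.1.mul hb.1, fun p hp => ?_⟩
  have h1 : DifferentiableAt ℝ a p :=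
    (ha.1.contDiffAt (hW.mem_nhds hp)).differentiableAt (by simp)
  have h2 : DifferentiableAt ℝ b p :=
    (hb.1.contDiffAt (hW.mem_nhds hp)).differentiableAt (by simp)
  have e1 := ha.2 p hp
  have e2 := hb.2 p hp
  simp only [px, py] at e1 e2 ⊢
  rw [fderiv_mul h1 h2]
  simp only [_root_.add_apply, _root_.smul_apply, smul_eq_mul]
  linear_combination (b p) * e1 + (a p) * e2

private lemma e2_aff {W : Set (ℝ × ℝ)} {P a : ℝ × ℝ → ℂ} (hW : IsOpen W) (ha : E2G W P a)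
    (s t : ℂ) : E2G W P (fun p => (a p - s) * t) := by
  refine ⟨(ha.1.sub contDiffOn_const).mul contDiffOn_const, fun p hp => ?_⟩
  have h1 : DifferentiableAt ℝ a p :=
    (ha.1.contDiffAt (hW.mem_nhds hp)).differentiableAt (by simp)
  have e1 := ha.2 p hp
  simp only [px, py] at e1 ⊢
  have h2 : fderiv ℝ (fun p => (a p - s) * t) p = t • fderiv ℝ a p := by
    have h3 : (fun p => (a p - s) * t) = t • (fun p => a p - s) := by
      ext q
      simp [mul_comm]
    rw [h3, fderiv_const_smul (h1.sub_const s), fderiv_sub_const]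
  rw [h2]
  simp only [_root_.smul_apply, smul_eq_mul]
  linear_combination t * e1

/-- the derivative along a section -/
private lemma e2_der {W : Set (ℝ × ℝ)} {P X : ℝ × ℝ → ℂ} {s : ℂ → ℝ × ℝ} {B : Set ℂ} {z : ℂ}
    (hW : IsOpen W) (hP : ContDiffOn ℝ 1 P W) (hX : E2G W P X) (hB : IsOpen B) (hz : z ∈ B)
    (hs : ContDiffOn ℝ 1 s B) (hsW : ∀ z ∈ B, s z ∈ W ∧ P (s z) = z ∧ Jac P (s z) ≠ 0) :
    fderiv ℝ (fun z => X (s z)) z 1 * px P (s z) = px X (s z) := by
  obtain ⟨h1, h2, h3⟩ := hsW z hz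
  have hds : HasFDerivAt s (fderiv ℝ s z) z :=
    ((hs.contDiffAt (hB.mem_nhds hz)).differentiableAt (by simp)).hasFDerivAt
  have hdP : HasFDerivAt P (fderiv ℝ P (s z)) (s z) :=
    ((hP.contDiffAt (hW.mem_nhds h1)).differentiableAt (by simp)).hasFDerivAt
  have hdX : HasFDerivAt X (fderiv ℝ X (s z)) (s z) :=
    ((hX.1.contDiffAt (hW.mem_nhds h1)).differentiableAt (by simp)).hasFDerivAt
  have hPs : HasFDerivAt (fun z => P (s z)) ((fderiv ℝ P (s z)).comp (fderiv ℝ s z)) z :=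
    hdP.comp z hds
  have hXs : HasFDerivAt (fun z => X (s z)) ((fderiv ℝ X (s z)).comp (fderiv ℝ s z)) z :=
    hdX.comp z hds
  have hid : (fderiv ℝ P (s z)).comp (fderiv ℝ s z) = ContinuousLinearMap.id ℝ ℂ := by
    apply HasFDerivAt.unique hPs
    apply (hasFDerivAt_id (𝕜 := ℝ) z).congr_of_eventuallyEq
    filter_upwards [hB.mem_nhds hz] with w hw
    exact (hsW w hw).2.1
  rw [hXs.fderiv]
  set v : ℝ × ℝ := fderiv ℝ s z 1 with hv
  have hv1 : fderiv ℝ P (s z) v = 1 := by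
    have := congrArg (fun L : ℂ →L[ℝ] ℂ => L 1) hid
    simpa [hv] using this
  have hdec : ∀ L : ℝ × ℝ →L[ℝ] ℂ, L v = (v.1 : ℂ) * L (1, 0) + (v.2 : ℂ) * L (0, 1) := by
    intro L
    have : v = v.1 • (1, 0) + v.2 • ((0, 1) : ℝ × ℝ) := by
      ext <;> simp
    conv_lhs => rw [this]
    rw [map_add, map_smul, map_smul]
    simp
  have e := hX.2 (s z) h1
  have g1 := hdec (fderiv ℝ P (s z))
  have g2 := hdec (fderiv ℝ X (s z))
  rw [hv1] at g1
  have g3 : ((fderiv ℝ X (s z)).comp (fderiv ℝ s z)) 1 = fderiv ℝ X (s z) v := rfl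
  rw [g3, g2]
  simp only [px, py] at e ⊢
  linear_combination (-(v.2 : ℂ)) * e - fderiv ℝ X (s z) (1, 0) * g1

theorem p_E2D (h1 : S_STK) (h2 : S_DEG) : S_E2D := by
  classical
  intro W U0 P X c M hW hP hX hXP hc hM hcpt hU hUne hUW hJ
  obtain ⟨u0, hu0, hreg⟩ := e2_sard hW hP hU hUne hUW hJ
  set z0 := P u0 with hz0
  have hcz0 : c < z0.re := hc u0 (hUW hu0)
  set r0 : ℝ := (z0.re - c) / 2 with hr0
  have hr0p : 0 < r0 := by rw [hr0]; linarith
  have hK' := hcpt ((c + z0.re) / 2) (by linarith)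
  have hK : IsCompact {p | p ∈ W ∧ P p ∈ Metric.closedBall z0 r0} := by
    have hcl : IsClosed ({p | p ∈ W ∧ (c + z0.re) / 2 ≤ (P p).re} ∩
        P ⁻¹' (Metric.closedBall z0 r0)) :=
      (hP.continuousOn.mono (fun p hp => hp.1)).preimage_isClosed_of_isClosed hK'.isClosed
        Metric.isClosed_closedBall
    have he : {p | p ∈ W ∧ P p ∈ Metric.closedBall z0 r0} =
        {p | p ∈ W ∧ (c + z0.re) / 2 ≤ (P p).re} ∩ P ⁻¹' (Metric.closedBall z0 r0) := by
      ext p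
      constructor
      · rintro ⟨hp, hp'⟩
        refine ⟨⟨hp, ?_⟩, hp'⟩
        have h3 : ‖P p - z0‖ ≤ r0 := by
          rw [← dist_eq_norm]; exact hp'
        have h4 := (Complex.abs_re_le_norm (P p - z0)).trans h3
        rw [Complex.sub_re] at h4
        have h5 := (abs_le.mp h4).1
        rw [hr0] at h5
        linarith
      · rintro ⟨hp, hp'⟩
        exact ⟨hp.1, hp'⟩
    rw [he]
    exact hK'.of_isClosed_subset hcl inter_subset_left
  obtain ⟨n, s, r, hr, hsC, hsP, hsU⟩ := h1 W P z0 r0 hW hP hr0p hK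
    (fun p hp hpe => hreg p hp hpe)
  have hz0B : z0 ∈ Metric.ball z0 r := Metric.mem_ball_self hr
  obtain ⟨j0, hj0, -⟩ := hsU z0 hz0B u0 (hUW hu0) rfl
  have hj0' : s j0 z0 = u0 := hj0
  set B : Set ℂ := Metric.ball z0 r ∩ s j0 ⁻¹' U0 with hB
  have hBo : IsOpen B := (hsC j0).continuousOn.isOpen_inter_preimage Metric.isOpen_ball hU
  have hBne : B.Nonempty := ⟨z0, hz0B, by rw [mem_preimage, hj0']; exact hu0⟩
  have hinj : ∀ z ∈ Metric.ball z0 r, ∀ i j, s i z = s j z → i = j := by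
    intro z hz i j hij
    obtain ⟨k, hk, hku⟩ := hsU z hz (s i z) (hsP i z hz).1 (hsP i z hz).2.1
    rw [hku i rfl, hku j hij.symm]
  have hXG : ∀ i, E2G W P (X i) := fun i => ⟨hX i, hXP i⟩
  -- step D
  have hD : ∀ z ∈ B, ∃ j ∈ Finset.univ.erase j0,
      (fun i => X i (s j z) - X i (s j0 z)) = (0 : Fin 3 → ℂ) := by
    intro z hz
    by_contra hcon
    push Not at hcon
    have hex : ∀ j, ∃ i, j ≠ j0 → X i (s j z) ≠ X i (s j0 z) := by
      intro j
      by_cases hj : j = j0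
      · exact ⟨0, fun h => absurd hj h⟩
      · have := hcon j (Finset.mem_erase.mpr ⟨hj, Finset.mem_univ _⟩)
        obtain ⟨i, hi⟩ := Function.ne_iff.mp this
        exact ⟨i, fun _ => by simpa [sub_eq_zero] using hi⟩
    choose ι hι using hex
    set a : ℝ × ℝ → ℂ := ∏ j ∈ Finset.univ.erase j0,
      (fun p => (X (ι j) p - X (ι j) (s j z)) * (X (ι j) (s j0 z) - X (ι j) (s j z))⁻¹) with ha
    have haG : E2G W P a := by
      rw [ha]
      apply Finset.prod_induction _ (E2G W P)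
      · intro x y hx hy; exact e2_mul hW hx hy
      · exact e2_one
      · intro j _; exact e2_aff hW (hXG (ι j)) _ _
    have haval : ∀ p, a p = ∏ j ∈ Finset.univ.erase j0,
        (X (ι j) p - X (ι j) (s j z)) * (X (ι j) (s j0 z) - X (ι j) (s j z))⁻¹ := by
      intro p
      rw [ha, Finset.prod_apply]
    have ha0 : ∀ j, j ≠ j0 → a (s j z) = 0 := by
      intro j hj
      rw [haval]
      apply Finset.prod_eq_zero (Finset.mem_erase.mpr ⟨hj, Finset.mem_univ _⟩)
      simp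
    have ha1 : a (s j0 z) = 1 := by
      rw [haval]
      apply Finset.prod_eq_one
      intro j hj
      exact mul_inv_cancel₀ (sub_ne_zero.mpr (hι j (Finset.mem_erase.mp hj).1).symm)
    have hzr := hz.1
    have hcz : c < z.re := by
      have := hc _ (hsP j0 z hzr).1
      rwa [(hsP j0 z hzr).2.1] at this
    have hdeg := h2 W P a c M z (Finset.univ.image (fun j => s j z)) hW hP haG.1 haG.2 hM hcpt hcz
      (by
        intro p
        rw [Finset.mem_image]
        constructor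
        · rintro ⟨j, -, rfl⟩
          exact ⟨(hsP j z hzr).1, (hsP j z hzr).2.1⟩
        · rintro ⟨hp, hp'⟩
          obtain ⟨j, hj, -⟩ := hsU z hzr p hp hp'
          exact ⟨j, Finset.mem_univ _, hj⟩)
      (by
        intro p hp
        rw [Finset.mem_image] at hp
        obtain ⟨j, -, rfl⟩ := hp
        exact (hsP j z hzr).2.2)
    rw [Finset.sum_image (fun i _ j _ hij => hinj z hzr i j hij)] at hdeg
    rw [Finset.sum_eq_single j0] at hdeg
    · rw [ha1, mul_one] at hdeg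
      have hJ0 := (hsP j0 z hzr).2.2
      have : (Jac P (s j0 z) / |Jac P (s j0 z)| : ℝ) ≠ 0 :=
        div_ne_zero hJ0 (abs_ne_zero.mpr hJ0)
      exact this (by exact_mod_cast hdeg)
    · intro j _ hj
      rw [ha0 j hj, mul_zero]
    · intro h; exact absurd (Finset.mem_univ _) h
  have hcont : ∀ j, ContinuousOn (fun z => (fun i => X i (s j z) - X i (s j0 z) : Fin 3 → ℂ)) B := by
    intro j
    apply continuousOn_pi.mpr
    intro i
    have hc1 : ∀ k, ContinuousOn (fun z => X i (s k z)) B := fun k =>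
      (hX i).continuousOn.comp ((hsC k).continuousOn.mono inter_subset_left)
        (fun z hz => (hsP k z hz.1).1)
    exact (hc1 j).sub (hc1 j0)
  obtain ⟨j, hj, O, hO, hOne, hOB, hOz⟩ := e2_baire
    (fun j z => (fun i => X i (s j z) - X i (s j0 z) : Fin 3 → ℂ)) hcont
    (Finset.univ.erase j0) B hBo hBne subset_rfl hD
  obtain ⟨z, hz⟩ := hOne
  have hzB := hOB hz
  have hzr := hzB.1
  have hj' := (Finset.mem_erase.mp hj).1
  refine ⟨s j0 z, hzB.2, s j z, (hsP j z hzr).1, ?_, (hsP j z hzr).2.2, ?_, ?_⟩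
  · intro he
    exact hj' (hinj z hzr j j0 he)
  · intro i
    have := congrFun (hOz z hz) i
    exact sub_eq_zero.mp this
  · intro i
    have hev : (fun w => X i (s j w)) =ᶠ[𝓝 z] (fun w => X i (s j0 w)) := by
      filter_upwards [hO.mem_nhds hz] with w hw
      exact sub_eq_zero.mp (congrFun (hOz w hw) i)
    have hfe := hev.fderiv_eq (𝕜 := ℝ)
    have d1 := e2_der hW hP (hXG i) Metric.isOpen_ball hzr (hsC j) (hsP j)
    have d0 := e2_der hW hP (hXG i) Metric.isOpen_ball hzr (hsC j0) (hsP j0)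
    rw [hfe] at d1
    rw [← d1, ← d0]
    ring

end Pool.Agent.HH
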