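import Pool.Agent.Lib.MP_7dc3d9_gt.ThA.Stm

set_option autoImplicit false

namespace Pool.Agent.HH

open Complex Set MeasureTheory Topology

private theorem e3d_ext (A B : E3 →L[ℝ] ℂ) (h : ∀ j, A (ev j) = B (ev j)) : A = B := by
  apply ContinuousLinearMap.coe_injective
  refine (EuclideanSpace.basisFun (Fin 3) ℝ).toBasis.ext fun j => ?_
  have := h j
  simpa [ev] using this

private theorem e3d_ker (w : E3 →L[ℝ] ℂ) (v1 v2 x y : E3)
    (h : ((starRingEnd ℂ) (w v1) * w v2).im ≠ 0) (hx : x ≠ 0) (hwx : w x = 0) (hwy : w y = 0) :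
    ∃ t : ℝ, y = t • x := by
  have hD : (w v1).re * (w v2).im - (w v1).im * (w v2).re ≠ 0 := by
    intro h0
    apply h
    rw [Complex.mul_im, Complex.conj_re, Complex.conj_im]
    linarith
  have hsurj : Function.Surjective (w : E3 →ₗ[ℝ] ℂ) := by
    intro z
    obtain ⟨D, hDd⟩ : ∃ D, D = (w v1).re * (w v2).im - (w v1).im * (w v2).re := ⟨_, rfl⟩
    rw [← hDd] at hD
    refine ⟨((z.re * (w v2).im - z.im * (w v2).re) / D) • v1
      + (((w v1).re * z.im - (w v1).im * z.re) / D) • v2, ?_⟩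
    rw [map_add, map_smul, map_smul]
    apply Complex.ext
    · simp only [ContinuousLinearMap.coe_coe, Complex.add_re, Complex.real_smul,
        Complex.re_ofReal_mul]
      field_simp
      rw [hDd]
      ring
    · simp only [ContinuousLinearMap.coe_coe, Complex.add_im, Complex.real_smul,
        Complex.im_ofReal_mul]
      field_simp
      rw [hDd]
      ring
  have hker : Module.finrank ℝ (LinearMap.ker (w : E3 →ₗ[ℝ] ℂ)) = 1 := by
    have h1 := LinearMap.finrank_range_add_finrank_ker (w : E3 →ₗ[ℝ] ℂ)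
    rw [LinearMap.range_eq_top.2 hsurj, finrank_top, Complex.finrank_real_complex,
      finrank_euclideanSpace_fin] at h1
    omega
  have hne : (⟨x, hwx⟩ : LinearMap.ker (w : E3 →ₗ[ℝ] ℂ)) ≠ 0 := by
    intro h0
    exact hx (congrArg Subtype.val h0)
  obtain ⟨t, ht⟩ := (finrank_eq_one_iff_of_nonzero' _ hne).1 hker ⟨y, hwy⟩
  exact ⟨t, (congrArg Subtype.val ht).symm⟩

private theorem e3d_der (H : E3 → ℂ) (σ : ℝ × ℝ → E3) (p : ℝ × ℝ) (b : E3)
    (hs : DifferentiableAt ℝ σ p) (hd : DifferentiableAt ℝ (fderiv ℝ H) (σ p)) :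
    HasFDerivAt (fun q => fderiv ℝ H (σ q) b)
      (((fderiv ℝ (fderiv ℝ H) (σ p)).comp (fderiv ℝ σ p)).flip b) p := by
  have h1 : HasFDerivAt (fun q => fderiv ℝ H (σ q))
      ((fderiv ℝ (fderiv ℝ H) (σ p)).comp (fderiv ℝ σ p)) p :=
    hd.hasFDerivAt.comp p hs.hasFDerivAt
  have h2 := h1.clm_apply (hasFDerivAt_const b p)
  refine h2.congr_fderiv ?_
  rw [ContinuousLinearMap.comp_zero, zero_add]

theorem p_E3D (h1 : S_BAS) (h2 : S_ONB) (h3 : S_SIG) (h4 : S_E2D) : S_E3D := by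
  intro H i θ c V U0 k0 hH hθ hV hVc hVcone hVrel hk0 hk0V hU0 hU0ne hU0V hU0cone hU0rank
  obtain ⟨b1, b2, b3, b4, b5, b6, b7, b8, b9⟩ := h1 H hH
  have hO : IsOpen {x : E3 | x ≠ 0} := isOpen_ne
  -- normalise `k`
  have hk0n : 0 < ‖k0‖ := norm_pos_iff.2 hk0
  obtain ⟨k, hk⟩ : ∃ k, k = ‖k0‖⁻¹ • k0 := ⟨_, rfl⟩
  have hk1 : ‖k‖ = 1 := by
    rw [hk, norm_smul, norm_inv, norm_norm, inv_mul_cancel₀ hk0n.ne']
  have hkV : k ∉ V := by
    intro h
    have := hVcone k h ‖k0‖ hk0n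
    rw [hk, smul_smul, mul_inv_cancel₀ hk0n.ne', one_smul] at this
    exact hk0V this
  obtain ⟨e, f, hon⟩ := h2.1 k hk1
  obtain ⟨s1, ⟨s2, s2'⟩, s3, s4, s5, s6⟩ := h3 e f k hon
  obtain ⟨σ, hσ⟩ : ∃ σ, σ = sig e f k := ⟨_, rfl⟩
  rw [← hσ] at s1 s2 s2' s3 s4 s5 s6
  have hσc : Continuous σ := s2.continuous
  have hσd : ∀ p, DifferentiableAt ℝ σ p := fun p => s2.differentiable (by simp) p
  have hd2 : ∀ x : E3, x ≠ 0 → DifferentiableAt ℝ (fderiv ℝ H) x :=
    fun x hx => (b6.contDiffAt (hO.mem_nhds hx)).differentiableAt (by norm_num)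
  -- the functions
  have hX : ∀ j p, HasFDerivAt (fun q => fderiv ℝ H (σ q) (ev j))
      (((fderiv ℝ (fderiv ℝ H) (σ p)).comp (fderiv ℝ σ p)).flip (ev j)) p :=
    fun j p => e3d_der H σ p (ev j) (hσd p) (hd2 _ (s1 p))
  have hP : ∀ p, HasFDerivAt (fun q => θ * fderiv ℝ H (σ q) (ev i))
      (θ • (((fderiv ℝ (fderiv ℝ H) (σ p)).comp (fderiv ℝ σ p)).flip (ev i))) p :=
    fun p => (hX i p).const_mul θ
  obtain ⟨X, hXd⟩ : ∃ X : Fin 3 → ℝ × ℝ → ℂ, X = fun j q => fderiv ℝ H (σ q) (ev j) := ⟨_, rfl⟩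
  obtain ⟨P, hPd⟩ : ∃ P : ℝ × ℝ → ℂ, P = fun q => θ * fderiv ℝ H (σ q) (ev i) := ⟨_, rfl⟩
  have pxX : ∀ j p, px (X j) p = D2 H (σ p) (fderiv ℝ σ p (1, 0)) (ev j) := by
    intro j p
    rw [hXd]
    unfold px
    rw [(hX j p).fderiv]
    rfl
  have pyX : ∀ j p, py (X j) p = D2 H (σ p) (fderiv ℝ σ p (0, 1)) (ev j) := by
    intro j p
    rw [hXd]
    unfold py
    rw [(hX j p).fderiv]
    rfl
  have pxP : ∀ p, px P p = θ * D2 H (σ p) (fderiv ℝ σ p (1, 0)) (ev i) := by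
    intro p
    rw [hPd]
    unfold px
    rw [(hP p).fderiv]
    rfl
  have pyP : ∀ p, py P p = θ * D2 H (σ p) (fderiv ℝ σ p (0, 1)) (ev i) := by
    intro p
    rw [hPd]
    unfold py
    rw [(hP p).fderiv]
    rfl
  have hDHσ : ContDiff ℝ 1 (fun q => fderiv ℝ H (σ q)) := by
    rw [contDiff_iff_contDiffAt]
    intro p
    exact ((b6.contDiffAt (hO.mem_nhds (s1 p))).comp p ((s2.of_le (by simp)).contDiffAt))
  have hXc : ∀ j, ContDiff ℝ 1 (X j) := by
    intro j
    rw [hXd]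
    exact hDHσ.clm_apply contDiff_const
  have hPc : ContDiff ℝ 1 P := by
    rw [hPd]
    exact contDiff_const.mul (hDHσ.clm_apply contDiff_const)
  obtain ⟨M, hM⟩ := b9
  have hρ0 : ∀ x : E3, x ≠ 0 → ∀ t : ℝ, 0 < t →
      (θ * fderiv ℝ H (t • x) (ev i)).re = (θ * fderiv ℝ H x (ev i)).re := by
    intro x hx t ht
    rw [b1 x hx t ht]
  have hρc : ContinuousOn (fun x => (θ * fderiv ℝ H x (ev i)).re) {x : E3 | x ≠ 0} := by
    refine Complex.continuous_re.comp_continuousOn ?_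
    refine continuousOn_const.mul ?_
    exact b6.continuousOn.clm_apply continuousOn_const
  have hJ : ∀ p ∈ σ ⁻¹' U0, Jac P p ≠ 0 := by
    intro p hp
    have hL : (θ • ((fderiv ℝ (fderiv ℝ H) (σ p)).flip (ev i))) (σ p) = 0 := by
      have := (b4 (σ p) (s1 p) (ev i)).1
      unfold D2 at this
      simp only [ContinuousLinearMap.smul_apply, ContinuousLinearMap.flip_apply, smul_eq_mul, this,
        mul_zero]
    obtain ⟨v, w, hvw⟩ := hU0rank (σ p) hp
    have h6 := s6 p (θ • ((fderiv ℝ (fderiv ℝ H) (σ p)).flip (ev i))) hL ⟨v, w, ?_⟩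
    · unfold Jac
      rw [pxP, pyP, (s2' p).1, (s2' p).2]
      exact h6
    · have e1 : ((starRingEnd ℂ) ((θ • ((fderiv ℝ (fderiv ℝ H) (σ p)).flip (ev i))) v)
          * (θ • ((fderiv ℝ (fderiv ℝ H) (σ p)).flip (ev i))) w)
          = ((Complex.normSq θ : ℝ) : ℂ)
            * ((starRingEnd ℂ) (D2 H (σ p) v (ev i)) * D2 H (σ p) w (ev i)) := by
        unfold D2
        simp only [ContinuousLinearMap.smul_apply, ContinuousLinearMap.flip_apply, smul_eq_mul,
          map_mul]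
        rw [← Complex.mul_conj θ]
        ring
      rw [e1, Complex.im_ofReal_mul]
      exact mul_ne_zero (fun h => hθ (Complex.normSq_eq_zero.1 h)) hvw
  -- apply E2D
  obtain ⟨u, hu, v, hv, hvu, hJv, hXX, hpx⟩ := h4 (σ ⁻¹' V) (σ ⁻¹' U0) P X c (‖θ‖ * (M * ‖ev i‖))
    (hV.preimage hσc) hPc.contDiffOn (fun j => (hXc j).contDiffOn)
    (by
      intro j p hp
      obtain ⟨w, hw⟩ := hH.rank1 (σ p) (s1 p)
      rw [pxX, pyX, pxP, pyP, hw, hw, hw, hw]
      ring)
    (by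
      intro p hp
      rw [hPd]
      exact (hVc (σ p) hp).2)
    (by
      intro p hp
      rw [hPd]
      simp only [norm_mul]
      refine mul_le_mul_of_nonneg_left ?_ (norm_nonneg θ)
      exact (fderiv ℝ H (σ p)).le_of_opNorm_le (hM _ (s1 p)) (ev i))
    (by
      intro c' hc'
      have h5 := s5 {x : E3 | x ∈ V ∧ c' ≤ (θ * fderiv ℝ H x (ev i)).re} ?_ ?_ ?_
      · convert h5 using 1
        ext p
        rw [hPd]
        rfl
      · rintro x ⟨hx1, hx2⟩ t ht
        refine ⟨hVcone x hx1 t ht, ?_⟩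
        rw [hρ0 x (hVc x hx1).1 t ht]
        exact hx2
      · intro x hx hxcl
        have hxV : x ∈ closure V := closure_mono (fun y hy => hy.1) hxcl
        have hxc : c' ≤ (θ * fderiv ℝ H x (ev i)).re := by
          have hat : ContinuousAt (fun x => (θ * fderiv ℝ H x (ev i)).re) x :=
            hρc.continuousAt (hO.mem_nhds hx)
          by_contra hlt
          push Not at hlt
          have hev := hat.eventually (gt_mem_nhds hlt)
          obtain ⟨y, hy1, hy2⟩ := (mem_closure_iff_frequently.1 hxcl).and_eventually hev |>.exists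
          exact absurd hy1.2 (not_le.2 hy2)
        exact ⟨hVrel x hx (lt_of_lt_of_le hc' hxc) hxV, hxc⟩
      · exact fun h => hkV h.1)
    (hU0.preimage hσc)
    (by
      obtain ⟨x, hx⟩ := hU0ne
      have hxV := hU0V hx
      obtain ⟨p, t, ht, hpt⟩ := s4 x (hVc x hxV).1 (by
        intro t ht hxt
        apply hkV
        have := hVcone x hxV t⁻¹ (inv_pos.2 ht)
        rwa [hxt, smul_smul, inv_mul_cancel₀ ht.ne', one_smul] at this)
      refine ⟨p, ?_⟩
      rw [mem_preimage, hpt]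
      exact hU0cone x hx t ht)
    (fun p hp => hU0V hp) hJ
  have hJu := hJ u hu
  -- the two points
  obtain ⟨wx, hwx⟩ := hH.rank1 (σ u) (s1 u)
  obtain ⟨wy, hwy⟩ := hH.rank1 (σ v) (s1 v)
  have hDH : fderiv ℝ H (σ v) = fderiv ℝ H (σ u) := by
    refine e3d_ext _ _ fun j => ?_
    have := hXX j
    rw [hXd] at this
    exact this
  have hPu : px P u ≠ 0 := by
    intro h0
    apply hJu
    unfold Jac
    rw [h0]
    simp
  have hPv : px P v ≠ 0 := by
    intro h0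
    apply hJv
    unfold Jac
    rw [h0]
    simp
  rw [pxP, hwx] at hPu
  rw [pxP, hwy] at hPv
  have hu1 : wx (fderiv ℝ σ u (1, 0)) ≠ 0 := fun h0 => hPu (by rw [h0]; ring)
  have hu2 : wx (ev i) ≠ 0 := fun h0 => hPu (by rw [h0]; ring)
  have hv1 : wy (fderiv ℝ σ v (1, 0)) ≠ 0 := fun h0 => hPv (by rw [h0]; ring)
  have hv2 : wy (ev i) ≠ 0 := fun h0 => hPv (by rw [h0]; ring)
  have hprop : ∀ j, wx (ev j) * wy (ev i) = wy (ev j) * wx (ev i) := by
    intro j
    have h5 := hpx j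
    rw [pxX, pxX, pxP, pxP, hwx, hwx, hwy, hwy] at h5
    have h6 : wx (fderiv ℝ σ u (1, 0)) * wy (fderiv ℝ σ v (1, 0)) * θ ≠ 0 :=
      mul_ne_zero (mul_ne_zero hu1 hv1) hθ
    apply mul_left_cancel₀ h6
    linear_combination h5
  have hwyx : wy = (wy (ev i) / wx (ev i)) • wx := by
    refine e3d_ext _ _ fun j => ?_
    have := hprop j
    simp only [ContinuousLinearMap.smul_apply, smul_eq_mul]
    field_simp
    linear_combination -this
  have hxx : wx (σ u) = 0 := by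
    have := (b4 (σ u) (s1 u) (σ u)).1
    rw [hwx] at this
    exact mul_self_eq_zero.1 this
  have hyy : wy (σ v) = 0 := by
    have := (b4 (σ v) (s1 v) (σ v)).1
    rw [hwy] at this
    exact mul_self_eq_zero.1 this
  have hxy : wx (σ v) = 0 := by
    rw [hwyx, ContinuousLinearMap.smul_apply, smul_eq_mul] at hyy
    rcases mul_eq_zero.1 hyy with h5 | h5
    · exact absurd h5 (div_ne_zero hv2 hu2)
    · exact h5
  obtain ⟨v1, v2, hrk⟩ := hU0rank (σ u) hu
  have hrk' : ((starRingEnd ℂ) (wx v1) * wx v2).im ≠ 0 := by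
    intro h0
    apply hrk
    rw [hwx, hwx]
    have e1 : (starRingEnd ℂ) (wx v1 * wx (ev i)) * (wx v2 * wx (ev i))
        = ((Complex.normSq (wx (ev i)) : ℝ) : ℂ) * ((starRingEnd ℂ) (wx v1) * wx v2) := by
      rw [map_mul, ← Complex.mul_conj]
      ring
    rw [e1, Complex.im_ofReal_mul, h0, mul_zero]
  obtain ⟨t, ht⟩ := e3d_ker wx v1 v2 (σ u) (σ v) hrk' (s1 u) hxx hxy
  have ht0 : t ≠ 0 := by
    intro h0
    rw [h0, zero_smul] at ht
    exact s1 v ht
  have htneg : t < 0 := by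
    rcases lt_or_gt_of_ne ht0 with h5 | h5
    · exact h5
    · exact absurd (s3 v u t h5 ht) hvu
  have hneg : -(σ u) = (-t⁻¹) • σ v := by
    rw [ht, smul_smul, neg_mul, inv_mul_cancel₀ ht0, neg_one_smul]
  have hpos : 0 < -t⁻¹ := by
    have := inv_lt_zero.2 htneg
    linarith
  refine ⟨σ u, hu, ?_, ?_⟩
  · rw [hneg]
    exact hVcone _ hv _ hpos
  · rw [hneg, b1 _ (s1 v) _ hpos, hDH]

end Pool.Agent.HH
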