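import Pool.Agent.Lib.MP_7dc3d9_gt.ThA.Stm

set_option autoImplicit false

namespace Pool.Agent.HH

open Complex Set MeasureTheory Topology

private theorem even_ext (A B : E3 →L[ℝ] ℂ) (h : ∀ j, A (ev j) = B (ev j)) : A = B := by
  apply ContinuousLinearMap.coe_injective
  refine (EuclideanSpace.basisFun (Fin 3) ℝ).toBasis.ext fun j => ?_
  have := h j
  simpa [ev] using this

private theorem even_a (h1 : S_BAS) (h3 : S_E3D) (H : E3 → ℂ) (hH : IsNull H) (i : Fin 3)
    (x1 : E3) (hx1 : x1 ≠ 0)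
    (hr : ∃ v w : E3, ((starRingEnd ℂ) (D2 H x1 v (ev i)) * D2 H x1 w (ev i)).im ≠ 0) :
    fderiv ℝ H (-x1) = fderiv ℝ H x1 := by
  obtain ⟨b1, b2, b3, b4, b5, b6, b7, b8, b9⟩ := h1 H hH
  have hO : IsOpen {x : E3 | x ≠ 0} := isOpen_ne
  by_contra hne
  have hDc : ∀ x : E3, x ≠ 0 → ContinuousAt (fderiv ℝ H) x :=
    fun x hx => b6.continuousOn.continuousAt (hO.mem_nhds hx)
  have hD2c : ∀ x : E3, x ≠ 0 → ∀ a b : E3, ContinuousAt (fun y => D2 H y a b) x := by
    intro x hx a b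
    exact ((b7.continuousAt (hO.mem_nhds hx)).clm_apply continuousAt_const).clm_apply
      continuousAt_const
  have hρc : ∀ x : E3, x ≠ 0 → ContinuousAt (fun x => ((1 : ℂ) * fderiv ℝ H x (ev i)).re) x := by
    intro x hx
    exact Complex.continuous_re.continuousAt.comp
      (continuousAt_const.mul ((hDc x hx).clm_apply continuousAt_const))
  -- a point `k` near `x1` with a smaller real part
  obtain ⟨k, hk0, hk⟩ : ∃ k : E3, k ≠ 0 ∧
      ((1 : ℂ) * fderiv ℝ H k (ev i)).re < ((1 : ℂ) * fderiv ℝ H x1 (ev i)).re := by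
    by_contra hcon
    push Not at hcon
    have hmin : IsLocalMin (fun x => ((1 : ℂ) * fderiv ℝ H x (ev i)).re) x1 := by
      filter_upwards [hO.mem_nhds hx1] with k hk using hcon k hk
    have hder : HasFDerivAt (fun x => ((1 : ℂ) * fderiv ℝ H x (ev i)).re)
        (Complex.reCLM.comp ((fderiv ℝ (fderiv ℝ H) x1).flip (ev i))) x1 := by
      have e1 : HasFDerivAt (fun x => fderiv ℝ H x (ev i))
          ((fderiv ℝ (fderiv ℝ H) x1).flip (ev i)) x1 := by
        have hd2 : HasFDerivAt (fderiv ℝ H) (fderiv ℝ (fderiv ℝ H) x1) x1 :=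
          ((b6.contDiffAt (hO.mem_nhds hx1)).differentiableAt (by norm_num)).hasFDerivAt
        have e2 := hd2.clm_apply (hasFDerivAt_const (ev i) x1)
        refine e2.congr_fderiv ?_
        rw [ContinuousLinearMap.comp_zero, zero_add]
      have e3 : (fun x => ((1 : ℂ) * fderiv ℝ H x (ev i)).re)
          = fun x => Complex.reCLM (fderiv ℝ H x (ev i)) := by
        funext x
        rw [one_mul]
        rfl
      rw [e3]
      exact Complex.reCLM.hasFDerivAt.comp x1 e1
    have h0 := hmin.hasFDerivAt_eq_zero hder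
    have h0' : ∀ b : E3, (D2 H x1 b (ev i)).re = 0 := fun b => DFunLike.congr_fun h0 b
    obtain ⟨v, w, hvw⟩ := hr
    apply hvw
    rw [Complex.mul_im, Complex.conj_re, Complex.conj_im, h0' v, h0' w]
    ring
  obtain ⟨c, hc⟩ : ∃ c, c = ((1 : ℂ) * fderiv ℝ H k (ev i)).re := ⟨_, rfl⟩
  rw [← hc] at hk
  have hρ0 : ∀ x : E3, x ≠ 0 → ∀ t : ℝ, 0 < t →
      ((1 : ℂ) * fderiv ℝ H (t • x) (ev i)).re = ((1 : ℂ) * fderiv ℝ H x (ev i)).re := by
    intro x hx t ht
    rw [b1 x hx t ht]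
  obtain ⟨u, hu, huV, hDu⟩ := h3 H i 1 c {x : E3 | x ≠ 0 ∧ c < ((1 : ℂ) * fderiv ℝ H x (ev i)).re}
    {x : E3 | (x ≠ 0 ∧ c < ((1 : ℂ) * fderiv ℝ H x (ev i)).re) ∧
      fderiv ℝ H (-x) - fderiv ℝ H x ≠ 0 ∧
      ∃ v w : E3, ((starRingEnd ℂ) (D2 H x v (ev i)) * D2 H x w (ev i)).im ≠ 0} k hH one_ne_zero
    (by
      rw [isOpen_iff_mem_nhds]
      rintro x ⟨hx, hxc⟩
      filter_upwards [hO.mem_nhds hx, (hρc x hx).eventually (lt_mem_nhds hxc)] with y hy1 hy2
      exact ⟨hy1, hy2⟩)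
    (fun x hx => hx)
    (by
      rintro x ⟨hx, hxc⟩ t ht
      refine ⟨smul_ne_zero ht.ne' hx, ?_⟩
      rw [hρ0 x hx t ht]
      exact hxc)
    (fun x hx hxc _ => ⟨hx, hxc⟩) hk0
    (by
      rintro ⟨-, h⟩
      rw [← hc] at h
      exact lt_irrefl _ h)
    (by
      rw [isOpen_iff_mem_nhds]
      rintro x ⟨⟨hx, hxc⟩, hxn, v, w, hvw⟩
      have hx' : -x ≠ 0 := neg_ne_zero.2 hx
      have c1 : ContinuousAt (fun y => fderiv ℝ H (-y) - fderiv ℝ H y) x := by
        refine ContinuousAt.sub ?_ (hDc x hx)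
        exact ContinuousAt.comp (g := fderiv ℝ H) (f := fun y => -y) (hDc (-x) hx')
          continuous_neg.continuousAt
      have c2 : ContinuousAt
          (fun y => ((starRingEnd ℂ) (D2 H y v (ev i)) * D2 H y w (ev i)).im) x := by
        refine Complex.continuous_im.continuousAt.comp ?_
        exact (Complex.continuous_conj.continuousAt.comp (hD2c x hx v (ev i))).mul
          (hD2c x hx w (ev i))
      filter_upwards [hO.mem_nhds hx, (hρc x hx).eventually (lt_mem_nhds hxc),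
        c1.eventually_ne hxn, c2.eventually_ne hvw] with y hy1 hy2 hy3 hy4
      exact ⟨⟨hy1, hy2⟩, hy3, v, w, hy4⟩)
    ⟨x1, ⟨hx1, hk⟩, sub_ne_zero.2 hne, hr⟩
    (fun x hx => hx.1)
    (by
      rintro x ⟨⟨hx, hxc⟩, hxn, v, w, hvw⟩ t ht
      refine ⟨⟨smul_ne_zero ht.ne' hx, ?_⟩, ?_, v, w, ?_⟩
      · rw [hρ0 x hx t ht]
        exact hxc
      · rw [← smul_neg, b1 _ (neg_ne_zero.2 hx) t ht, b1 _ hx t ht]
        exact hxn
      · rw [b3 x hx t ht, b3 x hx t ht, map_mul, Complex.conj_ofReal]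
        have e1 : ((t⁻¹ : ℝ) : ℂ) * (starRingEnd ℂ) (D2 H x v (ev i))
            * (((t⁻¹ : ℝ) : ℂ) * D2 H x w (ev i))
            = ((t⁻¹ * t⁻¹ : ℝ) : ℂ)
              * ((starRingEnd ℂ) (D2 H x v (ev i)) * D2 H x w (ev i)) := by
          push_cast
          ring
        rw [e1, Complex.im_ofReal_mul]
        exact mul_ne_zero (mul_ne_zero (inv_ne_zero ht.ne') (inv_ne_zero ht.ne')) hvw)
    (fun x hx => hx.2.2)
  exact hu.2.1 (sub_eq_zero.2 hDu)

theorem p_EVEN (h1 : S_BAS) (h2 : S_INTK) (h3 : S_E3D) : S_EVEN := by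
  intro H hH
  obtain ⟨b1, b2, b3, b4, b5, b6, b7, b8, b9⟩ := h1 H hH
  have hO : IsOpen {x : E3 | x ≠ 0} := isOpen_ne
  have hd2 : ∀ x : E3, x ≠ 0 → HasFDerivAt (fderiv ℝ H) (fderiv ℝ (fderiv ℝ H) x) x :=
    fun x hx => ((b6.contDiffAt (hO.mem_nhds hx)).differentiableAt (by norm_num)).hasFDerivAt
  have hneg : ∀ x : E3, x ≠ 0 → HasFDerivAt (fun y => fderiv ℝ H (-y))
      ((fderiv ℝ (fderiv ℝ H) (-x)).comp (-ContinuousLinearMap.id ℝ E3)) x := by
    intro x hx
    exact HasFDerivAt.comp (g := fderiv ℝ H) (f := fun y => -y) x (hd2 (-x) (neg_ne_zero.2 hx))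
      (hasFDerivAt_id x).neg
  have hD2c : ∀ x : E3, x ≠ 0 → ∀ a b : E3, ContinuousAt (fun y => D2 H y a b) x := by
    intro x hx a b
    exact ((b7.continuousAt (hO.mem_nhds hx)).clm_apply continuousAt_const).clm_apply
      continuousAt_const
  obtain ⟨Om, hOm⟩ : ∃ Om : Set E3, Om = {x : E3 | x ≠ 0 ∧
    ∃ v w : E3, ((starRingEnd ℂ) (D2 H x v v) * D2 H x v w).im ≠ 0} := ⟨_, rfl⟩
  have hOmO : IsOpen Om := by
    rw [hOm, isOpen_iff_mem_nhds]
    rintro x ⟨hx, v, w, hvw⟩
    have c2 : ContinuousAt (fun y => ((starRingEnd ℂ) (D2 H y v v) * D2 H y v w).im) x := by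
      refine Complex.continuous_im.continuousAt.comp ?_
      exact (Complex.continuous_conj.continuousAt.comp (hD2c x hx v v)).mul (hD2c x hx v w)
    filter_upwards [hO.mem_nhds hx, c2.eventually_ne hvw] with y hy1 hy2
    exact ⟨hy1, v, w, hy2⟩
  have hOm0 : ∀ x ∈ Om, x ≠ 0 := by
    intro x hx
    rw [hOm] at hx
    exact hx.1
  -- (a)
  have ha : ∀ x ∈ Om, fderiv ℝ H (-x) = fderiv ℝ H x := by
    intro x hx
    have hx0 := hOm0 x hx
    rw [hOm] at hx
    obtain ⟨-, v, w, hvw⟩ := hx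
    obtain ⟨α, hα⟩ := hH.rank1 x hx0
    rw [hα, hα] at hvw
    have e1 : (starRingEnd ℂ) (α v * α v) * (α v * α w)
        = ((Complex.normSq (α v) : ℝ) : ℂ) * ((starRingEnd ℂ) (α v) * α w) := by
      rw [map_mul, ← Complex.mul_conj]
      ring
    rw [e1, Complex.im_ofReal_mul] at hvw
    have hvw' := right_ne_zero_of_mul hvw
    obtain ⟨i, hi⟩ : ∃ i, α (ev i) ≠ 0 := by
      by_contra hcon
      push Not at hcon
      have : α = 0 := even_ext α 0 fun j => by rw [hcon j]; rfl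
      apply hvw'
      rw [this]
      simp
    refine even_a h1 h3 H hH i x hx0 ⟨v, w, ?_⟩
    rw [hα, hα]
    have e2 : (starRingEnd ℂ) (α v * α (ev i)) * (α w * α (ev i))
        = ((Complex.normSq (α (ev i)) : ℝ) : ℂ) * ((starRingEnd ℂ) (α v) * α w) := by
      rw [map_mul, ← Complex.mul_conj]
      ring
    rw [e2, Complex.im_ofReal_mul]
    exact mul_ne_zero (fun h => hi (Complex.normSq_eq_zero.1 h)) hvw'
  -- (b)
  have hb : ∀ x ∈ Om, ∀ a b, D2 H (-x) a b = - D2 H x a b := by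
    intro x hx a b
    have hx0 := hOm0 x hx
    have e1 : (fun y => fderiv ℝ H (-y)) =ᶠ[𝓝 x] fderiv ℝ H := by
      filter_upwards [hOmO.mem_nhds hx] with y hy using ha y hy
    have e2 := ((hneg x hx0).congr_of_eventuallyEq e1.symm).unique (hd2 x hx0)
    have e3 := DFunLike.congr_fun (DFunLike.congr_fun e2 a) b
    simp only [ContinuousLinearMap.comp_apply, ContinuousLinearMap.neg_apply,
      ContinuousLinearMap.id_apply, map_neg] at e3
    unfold D2
    rw [← e3, neg_neg]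
  have hOmneg : ∀ x ∈ Om, -x ∈ Om := by
    intro x hx
    have hx0 := hOm0 x hx
    have hx' := hx
    rw [hOm] at hx' ⊢
    obtain ⟨-, v, w, hvw⟩ := hx'
    refine ⟨neg_ne_zero.2 hx0, v, w, ?_⟩
    rw [hb x hx, hb x hx, map_neg, neg_mul_neg]
    exact hvw
  -- (c)
  have hK : ∀ x : E3, x ≠ 0 → x ∉ closure Om → ∀ a b, D2 H x a b = 0 := by
    intro x hx hxcl
    refine h2 H x hH hx ?_
    have hev : ∀ᶠ y in 𝓝 x, y ∉ Om := by
      have := isClosed_closure.isOpen_compl.mem_nhds hxcl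
      filter_upwards [this] with y hy h
      exact hy (subset_closure h)
    filter_upwards [hev, hO.mem_nhds hx] with y hy hy0
    intro v w
    by_contra hcon
    apply hy
    rw [hOm]
    exact ⟨hy0, v, w, hcon⟩
  have hclneg : ∀ x : E3, -x ∈ closure Om → x ∈ closure Om := by
    intro x hx
    have : MapsTo (fun y : E3 => -y) Om Om := hOmneg
    have h5 := this.closure continuous_neg hx
    simpa using h5
  have hS : ∀ x : E3, x ≠ 0 → ∀ a b, D2 H (-x) a b + D2 H x a b = 0 := by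
    intro x hx a b
    by_cases hcl : x ∈ closure Om
    · have c1 : ContinuousAt (fun y => D2 H (-y) a b + D2 H y a b) x := by
        refine ContinuousAt.add ?_ (hD2c x hx a b)
        exact ContinuousAt.comp (g := fun y => D2 H y a b) (f := fun y => -y)
          (hD2c (-x) (neg_ne_zero.2 hx) a b) continuous_neg.continuousAt
      by_contra hne
      obtain ⟨y, hy1, hy2⟩ := ((mem_closure_iff_frequently.1 hcl).and_eventually
        (c1.eventually_ne hne)).exists
      apply hy2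
      rw [hb y hy1, neg_add_cancel]
    · rw [hK x hx hcl, hK (-x) (neg_ne_zero.2 hx) (fun h => hcl (hclneg x h)), add_zero]
  -- constancy
  have hE : ∀ x : E3, x ≠ 0 → HasFDerivAt (fun y => fderiv ℝ H (-y) - fderiv ℝ H y)
      ((fderiv ℝ (fderiv ℝ H) (-x)).comp (-ContinuousLinearMap.id ℝ E3)
        - fderiv ℝ (fderiv ℝ H) x) x := fun x hx => (hneg x hx).sub (hd2 x hx)
  have hconn : IsPreconnected {x : E3 | x ≠ 0} := by
    have h5 : (1 : Cardinal) < Module.rank ℝ E3 := by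
      rw [← Module.finrank_eq_rank, finrank_euclideanSpace_fin]
      norm_num
    exact (isConnected_compl_singleton_of_one_lt_rank h5 (0 : E3)).isPreconnected
  intro x hx
  have h5 : (fun y => fderiv ℝ H (-y) - fderiv ℝ H y) x
      = (fun y => fderiv ℝ H (-y) - fderiv ℝ H y) (-x) := by
    refine hO.is_const_of_fderiv_eq_zero (𝕜 := ℝ) hconn
      (fun y hy => (hE y hy).differentiableAt.differentiableWithinAt) ?_ hx (neg_ne_zero.2 hx)
    intro y hy
    rw [(hE y hy).fderiv]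
    ext a b
    have h6 := hS y hy a b
    unfold D2 at h6
    simp only [ContinuousLinearMap.sub_apply, ContinuousLinearMap.comp_apply,
      ContinuousLinearMap.neg_apply, ContinuousLinearMap.id_apply, map_neg]
    simp only [Pi.zero_apply, ContinuousLinearMap.zero_apply]
    linear_combination -h6
  simp only [neg_neg] at h5
  ext b
  have h6 := DFunLike.congr_fun h5 b
  simp only [ContinuousLinearMap.sub_apply] at h6
  linear_combination (1 / 2 : ℂ) * h6

end Pool.Agent.HH
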