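import Pool.Agent.Lib.MP_7dc3d9_gt.ThA.Stm

set_option autoImplicit false

namespace Pool.Agent.HH

open Complex Set MeasureTheory Topology

private theorem hol_fd (F : ℝ × ℝ → ℂ) (p v : ℝ × ℝ) :
    fderiv ℝ F p v = (v.1 : ℂ) * px F p + (v.2 : ℂ) * py F p := by
  unfold px py
  have h : v = v.1 • ((1, 0) : ℝ × ℝ) + v.2 • ((0, 1) : ℝ × ℝ) := by
    ext <;> simp
  conv_lhs => rw [h]
  rw [map_add, map_smul, map_smul]
  simp

private theorem hol_equiv {P : ℝ × ℝ → ℂ} {p : ℝ × ℝ} (h : Jac P p ≠ 0) :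
    ∃ e : (ℝ × ℝ) ≃L[ℝ] ℂ, (e : (ℝ × ℝ) →L[ℝ] ℂ) = fderiv ℝ P p := by
  have hinj : Function.Injective (fderiv ℝ P p : (ℝ × ℝ) →ₗ[ℝ] ℂ) := by
    rw [injective_iff_map_eq_zero]
    intro v hv
    have h1 : (v.1 : ℂ) * px P p + (v.2 : ℂ) * py P p = 0 := by
      rw [← hol_fd]
      exact hv
    have hr := congrArg Complex.re h1
    have hi := congrArg Complex.im h1
    simp only [Complex.add_re, Complex.mul_re, Complex.ofReal_re, Complex.ofReal_im, zero_mul,
      sub_zero, Complex.zero_re, Complex.add_im, Complex.mul_im, add_zero, Complex.zero_im] at hr hi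
    unfold Jac at h
    simp only [Complex.mul_im, Complex.conj_re, Complex.conj_im] at h
    have e1 : v.1 * ((px P p).re * (py P p).im + -(px P p).im * (py P p).re) = 0 := by
      linear_combination (py P p).im * hr - (py P p).re * hi
    have e2 : v.2 * ((px P p).re * (py P p).im + -(px P p).im * (py P p).re) = 0 := by
      linear_combination (px P p).re * hi - (px P p).im * hr
    have f1 := (mul_eq_zero.1 e1).resolve_right h
    have f2 := (mul_eq_zero.1 e2).resolve_right h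
    exact Prod.ext f1 f2
  have hfr : Module.finrank ℝ (ℝ × ℝ) = Module.finrank ℝ ℂ := by
    simp [Complex.finrank_real_complex]
  refine ⟨(LinearEquiv.ofInjectiveOfFinrankEq _ hinj hfr).toContinuousLinearEquiv, ?_⟩
  exact ContinuousLinearMap.ext fun v => rfl

private theorem hol_loc {W : Set (ℝ × ℝ)} {P G f : ℝ × ℝ → ℂ} (hW : IsOpen W)
    (hP : ContDiffOn ℝ 1 P W) (hG : ContDiffOn ℝ 1 G W)
    (h1 : ∀ p ∈ W, px G p = f p * px P p) (h2 : ∀ p ∈ W, py G p = f p * py P p)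
    {p0 : ℝ × ℝ} (hp0 : p0 ∈ W) (hJ : Jac P p0 ≠ 0) :
    ∃ φ : ℂ → ℂ, AnalyticAt ℂ φ (P p0) ∧ ∀ᶠ p in 𝓝 p0, f p = φ (P p) := by
  have hPc : ContDiffAt ℝ 1 P p0 := hP.contDiffAt (hW.mem_nhds hp0)
  obtain ⟨e, he⟩ := hol_equiv hJ
  have hPd : HasFDerivAt P (e : (ℝ × ℝ) →L[ℝ] ℂ) p0 := by
    rw [he]
    exact (hPc.differentiableAt (by simp)).hasFDerivAt
  set Φ := hPc.toOpenPartialHomeomorph P hPd (by simp) with hΦ
  have hΦc : (Φ : ℝ × ℝ → ℂ) = P := ContDiffAt.toOpenPartialHomeomorph_coe _ _ _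
  have hs0 : p0 ∈ Φ.source := ContDiffAt.mem_toOpenPartialHomeomorph_source _ _ _
  have ht0 : P p0 ∈ Φ.target := ContDiffAt.image_mem_toOpenPartialHomeomorph_target _ _ _
  have hsP : Φ.symm (P p0) = p0 := by
    have := Φ.left_inv hs0
    rwa [hΦc] at this
  have hsc : ContDiffAt ℝ 1 Φ.symm (P p0) := ContDiffAt.to_localInverse hPc hPd (by simp)
  -- a neighbourhood of `P p0`
  have hev : ∀ᶠ z in 𝓝 (P p0), ContDiffAt ℝ 1 Φ.symm z ∧ z ∈ Φ.target ∧ Φ.symm z ∈ W := by
    refine (hsc.eventually (by simp)).and ((Φ.open_target.eventually_mem ht0).and ?_)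
    have : Filter.Tendsto Φ.symm (𝓝 (P p0)) (𝓝 p0) := by
      have := hsc.continuousAt.tendsto
      rwa [hsP] at this
    exact this.eventually (hW.eventually_mem hp0)
  have hder : ∀ᶠ z in 𝓝 (P p0), HasDerivAt (fun z => G (Φ.symm z)) (f (Φ.symm z)) z := by
    filter_upwards [hev] with z hz
    obtain ⟨hz1, hz2, hz3⟩ := hz
    have hsd := (hz1.differentiableAt (by simp)).hasFDerivAt
    have hPd' := ((hP.contDiffAt (hW.mem_nhds hz3)).differentiableAt (by simp)).hasFDerivAt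
    have hGd' := ((hG.contDiffAt (hW.mem_nhds hz3)).differentiableAt (by simp)).hasFDerivAt
    have hid : HasFDerivAt (fun z => z) ((fderiv ℝ P (Φ.symm z)).comp (fderiv ℝ Φ.symm z)) z := by
      refine (hPd'.comp z hsd).congr_of_eventuallyEq ?_
      filter_upwards [Φ.open_target.mem_nhds hz2] with w hw
      exact (Φ.right_inv hw).symm
    have hid' := hid.unique (hasFDerivAt_id z)
    have hGs := hGd'.comp z hsd
    rw [hasDerivAt_iff_hasFDerivAt]
    refine hasFDerivAt_of_restrictScalars ℝ hGs ?_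
    ext v
    have e1 : fderiv ℝ G (Φ.symm z) (fderiv ℝ Φ.symm z v) =
        f (Φ.symm z) * fderiv ℝ P (Φ.symm z) (fderiv ℝ Φ.symm z v) := by
      rw [hol_fd, hol_fd, h1 _ hz3, h2 _ hz3]
      ring
    have e2 : fderiv ℝ P (Φ.symm z) (fderiv ℝ Φ.symm z v) = v := by
      have := congrArg (fun A : ℂ →L[ℝ] ℂ => A v) hid'
      exact this
    simp only [ContinuousLinearMap.coe_restrictScalars', ContinuousLinearMap.coe_comp,
      Function.comp_apply]
    rw [e1, e2]
    simp [mul_comm]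
  have han : AnalyticAt ℂ (fun z => G (Φ.symm z)) (P p0) := by
    rw [Complex.analyticAt_iff_eventually_differentiableAt]
    exact hder.mono fun z hz => hz.differentiableAt
  refine ⟨deriv fun z => G (Φ.symm z), han.deriv, ?_⟩
  have hPt : Filter.Tendsto P (𝓝 p0) (𝓝 (P p0)) := hPc.continuousAt
  filter_upwards [hPt.eventually hder, Φ.open_source.mem_nhds hs0] with p hp hps
  have e3 : Φ.symm (P p) = p := by
    have := Φ.left_inv hps
    rwa [hΦc] at this
  rw [hp.deriv, e3]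

/-- HOL -/
theorem p_HOL : S_HOL := by
  intro W P G f hW hP hG hf h1 h2 hJ
  refine ⟨fun p0 hp0 => ?_, fun p0 hp0 => ?_⟩
  · obtain ⟨φ, hφ, hev⟩ := hol_loc hW hP hG h1 h2 hp0 (hJ p0 hp0)
    have h3 : ContDiffAt ℝ 1 φ (P p0) := (hφ.contDiffAt (n := 1)).restrict_scalars ℝ
    exact ((h3.comp p0 (hP.contDiffAt (hW.mem_nhds hp0))).congr_of_eventuallyEq hev).contDiffWithinAt
  · obtain ⟨φ, hφ, hev⟩ := hol_loc hW hP hG h1 h2 hp0 (hJ p0 hp0)
    have h3 : HasFDerivAt φ ((fderiv ℂ φ (P p0)).restrictScalars ℝ) (P p0) :=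
      hφ.differentiableAt.hasFDerivAt.restrictScalars ℝ
    have h4 := ((hP.contDiffAt (hW.mem_nhds hp0)).differentiableAt (by simp)).hasFDerivAt
    have h5 : fderiv ℝ f p0 = ((fderiv ℂ φ (P p0)).restrictScalars ℝ).comp (fderiv ℝ P p0) :=
      ((h3.comp p0 h4).congr_of_eventuallyEq hev).fderiv
    have h6 : ∀ v, fderiv ℝ f p0 v = fderiv ℝ P p0 v * fderiv ℂ φ (P p0) 1 := by
      intro v
      rw [h5]
      have := (fderiv ℂ φ (P p0)).map_smul (fderiv ℝ P p0 v) 1
      simp only [smul_eq_mul, mul_one] at this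
      exact this
    unfold px py
    rw [h6, h6]
    ring

end Pool.Agent.HH
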