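import Pool.Agent.Lib.MP_7dc3d9_gt.ThA.Stm
set_option autoImplicit false
namespace Pool.Agent.HH

open Complex Set MeasureTheory Topology

/-- the real differential of `w ↦ (ρ w : ℂ)` -/
private noncomputable def dr (ρ : ℂ → ℝ) (w : ℂ) : ℂ →L[ℝ] ℂ :=
  Complex.ofRealCLM.comp (fderiv ℝ ρ w)

private lemma hasF_dr {ρ : ℂ → ℝ} (hρ : ContDiff ℝ (⊤ : ℕ∞) ρ) (w z : ℂ) :
    HasFDerivAt (fun z : ℂ => (ρ (w - z) : ℂ)) (-(dr ρ (w - z))) z := by
  have h1 : HasFDerivAt ρ (fderiv ℝ ρ (w - z)) (w - z) :=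
    ((hρ.differentiable (by simp)) (w - z)).hasFDerivAt
  have h2 : HasFDerivAt (fun z : ℂ => w - z) (-(ContinuousLinearMap.id ℝ ℂ)) z := by
    simpa using (hasFDerivAt_id (𝕜 := ℝ) z).const_sub w
  have h3 := h1.comp z h2
  have h4 := (Complex.ofRealCLM.hasFDerivAt (x := ρ (w - z))).comp z h3
  have e : -(dr ρ (w - z)) = Complex.ofRealCLM.comp
      ((fderiv ℝ ρ (w - z)).comp (-(ContinuousLinearMap.id ℝ ℂ))) := by
    ext v
    simp [dr]
  rw [e]
  exact h4

private lemma cont_dr {ρ : ℂ → ℝ} (hρ : ContDiff ℝ (⊤ : ℕ∞) ρ) : Continuous (dr ρ) := by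
  unfold dr
  exact continuous_const.clm_comp (hρ.continuous_fderiv (by simp))

private lemma supp_rho {ρ : ℂ → ℝ} {ε : ℝ} (h0 : ∀ z, ε ≤ ‖z‖ → ρ z = 0) :
    tsupport ρ ⊆ Metric.closedBall 0 ε := by
  apply closure_minimal _ Metric.isClosed_closedBall
  intro z hz
  rw [Function.mem_support] at hz
  rw [mem_closedBall_zero_iff]
  by_contra h
  exact hz (h0 z (not_le.mp h).le)

private lemma dr_zero {ρ : ℂ → ℝ} {ε : ℝ} (h0 : ∀ z, ε ≤ ‖z‖ → ρ z = 0) {w : ℂ} (hw : ε < ‖w‖) :
    dr ρ w = 0 := by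
  have : fderiv ℝ ρ w = 0 := by
    by_contra h
    have h1 : w ∈ tsupport ρ := support_fderiv_subset ℝ (by simpa [Function.mem_support] using h)
    have h2 := supp_rho h0 h1
    rw [mem_closedBall_zero_iff] at h2
    linarith
  simp [dr, this]

private lemma dr_bdd {ρ : ℂ → ℝ} {ε : ℝ} (hρ : ContDiff ℝ (⊤ : ℕ∞) ρ)
    (h0 : ∀ z, ε ≤ ‖z‖ → ρ z = 0) : ∃ B : ℝ, 0 ≤ B ∧ ∀ w, ‖dr ρ w‖ ≤ B := by
  obtain ⟨B, hB⟩ := (isCompact_closedBall (0 : ℂ) ε).exists_bound_of_continuousOn
    (cont_dr hρ).continuousOn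
  refine ⟨max B 0, le_max_right _ _, fun w => ?_⟩
  by_cases hw : ε < ‖w‖
  · rw [dr_zero h0 hw]; simp
  · exact (hB w (by rw [mem_closedBall_zero_iff]; exact not_lt.mp hw)).trans (le_max_left _ _)

private lemma rho_bdd {ρ : ℂ → ℝ} {ε : ℝ} (hρ : ContDiff ℝ (⊤ : ℕ∞) ρ)
    (h0 : ∀ z, ε ≤ ‖z‖ → ρ z = 0) : ∃ B : ℝ, 0 ≤ B ∧ ∀ w, ‖(ρ w : ℂ)‖ ≤ B := by
  obtain ⟨B, hB⟩ := (isCompact_closedBall (0 : ℂ) ε).exists_bound_of_continuousOn
    (f := fun w => (ρ w : ℂ)) (Complex.continuous_ofReal.comp hρ.continuous).continuousOn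
  refine ⟨max B 0, le_max_right _ _, fun w => ?_⟩
  by_cases hw : ε ≤ ‖w‖
  · rw [h0 w hw]; simp
  · exact (hB w (by rw [mem_closedBall_zero_iff]; exact (not_le.mp hw).le)).trans (le_max_left _ _)

private lemma cont_Jac {W : Set (ℝ × ℝ)} {P : ℝ × ℝ → ℂ} (hW : IsOpen W)
    (hP : ContDiffOn ℝ 1 P W) : ContinuousOn (Jac P) W := by
  have h := hP.continuousOn_fderiv_of_isOpen hW le_rfl
  have hx : ContinuousOn (px P) W := h.clm_apply continuousOn_const
  have hy : ContinuousOn (py P) W := h.clm_apply continuousOn_const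
  unfold Jac
  exact Complex.continuous_im.comp_continuousOn
    ((Complex.continuous_conj.comp_continuousOn hx).mul hy)

/-- the data -/
private lemma hasDeriv {W : Set (ℝ × ℝ)} {P a : ℝ × ℝ → ℂ} {c ε : ℝ} {ρ : ℂ → ℝ}
    (hW : IsOpen W) (hP : ContDiffOn ℝ 1 P W) (ha : ContDiffOn ℝ 1 a W)
    (hcpt : ∀ c', c < c' → IsCompact {p | p ∈ W ∧ c' ≤ (P p).re})
    (hρ : ContDiff ℝ (⊤ : ℕ∞) ρ) (h0 : ∀ z, ε ≤ ‖z‖ → ρ z = 0)
    {z0 : ℂ} (hz0 : c + ε < z0.re) :
    Integrable (fun p => -((a p * (Jac P p : ℂ)) • dr ρ (P p - z0))) (volume.restrict W) ∧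
    HasFDerivAt (fun z => ∫ p in W, (ρ (P p - z) : ℂ) * a p * (Jac P p : ℂ))
      (∫ p in W, -((a p * (Jac P p : ℂ)) • dr ρ (P p - z0))) z0 := by
  set δ : ℝ := (z0.re - ε - c) / 2 with hδ
  have hδ0 : 0 < δ := by rw [hδ]; linarith
  set c' : ℝ := c + δ with hc'
  set K : Set (ℝ × ℝ) := {p | p ∈ W ∧ c' ≤ (P p).re} with hK
  have hKc : IsCompact K := hcpt c' (by rw [hc']; linarith)
  have hKW : K ⊆ W := fun p hp => hp.1
  have hJ := cont_Jac hW hP
  have haJ : ContinuousOn (fun p => a p * (Jac P p : ℂ)) W :=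
    ha.continuousOn.mul (Complex.continuous_ofReal.comp_continuousOn hJ)
  obtain ⟨A, hA⟩ := hKc.exists_bound_of_continuousOn (haJ.mono hKW)
  obtain ⟨B, hB0, hB⟩ := dr_bdd hρ h0
  obtain ⟨B', hB'0, hB'⟩ := rho_bdd hρ h0
  have hsupp : ∀ z ∈ Metric.ball z0 δ, ∀ p ∈ W, p ∉ K → ε < ‖P p - z‖ := by
    intro z hz p hp hpK
    have h1 : (P p).re < c' := by
      by_contra h
      exact hpK ⟨hp, not_lt.mp h⟩
    have h2 : |z.re - z0.re| < δ := by
      have := Complex.abs_re_le_norm (z - z0)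
      rw [Complex.sub_re] at this
      rw [mem_ball_iff_norm] at hz
      linarith
    have h3 := Complex.abs_re_le_norm (P p - z)
    rw [Complex.sub_re] at h3
    have h4 := (abs_lt.mp h2).1
    have h5 : z.re - (P p).re ≤ |(P p).re - z.re| := by
      rw [abs_sub_comm]; exact le_abs_self _
    have : z0.re = 2 * δ + ε + c := by rw [hδ]; ring
    linarith
  have hmeas : ∀ z, AEStronglyMeasurable (fun p => (ρ (P p - z) : ℂ) * a p * (Jac P p : ℂ))
      (volume.restrict W) := by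
    intro z
    refine ContinuousOn.aestronglyMeasurable ?_ hW.measurableSet
    refine ContinuousOn.mul (ContinuousOn.mul ?_ ha.continuousOn)
      (Complex.continuous_ofReal.comp_continuousOn hJ)
    exact (Complex.continuous_ofReal.comp hρ.continuous).comp_continuousOn
      (hP.continuousOn.sub continuousOn_const)
  have hmeas' : AEStronglyMeasurable (fun p => -((a p * (Jac P p : ℂ)) • dr ρ (P p - z0)))
      (volume.restrict W) := by
    refine ContinuousOn.aestronglyMeasurable ?_ hW.measurableSet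
    exact (haJ.smul ((cont_dr hρ).comp_continuousOn
      (hP.continuousOn.sub continuousOn_const))).neg
  have hbint : ∀ b : ℝ, Integrable (K.indicator (fun _ => b)) (volume.restrict W) := by
    intro b
    rw [integrable_indicator_iff hKc.measurableSet]
    refine integrableOn_const ?_
    rw [Measure.restrict_apply hKc.measurableSet]
    exact ((measure_mono inter_subset_left).trans_lt hKc.measure_lt_top).ne
  have hbd : ∀ᵐ p ∂(volume.restrict W), ∀ z ∈ Metric.ball z0 δ,
      ‖-((a p * (Jac P p : ℂ)) • dr ρ (P p - z))‖ ≤ K.indicator (fun _ => A * B) p := by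
    refine (ae_restrict_iff' hW.measurableSet).mpr (Filter.Eventually.of_forall ?_)
    intro p hp z hz
    by_cases hpK : p ∈ K
    · rw [indicator_of_mem hpK, norm_neg, norm_smul]
      exact mul_le_mul (hA p hpK) (hB _) (norm_nonneg _) ((norm_nonneg _).trans (hA p hpK))
    · rw [indicator_of_notMem hpK, norm_neg, norm_smul, dr_zero h0 (hsupp z hz p hp hpK),
        norm_zero, mul_zero]
  have hbd0 : ∀ᵐ p ∂(volume.restrict W),
      ‖(ρ (P p - z0) : ℂ) * a p * (Jac P p : ℂ)‖ ≤ K.indicator (fun _ => B' * A) p := by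
    refine (ae_restrict_iff' hW.measurableSet).mpr (Filter.Eventually.of_forall ?_)
    intro p hp
    by_cases hpK : p ∈ K
    · rw [indicator_of_mem hpK, mul_assoc, norm_mul]
      exact mul_le_mul (hB' _) (hA p hpK) (norm_nonneg _) hB'0
    · rw [indicator_of_notMem hpK, h0 _ (hsupp z0 (Metric.mem_ball_self hδ0) p hp hpK).le]
      simp
  refine ⟨(hbint (A * B)).mono' hmeas' ?_, ?_⟩
  · filter_upwards [hbd] with p hp
    exact hp z0 (Metric.mem_ball_self hδ0)
  · refine hasFDerivAt_integral_of_dominated_of_fderiv_le (bound := K.indicator (fun _ => A * B))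
      (F := fun z p => (ρ (P p - z) : ℂ) * a p * (Jac P p : ℂ))
      (F' := fun z p => -((a p * (Jac P p : ℂ)) • dr ρ (P p - z)))
      (Metric.ball_mem_nhds z0 hδ0)
      (Filter.Eventually.of_forall hmeas) ((hbint (B' * A)).mono' (hmeas z0) hbd0) hmeas' hbd
      (hbint _) (Filter.Eventually.of_forall ?_)
    intro p z _
    have h1 := (hasF_dr hρ (P p) z).mul_const (a p * (Jac P p : ℂ))
    show HasFDerivAt (fun z : ℂ => (ρ (P p - z) : ℂ) * a p * (Jac P p : ℂ)) _ z
    simp only [mul_assoc]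
    rw [smul_neg] at h1
    exact h1

private lemma dr_shift {ρ : ℂ → ℝ} (hρ : ContDiff ℝ (⊤ : ℕ∞) ρ) (z0 w : ℂ) :
    (g1 (fun z => ρ (z - z0)) w : ℂ) = dr ρ (w - z0) 1 ∧
    (g2 (fun z => ρ (z - z0)) w : ℂ) = dr ρ (w - z0) Complex.I := by
  have h1 : HasFDerivAt ρ (fderiv ℝ ρ (w - z0)) (w - z0) :=
    ((hρ.differentiable (by simp)) (w - z0)).hasFDerivAt
  have h2 : HasFDerivAt (fun z : ℂ => z - z0) (ContinuousLinearMap.id ℝ ℂ) w := by
    simpa using (hasFDerivAt_id (𝕜 := ℝ) w).sub_const z0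
  have h3 : fderiv ℝ (fun z => ρ (z - z0)) w = fderiv ℝ ρ (w - z0) := by
    have := (h1.comp w h2).fderiv
    simpa [Function.comp_def] using this
  constructor
  · simp [g1, dr, h3]
  · simp [g2, dr, h3]

theorem p_HZ (h1 : S_CUR) : S_HZ := by
  intro W P a c M ε ρ z hW hP ha haP hM hcpt hρ hε h0 hz
  set h : ℂ → ℂ := fun z => ∫ p in W, (ρ (P p - z) : ℂ) * a p * (Jac P p : ℂ) with hh
  set H : Set ℂ := {z | c + ε < z.re} with hH
  have hHo : IsOpen H := isOpen_lt continuous_const Complex.continuous_re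
  have hHc : Convex ℝ H := convex_halfSpace_re_gt _
  have hCR : ∀ z0 ∈ H, DifferentiableAt ℂ h z0 := by
    intro z0 hz0
    obtain ⟨hint, hd⟩ := hasDeriv hW hP ha hcpt hρ h0 (z0 := z0) hz0
    rw [differentiableAt_complex_iff_differentiableAt_real]
    refine ⟨hd.differentiableAt, ?_⟩
    rw [hd.fderiv]
    rw [ContinuousLinearMap.integral_apply hint, ContinuousLinearMap.integral_apply hint]
    have hc1 : c < (c + (z0.re - ε)) / 2 := by
      have : c + ε < z0.re := hz0
      linarith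
    have hcur := h1 W {p | p ∈ W ∧ (c + (z0.re - ε)) / 2 ≤ (P p).re} P a (fun z => ρ (z - z0)) hW
      (hcpt _ hc1) (fun p hp => hp.1) hP ha haP
      ((hρ.of_le (show ((2 : ℕ∞) : WithTop ℕ∞) ≤ ((⊤ : ℕ∞) : WithTop ℕ∞) from
        WithTop.coe_le_coe.mpr le_top)).comp (contDiff_id.sub contDiff_const)) ?_
    · have e : ∀ p, ((g1 (fun z => ρ (z - z0)) (P p) : ℂ)
          + Complex.I * (g2 (fun z => ρ (z - z0)) (P p) : ℂ)) * a p * (Jac P p : ℂ)
          = -((-((a p * (Jac P p : ℂ)) • dr ρ (P p - z0))) 1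
            + Complex.I * (-((a p * (Jac P p : ℂ)) • dr ρ (P p - z0))) Complex.I) := by
        intro p
        rw [(dr_shift hρ z0 (P p)).1, (dr_shift hρ z0 (P p)).2]
        simp only [_root_.neg_apply, _root_.smul_apply, smul_eq_mul]
        ring
      simp only [e] at hcur
      rw [integral_neg, integral_add (hint.apply_continuousLinearMap 1)
        ((hint.apply_continuousLinearMap Complex.I).const_mul _), integral_const_mul] at hcur
      set D1 := ∫ p in W, (-((a p * (Jac P p : ℂ)) • dr ρ (P p - z0))) 1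
      set D2 := ∫ p in W, (-((a p * (Jac P p : ℂ)) • dr ρ (P p - z0))) Complex.I
      have hs : D1 + Complex.I * D2 = 0 := neg_eq_zero.mp hcur
      rw [smul_eq_mul]
      have hI := Complex.I_mul_I
      linear_combination (-Complex.I) * hs + D2 * hI
    · intro p hp hsup
      refine ⟨hp, ?_⟩
      have hcl : tsupport (fun z => ρ (z - z0)) ⊆ Metric.closedBall z0 ε := by
        apply closure_minimal _ Metric.isClosed_closedBall
        intro w hw
        rw [Function.mem_support] at hw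
        rw [mem_closedBall_iff_norm]
        by_contra hn
        exact hw (h0 _ (not_le.mp hn).le)
      have h2 := hcl hsup
      rw [mem_closedBall_iff_norm] at h2
      have h3 := (Complex.abs_re_le_norm (P p - z0)).trans h2
      rw [Complex.sub_re] at h3
      have h4 := (abs_le.mp h3).1
      have : c + ε < z0.re := hz0
      linarith
  have han : AnalyticOnNhd ℂ h H :=
    DifferentiableOn.analyticOnNhd (fun z0 hz0 => (hCR z0 hz0).differentiableWithinAt) hHo
  set z1 : ℂ := ((max (c + ε) (M + ε) + 1 : ℝ) : ℂ) with hz1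
  have hz1re : z1.re = max (c + ε) (M + ε) + 1 := by rw [hz1, Complex.ofReal_re]
  have hz1H : z1 ∈ H := by
    show c + ε < z1.re
    rw [hz1re]
    have := le_max_left (c + ε) (M + ε)
    linarith
  have hev : h =ᶠ[𝓝 z1] 0 := by
    have : {w : ℂ | M + ε < w.re} ∈ 𝓝 z1 := by
      refine (isOpen_lt continuous_const Complex.continuous_re).mem_nhds ?_
      show M + ε < z1.re
      rw [hz1re]
      have := le_max_right (c + ε) (M + ε)
      linarith
    filter_upwards [this] with w hw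
    show (∫ p in W, (ρ (P p - w) : ℂ) * a p * (Jac P p : ℂ)) = 0
    have : ∀ p ∈ W, (ρ (P p - w) : ℂ) * a p * (Jac P p : ℂ) = 0 := by
      intro p hp
      have h3 := Complex.abs_re_le_norm (P p - w)
      rw [Complex.sub_re] at h3
      have h4 : w.re - (P p).re ≤ |(P p).re - w.re| := by
        rw [abs_sub_comm]; exact le_abs_self _
      have h5 : (P p).re ≤ ‖P p‖ := Complex.re_le_norm _
      have h6 := hM p hp
      have h7 : M + ε < w.re := hw
      rw [h0 (P p - w) (by linarith)]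
      simp
    rw [setIntegral_congr_fun hW.measurableSet this]
    simp
  exact han.eqOn_zero_of_preconnected_of_eventuallyEq_zero hHc.isPreconnected hz1H hev hz

end Pool.Agent.HH
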