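import Pool.Agent.Lib.MP_7dc3d9_gt.ThA.Stm

set_option autoImplicit false

namespace Pool.Agent.HH

open Complex Set MeasureTheory Topology

private lemma init_isOpen_Rect (a b δ : ℝ) : IsOpen (Rect a b δ) :=
  isOpen_Ioo.prod isOpen_Ioo

private lemma init_mem_Rect (a b δ y : ℝ) (hδ : 0 < δ) (hy : |y - b| < δ) :
    (a, y) ∈ Rect a b δ := by
  rw [abs_lt] at hy
  exact ⟨⟨by linarith, by linarith⟩, ⟨by simp only; linarith [hy.1], by simp only; linarith [hy.2]⟩⟩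

private lemma init_Rect_mono (a b δ δ' : ℝ) (h : δ' ≤ δ) : Rect a b δ' ⊆ Rect a b δ := by
  rintro ⟨x, y⟩ ⟨⟨h1, h2⟩, ⟨h3, h4⟩⟩
  simp only at h1 h2 h3 h4
  exact ⟨⟨by simp only; linarith, by simp only; linarith⟩,
    ⟨by simp only; linarith, by simp only; linarith⟩⟩

private lemma init_Rect_ball (a b δ : ℝ) : Rect a b δ ⊆ Metric.ball (a, b) δ := by
  rintro ⟨x, y⟩ ⟨⟨h1, h2⟩, ⟨h3, h4⟩⟩
  simp only at h1 h2 h3 h4
  rw [Metric.mem_ball, Prod.dist_eq, max_lt_iff, Real.dist_eq, Real.dist_eq, abs_lt, abs_lt]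
  exact ⟨⟨by simp only; linarith, by simp only; linarith⟩,
    ⟨by simp only; linarith, by simp only; linarith⟩⟩

theorem p_INIT (h1 : S_CH1) (h2 : S_CH2) (h3 : S_AFF) : S_INIT := by
  intro F lam hF hMA hlam hxx hxy hK
  have hre : (px (px F) (0, 0)).re = lam := by rw [hxx]; simp
  obtain ⟨δ, hδ, ξ, hξC, hξ0, hξR, -⟩ := h1 F 0 0 hF (by rw [hre]; exact hlam)
  obtain ⟨s0, hs0⟩ : ∃ s0 : ℝ, s0 = (px F (0, 0)).re := ⟨_, rfl⟩
  rw [← hs0] at hξC hξ0 hξR
  have hmem0 : ((s0, 0) : ℝ × ℝ) ∈ Rect s0 0 δ := init_mem_Rect s0 0 δ 0 hδ (by simpa using hδ)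
  -- continuity of the coordinate change
  have hcont : ContinuousAt (fun q : ℝ × ℝ => ((ξ q, q.2) : ℝ × ℝ)) (s0, 0) := by
    have hc : ContinuousAt ξ (s0, 0) :=
      hξC.continuousOn.continuousAt ((init_isOpen_Rect s0 0 δ).mem_nhds hmem0)
    exact hc.prodMk continuousAt_snd
  have hev : ∀ᶠ q in 𝓝 ((s0, 0) : ℝ × ℝ),
      ((starRingEnd ℂ) (px (px F) (ξ q, q.2)) * py (px F) (ξ q, q.2)).im = 0 := by
    have ht : Filter.Tendsto (fun q : ℝ × ℝ => ((ξ q, q.2) : ℝ × ℝ)) (𝓝 (s0, 0)) (𝓝 (0, 0)) := by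
      have := hcont.tendsto
      simp only [hξ0] at this
      exact this
    exact ht.eventually hK
  obtain ⟨r, hr, hrb⟩ := Metric.eventually_nhds_iff_ball.1 hev
  obtain ⟨δ', hδ'⟩ : ∃ δ' : ℝ, δ' = min δ r := ⟨_, rfl⟩
  have hδ'0 : 0 < δ' := by rw [hδ']; exact lt_min hδ hr
  have hδ'δ : δ' ≤ δ := by rw [hδ']; exact min_le_left _ _
  have hδ'r : δ' ≤ r := by rw [hδ']; exact min_le_right _ _
  have hsub : Rect s0 0 δ' ⊆ Rect s0 0 δ := init_Rect_mono _ _ _ _ hδ'δ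
  have hIm : ∀ q ∈ Rect s0 0 δ',
      ((starRingEnd ℂ) (px (px F) (ξ q, q.2)) * py (px F) (ξ q, q.2)).im = 0 := by
    intro q hq
    exact hrb q (Metric.ball_subset_ball hδ'r (init_Rect_ball _ _ _ hq))
  obtain ⟨hP, hQ, hX, -, hid⟩ := h2 F (Rect s0 0 δ') ξ hF hMA (init_isOpen_Rect _ _ _)
    (hξC.mono hsub) (fun q hq => hξR q (hsub hq))
  have hJ : ∀ q ∈ Rect s0 0 δ', Jac (chP F ξ) q = 0 := by
    intro q hq
    rw [(hid q hq).2.1, hIm q hq, zero_div]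
  obtain ⟨A, B, D, -, -, hABD⟩ := h3 (s0 - δ') (s0 + δ') (0 - δ') (0 + δ') ξ (chP F ξ) (chQ F ξ)
    (chX F ξ) (chb F ξ) (by linarith) (hξC.mono hsub) hP hQ hX
    (by
      intro q hq
      obtain ⟨-, -, hq1, hq2, hq3, hq4, -, -⟩ := hid q hq
      exact ⟨(hξR q (hsub hq)).1, hJ q hq, hq1, hq2, hq3, hq4⟩)
  have hABD' : ∀ q ∈ Rect s0 0 δ', ξ q = A q.1 + B q.1 * q.2 ∧ chb F ξ q = -((B q.1 : ℝ) : ℂ) ∧
      px (chP F ξ) q = D q.1 ∧ fderiv ℝ ξ q (1, 0) = deriv A q.1 + deriv B q.1 * q.2 := hABD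
  have hmem0' : ((s0, 0) : ℝ × ℝ) ∈ Rect s0 0 δ' :=
    init_mem_Rect s0 0 δ' 0 hδ'0 (by simpa using hδ'0)
  obtain ⟨e1, e2, e3, e4⟩ := hABD' _ hmem0'
  simp only at e1 e2 e3 e4
  have hA0 : A s0 = 0 := by
    rw [hξ0] at e1
    linarith
  have hB0 : B s0 = 0 := by
    have : chb F ξ (s0, 0) = 0 := by
      unfold chb
      simp only [hξ0]
      rw [hxy, zero_div]
    rw [this] at e2
    have h5 : ((B s0 : ℝ) : ℂ) = 0 := by
      rw [← neg_eq_zero, ← e2]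
    exact_mod_cast h5
  have hlamC : (lam : ℂ) ≠ 0 := by exact_mod_cast hlam.ne'
  have hD0 : D s0 = 1 := by
    rw [← e3, (hid _ hmem0').1]
    simp only [hξ0]
    rw [hxx, Complex.ofReal_re]
    exact div_self hlamC
  have hdA : deriv A s0 = 1 / lam := by
    have h6 := (hid _ hmem0').2.2.2.2.2.2.1
    simp only [hξ0] at h6
    rw [hre] at h6
    rw [h6, mul_zero, add_zero] at e4
    exact e4.symm
  -- values on the axis
  have hax : ∀ y : ℝ, |y| < δ' → py (px F) (0, y) = 0 ∧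
      px (px F) (0, y) * ((1 + (lam * deriv B s0) * y : ℝ) : ℂ) = (lam : ℂ) := by
    intro y hy
    have hmem : ((s0, y) : ℝ × ℝ) ∈ Rect s0 0 δ' :=
      init_mem_Rect s0 0 δ' y hδ'0 (by simpa using hy)
    obtain ⟨f1, f2, f3, f4⟩ := hABD' _ hmem
    simp only at f1 f2 f3 f4
    have hξy : ξ (s0, y) = 0 := by rw [f1, hA0, hB0]; ring
    have hpos : 0 < (px (px F) (0, y)).re := by
      have := (hξR _ (hsub hmem)).2
      simp only [hξy] at this
      exact this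
    have hne : px (px F) (0, y) ≠ 0 := by
      intro h0
      rw [h0] at hpos
      simp at hpos
    have hxy0 : py (px F) (0, y) = 0 := by
      rw [hB0] at f2
      unfold chb at f2
      simp only [hξy] at f2
      rw [Complex.ofReal_zero, neg_zero, div_eq_zero_iff] at f2
      rcases f2 with f2 | f2
      · exact f2
      · exact absurd f2 hne
    have hreal : px (px F) (0, y) = (((px (px F) (0, y)).re : ℝ) : ℂ) := by
      rw [hD0, (hid _ hmem).1] at f3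
      simp only [hξy] at f3
      have hne' : (((px (px F) (0, y)).re : ℝ) : ℂ) ≠ 0 := by exact_mod_cast hpos.ne'
      rw [div_eq_one_iff_eq hne'] at f3
      exact f3
    have hinv : 1 / (px (px F) (0, y)).re = 1 / lam + deriv B s0 * y := by
      have h6 := (hid _ hmem).2.2.2.2.2.2.1
      simp only [hξy] at h6
      rw [h6, hdA] at f4
      exact f4
    refine ⟨hxy0, ?_⟩
    have hR : (px (px F) (0, y)).re * (1 + (lam * deriv B s0) * y) = lam := by
      have h7 : 1 + (lam * deriv B s0) * y = lam * (1 / (px (px F) (0, y)).re) := by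
        rw [hinv]
        field_simp
      rw [h7]
      field_simp
    rw [hreal, ← Complex.ofReal_mul, hR]
  refine ⟨lam * deriv B s0, ?_⟩
  have hK2 : ∀ᶠ y in 𝓝 (0 : ℝ), IntK F (0, y) := by
    have h8 : ∀ᶠ p in 𝓝 ((0, 0) : ℝ × ℝ), IntK F p := by
      unfold IntK at hK ⊢
      exact eventually_eventually_nhds.2 hK
    have h9 : Filter.Tendsto (fun y : ℝ => ((0, y) : ℝ × ℝ)) (𝓝 0) (𝓝 (0, 0)) :=
      (Continuous.prodMk continuous_const continuous_id).tendsto 0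
    exact h9.eventually h8
  have hK3 : ∀ᶠ y in 𝓝 (0 : ℝ), |y| < δ' := by
    have := Metric.ball_mem_nhds (0 : ℝ) hδ'0
    filter_upwards [this] with y hy
    rw [Metric.mem_ball, Real.dist_eq, sub_zero] at hy
    exact hy
  filter_upwards [hK2, hK3] with y hy1 hy2
  exact ⟨hy1, (hax y hy2).1, (hax y hy2).2⟩

end Pool.Agent.HH
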