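import Pool.Agent.Lib.MP_7dc3d9_gt.ThA.Stm

set_option autoImplicit false

/-! INTK: the Hessian of a null function vanishes inside the degenerate region. -/

namespace Pool.Agent.HH

open Complex Set MeasureTheory Topology

/-- the affine chart `p ↦ x0 + p.1 e + p.2 f` -/
private noncomputable def aff (x0 e f : E3) (p : ℝ × ℝ) : E3 := x0 + (p.1 • e + p.2 • f)

private lemma aff_hasFDerivAt (x0 e f : E3) (p : ℝ × ℝ) :
    HasFDerivAt (aff x0 e f)
      ((ContinuousLinearMap.fst ℝ ℝ ℝ).smulRight e + (ContinuousLinearMap.snd ℝ ℝ ℝ).smulRight f)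
      p := by
  unfold aff
  have h1 : HasFDerivAt (fun p : ℝ × ℝ => p.1 • e)
      ((ContinuousLinearMap.fst ℝ ℝ ℝ).smulRight e) p :=
    ((ContinuousLinearMap.fst ℝ ℝ ℝ).smulRight e).hasFDerivAt
  have h2 : HasFDerivAt (fun p : ℝ × ℝ => p.2 • f)
      ((ContinuousLinearMap.snd ℝ ℝ ℝ).smulRight f) p :=
    ((ContinuousLinearMap.snd ℝ ℝ ℝ).smulRight f).hasFDerivAt
  exact (h1.add h2).const_add x0

private lemma aff_contDiff (x0 e f : E3) : ContDiff ℝ 2 (aff x0 e f) := by
  unfold aff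
  fun_prop

private lemma norm_aff {x0 e f k : E3} (ho : Orthonormal ℝ ![e, f, k]) (hk : x0 = ‖x0‖ • k)
    (p : ℝ × ℝ) : ‖aff x0 e f p‖ ^ 2 = ‖x0‖ ^ 2 + (p.1 ^ 2 + p.2 ^ 2) := by
  have he : ‖e‖ = 1 := by simpa using ho.1 0
  have hf : ‖f‖ = 1 := by simpa using ho.1 1
  have hef : inner ℝ e f = (0 : ℝ) := by
    have := ho.2 (i := 0) (j := 1) (by decide)
    simpa using this
  have hek : inner ℝ e k = (0 : ℝ) := by
    have := ho.2 (i := 0) (j := 2) (by decide)
    simpa using this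
  have hfk : inner ℝ f k = (0 : ℝ) := by
    have := ho.2 (i := 1) (j := 2) (by decide)
    simpa using this
  have h1 : inner ℝ x0 (p.1 • e + p.2 • f) = (0 : ℝ) := by
    rw [hk, inner_smul_left, inner_add_right, inner_smul_right, inner_smul_right,
      real_inner_comm, hek, real_inner_comm, hfk]
    simp
  unfold aff
  rw [norm_add_sq_real, h1, norm_add_sq_real, inner_smul_left, inner_smul_right, hef, norm_smul,
    norm_smul, he, hf]
  simp

private lemma fderiv_comp_aff {G : Type} [NormedAddCommGroup G] [NormedSpace ℝ G] (Φ : E3 → G)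
    (x0 e f : E3) (p : ℝ × ℝ) (h : DifferentiableAt ℝ Φ (aff x0 e f p)) (v : ℝ × ℝ) :
    fderiv ℝ (fun p => Φ (aff x0 e f p)) p v
      = fderiv ℝ Φ (aff x0 e f p) (v.1 • e + v.2 • f) := by
  have h1 := h.hasFDerivAt.comp p (aff_hasFDerivAt x0 e f p)
  have h2 : fderiv ℝ (fun p => Φ (aff x0 e f p)) p = _ := h1.fderiv
  rw [h2]
  simp

theorem p_INTK (h1 : S_BAS) (h2 : S_ONB) (h3 : S_S3N) : S_INTK := by
  intro H x0 hH hx0 hev a b
  by_contra hab
  obtain ⟨-, -, -, hker, hsym, hC1, -, ⟨C, hC⟩, -⟩ := h1 H hH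
  obtain ⟨w, hw⟩ := hH.rank1 x0 hx0
  have hwa : w a ≠ 0 := by
    intro h0
    apply hab
    rw [hw, h0, zero_mul]
  -- the real functional
  have hreal : ∀ c : E3, w c = (((w c / w a).re : ℝ) : ℂ) * w a := by
    intro c
    have hx := hev.self_of_nhds a c
    rw [hw, hw] at hx
    have e1 : (starRingEnd ℂ) (w a * w a) * (w a * w c)
        = ((Complex.normSq (w a) * Complex.normSq (w a) : ℝ) : ℂ) * (w c / w a) := by
      rw [map_mul, Complex.ofReal_mul, Complex.normSq_eq_conj_mul_self]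
      field_simp
    rw [e1, Complex.im_ofReal_mul] at hx
    have hn : Complex.normSq (w a) ≠ 0 := by
      rw [Ne, Complex.normSq_eq_zero]
      exact hwa
    have him : (w c / w a).im = 0 := by
      rcases mul_eq_zero.1 hx with h | h
      · exact absurd h (mul_ne_zero hn hn)
      · exact h
    have e2 : (((w c / w a).re : ℝ) : ℂ) = w c / w a := by
      apply Complex.ext
      · simp
      · simp [him]
    rw [e2]
    field_simp
  set β : E3 →L[ℝ] ℝ := Complex.reCLM.comp ((w a)⁻¹ • w) with hβ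
  have hβv : ∀ c : E3, w c = ((β c : ℝ) : ℂ) * w a := by
    intro c
    rw [hreal c]
    congr 2
    simp [hβ, div_eq_inv_mul]
  obtain ⟨n, hn⟩ : ∃ n : E3, ∀ c : E3, β c = inner ℝ n c :=
    ⟨(InnerProductSpace.toDual ℝ E3).symm β, fun c => by simp⟩
  have hβa : β a = 1 := by
    have := hβv a
    have h' : ((β a : ℝ) : ℂ) = 1 := by
      have h'' : (1 : ℂ) * w a = ((β a : ℝ) : ℂ) * w a := by rw [one_mul]; exact this
      exact (mul_right_cancel₀ hwa h'').symm
    exact_mod_cast h'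
  have hn0 : n ≠ 0 := by
    intro h0
    rw [hn a, h0, inner_zero_left] at hβa
    exact zero_ne_one hβa
  have hwx0 : w x0 = 0 := by
    have := (hker x0 hx0 x0).1
    rw [hw] at this
    exact mul_self_eq_zero.1 this
  have hβx0 : β x0 = 0 := by
    have h' := hβv x0
    rw [hwx0] at h'
    have h'' := (mul_eq_zero.1 h'.symm).resolve_right hwa
    exact_mod_cast h''
  have hnn : ‖n‖ ≠ 0 := norm_ne_zero_iff.2 hn0
  have hxn : ‖x0‖ ≠ 0 := norm_ne_zero_iff.2 hx0
  have hxp : 0 < ‖x0‖ := norm_pos_iff.2 hx0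
  obtain ⟨f, ho⟩ := h2.2 (‖n‖⁻¹ • n) (‖x0‖⁻¹ • x0) (norm_smul_inv_norm hn0)
    (norm_smul_inv_norm hx0) (by
      rw [inner_smul_left, inner_smul_right, ← hn x0, hβx0]
      simp)
  set e : E3 := ‖n‖⁻¹ • n with he
  have hk : x0 = ‖x0‖ • (‖x0‖⁻¹ • x0) := by
    rw [smul_smul, mul_inv_cancel₀ hxn, one_smul]
  have hnorm := norm_aff ho hk
  have hne : ∀ p, aff x0 e f p ≠ 0 := by
    intro p h0
    have h' := hnorm p
    rw [h0, norm_zero] at h'
    have : 0 < ‖x0‖ ^ 2 := by positivity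
    nlinarith [sq_nonneg p.1, sq_nonneg p.2]
  have hne1 : ‖e‖ = 1 := by simpa using ho.1 0
  have hef : inner ℝ e f = (0 : ℝ) := by
    have := ho.2 (i := 0) (j := 1) (by decide)
    simpa using this
  have hwf : w f = 0 := by
    have h' : n = ‖n‖ • e := by
      rw [he, smul_smul, mul_inv_cancel₀ hnn, one_smul]
    rw [hβv f, hn f, h', inner_smul_left, hef]
    simp
  have hwe : w e ≠ 0 := by
    rw [hβv e, hn e, he, inner_smul_right, real_inner_self_eq_norm_sq]
    refine mul_ne_zero ?_ hwa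
    have : ‖n‖⁻¹ * ‖n‖ ^ 2 ≠ 0 := by positivity
    exact_mod_cast this
  -- differentiability facts
  have hopen : IsOpen {x : E3 | x ≠ 0} := isOpen_ne
  have hd1 : ∀ x : E3, x ≠ 0 → DifferentiableAt ℝ H x := fun x hx =>
    (hH.smooth.differentiableOn (by norm_num)).differentiableAt (hopen.mem_nhds hx)
  have hd2 : ∀ x : E3, x ≠ 0 → DifferentiableAt ℝ (fderiv ℝ H) x := fun x hx =>
    (hC1.differentiableOn (by norm_num)).differentiableAt (hopen.mem_nhds hx)
  set θ : ℂ := (starRingEnd ℂ) (w e * w e) with hθ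
  set F : ℝ × ℝ → ℂ := fun p => θ * H (aff x0 e f p) with hF
  have hFsm : ContDiff ℝ 2 F := by
    have hc : ContDiff ℝ 2 (fun p => H (aff x0 e f p)) := by
      rw [contDiff_iff_contDiffAt]
      intro p
      exact ((hH.smooth.contDiffAt (hopen.mem_nhds (hne p))).comp p
        (aff_contDiff x0 e f).contDiffAt)
    exact contDiff_const.mul hc
  have hF1 : ∀ v : ℝ × ℝ, ∀ p, fderiv ℝ F p v
      = θ * fderiv ℝ H (aff x0 e f p) (v.1 • e + v.2 • f) := by
    intro v p
    have hdiff : DifferentiableAt ℝ (fun p => H (aff x0 e f p)) p :=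
      (hd1 _ (hne p)).comp p (aff_hasFDerivAt x0 e f p).differentiableAt
    rw [hF, fderiv_const_mul hdiff]
    rw [smul_apply, fderiv_comp_aff H x0 e f p (hd1 _ (hne p)), smul_eq_mul]
  have hpx : px F = fun p => θ * fderiv ℝ H (aff x0 e f p) e := by
    funext p
    rw [px, hF1]
    simp
  have hpy : py F = fun p => θ * fderiv ℝ H (aff x0 e f p) f := by
    funext p
    rw [py, hF1]
    simp
  have hsec : ∀ (u : E3) (v : ℝ × ℝ) (p : ℝ × ℝ),
      fderiv ℝ (fun p => θ * fderiv ℝ H (aff x0 e f p) u) p v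
        = θ * D2 H (aff x0 e f p) (v.1 • e + v.2 • f) u := by
    intro u v p
    have hda : DifferentiableAt ℝ (fun x => fderiv ℝ H x u) (aff x0 e f p) :=
      (hd2 _ (hne p)).clm_apply (differentiableAt_const u)
    have hdiff : DifferentiableAt ℝ (fun p => fderiv ℝ H (aff x0 e f p) u) p :=
      hda.comp p (aff_hasFDerivAt x0 e f p).differentiableAt
    rw [fderiv_const_mul hdiff, smul_apply, smul_eq_mul,
      fderiv_comp_aff (fun x => fderiv ℝ H x u) x0 e f p hda]
    rw [fderiv_clm_apply (hd2 _ (hne p)) (differentiableAt_const u)]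
    simp [D2]
  have hpxx : ∀ p, px (px F) p = θ * D2 H (aff x0 e f p) e e := by
    intro p
    rw [px, hpx, hsec]
    simp
  have hpyx : ∀ p, py (px F) p = θ * D2 H (aff x0 e f p) f e := by
    intro p
    rw [py, hpx, hsec]
    simp
  have hpyy : ∀ p, py (py F) p = θ * D2 H (aff x0 e f p) f f := by
    intro p
    rw [py, hpy, hsec]
    simp
  have haff0 : aff x0 e f (0, 0) = x0 := by simp [aff]
  have hMA : MA F := by
    intro p
    obtain ⟨u, hu⟩ := hH.rank1 _ (hne p)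
    rw [hpxx, hpyx, hpyy, hu, hu, hu]
    ring
  have hlam : 0 < Complex.normSq (w e * w e) := by
    rw [Complex.normSq_pos]
    exact mul_ne_zero hwe hwe
  have hC0 : 0 ≤ C := by
    have h' : 0 ≤ C / ‖x0‖ := le_trans (by positivity) (hC x0 hx0)
    by_contra hneg
    push Not at hneg
    exact absurd h' (not_le.2 (div_neg_of_neg_of_pos hneg hxp))
  refine h3 F (Complex.normSq (w e * w e)) (‖θ‖ * C / min ‖x0‖ 1) hFsm hMA hlam ?_ ?_ ?_ ?_
  · intro p
    have hm : 0 < min ‖x0‖ 1 := lt_min hxp one_pos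
    have hs : 0 < 1 + p.1 ^ 2 + p.2 ^ 2 := by positivity
    have hle : min ‖x0‖ 1 * Real.sqrt (1 + p.1 ^ 2 + p.2 ^ 2) ≤ ‖aff x0 e f p‖ := by
      apply le_of_sq_le_sq _ (norm_nonneg _)
      rw [mul_pow, Real.sq_sqrt hs.le, hnorm p]
      have hm1 : (min ‖x0‖ 1) ^ 2 ≤ ‖x0‖ ^ 2 := pow_le_pow_left₀ hm.le (min_le_left _ _) 2
      have hm2 : (min ‖x0‖ 1) ^ 2 ≤ 1 := by
        have := pow_le_pow_left₀ hm.le (min_le_right ‖x0‖ 1) 2
        simpa using this
      nlinarith [sq_nonneg p.1, sq_nonneg p.2]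
    have hb : ‖D2 H (aff x0 e f p) e e‖ ≤ C / ‖aff x0 e f p‖ := by
      have h' := (fderiv ℝ (fderiv ℝ H) (aff x0 e f p)).le_opNorm₂ e e
      rw [hne1, mul_one, mul_one] at h'
      exact h'.trans (hC _ (hne p))
    rw [hpxx, norm_mul]
    calc ‖θ‖ * ‖D2 H (aff x0 e f p) e e‖ ≤ ‖θ‖ * (C / ‖aff x0 e f p‖) :=
          mul_le_mul_of_nonneg_left hb (norm_nonneg _)
      _ ≤ ‖θ‖ * (C / (min ‖x0‖ 1 * Real.sqrt (1 + p.1 ^ 2 + p.2 ^ 2))) := by
          apply mul_le_mul_of_nonneg_left _ (norm_nonneg _)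
          apply div_le_div_of_nonneg_left hC0 _ hle
          exact mul_pos hm (Real.sqrt_pos.2 hs)
      _ = ‖θ‖ * C / min ‖x0‖ 1 / Real.sqrt (1 + p.1 ^ 2 + p.2 ^ 2) := by
          rw [div_div, mul_div_assoc]
  · rw [hpxx, haff0, hw, hθ, Complex.normSq_eq_conj_mul_self]
  · rw [hpyx, haff0, hw, hwf]
    simp
  · have hcont : Filter.Tendsto (aff x0 e f) (𝓝 (0, 0)) (𝓝 x0) := by
      have := (aff_contDiff x0 e f).continuous.tendsto (0, 0)
      rwa [haff0] at this
    have hev' := hcont.eventually hev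
    unfold IntK
    filter_upwards [hev'] with q hq
    have hq' := hq e f
    rw [hpxx, hpyx, hsym _ (hne q) f e]
    have e1 : (starRingEnd ℂ) (θ * D2 H (aff x0 e f q) e e) * (θ * D2 H (aff x0 e f q) e f)
        = ((Complex.normSq θ : ℝ) : ℂ)
          * ((starRingEnd ℂ) (D2 H (aff x0 e f q) e e) * D2 H (aff x0 e f q) e f) := by
      rw [map_mul, Complex.normSq_eq_conj_mul_self]
      ring
    rw [e1, Complex.im_ofReal_mul, hq', mul_zero]

end Pool.Agent.HH
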