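import Pool.Agent.Lib.MP_7dc3d9_gt.ThA.Stm

set_option autoImplicit false

namespace Pool.Agent.HH

open Complex Set MeasureTheory Topology

private noncomputable def keEta (s : ℝ) : ℝ := ∫ x in (0:ℝ)..s, Real.smoothTransition x

private theorem ke_d (s : ℝ) : HasDerivAt keEta (Real.smoothTransition s) s :=
  (Real.smoothTransition.continuous).integral_hasStrictDerivAt 0 s |>.hasDerivAt

private theorem ke_cd : ContDiff ℝ 2 keEta := by
  have h : deriv keEta = Real.smoothTransition := funext fun s => (ke_d s).deriv
  have h2 : (2 : WithTop ℕ∞) = 1 + 1 := by norm_num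
  rw [h2, contDiff_succ_iff_deriv]
  refine ⟨fun s => (ke_d s).differentiableAt, by simp, ?_⟩
  rw [h]
  exact Real.smoothTransition.contDiff

private theorem ke_neg {s : ℝ} (hs : s ≤ 0) : keEta s = 0 := by
  unfold keEta
  rw [intervalIntegral.integral_symm]
  have : ∫ x in s..(0:ℝ), Real.smoothTransition x = ∫ x in s..(0:ℝ), (0:ℝ) := by
    apply intervalIntegral.integral_congr
    intro x hx
    rw [uIcc_of_le hs] at hx
    exact Real.smoothTransition.zero_of_nonpos hx.2
  rw [this]
  simp

private theorem ke_mono : Monotone keEta := monotone_of_deriv_nonneg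
  (fun s => (ke_d s).differentiableAt) fun s => by
    rw [(ke_d s).deriv]
    exact Real.smoothTransition.nonneg s

private theorem ke_nonneg (s : ℝ) : 0 ≤ keEta s := by
  rcases le_total s 0 with h | h
  · exact (ke_neg h).ge
  · have := ke_mono h
    rwa [ke_neg le_rfl] at this

private theorem ke_le {s : ℝ} (hs : 0 ≤ s) : keEta s ≤ s := by
  have h : Antitone fun s => keEta s - s := antitone_of_deriv_nonpos
    (fun s => ((ke_d s).sub (hasDerivAt_id s)).differentiableAt) fun s => by
      have h2 : HasDerivAt (fun s => keEta s - s) (Real.smoothTransition s - 1) s :=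
        (ke_d s).sub (hasDerivAt_id s)
      rw [h2.deriv]
      have := Real.smoothTransition.le_one s
      linarith
  have h3 := h hs
  simp only [ke_neg le_rfl] at h3
  linarith

private theorem ke_ge (s : ℝ) : s - 1 ≤ keEta s := by
  rcases le_total s 1 with h | h
  · have := ke_nonneg s
    linarith
  · have h1 : keEta s = keEta 1 + (s - 1) := by
      unfold keEta
      rw [← intervalIntegral.integral_add_adjacent_intervals (b := 1)
        (Real.smoothTransition.continuous.intervalIntegrable _ _)
        (Real.smoothTransition.continuous.intervalIntegrable _ _)]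
      congr 1
      have : ∫ x in (1:ℝ)..s, Real.smoothTransition x = ∫ x in (1:ℝ)..s, (1:ℝ) := by
        apply intervalIntegral.integral_congr
        intro x hx
        rw [uIcc_of_le h] at hx
        exact Real.smoothTransition.one_of_one_le hx.1
      rw [this]
      simp
    have := ke_nonneg 1
    linarith

private theorem ke_der {s : ℝ} (hs : s < 0) : deriv Real.smoothTransition s = 0 := by
  have h : Real.smoothTransition =ᶠ[𝓝 s] fun _ => 0 := by
    filter_upwards [gt_mem_nhds hs] with x hx
    exact Real.smoothTransition.zero_of_nonpos hx.le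
  rw [h.deriv_eq, deriv_const]

private theorem ke_b {ε t : ℝ} (hε : 0 < ε) (ht : 0 ≤ t) : 0 ≤ ε * keEta ((t - ε) / ε) ∧
    ε * keEta ((t - ε) / ε) ≤ t ∧ t - 2 * ε ≤ ε * keEta ((t - ε) / ε) := by
  refine ⟨mul_nonneg hε.le (ke_nonneg _), ?_, ?_⟩
  · rcases le_total 0 ((t - ε) / ε) with h | h
    · have := mul_le_mul_of_nonneg_left (ke_le h) hε.le
      rw [mul_div_cancel₀ _ hε.ne'] at this
      linarith
    · rw [ke_neg h, mul_zero]
      exact ht
  · have := mul_le_mul_of_nonneg_left (ke_ge ((t - ε) / ε)) hε.le
    rw [mul_sub, mul_div_cancel₀ _ hε.ne'] at this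
    linarith

private theorem ke_z {ε t : ℝ} (hε : 0 < ε) (ht : 0 ≤ t) : ε * keEta ((-t - ε) / ε) = 0 := by
  rw [ke_neg (div_nonpos_of_nonpos_of_nonneg (by linarith) hε.le), mul_zero]

private theorem ke_th (s : ℝ) : 0 ≤ deriv Real.smoothTransition s := Real.smoothTransition.monotone.deriv_nonneg

/-- KE -/
theorem p_KE : S_KE := by
  intro ε hε
  refine ⟨fun t => ε * keEta ((t - ε) / ε) - ε * keEta ((-t - ε) / ε), ?_, ?_, ?_, ?_, ?_⟩
  · have h1 : ContDiff ℝ 2 fun t : ℝ => (t - ε) / ε := by fun_prop
    have h2 : ContDiff ℝ 2 fun t : ℝ => (-t - ε) / ε := by fun_prop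
    exact (contDiff_const.mul (ke_cd.comp h1)).sub (contDiff_const.mul (ke_cd.comp h2))
  · intro t ht
    obtain ⟨h1, h2⟩ := abs_le.1 ht
    have e1 : (t - ε) / ε ≤ 0 := div_nonpos_of_nonpos_of_nonneg (by linarith) hε.le
    have e2 : (-t - ε) / ε ≤ 0 := div_nonpos_of_nonpos_of_nonneg (by linarith) hε.le
    simp only [ke_neg e1, ke_neg e2]
    simp
  · intro t
    dsimp only
    rcases le_total 0 t with h | h
    · obtain ⟨h1, h2, -⟩ := ke_b hε h
      rw [ke_z hε h, sub_zero, abs_of_nonneg h1, abs_of_nonneg h]
      exact h2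
    · have h' : 0 ≤ -t := by linarith
      obtain ⟨h1, h2, -⟩ := ke_b hε h'
      have h3 := ke_z hε h'
      rw [neg_neg] at h3
      rw [h3, zero_sub, abs_neg, abs_of_nonneg h1, abs_of_nonpos h]
      exact h2
  · intro t
    dsimp only
    rcases le_total 0 t with h | h
    · obtain ⟨h1, h2, h4⟩ := ke_b hε h
      rw [ke_z hε h, sub_zero, abs_le]
      constructor <;> linarith
    · have h' : 0 ≤ -t := by linarith
      obtain ⟨h1, h2, h4⟩ := ke_b hε h'
      have h3 := ke_z hε h'
      rw [neg_neg] at h3
      rw [h3, zero_sub, abs_le]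
      constructor <;> linarith
  · intro t
    have hd1 : ∀ t : ℝ, HasDerivAt (fun t : ℝ => (t - ε) / ε) (1 / ε) t := fun t =>
      ((hasDerivAt_id t).sub_const ε).div_const ε
    have hd2 : ∀ t : ℝ, HasDerivAt (fun t : ℝ => (-t - ε) / ε) (-1 / ε) t := fun t =>
      (((hasDerivAt_id t).neg).sub_const ε).div_const ε
    have e1 : deriv (fun t => ε * keEta ((t - ε) / ε) - ε * keEta ((-t - ε) / ε)) =
        fun t => Real.smoothTransition ((t - ε) / ε) + Real.smoothTransition ((-t - ε) / ε) := by
      funext t
      have h1 := ((ke_d ((t - ε) / ε)).comp t (hd1 t)).const_mul ε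
      have h2 := ((ke_d ((-t - ε) / ε)).comp t (hd2 t)).const_mul ε
      refine (h1.sub h2).deriv.trans ?_
      field_simp
      ring
    rw [e1]
    have hs : ∀ s : ℝ, HasDerivAt Real.smoothTransition (deriv Real.smoothTransition s) s :=
      fun s => ((Real.smoothTransition.contDiff (n := 1)).differentiable (by simp) s).hasDerivAt
    have e2 : deriv (fun t => Real.smoothTransition ((t - ε) / ε) +
        Real.smoothTransition ((-t - ε) / ε)) t =
        deriv Real.smoothTransition ((t - ε) / ε) * (1 / ε) +
        deriv Real.smoothTransition ((-t - ε) / ε) * (-1 / ε) :=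
      (((hs _).comp t (hd1 t)).add ((hs _).comp t (hd2 t))).deriv
    rw [e2]
    rcases le_total 0 t with h | h
    · have h1 : deriv Real.smoothTransition ((-t - ε) / ε) = 0 :=
        ke_der (div_neg_of_neg_of_pos (by linarith) hε)
      rw [h1, zero_mul, add_zero]
      have := ke_th ((t - ε) / ε)
      positivity
    · have h1 : deriv Real.smoothTransition ((t - ε) / ε) = 0 :=
        ke_der (div_neg_of_neg_of_pos (by linarith) hε)
      rw [h1, zero_mul, zero_add]
      have h2 := ke_th ((-t - ε) / ε)
      have h3 : t * (deriv Real.smoothTransition ((-t - ε) / ε) * (-1 / ε)) =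
          (-t) * (deriv Real.smoothTransition ((-t - ε) / ε) * (1 / ε)) := by ring
      rw [h3]
      exact mul_nonneg (by linarith) (mul_nonneg h2 (by positivity))

end Pool.Agent.HH
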