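import Pool.Agent.Lib.MP_7dc3d9_gt.ThA.Stm

set_option autoImplicit false

/-! Piece `MAIN`: null functions are linear. -/

namespace Pool.Agent.HH

open Complex Set MeasureTheory Topology

private lemma main_rho (h3 : S_COMP) (h4 : S_TOPS) (H : E3 → ℂ) (hH : IsNull H)
    (hev : ∀ x : E3, x ≠ 0 → fderiv ℝ H (-x) = fderiv ℝ H x) (i : Fin 3) (θ : ℂ) (hθ : θ ≠ 0)
    (x1 x2 : E3) (hx1 : x1 ≠ 0) (hx2 : x2 ≠ 0) :
    (θ * fderiv ℝ H x1 (ev i)).re ≤ (θ * fderiv ℝ H x2 (ev i)).re := by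
  by_contra hlt
  push Not at hlt
  obtain ⟨c, hc1, hc2⟩ := exists_between hlt
  obtain ⟨oV, cV, sV⟩ := h3 H i θ c x1 x2 hH hev hθ hx1 hx2 hc2 hc1.le _ rfl
  have e1 : -c < (-θ * fderiv ℝ H x2 (ev i)).re := by
    rw [neg_mul, Complex.neg_re]; linarith
  have e2 : (-θ * fderiv ℝ H x1 (ev i)).re ≤ -c := by
    rw [neg_mul, Complex.neg_re]; linarith
  obtain ⟨oW, cW, sW⟩ := h3 H i (-θ) (-c) x2 x1 hH hev (neg_ne_zero.2 hθ) hx2 hx1 e1 e2 _ rfl
  have hVs := connectedComponentIn_subset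
    {x : E3 | x ≠ 0 ∧ c < (θ * fderiv ℝ H x (ev i)).re} x1
  have hWs := connectedComponentIn_subset
    {x : E3 | x ≠ 0 ∧ -c < (-θ * fderiv ℝ H x (ev i)).re} x2
  obtain ⟨x, hxV, hxW⟩ := h4 _ _ oV oW cV cW (fun h => (hVs h).1 rfl) (fun h => (hWs h).1 rfl) sV sW
  have a1 := (hVs hxV).2
  have a2 := (hWs hxW).2
  rw [neg_mul, Complex.neg_re] at a2
  linarith

theorem p_MAIN (h1 : S_BAS) (h2 : S_EVEN) (h3 : S_COMP) (h4 : S_TOPS) : S_MAIN := by
  intro H hH
  have hev := h2 H hH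
  obtain ⟨-, heu, -⟩ := h1 H hH
  have hne : ev 0 ≠ 0 := by
    intro h
    have : (ev 0) 0 = 0 := by rw [h]; rfl
    simp [ev] at this
  have hconst : ∀ x : E3, x ≠ 0 → fderiv ℝ H x = fderiv ℝ H (ev 0) := by
    intro x hx
    have hi : ∀ i : Fin 3, fderiv ℝ H x (ev i) = fderiv ℝ H (ev 0) (ev i) := by
      intro i
      apply Complex.ext
      · have r1 := main_rho h3 h4 H hH hev i 1 one_ne_zero x (ev 0) hx hne
        have r2 := main_rho h3 h4 H hH hev i 1 one_ne_zero (ev 0) x hne hx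
        rw [one_mul, one_mul] at r1 r2
        exact le_antisymm r1 r2
      · have r1 := main_rho h3 h4 H hH hev i (-Complex.I) (neg_ne_zero.2 Complex.I_ne_zero)
          x (ev 0) hx hne
        have r2 := main_rho h3 h4 H hH hev i (-Complex.I) (neg_ne_zero.2 Complex.I_ne_zero)
          (ev 0) x hne hx
        have e : ∀ z : ℂ, (-Complex.I * z).re = z.im := by intro z; simp
        rw [e, e] at r1 r2
        exact le_antisymm r1 r2
    ext v
    have hv : v = ∑ i : Fin 3, v i • ev i := by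
      ext j
      rw [Fin.sum_univ_three]
      fin_cases j <;> simp [ev]
    rw [hv, map_sum, map_sum]
    refine Finset.sum_congr rfl fun i _ => ?_
    rw [map_smul, map_smul, hi i]
  refine ⟨fderiv ℝ H (ev 0), fun x => ?_⟩
  by_cases hx : x = 0
  · subst hx
    have := hH.hom 0 2 (by norm_num)
    rw [smul_zero] at this
    have h0 : H 0 = 0 := by
      push_cast at this
      linear_combination -this
    rw [h0, map_zero]
  · rw [← hconst x hx, heu x hx]

end Pool.Agent.HH
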