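import Pool.Agent.Lib.MP_7dc3d9_gt.ThA.Stm

set_option autoImplicit false

/-! Piece NULL: `f + i g` is a null function. -/

namespace Pool.Agent.HH

open Complex Set MeasureTheory Topology

private lemma ho : IsOpen {x : E3 | x ≠ 0} := isOpen_ne

private lemma nd1 {f : E3 → ℝ} (hf : IsSupp f) (x : E3) (hx : x ≠ 0) : DifferentiableAt ℝ f x :=
  (hf.smooth.contDiffAt (ho.mem_nhds hx)).differentiableAt (by norm_num)

private lemma nd2 {f : E3 → ℝ} (hf : IsSupp f) (x : E3) (hx : x ≠ 0) :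
    DifferentiableAt ℝ (fderiv ℝ f) x := by
  have h : ContDiffOn ℝ 1 (fderiv ℝ f) {x : E3 | x ≠ 0} :=
    hf.smooth.fderiv_of_isOpen ho (by norm_num)
  exact (h.contDiffAt (ho.mem_nhds hx)).differentiableAt (by norm_num)

private lemma nhom1 {f : E3 → ℝ} (hf : IsSupp f) (x : E3) (hx : x ≠ 0) (c : ℝ) (hc : 0 < c) :
    fderiv ℝ f (c • x) = fderiv ℝ f x := by
  have hcx : c • x ≠ 0 := smul_ne_zero hc.ne' hx
  have e1 : HasFDerivAt (fun y : E3 => f (c • y))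
      ((fderiv ℝ f (c • x)).comp (c • ContinuousLinearMap.id ℝ E3)) x :=
    (nd1 hf _ hcx).hasFDerivAt.comp x ((hasFDerivAt_id x).const_smul c)
  have e2 : HasFDerivAt (fun y : E3 => c * f y) (c • fderiv ℝ f x) x :=
    (nd1 hf x hx).hasFDerivAt.const_mul c
  have e3 : (fun y : E3 => f (c • y)) = fun y => c * f y := funext fun y => hf.hom y c hc
  rw [e3] at e1
  have e4 := e1.unique e2
  ext v
  have e5 := DFunLike.congr_fun e4 v
  simp only [ContinuousLinearMap.comp_apply, smul_apply,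
    ContinuousLinearMap.id_apply, map_smul, smul_eq_mul] at e5
  exact mul_left_cancel₀ hc.ne' e5

private lemma nhom2 {f : E3 → ℝ} (hf : IsSupp f) (x : E3) (hx : x ≠ 0) (c : ℝ) (hc : 0 < c) :
    fderiv ℝ (fderiv ℝ f) (c • x) = c⁻¹ • fderiv ℝ (fderiv ℝ f) x := by
  have hcx : c • x ≠ 0 := smul_ne_zero hc.ne' hx
  have e1 : HasFDerivAt (fun y : E3 => fderiv ℝ f (c • y))
      ((fderiv ℝ (fderiv ℝ f) (c • x)).comp (c • ContinuousLinearMap.id ℝ E3)) x :=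
    (nd2 hf _ hcx).hasFDerivAt.comp x ((hasFDerivAt_id x).const_smul c)
  have e3 : (fun y : E3 => fderiv ℝ f (c • y)) =ᶠ[𝓝 x] fun y => fderiv ℝ f y := by
    filter_upwards [ho.mem_nhds hx] with y hy using nhom1 hf y hy c hc
  have e4 := (e1.congr_of_eventuallyEq e3.symm).unique (nd2 hf x hx).hasFDerivAt
  rw [← e4]
  ext v w
  simp only [ContinuousLinearMap.comp_apply, smul_apply,
    ContinuousLinearMap.id_apply, map_smul, smul_smul]
  rw [inv_mul_cancel₀ hc.ne', one_smul]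

private lemma nker {f : E3 → ℝ} (hf : IsSupp f) (x : E3) (hx : x ≠ 0) (a : E3) :
    fderiv ℝ (fderiv ℝ f) x a x = 0 := by
  have e0 : HasDerivAt (fun c : ℝ => c • x) x 1 := by
    simpa using (hasDerivAt_id (1 : ℝ)).smul_const x
  have e1 : HasDerivAt (fun c : ℝ => fderiv ℝ f (c • x)) (fderiv ℝ (fderiv ℝ f) x x) 1 := by
    have e : HasFDerivAt (fderiv ℝ f) (fderiv ℝ (fderiv ℝ f) x) ((1 : ℝ) • x) := by
      rw [one_smul]
      exact (nd2 hf x hx).hasFDerivAt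
    exact e.comp_hasDerivAt (1 : ℝ) e0
  have e3 : (fun c : ℝ => fderiv ℝ f (c • x)) =ᶠ[𝓝 (1 : ℝ)] fun _ : ℝ => fderiv ℝ f x := by
    filter_upwards [lt_mem_nhds (zero_lt_one : (0 : ℝ) < 1)] with c hc using nhom1 hf x hx c hc
  have e4 : fderiv ℝ (fderiv ℝ f) x x = 0 :=
    (e1.congr_of_eventuallyEq e3.symm).unique (hasDerivAt_const (1 : ℝ) (fderiv ℝ f x))
  have e5 : fderiv ℝ (fderiv ℝ f) x a x = fderiv ℝ (fderiv ℝ f) x x a :=
    (hf.smooth.contDiffAt (ho.mem_nhds hx)).isSymmSndFDerivAt (by simp) a x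
  rw [e5, e4]
  rfl

private lemma nsym {f : E3 → ℝ} (hf : IsSupp f) (x : E3) (hx : x ≠ 0) (a b : E3) :
    fderiv ℝ (fderiv ℝ f) x a b = fderiv ℝ (fderiv ℝ f) x b a :=
  (hf.smooth.contDiffAt (ho.mem_nhds hx)).isSymmSndFDerivAt (by simp) a b

/-- the function `f + i g` -/
private noncomputable def HH (f g : E3 → ℝ) (x : E3) : ℂ := (f x : ℂ) + Complex.I * (g x : ℂ)

private lemma nfd {f g : E3 → ℝ} (hf : IsSupp f) (hg : IsSupp g) (x : E3) (hx : x ≠ 0) :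
    fderiv ℝ (HH f g) x = Complex.ofRealCLM.comp (fderiv ℝ f x)
      + Complex.I • Complex.ofRealCLM.comp (fderiv ℝ g x) := by
  have e1 : HasFDerivAt (fun y => ((f y : ℝ) : ℂ)) (Complex.ofRealCLM.comp (fderiv ℝ f x)) x :=
    Complex.ofRealCLM.hasFDerivAt.comp x (nd1 hf x hx).hasFDerivAt
  have e2 : HasFDerivAt (fun y => ((g y : ℝ) : ℂ)) (Complex.ofRealCLM.comp (fderiv ℝ g x)) x :=
    Complex.ofRealCLM.hasFDerivAt.comp x (nd1 hg x hx).hasFDerivAt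
  have e3 : HasFDerivAt (fun y => Complex.I * ((g y : ℝ) : ℂ))
      (Complex.I • Complex.ofRealCLM.comp (fderiv ℝ g x)) x := e2.const_mul Complex.I
  exact (e1.add e3).fderiv

private lemma nD2 {f g : E3 → ℝ} (hf : IsSupp f) (hg : IsSupp g) (x : E3) (hx : x ≠ 0)
    (a b : E3) :
    D2 (HH f g) x a b = ((fderiv ℝ (fderiv ℝ f) x a b : ℝ) : ℂ)
      + Complex.I * ((fderiv ℝ (fderiv ℝ g) x a b : ℝ) : ℂ) := by
  set L : (E3 →L[ℝ] ℝ) →L[ℝ] (E3 →L[ℝ] ℂ) :=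
    ContinuousLinearMap.compL ℝ E3 ℝ ℂ Complex.ofRealCLM with hL
  have hLa : ∀ φ : E3 →L[ℝ] ℝ, L φ = Complex.ofRealCLM.comp φ := fun φ => rfl
  have e1 : HasFDerivAt (fun y => L (fderiv ℝ f y)) (L.comp (fderiv ℝ (fderiv ℝ f) x)) x :=
    L.hasFDerivAt.comp x (nd2 hf x hx).hasFDerivAt
  have e2 : HasFDerivAt (fun y => L (fderiv ℝ g y)) (L.comp (fderiv ℝ (fderiv ℝ g) x)) x :=
    L.hasFDerivAt.comp x (nd2 hg x hx).hasFDerivAt
  have e3 : HasFDerivAt (fun y => Complex.I • L (fderiv ℝ g y))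
      (Complex.I • L.comp (fderiv ℝ (fderiv ℝ g) x)) x := e2.const_smul Complex.I
  have e4 : HasFDerivAt (fun y => L (fderiv ℝ f y) + Complex.I • L (fderiv ℝ g y))
      (L.comp (fderiv ℝ (fderiv ℝ f) x) + Complex.I • L.comp (fderiv ℝ (fderiv ℝ g) x)) x :=
    e1.add e3
  have e5 : fderiv ℝ (HH f g) =ᶠ[𝓝 x]
      fun y => L (fderiv ℝ f y) + Complex.I • L (fderiv ℝ g y) := by
    filter_upwards [ho.mem_nhds hx] with y hy using nfd hf hg y hy
  have e6 := (e4.congr_of_eventuallyEq e5).fderiv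
  unfold D2
  rw [e6]
  rfl

private lemma nadd {f g : E3 → ℝ} (hf : IsSupp f) (hg : IsSupp g) (x : E3) (hx : x ≠ 0)
    (i j : Fin 3) :
    hessEntry (fun y => f y + g y) x i j = hessEntry f x i j + hessEntry g x i j := by
  have e1 : fderiv ℝ (fun y => f y + g y) =ᶠ[𝓝 x] fun y => fderiv ℝ f y + fderiv ℝ g y := by
    filter_upwards [ho.mem_nhds hx] with y hy using
      ((nd1 hf y hy).hasFDerivAt.add (nd1 hg y hy).hasFDerivAt).fderiv
  have e2 : HasFDerivAt (fun y => fderiv ℝ f y + fderiv ℝ g y)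
      (fderiv ℝ (fderiv ℝ f) x + fderiv ℝ (fderiv ℝ g) x) x :=
    (nd2 hf x hx).hasFDerivAt.add (nd2 hg x hx).hasFDerivAt
  have e3 := (e2.congr_of_eventuallyEq e1).fderiv
  unfold hessEntry
  rw [e3]
  rfl

private lemma nvec (a : E3) : a = ∑ i : Fin 3, a i • ev i := by
  ext j
  fin_cases j <;> simp [ev, Fin.sum_univ_three]

/-- the statement at unit vectors -/
private lemma nunit (h1 : S_ALG) {f g : E3 → ℝ} (hf : IsSupp f) (hg : IsSupp g)
    (h2 : ∀ u ∈ Metric.sphere (0 : E3) 1, curvatureFunction f u = curvatureFunction g u)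
    (h3 : ∀ u ∈ Metric.sphere (0 : E3) 1,
      curvatureFunction (fun x => f x + g x) u = curvatureFunction f u + curvatureFunction g u)
    (u : E3) (hu : u ∈ Metric.sphere (0 : E3) 1) :
    ∃ w : E3 →L[ℝ] ℂ, ∀ a b : E3, D2 (HH f g) u a b = w a * w b := by
  have hn : ‖u‖ = 1 := mem_sphere_zero_iff_norm.1 hu
  have hu0 : u ≠ 0 := by
    intro h0
    rw [h0, norm_zero] at hn
    exact zero_ne_one hn
  set F : Fin 3 → Fin 3 → ℝ := fun i j => hessEntry f u i j with hF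
  set G : Fin 3 → Fin 3 → ℝ := fun i j => hessEntry g u i j with hG
  set M : Fin 3 → Fin 3 → ℂ := fun i j => D2 (HH f g) u (ev i) (ev j) with hM
  have hMe : ∀ i j, M i j = (F i j : ℂ) + Complex.I * (G i j : ℂ) := fun i j =>
    nD2 hf hg u hu0 (ev i) (ev j)
  have hMs : ∀ i j, M i j = M j i := by
    intro i j
    have e1 : F i j = F j i := nsym hf u hu0 _ _
    have e2 : G i j = G j i := nsym hg u hu0 _ _
    rw [hMe, hMe, e1, e2]
  have hM0 : ∀ i, ∑ j, M i j * ((u j : ℝ) : ℂ) = 0 := by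
    intro i
    have e1 : D2 (HH f g) u (ev i) u = 0 := by
      rw [nD2 hf hg u hu0, nker hf u hu0, nker hg u hu0]
      simp
    have e2 : D2 (HH f g) u (ev i) u = ∑ j, M i j * ((u j : ℝ) : ℂ) := by
      have e3 : D2 (HH f g) u (ev i) (∑ j : Fin 3, u j • ev j)
          = ∑ j : Fin 3, M i j * ((u j : ℝ) : ℂ) := by
        unfold D2
        rw [map_sum]
        refine Finset.sum_congr rfl fun j _ => ?_
        rw [map_smul, Complex.real_smul, mul_comm]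
        rfl
      rwa [← nvec u] at e3
    rw [← e2, e1]
  have hsq : ∑ i, (u i) ^ 2 = 1 := by
    have e1 := EuclideanSpace.norm_sq_eq u
    rw [hn] at e1
    simpa using e1.symm
  have hmin : (M 0 0 * M 1 1 - M 0 1 * M 1 0) + (M 0 0 * M 2 2 - M 0 2 * M 2 0)
      + (M 1 1 * M 2 2 - M 1 2 * M 2 1) = 0 := by
    have r1 := h2 u hu
    have r2 := h3 u hu
    unfold curvatureFunction at r1 r2
    simp only [nadd hf hg u hu0] at r2
    have r1' : (((F 0 0 * F 1 1 - F 0 1 * F 1 0) + (F 0 0 * F 2 2 - F 0 2 * F 2 0)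
        + (F 1 1 * F 2 2 - F 1 2 * F 2 1) : ℝ) : ℂ)
        = (((G 0 0 * G 1 1 - G 0 1 * G 1 0) + (G 0 0 * G 2 2 - G 0 2 * G 2 0)
        + (G 1 1 * G 2 2 - G 1 2 * G 2 1) : ℝ) : ℂ) := congrArg _ r1
    have r2' : ((((F 0 0 + G 0 0) * (F 1 1 + G 1 1) - (F 0 1 + G 0 1) * (F 1 0 + G 1 0))
        + ((F 0 0 + G 0 0) * (F 2 2 + G 2 2) - (F 0 2 + G 0 2) * (F 2 0 + G 2 0))
        + ((F 1 1 + G 1 1) * (F 2 2 + G 2 2) - (F 1 2 + G 1 2) * (F 2 1 + G 2 1)) : ℝ) : ℂ)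
        = ((((F 0 0 * F 1 1 - F 0 1 * F 1 0) + (F 0 0 * F 2 2 - F 0 2 * F 2 0)
        + (F 1 1 * F 2 2 - F 1 2 * F 2 1)) + ((G 0 0 * G 1 1 - G 0 1 * G 1 0)
        + (G 0 0 * G 2 2 - G 0 2 * G 2 0) + (G 1 1 * G 2 2 - G 1 2 * G 2 1)) : ℝ) : ℂ) :=
      congrArg _ r2
    push_cast at r1' r2'
    simp only [hMe]
    have hI : Complex.I * Complex.I = -1 := Complex.I_mul_I
    linear_combination r1' + Complex.I * r2' +
      (((G 0 0 : ℂ) * G 1 1 - G 0 1 * G 1 0) + (G 0 0 * G 2 2 - G 0 2 * G 2 0)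
        + (G 1 1 * G 2 2 - G 1 2 * G 2 1)) * hI
  obtain ⟨w, hw⟩ := h1 M (fun i => u i) hMs hsq hM0 hmin
  refine ⟨∑ i : Fin 3, (w i) • Complex.ofRealCLM.comp (EuclideanSpace.proj i : E3 →L[ℝ] ℝ),
    fun a b => ?_⟩
  have hW : ∀ a : E3, (∑ i : Fin 3,
      (w i) • Complex.ofRealCLM.comp (EuclideanSpace.proj i : E3 →L[ℝ] ℝ)) a
      = ∑ i : Fin 3, w i * ((a i : ℝ) : ℂ) := by
    intro a
    rw [sum_apply]
    rfl
  rw [hW, hW, Finset.sum_mul_sum]
  have e3 : D2 (HH f g) u (∑ i : Fin 3, a i • ev i) (∑ j : Fin 3, b j • ev j)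
      = ∑ i : Fin 3, ∑ j : Fin 3, (w i * ((a i : ℝ) : ℂ)) * (w j * ((b j : ℝ) : ℂ)) := by
    unfold D2
    have e5 : fderiv ℝ (fderiv ℝ (HH f g)) u (∑ i : Fin 3, a i • ev i)
        = ∑ i : Fin 3, a i • fderiv ℝ (fderiv ℝ (HH f g)) u (ev i) := by
      rw [map_sum]
      exact Finset.sum_congr rfl fun i _ => map_smul _ _ _
    rw [e5, sum_apply]
    refine Finset.sum_congr rfl fun i _ => ?_
    rw [smul_apply, map_sum, Finset.smul_sum]
    refine Finset.sum_congr rfl fun j _ => ?_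
    rw [map_smul, Complex.real_smul, Complex.real_smul]
    have e4 : fderiv ℝ (fderiv ℝ (HH f g)) u (ev i) (ev j) = w i * w j := hw i j
    rw [e4]
    ring
  rwa [← nvec a, ← nvec b] at e3

theorem p_NULL (h1 : S_ALG) : S_NULL := by
  intro f g hf hg h2 h3
  have hHH : (fun x => (f x : ℂ) + Complex.I * (g x : ℂ)) = HH f g := rfl
  rw [hHH]
  refine ⟨?_, ?_, ?_⟩
  · intro x c hc
    unfold HH
    rw [hf.hom x c hc, hg.hom x c hc]
    push_cast
    ring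
  · have e1 : ContDiffOn ℝ 2 (fun x => ((f x : ℝ) : ℂ)) {x : E3 | x ≠ 0} :=
      Complex.ofRealCLM.contDiff.comp_contDiffOn hf.smooth
    have e2 : ContDiffOn ℝ 2 (fun x => ((g x : ℝ) : ℂ)) {x : E3 | x ≠ 0} :=
      Complex.ofRealCLM.contDiff.comp_contDiffOn hg.smooth
    exact e1.add (contDiffOn_const.mul e2)
  · intro x hx
    have hx0 : 0 < ‖x‖ := norm_pos_iff.2 hx
    set u : E3 := ‖x‖⁻¹ • x with hu
    have hus : u ∈ Metric.sphere (0 : E3) 1 := by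
      rw [mem_sphere_zero_iff_norm, hu, norm_smul, norm_inv, norm_norm,
        inv_mul_cancel₀ hx0.ne']
    have hu0 : u ≠ 0 := smul_ne_zero (inv_ne_zero hx0.ne') hx
    have hxu : ‖x‖ • u = x := by
      rw [hu, smul_smul, mul_inv_cancel₀ hx0.ne', one_smul]
    obtain ⟨W, hW⟩ := nunit h1 hf hg h2 h3 u hus
    refine ⟨((Real.sqrt ‖x‖)⁻¹ : ℝ) • W, fun a b => ?_⟩
    have e1 : D2 (HH f g) x a b = ((‖x‖⁻¹ : ℝ) : ℂ) * D2 (HH f g) u a b := by
      rw [nD2 hf hg x hx, nD2 hf hg u hu0]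
      have e2 := nhom2 hf u hu0 ‖x‖ hx0
      have e3 := nhom2 hg u hu0 ‖x‖ hx0
      rw [hxu] at e2 e3
      rw [e2, e3]
      simp only [smul_apply, smul_eq_mul]
      push_cast
      ring
    have e4 : Real.sqrt ‖x‖ * Real.sqrt ‖x‖ = ‖x‖ := Real.mul_self_sqrt hx0.le
    have e5 : (((Real.sqrt ‖x‖)⁻¹ : ℝ) : ℂ) * (((Real.sqrt ‖x‖)⁻¹ : ℝ) : ℂ)
        = ((‖x‖⁻¹ : ℝ) : ℂ) := by
      rw [← Complex.ofReal_mul, ← mul_inv, e4]
    rw [e1, hW, ← e5]
    simp only [smul_apply, Complex.real_smul]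
    ring

end Pool.Agent.HH
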