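import Pool.Agent.Lib.MP_7dc3d9_gt.ThA.Stm
set_option autoImplicit false
namespace Pool.Agent.HH

/-- a unit vector orthogonal to at most two given vectors -/
private theorem onb_perp (s : Finset E3) (hs : s.card ≤ 2) :
    ∃ f : E3, ‖f‖ = 1 ∧ ∀ v ∈ s, inner ℝ v f = 0 := by
  set K : Submodule ℝ E3 := Submodule.span ℝ (s : Set E3) with hK
  have h1 : Module.finrank ℝ K ≤ 2 := (finrank_span_finset_le_card s).trans hs
  have h2 : Module.finrank ℝ K + Module.finrank ℝ Kᗮ = Module.finrank ℝ E3 :=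
    K.finrank_add_finrank_orthogonal
  have h3 : Module.finrank ℝ E3 = 3 := by simp [E3]
  have h4 : 0 < Module.finrank ℝ Kᗮ := by omega
  obtain ⟨⟨x, hx⟩, hx0⟩ := (Module.finrank_pos_iff_exists_ne_zero (R := ℝ) (M := Kᗮ)).1 h4
  have hx0' : x ≠ 0 := fun h => hx0 (by ext1; exact h)
  have hn : ‖x‖ ≠ 0 := norm_ne_zero_iff.2 hx0'
  refine ⟨(‖x‖⁻¹ : ℝ) • x, ?_, fun v hv => ?_⟩
  · rw [norm_smul, norm_inv, norm_norm, inv_mul_cancel₀ hn]
  · rw [inner_smul_right, (Submodule.mem_orthogonal K x).1 hx v (Submodule.subset_span hv), mul_zero]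

private theorem onb_mk {e f k : E3} (he : ‖e‖ = 1) (hf : ‖f‖ = 1) (hk : ‖k‖ = 1)
    (hef : inner ℝ e f = 0) (hek : inner ℝ e k = 0) (hkf : inner ℝ k f = 0) :
    Orthonormal ℝ ![e, f, k] := by
  have hfe : inner ℝ f e = 0 := by rw [real_inner_comm]; exact hef
  have hke : inner ℝ k e = 0 := by rw [real_inner_comm]; exact hek
  have hfk : inner ℝ f k = 0 := by rw [real_inner_comm]; exact hkf
  constructor
  · intro i
    fin_cases i <;> simp [he, hf, hk]
  · intro i j hij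
    fin_cases i <;> fin_cases j <;> simp_all

/-- **ONB** -/
theorem p_ONB : S_ONB := by
  classical
  have h2 : ∀ e k : E3, ‖e‖ = 1 → ‖k‖ = 1 → inner ℝ e k = 0 →
      ∃ f : E3, Orthonormal ℝ ![e, f, k] := by
    intro e k he hk hek
    obtain ⟨f, hf, hp⟩ := onb_perp {e, k} Finset.card_le_two
    exact ⟨f, onb_mk he hf hk (hp e (by simp)) hek (hp k (by simp))⟩
  refine ⟨fun k hk => ?_, h2⟩
  obtain ⟨e, he, hp⟩ := onb_perp {k} (by simp)
  have hek : inner ℝ e k = 0 := by rw [real_inner_comm]; exact hp k (by simp)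
  obtain ⟨f, hf⟩ := h2 e k he hk hek
  exact ⟨e, f, hf⟩

end Pool.Agent.HH
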