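import Pool.Agent.Lib.MP_7dc3d9_gt.ThA.Stm
set_option autoImplicit false
namespace Pool.Agent.HH

open Complex Set MeasureTheory Topology

private lemma pen_supp (f g : E3 → ℝ) (hf : IsSupp f) (hg : IsSupp g) (s t : ℝ) :
    IsSupp (fun x => s * f x + t * g x) := by
  refine ⟨?_, ?_⟩
  · intro x c hc
    rw [hf.hom x c hc, hg.hom x c hc]
    ring
  · exact (contDiffOn_const.mul hf.smooth).add (contDiffOn_const.mul hg.smooth)

private lemma pen_open : IsOpen {x : E3 | x ≠ 0} := isOpen_ne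

private lemma pen_d1 (f : E3 → ℝ) (hf : IsSupp f) (x : E3) (hx : x ≠ 0) :
    DifferentiableAt ℝ f x :=
  ((hf.smooth.contDiffAt (pen_open.mem_nhds hx)).differentiableAt (by norm_num))

private lemma pen_d2 (f : E3 → ℝ) (hf : IsSupp f) (x : E3) (hx : x ≠ 0) :
    DifferentiableAt ℝ (fderiv ℝ f) x := by
  have h1 : ContDiffAt ℝ 2 f x := hf.smooth.contDiffAt (pen_open.mem_nhds hx)
  have h2 : ContDiffAt ℝ 1 (fderiv ℝ f) x := h1.fderiv_right (by norm_num)
  exact h2.differentiableAt (by norm_num)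

private lemma pen_fd (f g : E3 → ℝ) (hf : IsSupp f) (hg : IsSupp g) (s t : ℝ) (x : E3)
    (hx : x ≠ 0) :
    fderiv ℝ (fun x => s * f x + t * g x) x = s • fderiv ℝ f x + t • fderiv ℝ g x := by
  have h1 := ((pen_d1 f hf x hx).hasFDerivAt.const_mul s).add
    ((pen_d1 g hg x hx).hasFDerivAt.const_mul t)
  exact h1.fderiv

private lemma pen_hess (f g : E3 → ℝ) (hf : IsSupp f) (hg : IsSupp g) (s t : ℝ) (x : E3)
    (hx : x ≠ 0) (i j : Fin 3) :
    hessEntry (fun x => s * f x + t * g x) x i j = s * hessEntry f x i j + t * hessEntry g x i j := by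
  unfold hessEntry
  have h0 : (fderiv ℝ (fun x => s * f x + t * g x)) =ᶠ[𝓝 x]
      (fun y => s • fderiv ℝ f y + t • fderiv ℝ g y) := by
    filter_upwards [pen_open.mem_nhds hx] with y hy
    exact pen_fd f g hf hg s t y hy
  have h1 : HasFDerivAt (fun y => s • fderiv ℝ f y + t • fderiv ℝ g y)
      (s • fderiv ℝ (fderiv ℝ f) x + t • fderiv ℝ (fderiv ℝ g) x) x :=
    ((pen_d2 f hf x hx).hasFDerivAt.const_smul s).add ((pen_d2 g hg x hx).hasFDerivAt.const_smul t)
  rw [h0.fderiv_eq, h1.fderiv]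
  simp

private lemma pen_curv (f g : E3 → ℝ) (hf : IsSupp f) (hg : IsSupp g) (s t : ℝ) (x : E3)
    (hx : x ≠ 0) :
    curvatureFunction (fun x => s * f x + t * g x) x
      = s ^ 2 * curvatureFunction f x + t ^ 2 * curvatureFunction g x
        + s * t * (curvatureFunction (fun x => f x + g x) x - curvatureFunction f x
          - curvatureFunction g x) := by
  have h1 : (fun x => f x + g x) = (fun x => 1 * f x + 1 * g x) := by
    funext y; ring
  have e1 : ∀ i j, hessEntry (fun x => f x + g x) x i j = hessEntry f x i j + hessEntry g x i j := by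
    intro i j
    rw [h1, pen_hess f g hf hg 1 1 x hx i j]
    ring
  unfold curvatureFunction
  simp only [pen_hess f g hf hg s t x hx, e1]
  ring

private lemma pen_root (α β γ : ℝ) : ∃ s t : ℂ, (s ≠ 0 ∨ t ≠ 0) ∧
    (α : ℂ) * s ^ 2 + 2 * (γ : ℂ) * s * t + (β : ℂ) * t ^ 2 = 0 := by
  by_cases hα : α = 0
  · refine ⟨1, 0, Or.inl one_ne_zero, ?_⟩
    rw [hα]
    simp
  · obtain ⟨z, hz⟩ := IsAlgClosed.exists_pow_nat_eq ((γ : ℂ) ^ 2 - (α : ℂ) * (β : ℂ))
      (n := 2) (by norm_num)
    have hα' : (α : ℂ) ≠ 0 := by exact_mod_cast hα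
    refine ⟨(-(γ : ℂ) + z) / (α : ℂ), 1, Or.inr one_ne_zero, ?_⟩
    field_simp
    linear_combination hz

theorem p_PEN (h1 : S_THA) : S_PEN := by
  intro f g hf hg α β γ ρ h
  obtain ⟨s, t, hst, hroot⟩ := pen_root α β γ
  have hre := congrArg Complex.re hroot
  have him := congrArg Complex.im hroot
  have hF := pen_supp f g hf hg s.re t.re
  have hG := pen_supp f g hf hg s.im t.im
  have hcurv : ∀ a b : ℝ, ∀ u ∈ Metric.sphere (0 : EuclideanSpace ℝ (Fin 3)) 1,
      curvatureFunction (fun x => a * f x + b * g x) u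
        = (α * a ^ 2 + 2 * γ * a * b + β * b ^ 2) * ρ u := by
    intro a b u hu
    have hu0 : u ≠ 0 := by
      intro h0
      rw [h0] at hu
      simp at hu
    obtain ⟨e1, e2, e3⟩ := h u hu
    rw [pen_curv f g hf hg a b u hu0, e3, e1, e2]
    ring
  have hsq : ∀ z : ℂ, (z ^ 2).re = z.re ^ 2 - z.im ^ 2 ∧ (z ^ 2).im = 2 * z.re * z.im := by
    intro z
    constructor
    · rw [pow_two, Complex.mul_re]; ring
    · rw [pow_two, Complex.mul_im]; ring
  have hre' : α * (s.re ^ 2 - s.im ^ 2) + 2 * γ * (s.re * t.re - s.im * t.im)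
      + β * (t.re ^ 2 - t.im ^ 2) = 0 := by
    simp only [Complex.add_re, Complex.mul_re, Complex.mul_im, Complex.ofReal_re,
      Complex.ofReal_im, (hsq s).1, (hsq s).2, (hsq t).1, (hsq t).2, Complex.zero_re,
      Complex.re_ofNat, Complex.im_ofNat] at hre
    linarith
  have him' : α * (2 * s.re * s.im) + 2 * γ * (s.re * t.im + s.im * t.re)
      + β * (2 * t.re * t.im) = 0 := by
    simp only [Complex.add_im, Complex.mul_re, Complex.mul_im, Complex.ofReal_re,
      Complex.ofReal_im, (hsq s).1, (hsq s).2, (hsq t).1, (hsq t).2, Complex.zero_im,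
      Complex.re_ofNat, Complex.im_ofNat] at him
    linarith
  have hsum : (fun x => (s.re * f x + t.re * g x) + (s.im * f x + t.im * g x))
      = (fun x => (s.re + s.im) * f x + (t.re + t.im) * g x) := by
    funext x; ring
  have hA := h1 _ _ hF hG
    (by
      intro u hu
      rw [hcurv s.re t.re u hu, hcurv s.im t.im u hu]
      linear_combination (ρ u) * hre')
    (by
      intro u hu
      rw [hsum, hcurv _ _ u hu, hcurv s.re t.re u hu, hcurv s.im t.im u hu]
      linear_combination (ρ u) * him')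
  obtain ⟨⟨a, ha⟩, ⟨b, hb⟩⟩ := hA
  by_cases hc : s.re ≠ 0 ∨ t.re ≠ 0
  · exact ⟨s.re, t.re, hc, a, ha⟩
  · push Not at hc
    refine ⟨s.im, t.im, ?_, b, hb⟩
    rcases hst with h0 | h0
    · left
      intro h2
      exact h0 (Complex.ext hc.1 h2)
    · right
      intro h2
      exact h0 (Complex.ext hc.2 h2)

end Pool.Agent.HH
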