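import Pool.Agent.Lib.MP_7dc3d9_gt.ThA.Stm

set_option autoImplicit false

/-! R3: extension of the degenerate region upwards. -/

namespace Pool.Agent.HH

open Complex Set MeasureTheory Topology

/-- the Wirtinger derivative of a real function -/
private noncomputable def r3gz (g : ℂ → ℝ) (z : ℂ) : ℂ :=
  ((g1 g z : ℂ) - Complex.I * (g2 g z : ℂ)) / 2

private theorem r3_g1_contDiff {g : ℂ → ℝ} (hg : ContDiff ℝ (⊤ : ℕ∞) g) :
    ContDiff ℝ (⊤ : ℕ∞) (g1 g) := by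
  have h1 : ContDiff ℝ (⊤ : ℕ∞) (fderiv ℝ g) := hg.fderiv_right (by simp)
  exact h1.clm_apply contDiff_const

private theorem r3_g2_contDiff {g : ℂ → ℝ} (hg : ContDiff ℝ (⊤ : ℕ∞) g) :
    ContDiff ℝ (⊤ : ℕ∞) (g2 g) := by
  have h1 : ContDiff ℝ (⊤ : ℕ∞) (fderiv ℝ g) := hg.fderiv_right (by simp)
  exact h1.clm_apply contDiff_const

private theorem r3_fd_apply (g : ℂ → ℝ) (z w : ℂ) :
    fderiv ℝ g z w = w.re * g1 g z + w.im * g2 g z := by
  have h : w = w.re • (1 : ℂ) + w.im • Complex.I := by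
    apply Complex.ext <;> simp
  conv_lhs => rw [h]
  rw [map_add, map_smul, map_smul]
  simp only [smul_eq_mul, g1, g2]

private theorem r3_symm {g : ℂ → ℝ} (hg : ContDiff ℝ (⊤ : ℕ∞) g) (z : ℂ) :
    g2 (g1 g) z = g1 (g2 g) z := by
  have h1 : ContDiff ℝ (⊤ : ℕ∞) (fderiv ℝ g) := hg.fderiv_right (by simp)
  have h2 : DifferentiableAt ℝ (fderiv ℝ g) z := (h1.differentiable (by simp)) z
  have e1 : HasFDerivAt (g1 g) ((fderiv ℝ (fderiv ℝ g) z).flip 1) z := by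
    have := (h2.hasFDerivAt).clm_apply (hasFDerivAt_const (1 : ℂ) z)
    refine this.congr_fderiv ?_
    ext v
    simp
  have e2 : HasFDerivAt (g2 g) ((fderiv ℝ (fderiv ℝ g) z).flip Complex.I) z := by
    have := (h2.hasFDerivAt).clm_apply (hasFDerivAt_const (Complex.I : ℂ) z)
    refine this.congr_fderiv ?_
    ext v
    simp
  have hs : IsSymmSndFDerivAt ℝ g z := by
    apply ContDiffAt.isSymmSndFDerivAt (n := 2) (hg.contDiffAt.of_le (by norm_cast))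
    simp
  have a1 : g2 (g1 g) z = fderiv ℝ (fderiv ℝ g) z Complex.I 1 := by
    change fderiv ℝ (g1 g) z Complex.I = _
    rw [e1.fderiv]; rfl
  have a2 : g1 (g2 g) z = fderiv ℝ (fderiv ℝ g) z 1 Complex.I := by
    change fderiv ℝ (g2 g) z 1 = _
    rw [e2.fderiv]; rfl
  rw [a1, a2]
  exact hs _ _

private theorem r3_gz_contDiff {g : ℂ → ℝ} (hg : ContDiff ℝ (⊤ : ℕ∞) g) :
    ContDiff ℝ 1 (r3gz g) := by
  have h1 : ContDiff ℝ 1 (fun z => ((g1 g z : ℝ) : ℂ)) :=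
    Complex.ofRealCLM.contDiff.comp ((r3_g1_contDiff hg).of_le (by norm_cast))
  have h2 : ContDiff ℝ 1 (fun z => ((g2 g z : ℝ) : ℂ)) :=
    Complex.ofRealCLM.contDiff.comp ((r3_g2_contDiff hg).of_le (by norm_cast))
  unfold r3gz
  exact (h1.sub (contDiff_const.mul h2)).div_const 2

private theorem r3_gz_hasFDerivAt {g : ℂ → ℝ} (hg : ContDiff ℝ (⊤ : ℕ∞) g) (z w : ℂ) :
    fderiv ℝ (r3gz g) z w = (((w.re * g1 (g1 g) z + w.im * g1 (g2 g) z : ℝ) : ℂ)
      - Complex.I * ((w.re * g1 (g2 g) z + w.im * g2 (g2 g) z : ℝ) : ℂ)) / 2 := by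
  have d1 : DifferentiableAt ℝ (g1 g) z := ((r3_g1_contDiff hg).differentiable (by simp)) z
  have d2 : DifferentiableAt ℝ (g2 g) z := ((r3_g2_contDiff hg).differentiable (by simp)) z
  have e1 : HasFDerivAt (fun z => ((g1 g z : ℝ) : ℂ)) (Complex.ofRealCLM.comp (fderiv ℝ (g1 g) z)) z :=
    Complex.ofRealCLM.hasFDerivAt.comp z d1.hasFDerivAt
  have e2 : HasFDerivAt (fun z => ((g2 g z : ℝ) : ℂ)) (Complex.ofRealCLM.comp (fderiv ℝ (g2 g) z)) z :=
    Complex.ofRealCLM.hasFDerivAt.comp z d2.hasFDerivAt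
  have e3 : HasFDerivAt (r3gz g) ((2 : ℂ)⁻¹ • (Complex.ofRealCLM.comp (fderiv ℝ (g1 g) z)
      - Complex.I • Complex.ofRealCLM.comp (fderiv ℝ (g2 g) z))) z := by
    have := (e1.sub (e2.const_mul Complex.I)).const_mul (2 : ℂ)⁻¹
    refine this.congr_of_eventuallyEq ?_
    filter_upwards with x
    simp only [r3gz, Pi.sub_apply]
    ring
  rw [e3.fderiv]
  have f1 := r3_fd_apply (g1 g) z w
  have f2 := r3_fd_apply (g2 g) z w
  rw [r3_symm hg] at f1
  simp only [smul_apply, sub_apply, ContinuousLinearMap.comp_apply, Complex.ofRealCLM_apply,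
    smul_eq_mul, f1, f2]
  ring

/-- the form `dΘ ∧ dG` for `Θ = χ(y) g_z(P)`, `dG = f dP` -/
private theorem r3_form {g : ℂ → ℝ} (hg : ContDiff ℝ (⊤ : ℕ∞) g) {χ : ℝ → ℝ} {c c' : ℝ}
    {P G : ℝ × ℝ → ℂ} {F : ℂ} {p : ℝ × ℝ} (hχ : HasDerivAt χ c' p.2) (hc : χ p.2 = c)
    (hP : DifferentiableAt ℝ P p) (h1 : px G p = F * px P p) (h2 : py G p = F * py P p) :
    px (fun q => (χ q.2 : ℂ) * r3gz g (P q)) p * py G p -
      py (fun q => (χ q.2 : ℂ) * r3gz g (P q)) p * px G p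
    = (c : ℂ) * F * Complex.I * ((lap g (P p) * Jac P p / 2 : ℝ) : ℂ)
      - (c' : ℂ) * r3gz g (P p) * F * px P p := by
  have e1 : HasFDerivAt (fun q : ℝ × ℝ => χ q.2)
      (c' • ContinuousLinearMap.snd ℝ ℝ ℝ) p := by
    have := hχ.hasFDerivAt.comp p (hasFDerivAt_snd (𝕜 := ℝ) (E := ℝ) (F := ℝ) (p := p))
    refine this.congr_fderiv ?_
    ext <;> simp
  have e2 : HasFDerivAt (fun q : ℝ × ℝ => ((χ q.2 : ℝ) : ℂ))
      (Complex.ofRealCLM.comp (c' • ContinuousLinearMap.snd ℝ ℝ ℝ)) p :=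
    Complex.ofRealCLM.hasFDerivAt.comp p e1
  have e3 : HasFDerivAt (fun q => r3gz g (P q)) ((fderiv ℝ (r3gz g) (P p)).comp (fderiv ℝ P p)) p :=
    (((r3_gz_contDiff hg).differentiable (by simp)) (P p)).hasFDerivAt.comp p hP.hasFDerivAt
  have e4 : HasFDerivAt (fun q => (χ q.2 : ℂ) * r3gz g (P q))
      ((χ p.2 : ℂ) • (fderiv ℝ (r3gz g) (P p)).comp (fderiv ℝ P p) +
      r3gz g (P p) • Complex.ofRealCLM.comp (c' • ContinuousLinearMap.snd ℝ ℝ ℝ)) p := e2.mul e3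
  have k1 : px (fun q => (χ q.2 : ℂ) * r3gz g (P q)) p = (c : ℂ) * fderiv ℝ (r3gz g) (P p) (px P p) := by
    unfold px
    rw [e4.fderiv, ← hc]
    simp
  have k2 : py (fun q => (χ q.2 : ℂ) * r3gz g (P q)) p
      = (c : ℂ) * fderiv ℝ (r3gz g) (P p) (py P p) + (c' : ℂ) * r3gz g (P p) := by
    unfold py
    rw [e4.fderiv, ← hc]
    simp
    ring
  rw [k1, k2, h1, h2, r3_gz_hasFDerivAt hg, r3_gz_hasFDerivAt hg]
  unfold lap Jac
  obtain ⟨a, b⟩ := px P p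
  obtain ⟨a', b'⟩ := py P p
  generalize g1 (g1 g) (P p) = A
  generalize g1 (g2 g) (P p) = B
  generalize g2 (g2 g) (P p) = C
  generalize r3gz g (P p) = Z
  obtain ⟨u, v⟩ := F
  obtain ⟨z1, z2⟩ := Z
  apply Complex.ext
  · simp
    ring
  · simp
    ring

private theorem r3_form_re1 {g : ℂ → ℝ} {c c' : ℝ} {P : ℝ × ℝ → ℂ} {F : ℂ} {p : ℝ × ℝ}
    (hF : F.im = 0) :
    (((c : ℂ) * F * Complex.I * ((lap g (P p) * Jac P p / 2 : ℝ) : ℂ)
      - (c' : ℂ) * r3gz g (P p) * F * px P p)).re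
    = - (c' * F.re * fderiv ℝ g (P p) (px P p)) / 2 := by
  rw [r3_fd_apply]
  unfold r3gz
  obtain ⟨u, v⟩ := F
  simp at hF
  subst hF
  obtain ⟨a, b⟩ := px P p
  simp
  ring

private theorem r3_form_re2 {g : ℂ → ℝ} {P : ℝ × ℝ → ℂ} {F : ℂ} {p : ℝ × ℝ} :
    ((((1 : ℝ) : ℂ) * F * Complex.I * ((lap g (P p) * Jac P p / 2 : ℝ) : ℂ)
      - (((0 : ℝ) : ℂ)) * r3gz g (P p) * F * px P p)).re
    = - (lap g (P p) * F.im * Jac P p) / 2 := by
  simp
  ring

/-- a one dimensional integration by parts -/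
private theorem r3_oned {s1 s2 a b c : ℝ} {u u' ψ : ℝ → ℝ} (h1 : s1 < a) (h2 : b < s2)
    (hc : c ∈ Icc a b) (hu : ∀ s ∈ Ioo s1 s2, HasDerivAt u (u' s) s)
    (hu' : ContinuousOn u' (Ioo s1 s2)) (hpos : ∀ s ∈ Ioo s1 s2, 0 ≤ u s)
    (hsupp : ∀ s ∈ Ioo s1 s2, s ∉ Icc a b → u s = 0)
    (hψ : ContDiffOn ℝ 1 ψ (Ioo s1 s2)) (hψ' : ∀ s ∈ Ioo s1 s2, 0 < deriv ψ s) (huc : 0 < u c) :
    ∫ s in Ioo s1 s2, u' s * ψ s < 0 := by
  have hac := hc.1
  have hcb := hc.2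
  obtain ⟨a', ha1, ha2⟩ := exists_between h1
  obtain ⟨b', hb1, hb2⟩ := exists_between h2
  have hab' : a' < b' := by linarith
  have hsub : Icc a' b' ⊆ Ioo s1 s2 := fun x hx => ⟨lt_of_lt_of_le ha1 hx.1, lt_of_le_of_lt hx.2 hb2⟩
  have hz : ∀ s ∈ Ioo s1 s2, s ∉ Icc a b → u' s = 0 := by
    intro s hs hsn
    have hev : u =ᶠ[𝓝 s] fun _ => (0 : ℝ) := by
      have : Ioo s1 s2 ∩ (Icc a b)ᶜ ∈ 𝓝 s :=
        (isOpen_Ioo.inter isClosed_Icc.isOpen_compl).mem_nhds ⟨hs, hsn⟩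
      filter_upwards [this] with x hx
      exact hsupp x hx.1 hx.2
    have := (hu s hs).congr_of_eventuallyEq hev.symm
    exact this.unique (hasDerivAt_const s (0 : ℝ))
  have hψd : ∀ s ∈ Ioo s1 s2, HasDerivAt ψ (deriv ψ s) s := fun s hs =>
    ((hψ.differentiableOn (by simp)).differentiableAt (isOpen_Ioo.mem_nhds hs)).hasDerivAt
  have hψc : ContinuousOn (deriv ψ) (Ioo s1 s2) :=
    hψ.continuousOn_deriv_of_isOpen isOpen_Ioo (by simp)
  have e1 : ∫ s in Ioo s1 s2, u' s * ψ s = ∫ s in Ioc a' b', u' s * ψ s := by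
    apply setIntegral_eq_of_subset_of_forall_sdiff_eq_zero measurableSet_Ioo
      (Ioc_subset_Icc_self.trans hsub)
    intro x hx
    have : x ∉ Icc a b := by
      intro hx'
      exact hx.2 ⟨by linarith [hx'.1], by linarith [hx'.2]⟩
    rw [hz x hx.1 this, zero_mul]
  rw [e1, ← intervalIntegral.integral_of_le hab'.le]
  have huIcc : uIcc a' b' = Icc a' b' := uIcc_of_le hab'.le
  have cu : ContinuousOn u (Icc a' b') := fun x hx => (hu x (hsub hx)).continuousAt.continuousWithinAt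
  have cψ : ContinuousOn ψ (Icc a' b') := hψ.continuousOn.mono hsub
  have cu' : ContinuousOn u' (Icc a' b') := hu'.mono hsub
  have cψ' : ContinuousOn (deriv ψ) (Icc a' b') := hψc.mono hsub
  have i1 : IntervalIntegrable (fun s => u' s * ψ s) volume a' b' :=
    ContinuousOn.intervalIntegrable (by rw [huIcc]; exact cu'.mul cψ)
  have i2 : IntervalIntegrable (fun s => u s * deriv ψ s) volume a' b' :=
    ContinuousOn.intervalIntegrable (by rw [huIcc]; exact cu.mul cψ')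
  have e2 : ∫ s in a'..b', (u' s * ψ s + u s * deriv ψ s) = u b' * ψ b' - u a' * ψ a' := by
    apply intervalIntegral.integral_deriv_mul_eq_sub
    · intro x hx
      rw [huIcc] at hx
      exact hu x (hsub hx)
    · intro x hx
      rw [huIcc] at hx
      exact hψd x (hsub hx)
    · exact ContinuousOn.intervalIntegrable (by rw [huIcc]; exact cu')
    · exact ContinuousOn.intervalIntegrable (by rw [huIcc]; exact cψ')
  rw [intervalIntegral.integral_add i1 i2] at e2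
  have ub : u b' = 0 := hsupp b' ⟨by linarith, hb2⟩ (fun h => by linarith [h.2])
  have ua : u a' = 0 := hsupp a' ⟨ha1, by linarith⟩ (fun h => by linarith [h.1])
  rw [ub, ua] at e2
  have e3 : 0 < ∫ s in a'..b', u s * deriv ψ s := by
    apply intervalIntegral.integral_pos hab' (cu.mul cψ')
    · intro x hx
      exact mul_nonneg (hpos x (hsub ⟨hx.1.le, hx.2⟩)) (hψ' x (hsub ⟨hx.1.le, hx.2⟩)).le
    · refine ⟨c, ⟨by linarith, by linarith⟩, mul_pos huc (hψ' c (hsub ⟨by linarith, by linarith⟩))⟩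
  linarith

/-- the cutoff in `y` -/
private theorem r3_cutoff {y1 y2 : ℝ} (h : y1 < y2) : ∃ χ : ℝ → ℝ, ContDiff ℝ 1 χ ∧
    (∀ y ≤ y1, χ y = 0) ∧ (∀ y ≥ y2, χ y = 1) := by
  refine ⟨fun y => Real.smoothTransition ((y - y1) / (y2 - y1)), ?_, ?_, ?_⟩
  · exact (Real.smoothTransition.contDiff).comp ((contDiff_id.sub contDiff_const).div_const _)
  · intro y hy
    apply Real.smoothTransition.zero_of_nonpos
    apply div_nonpos_of_nonpos_of_nonneg <;> linarith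
  · intro y hy
    apply Real.smoothTransition.one_of_one_le
    rw [le_div_iff₀ (by linarith)]
    linarith

private theorem r3_cutoff_int {y1 y2 yb ye : ℝ} (h : y1 < y2) (hb : yb < y1) (he : y2 < ye)
    {χ : ℝ → ℝ} (hχ : ContDiff ℝ 1 χ) (h0 : ∀ y ≤ y1, χ y = 0) (h1 : ∀ y ≥ y2, χ y = 1) :
    ∫ y in Ioo yb ye, deriv χ y = 1 := by
  rw [← integral_Ioc_eq_integral_Ioo, ← intervalIntegral.integral_of_le (by linarith)]
  rw [intervalIntegral.integral_deriv_eq_sub]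
  · rw [h0 yb hb.le, h1 ye he.le]; ring
  · intro x _
    exact (hχ.differentiable (by simp)) x
  · exact (hχ.continuous_deriv (by simp)).intervalIntegrable _ _

private theorem r3_re_part {W : Set (ℝ × ℝ)} {P : ℝ × ℝ → ℂ} (hW : IsOpen W)
    (hP : ContDiffOn ℝ 1 P W) (hre : ∀ p ∈ W, (P p).re = p.1) (p : ℝ × ℝ) (hp : p ∈ W) :
    (px P p).re = 1 ∧ (py P p).re = 0 := by
  have hd : DifferentiableAt ℝ P p :=
    (hP.differentiableOn (by simp)).differentiableAt (hW.mem_nhds hp)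
  have h1 : HasFDerivAt (fun q => (P q).re) (Complex.reCLM.comp (fderiv ℝ P p)) p :=
    Complex.reCLM.hasFDerivAt.comp p hd.hasFDerivAt
  have h2 : HasFDerivAt (fun q : ℝ × ℝ => (P q).re) (ContinuousLinearMap.fst ℝ ℝ ℝ) p := by
    refine (hasFDerivAt_fst (𝕜 := ℝ) (E := ℝ) (F := ℝ) (p := p)).congr_of_eventuallyEq ?_
    filter_upwards [hW.mem_nhds hp] with q hq
    exact hre q hq
  have h3 := h1.unique h2
  constructor
  · have := DFunLike.congr_fun h3 ((1 : ℝ), (0 : ℝ))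
    simpa [px] using this
  · have := DFunLike.congr_fun h3 ((0 : ℝ), (1 : ℝ))
    simpa [py] using this

private theorem r3_jac {P : ℝ × ℝ → ℂ} {p : ℝ × ℝ} (h1 : (px P p).re = 1) (h2 : (py P p).re = 0) :
    Jac P p = (py P p).im := by
  unfold Jac
  simp [h1, h2]

/-- slices -/
private theorem r3_slice_y {W : Set (ℝ × ℝ)} {P : ℝ × ℝ → ℂ} (hW : IsOpen W)
    (hP : ContDiffOn ℝ 1 P W) (s y : ℝ) (hp : (s, y) ∈ W) :
    HasDerivAt (fun t => P (s, t)) (py P (s, y)) y := by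
  have hd : DifferentiableAt ℝ P (s, y) :=
    (hP.differentiableOn (by simp)).differentiableAt (hW.mem_nhds hp)
  have h1 : HasDerivAt (fun t : ℝ => (s, t)) ((0 : ℝ), (1 : ℝ)) y :=
    (hasDerivAt_const y s).prodMk (hasDerivAt_id y)
  exact hd.hasFDerivAt.comp_hasDerivAt y h1

private theorem r3_slice_x {W : Set (ℝ × ℝ)} {P : ℝ × ℝ → ℂ} (hW : IsOpen W)
    (hP : ContDiffOn ℝ 1 P W) (s y : ℝ) (hp : (s, y) ∈ W) :
    HasDerivAt (fun t => P (t, y)) (px P (s, y)) s := by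
  have hd : DifferentiableAt ℝ P (s, y) :=
    (hP.differentiableOn (by simp)).differentiableAt (hW.mem_nhds hp)
  have h1 : HasDerivAt (fun t : ℝ => (t, y)) ((1 : ℝ), (0 : ℝ)) s :=
    (hasDerivAt_id s).prodMk (hasDerivAt_const s y)
  exact hd.hasFDerivAt.comp_hasDerivAt s h1

private theorem r3_const {P : ℝ × ℝ → ℂ} {s ya yz : ℝ}
    (hd : ∀ y ∈ Ioo ya yz, HasDerivAt (fun t => P (s, t)) (py P (s, y)) y)
    (h0 : ∀ y ∈ Ioo ya yz, py P (s, y) = 0) (y y' : ℝ) (hy : y ∈ Ioo ya yz) (hy' : y' ∈ Ioo ya yz) :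
    P (s, y) = P (s, y') := by
  have := Convex.norm_image_sub_le_of_norm_hasDerivWithin_le (f := fun t => P (s, t))
    (f' := fun t => py P (s, t)) (C := 0) (s := Ioo ya yz)
    (fun x hx => (hd x hx).hasDerivWithinAt) (fun x hx => by rw [h0 x hx]; simp)
    (convex_Ioo _ _) hy' hy
  simp only [zero_mul, norm_le_zero_iff, sub_eq_zero] at this
  exact this

private theorem r3_main (h1 : S_L2) (h2 : S_SH) {s1 s2 yb y0 yt : ℝ} {P G f : ℝ × ℝ → ℂ}
    {ψ : ℝ → ℝ} (hb0 : yb < y0) (h0t : y0 < yt)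
    (hP : ContDiffOn ℝ 1 P (Ioo s1 s2 ×ˢ Ioo yb yt))
    (hG : ContDiffOn ℝ 1 G (Ioo s1 s2 ×ˢ Ioo yb yt))
    (hf : ContinuousOn f (Ioo s1 s2 ×ˢ Ioo yb yt))
    (hre : ∀ p ∈ Ioo s1 s2 ×ˢ Ioo yb yt, (P p).re = p.1)
    (hGx : ∀ p ∈ Ioo s1 s2 ×ˢ Ioo yb yt, px G p = f p * px P p)
    (hGy : ∀ p ∈ Ioo s1 s2 ×ˢ Ioo yb yt, py G p = f p * py P p)
    (hJ : ∀ p ∈ Ioo s1 s2 ×ˢ Ioo yb yt, (f p).im * Jac P p ≤ 0)
    (hJ' : ∀ p ∈ Ioo s1 s2 ×ˢ Ioo yb yt, (f p).im ≠ 0 → Jac P p ≠ 0)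
    (hdeg : ∀ p ∈ Ioo s1 s2 ×ˢ Ioo yb yt, p.2 < y0 → Jac P p = 0 ∧ f p = (ψ p.1 : ℂ))
    (hψ : ContDiffOn ℝ 1 ψ (Ioo s1 s2)) (hψ' : ∀ s ∈ Ioo s1 s2, 0 < deriv ψ s)
    {yc : ℝ} (hyc1 : yb < yc) (hyc2 : yc < y0)
    (hcst : ∀ s ∈ Ioo s1 s2, ∀ y ∈ Ioo yb y0, P (s, y) = P (s, yc))
    {s' y' : ℝ} (hs' : s' ∈ Ioo s1 s2) (hy' : y' ∈ Ioo yb yt) (hne : P (s', y') ≠ P (s', yc)) :
    False := by
  have hWo : IsOpen (Ioo s1 s2 ×ˢ Ioo yb yt) := isOpen_Ioo.prod isOpen_Ioo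
  have hrp := r3_re_part hWo hP hre
  obtain ⟨z, hz⟩ : ∃ z, z = P (s', yc) := ⟨_, rfl⟩
  have hD : 0 < ‖P (s', y') - z‖ := by rw [hz]; exact norm_pos_iff.2 (sub_ne_zero.2 hne)
  obtain ⟨D, hDd⟩ : ∃ D, D = ‖P (s', y') - z‖ := ⟨_, rfl⟩
  rw [← hDd] at hD
  have hmem' : (s', y') ∈ Ioo s1 s2 ×ˢ Ioo yb yt := ⟨hs', hy'⟩
  -- the ball
  obtain ⟨ρ, hρ, hρ'⟩ : ∃ ρ > 0, ∀ q : ℝ × ℝ, |q.1 - s'| ≤ ρ → |q.2 - y'| ≤ ρ →
      q ∈ Ioo s1 s2 ×ˢ Ioo yb yt ∧ D / 2 < ‖P q - z‖ := by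
    have hcont : ContinuousAt (fun q => ‖P q - z‖) (s', y') :=
      ((hP.continuousOn.continuousAt (hWo.mem_nhds hmem')).sub continuousAt_const).norm
    have e1 : ∀ᶠ q in 𝓝 (s', y'), D / 2 < ‖P q - z‖ :=
      hcont.eventually (lt_mem_nhds (by change D / 2 < ‖P (s', y') - z‖; rw [← hDd]; linarith))
    have e2 : ∀ᶠ q in 𝓝 (s', y'), q ∈ Ioo s1 s2 ×ˢ Ioo yb yt := hWo.mem_nhds hmem'
    obtain ⟨ε, hε, hε'⟩ := Metric.eventually_nhds_iff.1 (e2.and e1)
    refine ⟨ε / 2, by positivity, fun q hq1 hq2 => hε' ?_⟩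
    rw [Prod.dist_eq, max_lt_iff]
    exact ⟨by rw [Real.dist_eq]; linarith, by rw [Real.dist_eq]; linarith⟩
  obtain ⟨r, hr0, hrρ, hrD⟩ : ∃ r : ℝ, 0 < r ∧ r ≤ ρ ∧ r ≤ D / 2 :=
    ⟨min ρ (D / 2), lt_min hρ (by linarith), min_le_left _ _, min_le_right _ _⟩
  have hball : ∀ q ∈ Ioo s1 s2 ×ˢ Ioo yb yt, (r < |q.1 - s'| ∨ |q.2 - y'| ≤ ρ) →
      r < ‖P q - z‖ := by
    intro q hq hor
    by_cases hc : r < |q.1 - s'|
    · refine lt_of_lt_of_le hc ?_
      have e1 : (P q - z).re = q.1 - s' := by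
        rw [Complex.sub_re, hre q hq, hz, hre (s', yc) ⟨hs', hyc1, hyc2.trans h0t⟩]
      rw [← e1]
      exact Complex.abs_re_le_norm _
    · rcases hor with h | h
      · exact absurd h hc
      · have := (hρ' q (by linarith) h).2
        linarith
  have hsr : ∀ s, |s - s'| ≤ r → s ∈ Ioo s1 s2 := by
    intro s hs
    have := (hρ' (s, y') (by simpa using hs.trans hrρ) (by simp [hρ.le])).1
    exact this.1
  have hy'0 : y0 ≤ y' := by
    by_contra hlt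
    exact hne (hcst s' hs' y' ⟨hy'.1, by linarith⟩)
  have hyρ : y0 ≤ y' - ρ := by
    by_contra hlt
    push Not at hlt
    obtain ⟨y, hy1, hy2⟩ := exists_between (max_lt hb0 hlt)
    have hy1' := max_lt_iff.1 hy1
    have e1 : P (s', y) = z := by rw [hz]; exact hcst s' hs' y ⟨hy1'.1, hy2⟩
    have e2 := hball (s', y) ⟨hs', hy1'.1, hy2.trans h0t⟩ (Or.inr (by
      rw [abs_le]; constructor <;> simp only <;> linarith))
    rw [e1] at e2
    simp at e2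
    linarith
  obtain ⟨y1, hy11, hy12⟩ := exists_between hb0
  obtain ⟨y2, hy21, hy22⟩ := exists_between hy12
  obtain ⟨χ, hχ, hχ0, hχ1⟩ := r3_cutoff hy21
  -- the bump
  obtain ⟨φ, hφ⟩ : ∃ φ : ContDiffBump z, φ = ⟨r / 2, r, by positivity, by linarith⟩ := ⟨_, rfl⟩
  have hφr : φ.rOut = r := by rw [hφ]
  obtain ⟨g, hgφ⟩ : ∃ g : ℂ → ℝ, g = φ := ⟨_, rfl⟩
  have hg : ContDiff ℝ (⊤ : ℕ∞) g := by rw [hgφ]; exact φ.contDiff
  have hg0 : ∀ w, 0 ≤ g w := by rw [hgφ]; exact fun w => φ.nonneg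
  have hgs : tsupport g = Metric.closedBall z r := by rw [hgφ, φ.tsupport_eq, hφr]
  have hgz : 0 < g z := by
    rw [hgφ, φ.one_of_mem_closedBall (by simp [φ.rIn_pos.le])]; norm_num
  have hgn : ∀ q ∈ Ioo s1 s2 ×ˢ Ioo yb yt, (r < |q.1 - s'| ∨ |q.2 - y'| ≤ ρ) →
      P q ∉ tsupport g := by
    intro q hq hor hm
    rw [hgs, Metric.mem_closedBall, dist_eq_norm] at hm
    linarith [hball q hq hor]
  -- the rectangle below `y'`
  have hsub : Ioo s1 s2 ×ˢ Ioo yb y' ⊆ Ioo s1 s2 ×ˢ Ioo yb yt :=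
    prod_mono_right (Ioo_subset_Ioo_right hy'.2.le)
  have hWo' : IsOpen (Ioo s1 s2 ×ˢ Ioo yb y') := isOpen_Ioo.prod isOpen_Ioo
  have hIcc : ∀ s ∈ Icc (s' - r) (s' + r), s ∈ Ioo s1 s2 := by
    intro s hs
    exact hsr s (by rw [abs_le]; constructor <;> linarith [hs.1, hs.2])
  obtain ⟨int1, le1⟩ := h2 (Ioo s1 s2 ×ˢ Ioo yb y') (Icc (s' - r) (s' + r) ×ˢ Icc y0 (y' - ρ))
    P G f g hWo' (isCompact_Icc.prod isCompact_Icc)
    (fun q hq => ⟨hIcc _ hq.1, by linarith [hq.2.1], by linarith [hq.2.2]⟩)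
    (hP.mono hsub) (hG.mono hsub) (hf.mono hsub) (fun q hq => hGx q (hsub hq))
    (fun q hq => hGy q (hsub hq)) (fun q hq => hJ q (hsub hq)) (fun q hq => hJ' q (hsub hq))
    hg hg0 (by
      intro q hq hfq hPq
      have hq2 : y0 ≤ q.2 := by
        by_contra hlt
        apply hfq
        rw [(hdeg q (hsub hq) (by linarith)).2]
        simp
      have k1 : ¬ (r < |q.1 - s'|) := fun h => hgn q (hsub hq) (Or.inl h) hPq
      have k2 : ¬ (|q.2 - y'| ≤ ρ) := fun h => hgn q (hsub hq) (Or.inr h) hPq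
      have hq22 : q.2 < y' := hq.2.2
      push Not at k1 k2
      rw [abs_le] at k1
      rw [abs_of_nonpos (by linarith)] at k2
      exact ⟨⟨by linarith [k1.1], by linarith [k1.2]⟩, hq2, by linarith⟩)
  have hgz0 : ∀ w, w ∉ tsupport g → r3gz g w = 0 := by
    intro w hw
    have : fderiv ℝ g w = 0 := by
      by_contra hne
      exact hw (support_fderiv_subset ℝ hne)
    unfold r3gz g1 g2
    rw [this]
    simp
  obtain ⟨int2, eq2⟩ := h1 (Ioo s1 s2 ×ˢ Ioo yb y') (Icc (s' - r) (s' + r) ×ˢ Icc y1 (y' - ρ))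
    (fun q => (χ q.2 : ℂ) * r3gz g (P q)) G hWo' (isCompact_Icc.prod isCompact_Icc)
    (fun q hq => ⟨hIcc _ hq.1, by linarith [hq.2.1], by linarith [hq.2.2]⟩)
    (by
      apply ContDiffOn.mul
      · exact (Complex.ofRealCLM.contDiff.comp (hχ.comp contDiff_snd)).contDiffOn
      · exact (r3_gz_contDiff hg).comp_contDiffOn (hP.mono hsub))
    (by
      intro q hq hqC
      by_cases c1 : q.2 ≤ y1
      · simp [hχ0 _ c1]
      · by_cases c2 : r < |q.1 - s'|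
        · simp only [hgz0 _ (hgn q (hsub hq) (Or.inl c2)), mul_zero]
        · have c3 : |q.2 - y'| ≤ ρ := by
            by_contra c3
            apply hqC
            have hq22 : q.2 < y' := hq.2.2
            push Not at c1 c2 c3
            rw [abs_le] at c2
            rw [abs_of_nonpos (by linarith)] at c3
            exact ⟨⟨by linarith [c2.1], by linarith [c2.2]⟩, c1.le, by linarith⟩
          simp only [hgz0 _ (hgn q (hsub hq) (Or.inr c3)), mul_zero])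
    (hG.mono hsub)
  have hder : ∀ y, HasDerivAt χ (deriv χ y) y := fun y =>
    ((hχ.differentiable (by simp)) y).hasDerivAt
  -- the pointwise identity
  have hpt : ∀ q ∈ Ioo s1 s2 ×ˢ Ioo yb y',
      (fderiv ℝ g (P (q.1, yc)) (px P (q.1, yc)) * ψ q.1) * deriv χ q.2
      = -2 * (px (fun q => (χ q.2 : ℂ) * r3gz g (P q)) q * py G q -
          py (fun q => (χ q.2 : ℂ) * r3gz g (P q)) q * px G q).re
        - lap g (P q) * (f q).im * Jac P q := by
    intro q hq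
    have hqW := hsub hq
    have hPd : DifferentiableAt ℝ P q :=
      (hP.differentiableOn (by simp)).differentiableAt (hWo.mem_nhds hqW)
    rw [r3_form hg (hder q.2) rfl hPd (hGx q hqW) (hGy q hqW)]
    by_cases hc : q.2 < y0
    · obtain ⟨j1, j2⟩ := hdeg q hqW hc
      have him : (f q).im = 0 := by rw [j2]; simp
      have hre' : (f q).re = ψ q.1 := by rw [j2]; simp
      rw [r3_form_re1 him, j1, hre']
      have hq1 : q.1 ∈ Ioo s1 s2 := hq.1
      have hq2 : q.2 ∈ Ioo yb y0 := ⟨hq.2.1, hc⟩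
      have e1 : P q = P (q.1, yc) := hcst q.1 hq1 q.2 hq2
      have e2 : px P q = px P (q.1, yc) := by
        have a1 := r3_slice_x hWo hP q.1 q.2 hqW
        have a2 := r3_slice_x hWo hP q.1 yc ⟨hq1, hyc1, hyc2.trans h0t⟩
        have a3 : (fun t => P (t, q.2)) =ᶠ[𝓝 q.1] fun t => P (t, yc) := by
          filter_upwards [isOpen_Ioo.mem_nhds hq1] with t ht
          exact hcst t ht q.2 hq2
        exact a1.unique (a2.congr_of_eventuallyEq a3)
      rw [e1, e2]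
      ring
    · push Not at hc
      have c1 : χ q.2 = 1 := hχ1 _ (by linarith)
      have c2 : deriv χ q.2 = 0 := by
        have : χ =ᶠ[𝓝 q.2] fun _ => (1 : ℝ) := by
          filter_upwards [lt_mem_nhds (show y2 < q.2 by linarith)] with t ht
          exact hχ1 t ht.le
        rw [this.deriv_eq]
        simp
      rw [c1, c2, r3_form_re2]
      ring
  have hint2 : IntegrableOn (fun q => (px (fun q => (χ q.2 : ℂ) * r3gz g (P q)) q * py G q -
          py (fun q => (χ q.2 : ℂ) * r3gz g (P q)) q * px G q).re) (Ioo s1 s2 ×ˢ Ioo yb y') :=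
    int2.re
  have hval : ∫ q in Ioo s1 s2 ×ˢ Ioo yb y',
      (px (fun q => (χ q.2 : ℂ) * r3gz g (P q)) q * py G q -
          py (fun q => (χ q.2 : ℂ) * r3gz g (P q)) q * px G q).re = 0 := by
    have := Complex.reCLM.integral_comp_comm int2
    simp only [Complex.reCLM_apply] at this
    rw [this, eq2]
    simp
  have hA : 0 ≤ ∫ q in Ioo s1 s2 ×ˢ Ioo yb y',
      (fderiv ℝ g (P (q.1, yc)) (px P (q.1, yc)) * ψ q.1) * deriv χ q.2 := by
    rw [setIntegral_congr_fun (measurableSet_Ioo.prod measurableSet_Ioo) hpt,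
      integral_sub (hint2.const_mul _) int1, integral_const_mul, hval]
    linarith
  rw [Measure.volume_eq_prod, setIntegral_prod_mul
    (fun s => fderiv ℝ g (P (s, yc)) (px P (s, yc)) * ψ s) (fun y => deriv χ y),
    r3_cutoff_int hy21 hy11 (by linarith) hχ hχ0 hχ1, mul_one] at hA
  have hmemc : ∀ s ∈ Ioo s1 s2, (s, yc) ∈ Ioo s1 s2 ×ˢ Ioo yb yt := fun s hs =>
    ⟨hs, hyc1, hyc2.trans h0t⟩
  have hB := r3_oned (s1 := s1) (s2 := s2) (a := s' - r) (b := s' + r) (c := s')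
    (u := fun s => g (P (s, yc))) (u' := fun s => fderiv ℝ g (P (s, yc)) (px P (s, yc))) (ψ := ψ)
    (hIcc (s' - r) ⟨le_rfl, by linarith⟩).1 (hIcc (s' + r) ⟨by linarith, le_rfl⟩).2
    ⟨by linarith, by linarith⟩
    (fun s hs => by
      have a1 := r3_slice_x hWo hP s yc (hmemc s hs)
      have a2 : HasFDerivAt g (fderiv ℝ g (P (s, yc))) (P (s, yc)) :=
        ((hg.differentiable (by simp)) _).hasFDerivAt
      exact a2.comp_hasDerivAt s a1)
    (by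
      have hcP : ContinuousOn (fun s => P (s, yc)) (Ioo s1 s2) :=
        hP.continuousOn.comp (by fun_prop) hmemc
      have hcx : ContinuousOn (fun s => px P (s, yc)) (Ioo s1 s2) := by
        have : ContinuousOn (fderiv ℝ P) (Ioo s1 s2 ×ˢ Ioo yb yt) :=
          hP.continuousOn_fderiv_of_isOpen hWo (by simp)
        have h3 : ContinuousOn (fun s : ℝ => fderiv ℝ P (s, yc)) (Ioo s1 s2) :=
          this.comp (by fun_prop) hmemc
        exact h3.clm_apply continuousOn_const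
      have hcg : Continuous (fderiv ℝ g) := hg.continuous_fderiv (by simp)
      exact (hcg.comp_continuousOn hcP).clm_apply hcx)
    (fun s _ => hg0 _)
    (fun s hs hn => by
      apply image_eq_zero_of_notMem_tsupport
      apply hgn (s, yc) (hmemc s hs)
      left
      simp only
      by_contra hc
      push Not at hc
      rw [abs_le] at hc
      exact hn ⟨by linarith [hc.1], by linarith [hc.2]⟩)
    hψ hψ' (by rw [← hz]; exact hgz)
  linarith

/-- **R3** -/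
theorem p_R3 (h1 : S_L2) (h2 : S_SH) : S_R3 := by
  intro s1 s2 yb y0 yt P G f ψ hb0 h0t hP hG hf hre hGx hGy hJ hJ' hdeg hψ hψ'
  have hWo : IsOpen (Ioo s1 s2 ×ˢ Ioo yb yt) := isOpen_Ioo.prod isOpen_Ioo
  have hrp := r3_re_part hWo hP hre
  have hlow : ∀ s ∈ Ioo s1 s2, ∀ y ∈ Ioo yb y0, py P (s, y) = 0 := by
    intro s hs y hy
    have hp : (s, y) ∈ Ioo s1 s2 ×ˢ Ioo yb yt := ⟨hs, hy.1, hy.2.trans h0t⟩
    obtain ⟨a, b⟩ := hrp _ hp
    have := (hdeg _ hp hy.2).1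
    rw [r3_jac a b] at this
    exact Complex.ext b this
  obtain ⟨yc, hyc1, hyc2⟩ := exists_between hb0
  have hcst : ∀ s ∈ Ioo s1 s2, ∀ y ∈ Ioo yb y0, P (s, y) = P (s, yc) := by
    intro s hs y hy
    exact r3_const (ya := yb) (yz := y0)
      (fun t ht => r3_slice_y hWo hP s t ⟨hs, ht.1, ht.2.trans h0t⟩)
      (fun t ht => hlow s hs t ht) y yc hy ⟨hyc1, hyc2⟩
  have key : ∀ s ∈ Ioo s1 s2, ∀ y ∈ Ioo yb yt, P (s, y) = P (s, yc) := by
    intro s hs y hy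
    by_contra hne
    exact r3_main h1 h2 hb0 h0t hP hG hf hre hGx hGy hJ hJ' hdeg hψ hψ' hyc1 hyc2 hcst hs hy hne
  intro p hp
  obtain ⟨a, b⟩ := hrp _ hp
  rw [r3_jac a b]
  have a1 := r3_slice_y hWo hP p.1 p.2 hp
  have a3 : (fun t => P (p.1, t)) =ᶠ[𝓝 p.2] fun _ => P (p.1, yc) := by
    filter_upwards [isOpen_Ioo.mem_nhds hp.2] with t ht
    exact key p.1 hp.1 t ht
  have a4 := a1.unique ((hasDerivAt_const p.2 (P (p.1, yc))).congr_of_eventuallyEq a3)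
  have a5 : py P p = 0 := a4
  rw [a5]
  simp

end Pool.Agent.HH
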