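import Pool.Agent.Lib.MP_7dc3d9_gt.ThA.Stm

set_option autoImplicit false

namespace Pool.Agent.HH

open Complex Set MeasureTheory Topology

/-- the reflection `(x, y) ↦ (x, -y)` -/
private noncomputable def Rm : (ℝ × ℝ) ≃L[ℝ] (ℝ × ℝ) :=
  (ContinuousLinearEquiv.refl ℝ ℝ).prodCongr (ContinuousLinearEquiv.neg ℝ)

private lemma Rm_apply (p : ℝ × ℝ) : Rm p = (p.1, -p.2) := rfl

private lemma px_Rm (G : ℝ × ℝ → ℂ) : px (G ∘ Rm) = px G ∘ Rm := by
  funext p
  unfold px
  rw [ContinuousLinearEquiv.comp_right_fderiv]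
  simp [Rm_apply]

private lemma py_Rm (G : ℝ × ℝ → ℂ) : py (G ∘ Rm) = fun p => -(py G (Rm p)) := by
  funext p
  unfold py
  rw [ContinuousLinearEquiv.comp_right_fderiv]
  have h : (Rm (0, 1) : ℝ × ℝ) = -(0, 1) := by simp [Rm_apply]
  simp only [ContinuousLinearMap.comp_apply, ContinuousLinearEquiv.coe_coe]
  rw [h, map_neg]

private lemma py_neg' (G : ℝ × ℝ → ℂ) (p : ℝ × ℝ) : py (fun q => - G q) p = - py G p := by
  unfold py
  rw [fderiv_fun_neg]
  rfl

private lemma cont_xx (F : ℝ × ℝ → ℂ) (hF : ContDiff ℝ 2 F) : Continuous (px (px F)) := by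
  have h1 : ContDiff ℝ 1 (px F) := by
    have : ContDiff ℝ 1 (fderiv ℝ F) := hF.fderiv_right (by norm_num)
    exact this.clm_apply contDiff_const
  have h2 : Continuous (fderiv ℝ (px F)) := h1.continuous_fderiv (by norm_num)
  exact h2.clm_apply continuous_const

private lemma core (h2 : S_STEP) (F : ℝ × ℝ → ℂ) (lam C kap : ℝ) (hF : ContDiff ℝ 2 F)
    (hMA : MA F) (hl : 0 < lam)
    (hC : ∀ p : ℝ × ℝ, ‖px (px F) p‖ ≤ C / Real.sqrt (1 + p.1 ^ 2 + p.2 ^ 2))
    (hk : kap ≤ 0) (h0 : ∀ᶠ y in 𝓝 (0 : ℝ), Good F lam kap y) : False := by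
  -- Good on every interval `[0, Y]` with `1 + kap * Y > 0`
  have key : ∀ Y : ℝ, 0 ≤ Y → 0 < 1 + kap * Y → Good F lam kap Y := by
    intro Y hY hYk
    by_contra hbad
    let B : Set ℝ := {y | y ∈ Icc 0 Y ∧ ¬ Good F lam kap y}
    have hBne : B.Nonempty := ⟨Y, ⟨hY, le_refl Y⟩, hbad⟩
    have hBb : BddBelow B := ⟨0, fun y hy => hy.1.1⟩
    obtain ⟨ε, hε, hε'⟩ := Metric.eventually_nhds_iff.1 h0
    have hy1 : ε ≤ sInf B := by
      apply le_csInf hBne
      intro y hy
      by_contra hlt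
      push Not at hlt
      apply hy.2
      apply hε'
      rw [Real.dist_eq, sub_zero, abs_of_nonneg hy.1.1]
      exact hlt
    have hy1pos : 0 < sInf B := lt_of_lt_of_le hε hy1
    have hy1Y : sInf B ≤ Y := csInf_le hBb ⟨⟨hY, le_refl Y⟩, hbad⟩
    have hkk : 0 < 1 + kap * sInf B := by nlinarith
    have hleft : ∀ᶠ y in 𝓝[<] (sInf B), Good F lam kap y := by
      filter_upwards [Ioo_mem_nhdsLT hy1pos] with y hy
      by_contra hng
      have : sInf B ≤ y := csInf_le hBb ⟨⟨hy.1.le, by linarith [hy.2]⟩, hng⟩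
      linarith [hy.2]
    have hst := h2 F lam kap (sInf B) hF hMA hl hkk hleft
    obtain ⟨ε', hε0, hε''⟩ := Metric.eventually_nhds_iff.1 hst
    obtain ⟨b, hb, hb'⟩ := exists_lt_of_csInf_lt hBne (show sInf B < sInf B + ε' by linarith)
    apply hb.2
    apply hε''
    have h3 : sInf B ≤ b := csInf_le hBb hb
    rw [Real.dist_eq, abs_of_nonneg (by linarith)]
    linarith
  rcases eq_or_lt_of_le hk with hk0 | hk0
  · -- kap = 0
    have hxx : ∀ y : ℝ, 0 ≤ y → px (px F) (0, y) = (lam : ℂ) := by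
      intro y hy
      have := (key y hy (by rw [hk0]; norm_num)).2.2
      rw [hk0] at this
      simpa using this
    have hC0 := hC (0, 0)
    rw [hxx 0 le_rfl] at hC0
    have hnl : ‖(lam : ℂ)‖ = lam := by
      rw [Complex.norm_real, Real.norm_of_nonneg hl.le]
    rw [hnl] at hC0
    simp only [ne_eq, OfNat.ofNat_ne_zero, not_false_eq_true, zero_pow, add_zero,
      Real.sqrt_one, div_one] at hC0
    have hCpos : 0 < C := lt_of_lt_of_le hl hC0
    have hC1 := hC (0, C / lam)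
    rw [hxx _ (by positivity), hnl] at hC1
    simp only [ne_eq, OfNat.ofNat_ne_zero, not_false_eq_true, zero_pow, add_zero] at hC1
    have hsq : C / lam < Real.sqrt (1 + (C / lam) ^ 2) := by
      apply Real.lt_sqrt_of_sq_lt
      linarith
    have hspos : 0 < Real.sqrt (1 + (C / lam) ^ 2) := lt_of_le_of_lt (by positivity) hsq
    rw [le_div_iff₀ hspos] at hC1
    have h4 : lam * (C / lam) < lam * Real.sqrt (1 + (C / lam) ^ 2) :=
      mul_lt_mul_of_pos_left hsq hl
    have h5 : lam * (C / lam) = C := by field_simp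
    linarith
  · -- kap < 0
    have h7 : kap * (-1 / kap) = -1 := mul_div_cancel₀ (-1) hk0.ne
    have hYpos : 0 < -1 / kap := div_pos_of_neg_of_neg (by norm_num) hk0
    have hcont : Continuous fun y : ℝ => px (px F) (0, y) * ((1 + kap * y : ℝ) : ℂ) := by
      have h1 := cont_xx F hF
      fun_prop
    have heq : ∀ᶠ y in 𝓝[<] (-1 / kap), px (px F) (0, y) * ((1 + kap * y : ℝ) : ℂ) = (lam : ℂ) := by
      filter_upwards [Ioo_mem_nhdsLT hYpos] with y hy
      refine (key y hy.1.le ?_).2.2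
      have h6 : kap * y > kap * (-1 / kap) := mul_lt_mul_of_neg_left hy.2 hk0
      linarith
    have ht1 : Filter.Tendsto (fun y : ℝ => px (px F) (0, y) * ((1 + kap * y : ℝ) : ℂ))
        (𝓝[<] (-1 / kap)) (𝓝 (px (px F) (0, -1 / kap) * ((1 + kap * (-1 / kap) : ℝ) : ℂ))) :=
      (hcont.tendsto _).mono_left nhdsWithin_le_nhds
    have ht2 : Filter.Tendsto (fun y : ℝ => px (px F) (0, y) * ((1 + kap * y : ℝ) : ℂ))
        (𝓝[<] (-1 / kap)) (𝓝 (lam : ℂ)) :=
      tendsto_const_nhds.congr' (heq.mono fun y hy => hy.symm)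
    have h8 := tendsto_nhds_unique ht1 ht2
    rw [h7] at h8
    simp at h8
    exact hl.ne (by exact_mod_cast h8)

theorem p_S3N (h1 : S_INIT) (h2 : S_STEP) : S_S3N := by
  intro F lam C hF hMA hl hC hxx hxy hK
  obtain ⟨kap, hkap⟩ := h1 F lam hF hMA hl hxx hxy hK
  rcases le_total kap 0 with hk | hk
  · exact core h2 F lam C kap hF hMA hl hC hk hkap
  · -- reflect
    have e1 : px (px (F ∘ Rm)) = px (px F) ∘ Rm := by rw [px_Rm, px_Rm]
    have e2 : py (px (F ∘ Rm)) = fun p => -(py (px F) (Rm p)) := by rw [px_Rm, py_Rm]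
    have e3 : py (py (F ∘ Rm)) = fun p => py (py F) (Rm p) := by
      rw [py_Rm]
      funext p
      rw [py_neg']
      have := congrFun (py_Rm (py F)) p
      have h9 : py (fun q => py F (Rm q)) p = -(py (py F) (Rm p)) := this
      rw [h9, neg_neg]
    have hF' : ContDiff ℝ 2 (F ∘ Rm) := hF.comp Rm.contDiff
    have hMA' : MA (F ∘ Rm) := by
      intro p
      rw [e1, e2, e3]
      have := hMA (Rm p)
      simp only [Function.comp_apply, neg_sq]
      exact this
    have hC' : ∀ p : ℝ × ℝ, ‖px (px (F ∘ Rm)) p‖ ≤ C / Real.sqrt (1 + p.1 ^ 2 + p.2 ^ 2) := by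
      intro p
      rw [e1]
      have := hC (Rm p)
      simpa [Rm_apply] using this
    refine core h2 (F ∘ Rm) lam C (-kap) hF' hMA' hl hC' (by linarith) ?_
    have hneg : Filter.Tendsto (fun y : ℝ => -y) (𝓝 0) (𝓝 0) := by
      have := (continuous_neg (G := ℝ)).tendsto 0
      simpa using this
    filter_upwards [hneg.eventually hkap] with y hy
    refine ⟨?_, ?_, ?_⟩
    · have hint : IntK F (0, -y) := hy.1
      unfold IntK at hint ⊢
      have hR : Filter.Tendsto (fun q : ℝ × ℝ => Rm q) (𝓝 (0, y)) (𝓝 (0, -y)) :=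
        Rm.continuous.tendsto (0, y)
      filter_upwards [hR.eventually hint] with q hq
      rw [e1, e2]
      simp only [Function.comp_apply, mul_neg, neg_im]
      rw [hq, neg_zero]
    · rw [e2]
      simp only [Rm_apply]
      rw [hy.2.1, neg_zero]
    · rw [e1]
      simp only [Function.comp_apply, Rm_apply]
      have := hy.2.2
      rw [show (1 + -kap * y : ℝ) = 1 + kap * -y by ring]
      exact this

end Pool.Agent.HH
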