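import Pool.Agent.Lib.MP_7dc3d9_gt.ThA.Stm

set_option autoImplicit false

namespace Pool.Agent.HH

open Complex Set MeasureTheory Topology

private noncomputable def shT1 (K0 K1 q1 q2 g11 g12 g22 : ℝ) (φ w : ℂ) : ℂ :=
  ((K1 * (φ * w).im : ℝ) : ℂ) * (((q1 : ℂ) - Complex.I * (q2 : ℂ)) / 2) +
    (K0 : ℂ) * ((((w.re * g11 + w.im * g12 : ℝ) : ℂ) -
      Complex.I * ((w.re * g12 + w.im * g22 : ℝ) : ℂ)) / 2)

private noncomputable def shT2 (K1 K2 gg q1 q2 : ℝ) (φ w : ℂ) : ℝ :=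
  K2 * (φ * w).im * gg + K1 * (w.re * q1 + w.im * q2)

private theorem sh_alg (K0 K1 K2 gg q1 q2 g11 g12 g22 : ℝ) (Px Py φ : ℂ) :
    (((shT2 K1 K2 gg q1 q2 φ Px : ℝ) : ℂ) * (starRingEnd ℂ) (φ * Py) -
      ((shT2 K1 K2 gg q1 q2 φ Py : ℝ) : ℂ) * (starRingEnd ℂ) (φ * Px)) -
      2 * Complex.I * (shT1 K0 K1 q1 q2 g11 g12 g22 φ Px * Py -
        shT1 K0 K1 q1 q2 g11 g12 g22 φ Py * Px) =
      ((K0 * (g11 + g22) * ((starRingEnd ℂ) Px * Py).im -
        K2 * gg * Complex.normSq φ * ((starRingEnd ℂ) Px * Py).im : ℝ) : ℂ) := by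
  obtain ⟨a, b⟩ := Px
  obtain ⟨c, d⟩ := Py
  obtain ⟨r, s⟩ := φ
  have e1 : (2 : ℂ) = ⟨2, 0⟩ := by
    apply Complex.ext <;> simp
  have hd : ∀ z : ℂ, z / 2 = z * (⟨1 / 2, 0⟩ : ℂ) := by
    intro z
    have : (⟨1 / 2, 0⟩ : ℂ) = 1 / 2 := by
      apply Complex.ext <;> simp
    rw [this]
    ring
  unfold shT1 shT2
  rw [hd, hd, hd]
  apply Complex.ext
  · simp [Complex.normSq_apply]
    ring
  · simp [Complex.normSq_apply]
    ring

private theorem sh_fd (h : ℂ → ℝ) (z w : ℂ) :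
    fderiv ℝ h z w = w.re * g1 h z + w.im * g2 h z := by
  unfold g1 g2
  have e : w = w.re • (1 : ℂ) + w.im • Complex.I := by
    apply Complex.ext <;> simp
  conv_lhs => rw [e]
  rw [map_add, map_smul, map_smul]
  simp

private theorem sh_cd1 {g : ℂ → ℝ} (hg : ContDiff ℝ (⊤ : ℕ∞) g) :
    ContDiff ℝ (⊤ : ℕ∞) (g1 g) ∧ ContDiff ℝ (⊤ : ℕ∞) (g2 g) := by
  have h : ContDiff ℝ (⊤ : ℕ∞) (fderiv ℝ g) := hg.fderiv_right le_rfl
  exact ⟨h.clm_apply contDiff_const, h.clm_apply contDiff_const⟩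

private theorem sh_symm {g : ℂ → ℝ} (hg : ContDiff ℝ (⊤ : ℕ∞) g) (z : ℂ) :
    g1 (g2 g) z = g2 (g1 g) z := by
  have h : DifferentiableAt ℝ (fderiv ℝ g) z :=
    (hg.fderiv_right (m := (⊤ : ℕ∞)) le_rfl).differentiable (by simp) z
  have e1 : g1 (g2 g) z = fderiv ℝ (fderiv ℝ g) z 1 Complex.I := by
    change fderiv ℝ (fun z => fderiv ℝ g z Complex.I) z 1 = _
    rw [fderiv_clm_apply h (differentiableAt_const _)]
    simp
  have e2 : g2 (g1 g) z = fderiv ℝ (fderiv ℝ g) z Complex.I 1 := by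
    change fderiv ℝ (fun z => fderiv ℝ g z 1) z Complex.I = _
    rw [fderiv_clm_apply h (differentiableAt_const _)]
    simp
  rw [e1, e2]
  have hs : IsSymmSndFDerivAt ℝ g z := (hg.contDiffAt).isSymmSndFDerivAt (by
    rw [minSmoothness_of_isRCLikeNormedField]
    exact WithTop.coe_le_coe.2 (le_top : (2 : ℕ∞) ≤ ⊤))
  exact hs.eq _ _

private theorem sh_dT {g : ℂ → ℝ} (hg : ContDiff ℝ (⊤ : ℕ∞) g) {K : ℝ → ℝ} (hK : ContDiff ℝ 2 K)
    {P f : ℝ × ℝ → ℂ} {p w : ℝ × ℝ} (hP : DifferentiableAt ℝ P p) (hf : DifferentiableAt ℝ f p)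
    {φ : ℂ} (hφ : fderiv ℝ f p w = φ * fderiv ℝ P p w) :
    fderiv ℝ (fun p => (K (f p).im : ℂ) *
      (((g1 g (P p) : ℂ) - Complex.I * (g2 g (P p) : ℂ)) / 2)) p w =
      shT1 (K (f p).im) (deriv K (f p).im) (g1 g (P p)) (g2 g (P p)) (g1 (g1 g) (P p))
        (g2 (g1 g) (P p)) (g2 (g2 g) (P p)) φ (fderiv ℝ P p w) ∧
    fderiv ℝ (fun p => ((deriv K (f p).im * g (P p) : ℝ) : ℂ)) p w =
      ((shT2 (deriv K (f p).im) (deriv (deriv K) (f p).im) (g (P p)) (g1 g (P p)) (g2 g (P p)) φ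
        (fderiv ℝ P p w) : ℝ) : ℂ) ∧
    fderiv ℝ (fun p => (starRingEnd ℂ) (f p)) p w = (starRingEnd ℂ) (φ * fderiv ℝ P p w) := by
  obtain ⟨hg1, hg2⟩ := sh_cd1 hg
  have hv : HasFDerivAt (fun p => (f p).im) (Complex.imCLM.comp (fderiv ℝ f p)) p :=
    Complex.imCLM.hasFDerivAt.comp p hf.hasFDerivAt
  have hKd : HasDerivAt K (deriv K (f p).im) (f p).im :=
    (hK.differentiable (by simp) _).hasDerivAt
  have hK1 : ContDiff ℝ 1 (deriv K) := by
    have h2 : (2 : WithTop ℕ∞) = 1 + 1 := by norm_num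
    rw [h2, contDiff_succ_iff_deriv] at hK
    exact hK.2.2
  have hK2d : HasDerivAt (deriv K) (deriv (deriv K) (f p).im) (f p).im :=
    (hK1.differentiable (by simp) _).hasDerivAt
  have a1 : HasFDerivAt (fun p => K (f p).im)
      (deriv K (f p).im • Complex.imCLM.comp (fderiv ℝ f p)) p := hKd.comp_hasFDerivAt p hv
  have a2 : HasFDerivAt (fun p => deriv K (f p).im)
      (deriv (deriv K) (f p).im • Complex.imCLM.comp (fderiv ℝ f p)) p :=
    HasDerivAt.comp_hasFDerivAt (h₂ := deriv K) p hK2d hv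
  have b1 : HasFDerivAt (fun p => g1 g (P p)) ((fderiv ℝ (g1 g) (P p)).comp (fderiv ℝ P p)) p :=
    ((hg1.differentiable (by simp) (P p)).hasFDerivAt).comp p hP.hasFDerivAt
  have b2 : HasFDerivAt (fun p => g2 g (P p)) ((fderiv ℝ (g2 g) (P p)).comp (fderiv ℝ P p)) p :=
    ((hg2.differentiable (by simp) (P p)).hasFDerivAt).comp p hP.hasFDerivAt
  have b0 : HasFDerivAt (fun p => g (P p)) ((fderiv ℝ g (P p)).comp (fderiv ℝ P p)) p :=
    ((hg.differentiable (by simp) (P p)).hasFDerivAt).comp p hP.hasFDerivAt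
  have a1' : HasFDerivAt (fun p => (K (f p).im : ℂ)) _ p :=
    Complex.ofRealCLM.hasFDerivAt.comp p a1
  have b1' : HasFDerivAt (fun p => (g1 g (P p) : ℂ)) _ p :=
    Complex.ofRealCLM.hasFDerivAt.comp p b1
  have b2' : HasFDerivAt (fun p => (g2 g (P p) : ℂ)) _ p :=
    Complex.ofRealCLM.hasFDerivAt.comp p b2
  refine ⟨?_, ?_, ?_⟩
  · have h1 : HasFDerivAt (fun p => ((g1 g (P p) : ℂ) - Complex.I * (g2 g (P p) : ℂ)) / 2) _ p :=
      ((b1'.sub (b2'.const_mul Complex.I))).mul_const (2 : ℂ)⁻¹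
    rw [(a1'.fun_mul h1).fderiv]
    simp [shT1, sh_fd, hφ, sh_symm hg, div_eq_mul_inv]
    ring
  · have h1 : HasFDerivAt (fun p => ((deriv K (f p).im * g (P p) : ℝ) : ℂ)) _ p :=
      Complex.ofRealCLM.hasFDerivAt.comp p (a2.mul b0)
    rw [h1.fderiv]
    simp [shT2, sh_fd, hφ]
    ring
  · have h1 : HasFDerivAt (fun p => (starRingEnd ℂ) (f p)) _ p :=
      Complex.conjCLE.hasFDerivAt.comp p hf.hasFDerivAt
    rw [h1.fderiv]
    simp [hφ]


private theorem sh_ev {h : ℂ → ℝ} {z : ℂ} (hz : h =ᶠ[𝓝 z] 0) :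
    g1 h =ᶠ[𝓝 z] 0 ∧ g2 h =ᶠ[𝓝 z] 0 := by
  have h1 : ∀ᶠ w in 𝓝 z, h =ᶠ[𝓝 w] 0 := hz.eventuallyEq_nhds
  refine ⟨?_, ?_⟩
  · filter_upwards [h1] with w hw
    unfold g1
    rw [hw.fderiv_eq]
    simp
  · filter_upwards [h1] with w hw
    unfold g2
    rw [hw.fderiv_eq]
    simp

private theorem sh_van {g : ℂ → ℝ} {z : ℂ} (hz : z ∉ tsupport g) :
    g z = 0 ∧ g1 g z = 0 ∧ g2 g z = 0 ∧ lap g z = 0 := by
  have h0 : g =ᶠ[𝓝 z] 0 := notMem_tsupport_iff_eventuallyEq.1 hz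
  obtain ⟨h1, h2⟩ := sh_ev h0
  refine ⟨h0.eq_of_nhds, h1.eq_of_nhds, h2.eq_of_nhds, ?_⟩
  unfold lap
  rw [(sh_ev h1).1.eq_of_nhds, (sh_ev h2).2.eq_of_nhds]
  simp

private theorem sh_contPx {W : Set (ℝ × ℝ)} {P : ℝ × ℝ → ℂ} (hW : IsOpen W)
    (hP : ContDiffOn ℝ 1 P W) : ContinuousOn (px P) W ∧ ContinuousOn (py P) W := by
  have h : ContinuousOn (fderiv ℝ P) W := hP.continuousOn_fderiv_of_isOpen hW le_rfl
  exact ⟨h.clm_apply continuousOn_const, h.clm_apply continuousOn_const⟩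

private theorem sh_contJ {W : Set (ℝ × ℝ)} {P : ℝ × ℝ → ℂ} (hW : IsOpen W)
    (hP : ContDiffOn ℝ 1 P W) : ContinuousOn (Jac P) W := by
  obtain ⟨h1, h2⟩ := sh_contPx hW hP
  exact Complex.continuous_im.comp_continuousOn
    ((Complex.continuous_conj.comp_continuousOn h1).mul h2)

private theorem sh_lap {g : ℂ → ℝ} (hg : ContDiff ℝ (⊤ : ℕ∞) g) : Continuous (lap g) := by
  obtain ⟨h1, h2⟩ := sh_cd1 hg
  exact (sh_cd1 h1).1.continuous.add (sh_cd1 h2).2.continuous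

private theorem sh_core (l2 : S_L2) (hol : S_HOL) {W C : Set (ℝ × ℝ)} {P G f : ℝ × ℝ → ℂ}
    {g : ℂ → ℝ} (hW : IsOpen W) (hC : IsCompact C) (hCW : C ⊆ W) (hP : ContDiffOn ℝ 1 P W)
    (hG : ContDiffOn ℝ 1 G W) (hf : ContinuousOn f W) (h1 : ∀ p ∈ W, px G p = f p * px P p)
    (h2 : ∀ p ∈ W, py G p = f p * py P p) (h3 : ∀ p ∈ W, (f p).im * Jac P p ≤ 0)
    (h4 : ∀ p ∈ W, (f p).im ≠ 0 → Jac P p ≠ 0) (hg : ContDiff ℝ (⊤ : ℕ∞) g)
    (hg0 : ∀ z, 0 ≤ g z) (h5 : ∀ p ∈ W, (f p).im ≠ 0 → P p ∈ tsupport g → p ∈ C)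
    {K : ℝ → ℝ} {ε : ℝ} (hε : 0 < ε) (hK : ContDiff ℝ 2 K) (hK0 : ∀ t, |t| ≤ ε → K t = 0)
    (hK2 : ∀ t, 0 ≤ t * deriv (deriv K) t) :
    ∫ p in W, K (f p).im * lap g (P p) * Jac P p ≤ 0 := by
  have hK1 : ContDiff ℝ 1 (deriv K) := by
    have h2 : (2 : WithTop ℕ∞) = 1 + 1 := by norm_num
    rw [h2, contDiff_succ_iff_deriv] at hK
    exact hK.2.2
  have hK00 : K 0 = 0 := hK0 0 (by simpa using hε.le)
  have hKd0 : ∀ t, |t| < ε → deriv K t = 0 := by
    intro t ht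
    have : K =ᶠ[𝓝 t] fun _ => 0 := by
      filter_upwards [(continuous_abs.isOpen_preimage _ isOpen_Iio).mem_nhds ht] with s hs
      exact hK0 s (le_of_lt hs)
    rw [this.deriv_eq, deriv_const]
  have hv : ContinuousOn (fun p => (f p).im) W := Complex.continuous_im.comp_continuousOn hf
  set U : Set (ℝ × ℝ) := W ∩ (fun p => (f p).im) ⁻¹' {0}ᶜ with hU
  have hUo : IsOpen U := hv.isOpen_inter_preimage hW isOpen_compl_singleton
  have hUW : U ⊆ W := inter_subset_left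
  have hU0 : ∀ p ∈ U, (f p).im ≠ 0 := fun p hp => hp.2
  set C' : Set (ℝ × ℝ) := C ∩ ((fun p => |(f p).im|) ⁻¹' Ici ε ∩ P ⁻¹' tsupport g) with hC'
  have hC'c : IsCompact C' := by
    have e1 : IsClosed (C ∩ (fun p => |(f p).im|) ⁻¹' Ici ε) :=
      (hv.mono hCW).abs.preimage_isClosed_of_isClosed hC.isClosed isClosed_Ici
    have e2 : IsClosed (C ∩ P ⁻¹' tsupport g) :=
      (hP.continuousOn.mono hCW).preimage_isClosed_of_isClosed hC.isClosed (isClosed_tsupport g)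
    have e3 : C' = (C ∩ (fun p => |(f p).im|) ⁻¹' Ici ε) ∩ (C ∩ P ⁻¹' tsupport g) := by
      ext p
      simp only [hC', mem_inter_iff]
      tauto
    rw [e3]
    exact hC.of_isClosed_subset (e1.inter e2) fun p hp => hp.1.1
  have hC'U : C' ⊆ U := by
    intro p hp
    refine ⟨hCW hp.1, ?_⟩
    intro h0
    have h6 : ε ≤ |(f p).im| := hp.2.1
    have h7 : (f p).im = 0 := h0
    rw [h7, abs_zero] at h6
    linarith
  have hout : ∀ p ∈ U, p ∉ C' → |(f p).im| < ε ∨ P p ∉ tsupport g := by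
    intro p hp hpC
    by_contra hcon
    push Not at hcon
    exact hpC ⟨h5 p (hUW hp) (hU0 p hp) hcon.2, hcon.1, hcon.2⟩
  -- regularity on `U`
  obtain ⟨hfU, hfx⟩ := hol U P G f hUo (hP.mono hUW) (hG.mono hUW) (hf.mono hUW)
    (fun p hp => h1 p (hUW hp)) (fun p hp => h2 p (hUW hp)) (fun p hp => h4 p (hUW hp) (hU0 p hp))
  have hPU := hP.mono hUW
  obtain ⟨hgg1, hgg2⟩ := sh_cd1 hg
  have him : ContDiffOn ℝ 1 (fun p => (f p).im) U := Complex.imCLM.contDiff.comp_contDiffOn hfU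
  have hgi : ∀ h : ℂ → ℝ, ContDiff ℝ (⊤ : ℕ∞) h → ContDiffOn ℝ 1 (fun p => h (P p)) U :=
    fun h hh => (hh.of_le (by exact_mod_cast le_top)).comp_contDiffOn hPU
  have hof : ∀ h : ℝ × ℝ → ℝ, ContDiffOn ℝ 1 h U → ContDiffOn ℝ 1 (fun p => (h p : ℂ)) U :=
    fun h hh => Complex.ofRealCLM.contDiff.comp_contDiffOn hh
  set Θ1 : ℝ × ℝ → ℂ := fun p => (K (f p).im : ℂ) *
      (((g1 g (P p) : ℂ) - Complex.I * (g2 g (P p) : ℂ)) / 2) with hΘ1
  set Θ2 : ℝ × ℝ → ℂ := fun p => ((deriv K (f p).im * g (P p) : ℝ) : ℂ) with hΘ2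
  have cΘ1 : ContDiffOn ℝ 1 Θ1 U := by
    refine ContDiffOn.mul (hof _ ((hK.of_le (by norm_num)).comp_contDiffOn him)) ?_
    exact ((hof _ (hgi _ hgg1)).sub (contDiffOn_const.mul (hof _ (hgi _ hgg2)))).div_const 2
  have cΘ2 : ContDiffOn ℝ 1 Θ2 U := hof _ ((hK1.comp_contDiffOn him).mul (hgi _ hg))
  have zΘ1 : ∀ p ∈ U, p ∉ C' → Θ1 p = 0 := by
    intro p hp hpC
    rcases hout p hp hpC with h | h
    · simp only [hΘ1, hK0 _ h.le]
      simp
    · obtain ⟨-, e1, e2, -⟩ := sh_van h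
      simp only [hΘ1, e1, e2]
      simp
  have zΘ2 : ∀ p ∈ U, p ∉ C' → Θ2 p = 0 := by
    intro p hp hpC
    rcases hout p hp hpC with h | h
    · simp only [hΘ2, hKd0 _ h]
      simp
    · obtain ⟨e1, -, -, -⟩ := sh_van h
      simp only [hΘ2, e1]
      simp
  obtain ⟨i1, e1⟩ := l2 U C' Θ1 P hUo hC'c hC'U cΘ1 zΘ1 hPU
  have cfb : ContDiffOn ℝ 1 (fun p => (starRingEnd ℂ) (f p)) U :=
    Complex.conjCLE.contDiff.comp_contDiffOn hfU
  obtain ⟨i2, e2⟩ := l2 U C' Θ2 (fun p => (starRingEnd ℂ) (f p)) hUo hC'c hC'U cΘ2 zΘ2 cfb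
  -- the identity
  set E : ℝ × ℝ → ℝ := fun p => K (f p).im * lap g (P p) * Jac P p -
    deriv (deriv K) (f p).im * g (P p) * Complex.normSq (px f p / px P p) * Jac P p with hE
  have hid : ∀ p ∈ U, (px Θ2 p * py (fun p => (starRingEnd ℂ) (f p)) p -
      py Θ2 p * px (fun p => (starRingEnd ℂ) (f p)) p) -
      2 * Complex.I * (px Θ1 p * py P p - py Θ1 p * px P p) = ((E p : ℝ) : ℂ) := by
    intro p hp
    have hJ := h4 p (hUW hp) (hU0 p hp)
    have hPx : px P p ≠ 0 := by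
      intro h0
      apply hJ
      unfold Jac
      rw [h0]
      simp
    have hPd := (hPU.contDiffAt (hUo.mem_nhds hp)).differentiableAt (by simp)
    have hfd := (hfU.contDiffAt (hUo.mem_nhds hp)).differentiableAt (by simp)
    have hφ1 : fderiv ℝ f p (1, 0) = (px f p / px P p) * fderiv ℝ P p (1, 0) := by
      change px f p = _ * px P p
      field_simp
    have hφ2 : fderiv ℝ f p (0, 1) = (px f p / px P p) * fderiv ℝ P p (0, 1) := by
      change py f p = _ * py P p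
      have := hfx p hp
      field_simp
      linear_combination -this
    obtain ⟨x1, x2, x3⟩ := sh_dT hg hK hPd hfd hφ1
    obtain ⟨y1, y2, y3⟩ := sh_dT hg hK hPd hfd hφ2
    have := sh_alg (K (f p).im) (deriv K (f p).im) (deriv (deriv K) (f p).im) (g (P p))
      (g1 g (P p)) (g2 g (P p)) (g1 (g1 g) (P p)) (g2 (g1 g) (P p)) (g2 (g2 g) (P p))
      (px P p) (py P p) (px f p / px P p)
    simp only [hE, lap, Jac]
    rw [← this]
    change (fderiv ℝ Θ2 p (1, 0) * fderiv ℝ (fun p => (starRingEnd ℂ) (f p)) p (0, 1) -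
      fderiv ℝ Θ2 p (0, 1) * fderiv ℝ (fun p => (starRingEnd ℂ) (f p)) p (1, 0)) -
      2 * Complex.I * (fderiv ℝ Θ1 p (1, 0) * py P p - fderiv ℝ Θ1 p (0, 1) * px P p) = _
    rw [hΘ1, hΘ2, x1, x2, x3, y1, y2, y3]
    rfl
  have hEi : IntegrableOn (fun p => ((E p : ℝ) : ℂ)) U := by
    have h6 := i2.sub (i1.const_mul (2 * Complex.I))
    refine (integrableOn_congr_fun (fun p hp => ?_) hUo.measurableSet).1 h6
    exact hid p hp
  have hE0 : ∫ p in U, ((E p : ℝ) : ℂ) = 0 := by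
    rw [← setIntegral_congr_fun hUo.measurableSet hid, integral_sub i2 (i1.const_mul _), e2,
      integral_const_mul, e1]
    simp
  have hEr : IntegrableOn E U := by
    have h6 : Integrable (fun x => E x) (volume.restrict U) := by simpa using hEi.re
    exact h6
  have hE0' : ∫ p in U, E p = 0 := by
    rw [integral_complex_ofReal] at hE0
    exact_mod_cast hE0
  -- the function `F`
  have hFc : ContinuousOn (fun p => K (f p).im * lap g (P p) * Jac P p) W :=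
    ((hK.continuous.comp_continuousOn hv).mul ((sh_lap hg).comp_continuousOn hP.continuousOn)).mul
      (sh_contJ hW hP)
  have hF0 : ∀ p ∈ U \ C', K (f p).im * lap g (P p) * Jac P p = 0 := by
    intro p hp
    rcases hout p hp.1 hp.2 with h | h
    · rw [hK0 _ h.le]
      simp
    · obtain ⟨-, -, -, e⟩ := sh_van h
      rw [e]
      simp
  have hFi : IntegrableOn (fun p => K (f p).im * lap g (P p) * Jac P p) U :=
    ((hFc.mono (hC'U.trans hUW)).integrableOn_compact hC'c).of_forall_sdiff_eq_zero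
      hUo.measurableSet hF0
  have hWU : ∫ p in W, K (f p).im * lap g (P p) * Jac P p =
      ∫ p in U, K (f p).im * lap g (P p) * Jac P p := by
    refine setIntegral_eq_of_subset_of_forall_sdiff_eq_zero hW.measurableSet hUW ?_
    intro p hp
    have : (f p).im = 0 := by
      by_contra h
      exact hp.2 ⟨hp.1, h⟩
    rw [this, hK00]
    simp
  rw [hWU, ← hE0']
  refine setIntegral_mono_on hFi hEr hUo.measurableSet ?_
  intro p hp
  simp only [hE]
  have hs := h3 p (hUW hp)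
  have hk := hK2 (f p).im
  have hv2 : 0 < (f p).im ^ 2 := by
    have := hU0 p hp
    positivity
  have hkJ : deriv (deriv K) (f p).im * Jac P p ≤ 0 := by
    by_contra hcon
    push Not at hcon
    have : 0 < (f p).im ^ 2 * (deriv (deriv K) (f p).im * Jac P p) := mul_pos hv2 hcon
    have h7 := mul_nonneg hk (neg_nonneg.2 hs)
    nlinarith
  have hq : 0 ≤ g (P p) * Complex.normSq (px f p / px P p) :=
    mul_nonneg (hg0 _) (Complex.normSq_nonneg _)
  nlinarith [mul_nonneg hq (neg_nonneg.2 hkJ)]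

/-- SH -/
theorem p_SH (h1 : S_L2) (h2 : S_HOL) (h3 : S_KE) : S_SH := by
  intro W C P G f g hW hC hCW hP hG hf e1 e2 e3 e4 hg hg0 e5
  have hv : ContinuousOn (fun p => (f p).im) W := Complex.continuous_im.comp_continuousOn hf
  have hlc : ContinuousOn (fun p => lap g (P p)) W := (sh_lap hg).comp_continuousOn hP.continuousOn
  have hJc := sh_contJ hW hP
  have hFc : ContinuousOn (fun p => lap g (P p) * (f p).im * Jac P p) W := (hlc.mul hv).mul hJc
  have hF0 : ∀ p ∈ W \ C, lap g (P p) * (f p).im * Jac P p = 0 := by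
    intro p hp
    by_cases h : (f p).im = 0
    · rw [h]
      simp
    · have h6 : P p ∉ tsupport g := fun h7 => hp.2 (e5 p hp.1 h h7)
      rw [(sh_van h6).2.2.2]
      simp
  have hFi : IntegrableOn (fun p => lap g (P p) * (f p).im * Jac P p) C :=
    (hFc.mono hCW).integrableOn_compact hC
  refine ⟨hFi.of_forall_sdiff_eq_zero hW.measurableSet hF0, ?_⟩
  rw [setIntegral_eq_of_subset_of_forall_sdiff_eq_zero hW.measurableSet hCW hF0]
  -- the bound
  have hAi : IntegrableOn (fun p => |lap g (P p) * Jac P p|) C :=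
    ((hlc.mul hJc).abs.mono hCW).integrableOn_compact hC
  set A := ∫ p in C, |lap g (P p) * Jac P p| with hA
  have hA0 : 0 ≤ A := setIntegral_nonneg hC.measurableSet fun p _ => abs_nonneg _
  have key : ∀ ε : ℝ, 0 < ε → ∫ p in C, lap g (P p) * (f p).im * Jac P p ≤ 2 * ε * A := by
    intro ε hε
    obtain ⟨K, hK, hK0, hK1, hK2, hK3⟩ := h3 ε hε
    have h7 := sh_core h1 h2 hW hC hCW hP hG hf e1 e2 e3 e4 hg hg0 e5 hε hK hK0 hK3
    have hK00 : K 0 = 0 := hK0 0 (by simpa using hε.le)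
    have hG0 : ∀ p ∈ W \ C, K (f p).im * lap g (P p) * Jac P p = 0 := by
      intro p hp
      by_cases h : (f p).im = 0
      · rw [h, hK00]
        simp
      · have h6 : P p ∉ tsupport g := fun h7 => hp.2 (e5 p hp.1 h h7)
        rw [(sh_van h6).2.2.2]
        simp
    rw [setIntegral_eq_of_subset_of_forall_sdiff_eq_zero hW.measurableSet hCW hG0] at h7
    have hGc : ContinuousOn (fun p => K (f p).im * lap g (P p) * Jac P p) W :=
      ((hK.continuous.comp_continuousOn hv).mul hlc).mul hJc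
    have hGi : IntegrableOn (fun p => K (f p).im * lap g (P p) * Jac P p) C :=
      (hGc.mono hCW).integrableOn_compact hC
    have h8 := setIntegral_mono_on hFi (hGi.add (hAi.const_mul (2 * ε))) hC.measurableSet
      (fun p hp => by
        have h9 := hK2 (f p).im
        have h10 : ((f p).im - K (f p).im) * (lap g (P p) * Jac P p) ≤
            2 * ε * |lap g (P p) * Jac P p| := by
          refine (le_abs_self _).trans ?_
          rw [abs_mul]
          refine mul_le_mul_of_nonneg_right ?_ (abs_nonneg _)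
          rw [abs_sub_comm]
          exact h9
        simp only [Pi.add_apply]
        linarith)
    have h11 : ∫ p in C, ((fun p => K (f p).im * lap g (P p) * Jac P p) +
        fun p => 2 * ε * |lap g (P p) * Jac P p|) p =
        (∫ p in C, K (f p).im * lap g (P p) * Jac P p) + 2 * ε * A := by
      simp only [Pi.add_apply]
      rw [integral_add hGi (hAi.const_mul (2 * ε)), integral_const_mul]
    rw [h11] at h8
    linarith
  by_contra hcon
  push Not at hcon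
  set I := ∫ p in C, lap g (P p) * (f p).im * Jac P p with hI
  have h12 := key (I / (4 * (A + 1))) (by positivity)
  have h13 : 2 * (I / (4 * (A + 1))) * A ≤ I / 2 := by
    rw [mul_div_assoc', div_mul_eq_mul_div, div_le_div_iff₀ (by positivity) (by norm_num)]
    nlinarith
  linarith

end Pool.Agent.HH
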