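import Pool.Agent.Lib.MP_7dc3d9_gt.ThA.Stm

set_option autoImplicit false

/-! SIG: the stereographic chart. -/

namespace Pool.Agent.HH

open Complex Set MeasureTheory Topology

private theorem sig_expand {e f k : E3} (h : Orthonormal ℝ ![e, f, k]) (v : E3) :
    v = (inner ℝ e v) • e + (inner ℝ f v) • f + (inner ℝ k v) • k := by
  have hli := h.linearIndependent
  have hspan : ⊤ ≤ Submodule.span ℝ (Set.range ![e, f, k]) :=
    (hli.span_eq_top_of_card_eq_finrank' (by simp)).ge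
  have h1 := (OrthonormalBasis.mk h hspan).sum_repr' v
  rw [Fin.sum_univ_three] at h1
  simp only [OrthonormalBasis.coe_mk] at h1
  exact h1.symm

private theorem sig_ee {e f k : E3} (h : Orthonormal ℝ ![e, f, k]) :
    inner ℝ e e = (1 : ℝ) ∧ inner ℝ f f = (1 : ℝ) ∧ inner ℝ k k = (1 : ℝ) ∧
    inner ℝ e f = (0 : ℝ) ∧ inner ℝ f e = (0 : ℝ) ∧ inner ℝ e k = (0 : ℝ) ∧
    inner ℝ k e = (0 : ℝ) ∧ inner ℝ f k = (0 : ℝ) ∧ inner ℝ k f = (0 : ℝ) := by
  have h0 : ‖e‖ = 1 := h.1 0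
  have h1 : ‖f‖ = 1 := h.1 1
  have h2 : ‖k‖ = 1 := h.1 2
  have h01 : inner ℝ e f = (0 : ℝ) := h.2 (i := 0) (j := 1) (by decide)
  have h10 : inner ℝ f e = (0 : ℝ) := h.2 (i := 1) (j := 0) (by decide)
  have h02 : inner ℝ e k = (0 : ℝ) := h.2 (i := 0) (j := 2) (by decide)
  have h20 : inner ℝ k e = (0 : ℝ) := h.2 (i := 2) (j := 0) (by decide)
  have h12 : inner ℝ f k = (0 : ℝ) := h.2 (i := 1) (j := 2) (by decide)
  have h21 : inner ℝ k f = (0 : ℝ) := h.2 (i := 2) (j := 1) (by decide)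
  refine ⟨?_, ?_, ?_, h01, h10, h02, h20, h12, h21⟩
  · rw [real_inner_self_eq_norm_sq, h0]; norm_num
  · rw [real_inner_self_eq_norm_sq, h1]; norm_num
  · rw [real_inner_self_eq_norm_sq, h2]; norm_num

private theorem sig_comb {e f k : E3} (h : Orthonormal ℝ ![e, f, k]) (a b c : ℝ) :
    inner ℝ e (a • e + b • f + c • k) = a ∧ inner ℝ f (a • e + b • f + c • k) = b ∧
    inner ℝ k (a • e + b • f + c • k) = c ∧ ‖a • e + b • f + c • k‖ ^ 2 = a ^ 2 + b ^ 2 + c ^ 2 := by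
  obtain ⟨h1, h2, h3, h4, h5, h6, h7, h8, h9⟩ := sig_ee h
  refine ⟨?_, ?_, ?_, ?_⟩
  · simp only [inner_add_right, inner_smul_right, h1, h4, h6]; ring
  · simp only [inner_add_right, inner_smul_right, h2, h5, h8]; ring
  · simp only [inner_add_right, inner_smul_right, h3, h7, h9]; ring
  · rw [← real_inner_self_eq_norm_sq]
    simp only [inner_add_right, inner_add_left, inner_smul_right, inner_smul_left, h1, h2, h3, h4,
      h5, h6, h7, h8, h9, conj_trivial]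
    ring

private theorem sig_hasFDerivAt (e f k : E3) (p : ℝ × ℝ) :
    HasFDerivAt (sig e f k)
      (((2 : ℝ) • ContinuousLinearMap.fst ℝ ℝ ℝ).smulRight e +
        ((2 : ℝ) • ContinuousLinearMap.snd ℝ ℝ ℝ).smulRight f +
        ((2 * p.1) • ContinuousLinearMap.fst ℝ ℝ ℝ +
          (2 * p.2) • ContinuousLinearMap.snd ℝ ℝ ℝ).smulRight k) p := by
  have h1 : HasFDerivAt (fun q : ℝ × ℝ => 2 * q.1) ((2 : ℝ) • ContinuousLinearMap.fst ℝ ℝ ℝ) p :=
    (hasFDerivAt_fst (𝕜 := ℝ) (p := p)).const_mul 2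
  have h2 : HasFDerivAt (fun q : ℝ × ℝ => 2 * q.2) ((2 : ℝ) • ContinuousLinearMap.snd ℝ ℝ ℝ) p :=
    (hasFDerivAt_snd (𝕜 := ℝ) (p := p)).const_mul 2
  have h3 : HasFDerivAt (fun q : ℝ × ℝ => q.1 ^ 2 + q.2 ^ 2 - 1)
      ((2 * p.1) • ContinuousLinearMap.fst ℝ ℝ ℝ +
          (2 * p.2) • ContinuousLinearMap.snd ℝ ℝ ℝ) p := by
    have h4 := (((hasFDerivAt_fst (𝕜 := ℝ) (p := p)).pow 2).add
      ((hasFDerivAt_snd (𝕜 := ℝ) (p := p)).pow 2)).sub_const 1
    refine h4.congr_fderiv ?_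
    ext <;> simp
  exact ((h1.smul_const e).add (h2.smul_const f)).add (h3.smul_const k)

theorem p_SIG : S_SIG := by
  intro e f k h
  have hin : ∀ p : ℝ × ℝ, inner ℝ e (sig e f k p) = 2 * p.1 ∧ inner ℝ f (sig e f k p) = 2 * p.2 ∧
      inner ℝ k (sig e f k p) = p.1 ^ 2 + p.2 ^ 2 - 1 := by
    intro p
    obtain ⟨h1, h2, h3, -⟩ := sig_comb h (2 * p.1) (2 * p.2) (p.1 ^ 2 + p.2 ^ 2 - 1)
    exact ⟨h1, h2, h3⟩
  have hne : ∀ p, sig e f k p ≠ 0 := by
    intro p hp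
    obtain ⟨h1, h2, h3⟩ := hin p
    rw [hp] at h1 h2 h3
    simp only [inner_zero_right] at h1 h2 h3
    nlinarith
  have hcd : ContDiff ℝ (⊤ : ℕ∞) (sig e f k) := by
    unfold sig
    fun_prop
  refine ⟨hne, ⟨hcd, ?_⟩, ?_, ?_, ?_, ?_⟩
  · intro p
    rw [(sig_hasFDerivAt e f k p).fderiv]
    constructor
    · simp
    · simp
  · intro p p' c hc hpp
    obtain ⟨h1, h2, h3⟩ := hin p
    obtain ⟨h1', h2', h3'⟩ := hin p'
    rw [hpp, inner_smul_right] at h1 h2 h3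
    rw [h1'] at h1
    rw [h2'] at h2
    rw [h3'] at h3
    have e1 : p.1 = c * p'.1 := by linarith
    have e2 : p.2 = c * p'.2 := by linarith
    rw [e1, e2] at h3
    have e3 : (c - 1) * (c * (p'.1 ^ 2 + p'.2 ^ 2) + 1) = 0 := by nlinarith
    have e4 : c - 1 = 0 := by
      rcases mul_eq_zero.1 e3 with h4 | h4
      · exact h4
      · have : 0 ≤ c * (p'.1 ^ 2 + p'.2 ^ 2) := by positivity
        linarith
    have e5 : c = 1 := by linarith
    subst e5
    exact Prod.ext (by linarith) (by linarith)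
  · intro x hx hk
    have hexp := sig_expand h x
    set α := (inner ℝ e x : ℝ) with hα
    set β := (inner ℝ f x : ℝ) with hβ
    set γ := (inner ℝ k x : ℝ) with hγ
    have hn : ‖x‖ ^ 2 = α ^ 2 + β ^ 2 + γ ^ 2 := by
      have := (sig_comb h α β γ).2.2.2
      rw [← hexp] at this
      exact this
    have hn0 : 0 < ‖x‖ := norm_pos_iff.2 hx
    have hd : 0 < ‖x‖ - γ := by
      by_contra hcon
      push Not at hcon
      have h1 : ‖x‖ ≤ γ := by linarith
      have h2 : α ^ 2 + β ^ 2 ≤ 0 := by nlinarith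
      have h3 : α = 0 := by nlinarith [sq_nonneg α, sq_nonneg β]
      have h4 : β = 0 := by nlinarith [sq_nonneg α, sq_nonneg β]
      refine hk γ (lt_of_lt_of_le hn0 h1) ?_
      rw [h3, h4] at hexp
      simpa using hexp
    refine ⟨(α / (‖x‖ - γ), β / (‖x‖ - γ)), 2 / (‖x‖ - γ), by positivity, ?_⟩
    have h5 : sig e f k (α / (‖x‖ - γ), β / (‖x‖ - γ)) = (2 * (α / (‖x‖ - γ))) • e +
      (2 * (β / (‖x‖ - γ))) • f + ((α / (‖x‖ - γ)) ^ 2 + (β / (‖x‖ - γ)) ^ 2 - 1) • k := rfl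
    rw [h5]
    have h6 : ∀ t : ℝ, t • x = (t * α) • e + (t * β) • f + (t * γ) • k := by
      intro t
      conv_lhs => rw [hexp]
      rw [smul_add, smul_add, smul_smul, smul_smul, smul_smul]
    rw [h6 (2 / (‖x‖ - γ))]
    have h7 : (α / (‖x‖ - γ)) ^ 2 + (β / (‖x‖ - γ)) ^ 2 - 1 = 2 / (‖x‖ - γ) * γ := by
      have hd' : ‖x‖ - γ ≠ 0 := hd.ne'
      field_simp
      nlinarith
    rw [h7]
    congr 2
    · congr 1
      ring
    · congr 1
      ring
  · intro T hT hcl hkT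
    have hk0 : k ≠ 0 := by
      intro hk
      have := (sig_ee h).2.2.1
      rw [hk] at this
      simp at this
    have hkc : k ∉ closure T := fun hk => hkT (hcl k hk0 hk)
    obtain ⟨ε, hε, hball⟩ := Metric.nhds_basis_ball.mem_iff.1
      (isOpen_compl_iff.2 isClosed_closure |>.mem_nhds hkc)
    have hbd : ∀ p : ℝ × ℝ, sig e f k p ∈ T → ε ^ 2 * (1 + p.1 ^ 2 + p.2 ^ 2) ≤ 4 := by
      intro p hp
      have hr : 0 < 1 + p.1 ^ 2 + p.2 ^ 2 := by positivity
      have h1 := hT _ hp (1 / (1 + p.1 ^ 2 + p.2 ^ 2)) (by positivity)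
      have h2 : (1 / (1 + p.1 ^ 2 + p.2 ^ 2)) • sig e f k p ∉ Metric.ball k ε :=
        fun hb => hball hb (subset_closure h1)
      rw [Metric.mem_ball, not_lt, dist_eq_norm] at h2
      have h3 : (1 / (1 + p.1 ^ 2 + p.2 ^ 2)) • sig e f k p - k =
          (1 / (1 + p.1 ^ 2 + p.2 ^ 2) * (2 * p.1)) • e +
          (1 / (1 + p.1 ^ 2 + p.2 ^ 2) * (2 * p.2)) • f +
          (1 / (1 + p.1 ^ 2 + p.2 ^ 2) * (p.1 ^ 2 + p.2 ^ 2 - 1) - 1) • k := by
        unfold sig
        rw [smul_add, smul_add, smul_smul, smul_smul, smul_smul, sub_smul, one_smul]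
        abel
      have h4 := (sig_comb h (1 / (1 + p.1 ^ 2 + p.2 ^ 2) * (2 * p.1))
        (1 / (1 + p.1 ^ 2 + p.2 ^ 2) * (2 * p.2))
        (1 / (1 + p.1 ^ 2 + p.2 ^ 2) * (p.1 ^ 2 + p.2 ^ 2 - 1) - 1)).2.2.2
      rw [← h3] at h4
      have h5 : ε ^ 2 ≤ ‖(1 / (1 + p.1 ^ 2 + p.2 ^ 2)) • sig e f k p - k‖ ^ 2 :=
        pow_le_pow_left₀ hε.le h2 2
      rw [h4] at h5
      have h6 : (1 / (1 + p.1 ^ 2 + p.2 ^ 2) * (2 * p.1)) ^ 2 +
          (1 / (1 + p.1 ^ 2 + p.2 ^ 2) * (2 * p.2)) ^ 2 +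
          (1 / (1 + p.1 ^ 2 + p.2 ^ 2) * (p.1 ^ 2 + p.2 ^ 2 - 1) - 1) ^ 2 =
          4 / (1 + p.1 ^ 2 + p.2 ^ 2) := by
        have hr' : 1 + p.1 ^ 2 + p.2 ^ 2 ≠ 0 := hr.ne'
        field_simp
        ring
      rw [h6, le_div_iff₀ hr] at h5
      exact h5
    refine Metric.isCompact_of_isClosed_isBounded ?_ ?_
    · refine isClosed_of_closure_subset fun p hp => ?_
      refine hcl _ (hne p) ?_
      exact map_mem_closure hcd.continuous hp (fun q hq => hq)
    · refine (Metric.isBounded_iff_subset_closedBall (0 : ℝ × ℝ)).2 ⟨4 / ε ^ 2, fun p hp => ?_⟩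
      have h1 := hbd p hp
      have hε2 : 0 < ε ^ 2 := by positivity
      have h2 : 1 + p.1 ^ 2 + p.2 ^ 2 ≤ 4 / ε ^ 2 := by
        rw [le_div_iff₀ hε2]
        linarith
      rw [Metric.mem_closedBall, dist_zero_right, Prod.norm_def, max_le_iff, Real.norm_eq_abs,
        Real.norm_eq_abs]
      constructor
      · refine le_trans ?_ h2
        nlinarith [sq_nonneg (|p.1| - 1), sq_abs p.1, sq_nonneg p.2, abs_nonneg p.1]
      · refine le_trans ?_ h2
        nlinarith [sq_nonneg (|p.2| - 1), sq_abs p.2, sq_nonneg p.1, abs_nonneg p.2]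
  · intro p L hL hvw hcon
    obtain ⟨v, w, hvw⟩ := hvw
    refine hvw ?_
    set A : ℂ := L ((2 : ℝ) • e + (2 * p.1) • k) with hA
    set B : ℂ := L ((2 : ℝ) • f + (2 * p.2) • k) with hB
    have hr : (0 : ℝ) < 1 + p.1 ^ 2 + p.2 ^ 2 := by positivity
    have hrC : ((1 + p.1 ^ 2 + p.2 ^ 2 : ℝ) : ℂ) ≠ 0 := by exact_mod_cast hr.ne'
    -- every value of `L` is a real combination of `A` and `B`
    have hcomb : ∀ u : E3, ∃ a b : ℝ, L u = (a : ℂ) * A + (b : ℂ) * B := by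
      intro u
      have hLu : L u = ((inner ℝ e u : ℝ) : ℂ) * L e + ((inner ℝ f u : ℝ) : ℂ) * L f +
          ((inner ℝ k u : ℝ) : ℂ) * L k := by
        conv_lhs => rw [sig_expand h u]
        simp only [map_add, map_smul, Complex.real_smul]
      have hA' : A = 2 * L e + (2 * p.1) * L k := by
        rw [hA]
        simp only [map_add, map_smul, Complex.real_smul]
        push_cast
        ring
      have hB' : B = 2 * L f + (2 * p.2) * L k := by
        rw [hB]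
        simp only [map_add, map_smul, Complex.real_smul]
        push_cast
        ring
      have hL' : 2 * p.1 * L e + 2 * p.2 * L f + (p.1 ^ 2 + p.2 ^ 2 - 1) * L k = 0 := by
        have : L (sig e f k p) = 2 * p.1 * L e + 2 * p.2 * L f + (p.1 ^ 2 + p.2 ^ 2 - 1) * L k := by
          unfold sig
          simp only [map_add, map_smul, Complex.real_smul]
          push_cast
          ring
        rw [← this, hL]
      have hLk : (1 + p.1 ^ 2 + p.2 ^ 2) * L k = p.1 * A + p.2 * B := by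
        rw [hA', hB']
        linear_combination (-1 : ℂ) * hL'
      have hLk' : L k = ((p.1 / (1 + p.1 ^ 2 + p.2 ^ 2) : ℝ) : ℂ) * A +
          ((p.2 / (1 + p.1 ^ 2 + p.2 ^ 2) : ℝ) : ℂ) * B := by
        have hrC' : (1 + (p.1 : ℂ) ^ 2 + (p.2 : ℂ) ^ 2) ≠ 0 := by
          have := hrC
          push_cast at this
          exact this
        push_cast
        field_simp
        linear_combination hLk
      have hLe : L e = A / 2 - p.1 * L k := by rw [hA']; ring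
      have hLf : L f = B / 2 - p.2 * L k := by rw [hB']; ring
      refine ⟨inner ℝ e u / 2 + (inner ℝ k u - inner ℝ e u * p.1 - inner ℝ f u * p.2) *
        (p.1 / (1 + p.1 ^ 2 + p.2 ^ 2)), inner ℝ f u / 2 +
        (inner ℝ k u - inner ℝ e u * p.1 - inner ℝ f u * p.2) *
        (p.2 / (1 + p.1 ^ 2 + p.2 ^ 2)), ?_⟩
      rw [hLu, hLe, hLf]
      have h8 : ((inner ℝ e u : ℝ) : ℂ) * (A / 2 - p.1 * L k) +
          ((inner ℝ f u : ℝ) : ℂ) * (B / 2 - p.2 * L k) + ((inner ℝ k u : ℝ) : ℂ) * L k =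
          ((inner ℝ e u : ℝ) : ℂ) / 2 * A + ((inner ℝ f u : ℝ) : ℂ) / 2 * B +
          (((inner ℝ k u : ℝ) : ℂ) - ((inner ℝ e u : ℝ) : ℂ) * p.1 -
            ((inner ℝ f u : ℝ) : ℂ) * p.2) * L k := by ring
      rw [h8, hLk']
      push_cast
      ring
    obtain ⟨a, b, hv⟩ := hcomb v
    obtain ⟨a', b', hw⟩ := hcomb w
    rw [hv, hw]
    have h9 : ((starRingEnd ℂ) ((a : ℂ) * A + (b : ℂ) * B) * ((a' : ℂ) * A + (b' : ℂ) * B)).im =
        (a * b' - b * a') * ((starRingEnd ℂ) A * B).im := by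
      simp only [map_add, map_mul, Complex.conj_ofReal, Complex.mul_im, Complex.mul_re,
        Complex.add_im, Complex.add_re, Complex.conj_re, Complex.conj_im, Complex.ofReal_re,
        Complex.ofReal_im]
      ring
    rw [h9, hcon, mul_zero]

end Pool.Agent.HH
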