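import Pool.Agent.Lib.MP_7dc3d9_gt.ThA.Stm

set_option autoImplicit false

namespace Pool.Agent.HH

open Complex Set MeasureTheory Topology

private theorem stk_fd (F : ℝ × ℝ → ℂ) (p v : ℝ × ℝ) :
    fderiv ℝ F p v = (v.1 : ℂ) * px F p + (v.2 : ℂ) * py F p := by
  unfold px py
  have h : v = v.1 • ((1, 0) : ℝ × ℝ) + v.2 • ((0, 1) : ℝ × ℝ) := by
    ext <;> simp
  conv_lhs => rw [h]
  rw [map_add, map_smul, map_smul]
  simp

private theorem stk_equiv {P : ℝ × ℝ → ℂ} {p : ℝ × ℝ} (h : Jac P p ≠ 0) :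
    ∃ e : (ℝ × ℝ) ≃L[ℝ] ℂ, (e : (ℝ × ℝ) →L[ℝ] ℂ) = fderiv ℝ P p := by
  have hinj : Function.Injective (fderiv ℝ P p : (ℝ × ℝ) →ₗ[ℝ] ℂ) := by
    rw [injective_iff_map_eq_zero]
    intro v hv
    have h1 : (v.1 : ℂ) * px P p + (v.2 : ℂ) * py P p = 0 := by
      rw [← stk_fd]
      exact hv
    have hr := congrArg Complex.re h1
    have hi := congrArg Complex.im h1
    simp only [Complex.add_re, Complex.mul_re, Complex.ofReal_re, Complex.ofReal_im, zero_mul,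
      sub_zero, Complex.zero_re, Complex.add_im, Complex.mul_im, add_zero, Complex.zero_im] at hr hi
    unfold Jac at h
    simp only [Complex.mul_im, Complex.conj_re, Complex.conj_im] at h
    have e1 : v.1 * ((px P p).re * (py P p).im + -(px P p).im * (py P p).re) = 0 := by
      linear_combination (py P p).im * hr - (py P p).re * hi
    have e2 : v.2 * ((px P p).re * (py P p).im + -(px P p).im * (py P p).re) = 0 := by
      linear_combination (px P p).re * hi - (px P p).im * hr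
    have f1 := (mul_eq_zero.1 e1).resolve_right h
    have f2 := (mul_eq_zero.1 e2).resolve_right h
    exact Prod.ext f1 f2
  have hfr : Module.finrank ℝ (ℝ × ℝ) = Module.finrank ℝ ℂ := by
    simp [Complex.finrank_real_complex]
  refine ⟨(LinearEquiv.ofInjectiveOfFinrankEq _ hinj hfr).toContinuousLinearEquiv, ?_⟩
  exact ContinuousLinearMap.ext fun v => rfl

private theorem stk_jac {P : ℝ × ℝ → ℂ} {p : ℝ × ℝ} (h : ContDiffAt ℝ 1 P p) :
    ContinuousAt (Jac P) p := by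
  have h1 : ContinuousAt (fderiv ℝ P) p :=
    (h.fderiv_right (m := 0) (by simp)).continuousAt
  have h2 : ContinuousAt (px P) p := h1.clm_apply continuousAt_const
  have h3 : ContinuousAt (py P) p := h1.clm_apply continuousAt_const
  have h4 : ContinuousAt (fun q => (starRingEnd ℂ) (px P q) * py P q) p :=
    (Complex.continuous_conj.continuousAt.comp h2).mul h3
  exact Complex.continuous_im.continuousAt.comp h4

/-- local sections -/
private theorem stk_loc {W : Set (ℝ × ℝ)} {P : ℝ × ℝ → ℂ} (hW : IsOpen W)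
    (hP : ContDiffOn ℝ 1 P W) {p0 : ℝ × ℝ} (hp0 : p0 ∈ W) (hJ : Jac P p0 ≠ 0)
    {O : Set (ℝ × ℝ)} (hO : IsOpen O) (hpO : p0 ∈ O) :
    ∃ (N : Set (ℝ × ℝ)) (s : ℂ → ℝ × ℝ), IsOpen N ∧ N ⊆ O ∧ N ⊆ W ∧ p0 ∈ N ∧
      IsOpen (P '' N) ∧ ContDiffOn ℝ 1 s (P '' N) ∧ ∀ q ∈ N, s (P q) = q ∧ Jac P q ≠ 0 := by
  have hPc : ContDiffAt ℝ 1 P p0 := hP.contDiffAt (hW.mem_nhds hp0)
  obtain ⟨e, he⟩ := stk_equiv hJ
  have hPd : HasFDerivAt P (e : (ℝ × ℝ) →L[ℝ] ℂ) p0 := by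
    rw [he]
    exact (hPc.differentiableAt (by simp)).hasFDerivAt
  set Φ := hPc.toOpenPartialHomeomorph P hPd (by simp) with hΦ
  have hΦc : (Φ : ℝ × ℝ → ℂ) = P := ContDiffAt.toOpenPartialHomeomorph_coe _ _ _
  have hs0 : p0 ∈ Φ.source := ContDiffAt.mem_toOpenPartialHomeomorph_source _ _ _
  have hsc : ContDiffAt ℝ 1 Φ.symm (P p0) := ContDiffAt.to_localInverse hPc hPd (by simp)
  have hev : ∀ᶠ z in 𝓝 (P p0), ContDiffAt ℝ 1 Φ.symm z := hsc.eventually (by simp)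
  have hall : ∀ᶠ q in 𝓝 p0, ContDiffAt ℝ 1 Φ.symm (P q) ∧ q ∈ Φ.source ∧ q ∈ O ∧ q ∈ W ∧
      Jac P q ≠ 0 :=
    (hPc.continuousAt.eventually hev).and ((Φ.open_source.eventually_mem hs0).and
      ((hO.eventually_mem hpO).and ((hW.eventually_mem hp0).and
        ((stk_jac hPc).eventually_ne hJ))))
  obtain ⟨N, hN, hNo, hpN⟩ := eventually_nhds_iff.1 hall
  refine ⟨N, Φ.symm, hNo, fun q hq => (hN q hq).2.2.1, fun q hq => (hN q hq).2.2.2.1, hpN,
    ?_, ?_, ?_⟩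
  · have := Φ.isOpen_image_of_subset_source hNo (fun q hq => (hN q hq).2.1)
    rwa [hΦc] at this
  · rintro _ ⟨q, hq, rfl⟩
    exact (hN q hq).1.contDiffWithinAt
  · intro q hq
    refine ⟨?_, (hN q hq).2.2.2.2⟩
    have := Φ.left_inv (hN q hq).2.1
    rwa [hΦc] at this

/-- STK -/
theorem p_STK : S_STK := by
  intro W P z0 r0 hW hP hr0 hK hJ
  have hPc : ContinuousOn P {p | p ∈ W ∧ P p ∈ Metric.closedBall z0 r0} :=
    hP.continuousOn.mono fun p hp => hp.1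
  set K := {p | p ∈ W ∧ P p ∈ Metric.closedBall z0 r0} with hKd
  set Z := {p | p ∈ W ∧ P p = z0} with hZd
  have hZc : IsCompact Z := by
    obtain ⟨u, hu, hu'⟩ := (continuousOn_iff_isClosed.1 hPc) {z0} isClosed_singleton
    have h1 : Z = K ∩ u := by
      rw [inter_comm, ← hu']
      ext p
      constructor
      · rintro ⟨h1, h2⟩
        refine ⟨h2, h1, ?_⟩
        rw [h2]
        exact Metric.mem_closedBall_self hr0.le
      · rintro ⟨h1, h2⟩
        exact ⟨h2.1, h1⟩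
    rw [h1]
    exact hK.inter_right hu
  have hZf : Z.Finite := by
    have h1 : ∀ x : ℝ × ℝ, ∃ N : Set (ℝ × ℝ), x ∈ Z → (N ∈ 𝓝 x ∧ N ∩ Z ⊆ {x}) := by
      intro x
      by_cases hx : x ∈ Z
      · obtain ⟨N, s, hNo, -, -, hxN, -, -, hs⟩ :=
          stk_loc hW hP hx.1 (hJ x hx.1 hx.2) isOpen_univ (mem_univ x)
        refine ⟨N, fun _ => ⟨hNo.mem_nhds hxN, ?_⟩⟩
        rintro q ⟨hq, hqZ⟩
        have e1 := (hs q hq).1
        have e2 := (hs x hxN).1
        rw [hqZ.2] at e1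
        rw [hx.2] at e2
        exact e1.symm.trans e2
      · exact ⟨univ, fun h => absurd h hx⟩
    choose N hN using h1
    obtain ⟨t, ht, hZt⟩ := hZc.elim_nhds_subcover N (fun x hx => (hN x hx).1)
    refine t.finite_toSet.subset fun p hp => ?_
    obtain ⟨x, hx, hpx⟩ := mem_iUnion₂.1 (hZt hp)
    have h3 := (hN x (ht x hx)).2 ⟨hpx, hp⟩
    rw [mem_singleton_iff] at h3
    rw [h3]
    exact hx
  obtain ⟨U, hU, hUd⟩ := hZf.t2_separation
  have hloc : ∀ x : Z, ∃ (N : Set (ℝ × ℝ)) (s : ℂ → ℝ × ℝ), IsOpen N ∧ N ⊆ U x ∧ N ⊆ W ∧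
      (x : ℝ × ℝ) ∈ N ∧
      IsOpen (P '' N) ∧ ContDiffOn ℝ 1 s (P '' N) ∧ ∀ q ∈ N, s (P q) = q ∧ Jac P q ≠ 0 :=
    fun x => stk_loc hW hP x.2.1 (hJ x x.2.1 x.2.2) (hU x).2 (hU x).1
  choose N s hNo hNU hNW hxN hPN hs hsN using hloc
  have hK' : IsCompact (K \ ⋃ x, N x) := hK.diff (isOpen_iUnion hNo)
  have hPK' : IsClosed (P '' (K \ ⋃ x, N x)) :=
    (hK'.image_of_continuousOn (hPc.mono sdiff_subset)).isClosed
  have hz0 : z0 ∉ P '' (K \ ⋃ x, N x) := by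
    rintro ⟨p, ⟨hpK, hpN⟩, hp⟩
    exact hpN (mem_iUnion.2 ⟨⟨p, hpK.1, hp⟩, hxN ⟨p, hpK.1, hp⟩⟩)
  have : Finite Z := hZf
  have hev : ∀ᶠ z in 𝓝 z0, (z ∉ P '' (K \ ⋃ x, N x)) ∧ (∀ x : Z, z ∈ P '' N x) ∧
      z ∈ Metric.ball z0 r0 := by
    refine (hPK'.isOpen_compl.eventually_mem hz0).and
      ((Filter.eventually_all.2 fun x => (hPN x).eventually_mem ?_).and
        (Metric.isOpen_ball.eventually_mem (Metric.mem_ball_self hr0)))
    exact ⟨x, hxN x, x.2.2⟩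
  obtain ⟨r, hr, hball⟩ := Metric.eventually_nhds_iff_ball.1 hev
  obtain ⟨n, ⟨e⟩⟩ := Finite.exists_equiv_fin Z
  refine ⟨n, fun j => s (e.symm j), r, hr, fun j => ?_, fun j z hz => ?_, fun z hz p hp hpz => ?_⟩
  · exact (hs (e.symm j)).mono fun z hz => (hball z hz).2.1 _
  · obtain ⟨q, hq, rfl⟩ := (hball z hz).2.1 (e.symm j)
    have h1 := hsN (e.symm j) q hq
    simp only [h1.1]
    exact ⟨hNW _ hq, trivial, h1.2⟩
  · obtain ⟨hb1, hb2, hb3⟩ := hball z hz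
    have hpK : p ∈ K := by
      refine ⟨hp, ?_⟩
      rw [hpz]
      exact Metric.ball_subset_closedBall hb3
    have hpN : p ∈ ⋃ x, N x := by
      by_contra hcon
      exact hb1 ⟨p, ⟨hpK, hcon⟩, hpz⟩
    obtain ⟨x, hx⟩ := mem_iUnion.1 hpN
    refine ⟨e x, ?_, ?_⟩
    · show s (e.symm (e x)) z = p
      rw [e.symm_apply_apply, ← hpz]
      exact (hsN x p hx).1
    · intro j hj
      have hj' : s (e.symm j) z = p := hj
      obtain ⟨q, hq, hqz⟩ := hb2 (e.symm j)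
      have h1 := (hsN (e.symm j) q hq).1
      rw [hqz, hj'] at h1
      rw [← h1] at hq
      have hxx : (e.symm j) = x := by
        by_contra hne
        have hd := hUd (e.symm j).2 x.2 (fun h => hne (Subtype.ext h))
        exact (disjoint_left.1 hd) (hNU _ hq) (hNU _ hx)
      rw [← hxx, e.apply_symm_apply]

end Pool.Agent.HH
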