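import Pool.Agent.Lib.MP_7dc3d9_gt.ThA.Stm

set_option autoImplicit false

namespace Pool.Agent.HH

open Set

private noncomputable def dt (x y : E3) : ℝ := x 0 * y 0 + x 1 * y 1 + x 2 * y 2

private noncomputable def dd (a x y : E3) : ℝ :=
  a 0 * (x 1 * y 2 - x 2 * y 1) - a 1 * (x 0 * y 2 - x 2 * y 0) + a 2 * (x 0 * y 1 - x 1 * y 0)

private noncomputable def nn (a x y : E3) : ℂ :=
  ((dt a a * dt x y - dt a x * dt a y : ℝ) : ℂ) +
    ((Real.sqrt (dt a a) * dd a x y : ℝ) : ℂ) * Complex.I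

private lemma nn_re (a x y : E3) : (nn a x y).re = dt a a * dt x y - dt a x * dt a y := by
  simp [nn]

private lemma nn_im (a x y : E3) : (nn a x y).im = Real.sqrt (dt a a) * dd a x y := by
  simp [nn]

private lemma dt_self_nonneg (a : E3) : 0 ≤ dt a a := by
  unfold dt
  nlinarith [mul_self_nonneg (a 0), mul_self_nonneg (a 1), mul_self_nonneg (a 2)]

private lemma dt_self_pos (a : E3) (h : a ≠ 0) : 0 < dt a a := by
  rcases lt_or_eq_of_le (dt_self_nonneg a) with h1 | h1
  · exact h1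
  · exfalso
    apply h
    have e0 : a 0 * a 0 = 0 := by
      unfold dt at h1
      nlinarith [mul_self_nonneg (a 0), mul_self_nonneg (a 1), mul_self_nonneg (a 2)]
    have e1 : a 1 * a 1 = 0 := by
      unfold dt at h1
      nlinarith [mul_self_nonneg (a 0), mul_self_nonneg (a 1), mul_self_nonneg (a 2)]
    have e2 : a 2 * a 2 = 0 := by
      unfold dt at h1
      nlinarith [mul_self_nonneg (a 0), mul_self_nonneg (a 1), mul_self_nonneg (a 2)]
    ext i
    fin_cases i
    · simpa using e0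
    · simpa using e1
    · simpa using e2

private lemma gram_pos (a x : E3) (ha : a ≠ 0) (hx : x ≠ 0)
    (h : ∀ m : ℝ, m ≠ 0 → a ≠ m • x) : 0 < dt a a * dt x x - dt a x * dt a x := by
  have hL : dt a a * dt x x - dt a x * dt a x =
      (a 0 * x 1 - a 1 * x 0) ^ 2 + (a 0 * x 2 - a 2 * x 0) ^ 2 + (a 1 * x 2 - a 2 * x 1) ^ 2 := by
    unfold dt; ring
  have h0 : 0 ≤ dt a a * dt x x - dt a x * dt a x := by rw [hL]; positivity
  rcases lt_or_eq_of_le h0 with h1 | h1
  · exact h1
  · exfalso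
    rw [hL] at h1
    have c1 : a 0 * x 1 - a 1 * x 0 = 0 := by
      have : (a 0 * x 1 - a 1 * x 0) ^ 2 = 0 := by
        nlinarith [sq_nonneg (a 0 * x 1 - a 1 * x 0), sq_nonneg (a 0 * x 2 - a 2 * x 0),
          sq_nonneg (a 1 * x 2 - a 2 * x 1)]
      exact pow_eq_zero_iff (two_ne_zero) |>.mp this
    have c2 : a 0 * x 2 - a 2 * x 0 = 0 := by
      have : (a 0 * x 2 - a 2 * x 0) ^ 2 = 0 := by
        nlinarith [sq_nonneg (a 0 * x 1 - a 1 * x 0), sq_nonneg (a 0 * x 2 - a 2 * x 0),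
          sq_nonneg (a 1 * x 2 - a 2 * x 1)]
      exact pow_eq_zero_iff (two_ne_zero) |>.mp this
    have c3 : a 1 * x 2 - a 2 * x 1 = 0 := by
      have : (a 1 * x 2 - a 2 * x 1) ^ 2 = 0 := by
        nlinarith [sq_nonneg (a 0 * x 1 - a 1 * x 0), sq_nonneg (a 0 * x 2 - a 2 * x 0),
          sq_nonneg (a 1 * x 2 - a 2 * x 1)]
      exact pow_eq_zero_iff (two_ne_zero) |>.mp this
    have hxx := dt_self_pos x hx
    have e : a = (dt a x / dt x x) • x := by
      have k0 : a 0 * dt x x = dt a x * x 0 := by unfold dt; linear_combination x 1 * c1 + x 2 * c2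
      have k1 : a 1 * dt x x = dt a x * x 1 := by
        unfold dt; linear_combination -x 0 * c1 + x 2 * c3
      have k2 : a 2 * dt x x = dt a x * x 2 := by
        unfold dt; linear_combination -x 0 * c2 - x 1 * c3
      ext i
      fin_cases i
      · show a 0 = (dt a x / dt x x) * x 0
        field_simp; linarith
      · show a 1 = (dt a x / dt x x) * x 1
        field_simp; linarith
      · show a 2 = (dt a x / dt x x) * x 2
        field_simp; linarith
    refine h (dt a x / dt x x) ?_ e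
    intro hm
    rw [hm, zero_smul] at e
    exact ha e

private lemma nn_ne (a x y : E3) (ha : a ≠ 0) (h1 : 0 < dt a a * dt x x - dt a x * dt a x)
    (h2 : 0 < dt a a * dt y y - dt a y * dt a y) : nn a x y ≠ 0 := by
  intro h
  have hre : dt a a * dt x y - dt a x * dt a y = 0 := by
    rw [← nn_re, h]; rfl
  have him : Real.sqrt (dt a a) * dd a x y = 0 := by
    rw [← nn_im, h]; rfl
  have hs : 0 < Real.sqrt (dt a a) := Real.sqrt_pos.mpr (dt_self_pos a ha)
  have hd : dd a x y = 0 := by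
    rcases mul_eq_zero.mp him with h3 | h3
    · exact absurd h3 hs.ne'
    · exact h3
  have hid : (dt a a * dt x y - dt a x * dt a y) ^ 2 + dt a a * dd a x y ^ 2 =
      (dt a a * dt x x - dt a x * dt a x) * (dt a a * dt y y - dt a y * dt a y) := by
    unfold dt dd; ring
  rw [hre, hd] at hid
  have := mul_pos h1 h2
  rw [← hid] at this
  norm_num at this

private lemma nn_cont (x : E3) : Continuous fun q : E3 × E3 => nn q.1 x q.2 := by
  unfold nn dt dd
  fun_prop

private lemma nn_neg (a x y : E3) : nn (-a) x y = (starRingEnd ℂ) (nn a x y) := by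
  apply Complex.ext
  · rw [nn_re, Complex.conj_re, nn_re]
    unfold dt
    simp only [PiLp.neg_apply]
    ring
  · rw [nn_im, Complex.conj_im, nn_im]
    have : dt (-a) (-a) = dt a a := by
      unfold dt
      simp only [PiLp.neg_apply]
      ring
    rw [this]
    unfold dd
    simp only [PiLp.neg_apply]
    ring

private lemma nn_negr (a x y : E3) : nn a x (-y) = - nn a x y := by
  apply Complex.ext
  · rw [nn_re, Complex.neg_re, nn_re]
    unfold dt
    simp only [PiLp.neg_apply]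
    ring
  · rw [nn_im, Complex.neg_im, nn_im]
    unfold dd
    simp only [PiLp.neg_apply]
    ring

private lemma prod_ratio (f : ℕ → ℂ) (n : ℕ) (h : ∀ i, i ≤ n → f i ≠ 0) :
    ∏ i ∈ Finset.range n, (f (i + 1) / f i) = f n / f 0 := by
  induction n with
  | zero => simp [div_self (h 0 le_rfl)]
  | succ n ih =>
    rw [Finset.prod_range_succ, ih (fun i hi => h i (by omega))]
    have h0 := h 0 (by omega)
    have h1 := h n (by omega)
    field_simp

theorem p_TOPP : S_TOPP := by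
  intro a b ha hb ha0 hb0 ha1 hb1
  by_contra hcon
  push Not at hcon
  have hind : ∀ s ∈ Icc (0 : ℝ) 1, ∀ t ∈ Icc (0 : ℝ) 1,
      0 < dt (a s) (a s) * dt (b t) (b t) - dt (a s) (b t) * dt (a s) (b t) := by
    intro s hs t ht
    exact gram_pos (a s) (b t) (ha0 s hs) (hb0 t ht) (fun m hm => hcon s hs t ht m hm)
  have h0I : (0 : ℝ) ∈ Icc (0 : ℝ) 1 := ⟨le_rfl, zero_le_one⟩
  have h1I : (1 : ℝ) ∈ Icc (0 : ℝ) 1 := ⟨zero_le_one, le_rfl⟩
  set R : ℝ × ℝ → ℂ := fun p => nn (a p.1) (b 0) (b p.2) with hR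
  set K : Set (ℝ × ℝ) := Icc (0 : ℝ) 1 ×ˢ Icc (0 : ℝ) 1 with hK
  have hRc : ContinuousOn R K := by
    have h1 : ContinuousOn (fun p : ℝ × ℝ => (a p.1, b p.2)) K := by
      apply ContinuousOn.prodMk
      · exact ha.comp continuousOn_fst (fun p hp => hp.1)
      · exact hb.comp continuousOn_snd (fun p hp => hp.2)
    exact (nn_cont (b 0)).comp_continuousOn h1
  have hRne : ∀ p ∈ K, R p ≠ 0 := by
    intro p hp
    exact nn_ne _ _ _ (ha0 p.1 hp.1) (hind p.1 hp.1 0 h0I) (hind p.1 hp.1 p.2 hp.2)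
  have hKc : IsCompact K := isCompact_Icc.prod isCompact_Icc
  have hKne : K.Nonempty := ⟨(0, 0), h0I, h0I⟩
  obtain ⟨p0, hp0, hmin⟩ := hKc.exists_isMinOn hKne (hRc.norm)
  have hc : 0 < ‖R p0‖ := norm_pos_iff.mpr (hRne p0 hp0)
  have hunif := hKc.uniformContinuousOn_of_continuous hRc
  rw [Metric.uniformContinuousOn_iff] at hunif
  obtain ⟨δ, hδ, hu⟩ := hunif ‖R p0‖ hc
  obtain ⟨N, hN⟩ := exists_nat_gt (1 / δ)
  have hNpos : (0 : ℝ) < N := lt_trans (by positivity) hN
  have hNd : 1 / (N : ℝ) < δ := by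
    rw [div_lt_iff₀ hNpos]
    rw [div_lt_iff₀ hδ] at hN
    linarith
  have hmem : ∀ i : ℕ, i ≤ N → (i : ℝ) / N ∈ Icc (0 : ℝ) 1 := by
    intro i hi
    constructor
    · positivity
    · rw [div_le_one hNpos]
      exact_mod_cast hi
  have hslit : ∀ s ∈ Icc (0 : ℝ) 1, ∀ i : ℕ, i < N →
      R (s, ((i + 1 : ℕ) : ℝ) / N) / R (s, (i : ℝ) / N) ∈ Complex.slitPlane := by
    intro s hs i hi
    have m1 : (s, ((i + 1 : ℕ) : ℝ) / N) ∈ K := ⟨hs, hmem (i + 1) (by omega)⟩
    have m2 : (s, (i : ℝ) / N) ∈ K := ⟨hs, hmem i (by omega)⟩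
    have hd : dist ((s, ((i + 1 : ℕ) : ℝ) / N) : ℝ × ℝ) (s, (i : ℝ) / N) < δ := by
      rw [Prod.dist_eq]
      simp only [dist_self]
      rw [Real.dist_eq]
      have : ((i + 1 : ℕ) : ℝ) / N - (i : ℝ) / N = 1 / N := by
        push_cast
        field_simp
        ring
      rw [this, abs_of_pos (by positivity)]
      exact max_lt hδ hNd
    have h3 := hu _ m1 _ m2 hd
    rw [dist_eq_norm] at h3
    have hz := hRne _ m2
    have h4 : ‖R (s, ((i + 1 : ℕ) : ℝ) / N) / R (s, (i : ℝ) / N) - 1‖ < 1 := by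
      have : R (s, ((i + 1 : ℕ) : ℝ) / N) / R (s, (i : ℝ) / N) - 1 =
          (R (s, ((i + 1 : ℕ) : ℝ) / N) - R (s, (i : ℝ) / N)) / R (s, (i : ℝ) / N) := by
        field_simp
      rw [this, norm_div, div_lt_one (norm_pos_iff.mpr hz)]
      exact lt_of_lt_of_le h3 (hmin m2)
    rw [Complex.mem_slitPlane_iff]
    left
    have h5 := (Complex.abs_re_le_norm (R (s, ((i + 1 : ℕ) : ℝ) / N) / R (s, (i : ℝ) / N) - 1))
    rw [Complex.sub_re, Complex.one_re] at h5
    have h6 := abs_lt.mp (lt_of_le_of_lt h5 h4)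
    linarith [h6.1]
  set L : ℝ → ℂ := fun s => ∑ i ∈ Finset.range N,
    Complex.log (R (s, ((i + 1 : ℕ) : ℝ) / N) / R (s, (i : ℝ) / N)) with hL
  have hRs : ∀ t ∈ Icc (0 : ℝ) 1, ContinuousOn (fun s => R (s, t)) (Icc (0 : ℝ) 1) := by
    intro t ht
    apply hRc.comp
    · exact (continuous_id.prodMk continuous_const).continuousOn
    · intro s hs
      exact ⟨hs, ht⟩
  have hLc : ContinuousOn L (Icc (0 : ℝ) 1) := by
    apply continuousOn_finsetSum
    intro i hi
    rw [Finset.mem_range] at hi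
    apply ContinuousOn.clog
    · apply ContinuousOn.div (hRs _ (hmem (i + 1) (by omega))) (hRs _ (hmem i (by omega)))
      intro s hs
      exact hRne _ ⟨hs, hmem i (by omega)⟩
    · intro s hs
      exact hslit s hs i hi
  have hexp : ∀ s ∈ Icc (0 : ℝ) 1, Complex.exp (L s) = -1 := by
    intro s hs
    rw [hL]
    simp only
    rw [Complex.exp_sum]
    have : ∀ i ∈ Finset.range N, Complex.exp (Complex.log
        (R (s, ((i + 1 : ℕ) : ℝ) / N) / R (s, (i : ℝ) / N))) =
        (fun j : ℕ => R (s, (j : ℝ) / N)) (i + 1) / (fun j : ℕ => R (s, (j : ℝ) / N)) i := by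
      intro i hi
      rw [Finset.mem_range] at hi
      rw [Complex.exp_log (Complex.slitPlane_ne_zero (hslit s hs i hi))]
    rw [Finset.prod_congr rfl this]
    refine (prod_ratio (fun j : ℕ => R (s, (j : ℝ) / N)) N ?_).trans ?_
    · intro i hi
      exact hRne _ ⟨hs, hmem i hi⟩
    · have e0 : R (s, ((0 : ℕ) : ℝ) / N) = nn (a s) (b 0) (b 0) := by
        rw [hR]; simp
      have e1 : R (s, ((N : ℕ) : ℝ) / N) = - nn (a s) (b 0) (b 0) := by
        rw [hR]
        simp only
        rw [div_self hNpos.ne', hb1, nn_negr]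
      show R (s, ((N : ℕ) : ℝ) / N) / R (s, ((0 : ℕ) : ℝ) / N) = -1
      rw [e0, e1]
      have hne : nn (a s) (b 0) (b 0) ≠ 0 :=
        nn_ne _ _ _ (ha0 s hs) (hind s hs 0 h0I) (hind s hs 0 h0I)
      field_simp
  have hconj : L 1 = (starRingEnd ℂ) (L 0) := by
    rw [hL]
    simp only
    rw [map_sum]
    apply Finset.sum_congr rfl
    intro i hi
    rw [Finset.mem_range] at hi
    have hr : ∀ t, R (1, t) = (starRingEnd ℂ) (R (0, t)) := by
      intro t
      rw [hR]
      simp only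
      rw [ha1, nn_neg]
    rw [hr, hr, ← map_div₀, Complex.log_conj]
    exact Complex.slitPlane_arg_ne_pi (hslit 0 h0I i hi)
  have him : (L 1).im = - (L 0).im := by
    rw [hconj, Complex.conj_im]
  have hLim : ContinuousOn (fun s => (L s).im) (Icc (0 : ℝ) 1) :=
    Complex.continuous_im.comp_continuousOn hLc
  have hzero : ∃ s ∈ Icc (0 : ℝ) 1, (L s).im = 0 := by
    rcases le_total (L 0).im 0 with h | h
    · have := intermediate_value_Icc (zero_le_one (α := ℝ)) hLim
      obtain ⟨s, hs, hs2⟩ := this (show (0 : ℝ) ∈ Icc ((L 0).im) ((L 1).im) from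
        ⟨h, by rw [him]; linarith⟩)
      exact ⟨s, hs, hs2⟩
    · have := intermediate_value_Icc' (zero_le_one (α := ℝ)) hLim
      obtain ⟨s, hs, hs2⟩ := this (show (0 : ℝ) ∈ Icc ((L 1).im) ((L 0).im) from
        ⟨by rw [him]; linarith, h⟩)
      exact ⟨s, hs, hs2⟩
  obtain ⟨s, hs, hs0⟩ := hzero
  have h1 := hexp s hs
  have h2 := congrArg Complex.re h1
  rw [Complex.exp_re, hs0, Real.cos_zero, mul_one, Complex.neg_re, Complex.one_re] at h2
  have := Real.exp_pos (L s).re
  linarith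

end Pool.Agent.HH
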