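import Pool.Agent.Lib.MP_7dc3d9_gt.ThA.P_L2
import Pool.Agent.Lib.MP_7dc3d9_gt.ThA.P_HOL
import Pool.Agent.Lib.MP_7dc3d9_gt.ThA.P_KE
import Pool.Agent.Lib.MP_7dc3d9_gt.ThA.P_SH
import Pool.Agent.Lib.MP_7dc3d9_gt.ThA.P_R3
import Pool.Agent.Lib.MP_7dc3d9_gt.ThA.P_CH1
import Pool.Agent.Lib.MP_7dc3d9_gt.ThA.P_CH2
import Pool.Agent.Lib.MP_7dc3d9_gt.ThA.P_AFF
import Pool.Agent.Lib.MP_7dc3d9_gt.ThA.P_INIT
import Pool.Agent.Lib.MP_7dc3d9_gt.ThA.P_STEP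
import Pool.Agent.Lib.MP_7dc3d9_gt.ThA.P_S3N
import Pool.Agent.Lib.MP_7dc3d9_gt.ThA.P_CUR
import Pool.Agent.Lib.MP_7dc3d9_gt.ThA.P_HZ
import Pool.Agent.Lib.MP_7dc3d9_gt.ThA.P_STK
import Pool.Agent.Lib.MP_7dc3d9_gt.ThA.P_DEG
import Pool.Agent.Lib.MP_7dc3d9_gt.ThA.P_E2D
import Pool.Agent.Lib.MP_7dc3d9_gt.ThA.P_ONB
import Pool.Agent.Lib.MP_7dc3d9_gt.ThA.P_SIG
import Pool.Agent.Lib.MP_7dc3d9_gt.ThA.P_TOPP
import Pool.Agent.Lib.MP_7dc3d9_gt.ThA.P_TOPS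
import Pool.Agent.Lib.MP_7dc3d9_gt.ThA.P_BAS
import Pool.Agent.Lib.MP_7dc3d9_gt.ThA.P_INTK
import Pool.Agent.Lib.MP_7dc3d9_gt.ThA.P_E3D
import Pool.Agent.Lib.MP_7dc3d9_gt.ThA.P_EVEN
import Pool.Agent.Lib.MP_7dc3d9_gt.ThA.P_COMP
import Pool.Agent.Lib.MP_7dc3d9_gt.ThA.P_MAIN
import Pool.Agent.Lib.MP_7dc3d9_gt.ThA.P_ALG
import Pool.Agent.Lib.MP_7dc3d9_gt.ThA.P_NULL
import Pool.Agent.Lib.MP_7dc3d9_gt.ThA.P_THA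
import Pool.Agent.Lib.MP_7dc3d9_gt.ThA.P_PEN

set_option autoImplicit false

/-! Assembly of Theorem A. -/

namespace Pool.Agent.HH

theorem all_SH : S_SH := p_SH p_L2 p_HOL p_KE
theorem all_R3 : S_R3 := p_R3 p_L2 all_SH
theorem all_INIT : S_INIT := p_INIT p_CH1 p_CH2 p_AFF
theorem all_STEP : S_STEP := p_STEP p_CH1 p_CH2 p_AFF all_R3
theorem all_S3N : S_S3N := p_S3N all_INIT all_STEP
theorem all_HZ : S_HZ := p_HZ (p_CUR p_L2)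
theorem all_DEG : S_DEG := p_DEG all_HZ p_STK
theorem all_E2D : S_E2D := p_E2D p_STK all_DEG
theorem all_TOPS : S_TOPS := p_TOPS p_TOPP
theorem all_INTK : S_INTK := p_INTK p_BAS p_ONB all_S3N
theorem all_E3D : S_E3D := p_E3D p_BAS p_ONB p_SIG all_E2D
theorem all_EVEN : S_EVEN := p_EVEN p_BAS all_INTK all_E3D
theorem all_COMP : S_COMP := p_COMP p_BAS all_INTK all_E3D
theorem all_MAIN : S_MAIN := p_MAIN p_BAS all_EVEN all_COMP all_TOPS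
theorem all_THA : S_THA := p_THA (p_NULL p_ALG) all_MAIN
theorem all_PEN : S_PEN := p_PEN all_THA

end Pool.Agent.HH
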