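import Pool.Agent.Lib.MP_7dc3d9_gt.ThA.Stm
set_option autoImplicit false
namespace Pool.Agent.HH

open MvPolynomial

private lemma hc_mul {d : ℕ} (N : ℕ) (c q : MvPolynomial (Fin d) ℂ) (hq : q.IsHomogeneous 2) :
    homogeneousComponent (N + 2) (c * q) = homogeneousComponent N c * q := by
  induction c using MvPolynomial.induction_on' with
  | monomial m a =>
    have h1 : (monomial m a : MvPolynomial (Fin d) ℂ).IsHomogeneous m.degree :=
      isHomogeneous_monomial a rfl
    rw [homogeneousComponent_of_mem (n := m.degree) h1,
      homogeneousComponent_of_mem (n := m.degree + 2) (h1.mul hq)]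
    by_cases h : N = m.degree <;> simp [h]
  | add p r hp hr => simp [add_mul, map_add, hp, hr]

/-- the reduction of `x_j^(N+2)` -/
private lemma red {d : ℕ} {ι : Type} (q : ι → MvPolynomial (Fin d) ℂ) (r : ι → ℂ)
    (hq : ∀ i, (q i).IsHomogeneous 2) (N : ℕ) (j : Fin d)
    (hj : (X j : MvPolynomial (Fin d) ℂ) ^ (N + 2) ∈ Ideal.span (Set.range q)) :
    ∃ h : MvPolynomial (Fin d) ℂ, h.IsHomogeneous N ∧
      ∀ a : Fin d → ℂ, (∀ i, eval a (q i) = r i) → a j ^ (N + 2) = eval a h := by
  rw [Finsupp.mem_ideal_span_range_iff_exists_finsupp] at hj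
  obtain ⟨c, hc⟩ := hj
  refine ⟨∑ i ∈ c.support, C (r i) * homogeneousComponent N (c i), ?_, ?_⟩
  · refine IsHomogeneous.sum _ _ _ fun i _ => ?_
    have h1 := (isHomogeneous_C (Fin d) (r i)).mul (homogeneousComponent_isHomogeneous N (c i))
    rwa [zero_add] at h1
  · intro a ha
    have h1 : homogeneousComponent (N + 2) ((X j : MvPolynomial (Fin d) ℂ) ^ (N + 2))
        = (X j : MvPolynomial (Fin d) ℂ) ^ (N + 2) := by
      refine homogeneousComponent_eq_self ?_
      have := (isHomogeneous_X ℂ j).pow (N + 2)
      rwa [one_mul] at this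
    have h2 : (X j : MvPolynomial (Fin d) ℂ) ^ (N + 2)
        = ∑ i ∈ c.support, homogeneousComponent N (c i) * q i := by
      rw [← h1, ← hc, Finsupp.sum, map_sum]
      exact Finset.sum_congr rfl fun i _ => hc_mul N (c i) (q i) (hq i)
    have h3 := congrArg (eval a) h2
    rw [map_pow, eval_X, map_sum] at h3
    rw [h3, map_sum]
    refine Finset.sum_congr rfl fun i _ => ?_
    rw [map_mul, map_mul, ha i, eval_C, mul_comm]

/-- the character of the monoid of exponents -/
private noncomputable def chi {d : ℕ} (a : Fin d → ℂ) : Multiplicative (Fin d → ℕ) →* ℂ where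
  toFun m := ∏ i, a i ^ (Multiplicative.toAdd m i)
  map_one' := by simp
  map_mul' m n := by simp [pow_add, Finset.prod_mul_distrib]

private lemma chi_apply {d : ℕ} (a : Fin d → ℂ) (m : Fin d → ℕ) :
    chi a (Multiplicative.ofAdd m) = ∏ i, a i ^ m i := rfl

private lemma chi_inj {d : ℕ} : Function.Injective (chi (d := d)) := by
  intro a b hab
  funext i
  have h := congrArg (fun f => f (Multiplicative.ofAdd (Pi.single i 1))) hab
  simp only [chi_apply] at h
  have e : ∀ x : Fin d → ℂ, ∏ k, x k ^ ((Pi.single i 1 : Fin d → ℕ) k) = x i := by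
    intro x
    rw [Finset.prod_eq_single i]
    · simp
    · intro k _ hk
      rw [Pi.single_eq_of_ne hk, pow_zero]
    · intro h; exact absurd (Finset.mem_univ i) h
  rwa [e, e] at h

theorem p_B1 : S_B1 := by
  intro d ι q r hq h0
  -- a common exponent
  have hN : ∃ N : ℕ, ∀ j : Fin d,
      (X j : MvPolynomial (Fin d) ℂ) ^ (N + 2) ∈ Ideal.span (Set.range q) := by
    have hX : ∀ j : Fin d, ∃ n : ℕ,
        (X j : MvPolynomial (Fin d) ℂ) ^ n ∈ Ideal.span (Set.range q) := by
      intro j
      have h1 : (X j : MvPolynomial (Fin d) ℂ) ∈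
          vanishingIdeal ℂ (zeroLocus ℂ (Ideal.span (Set.range q))) := by
        rw [mem_vanishingIdeal_iff]
        intro x hx
        rw [mem_zeroLocus_iff] at hx
        have h2 : x = 0 := by
          refine h0 x fun i => ?_
          have := hx (q i) (Ideal.subset_span ⟨i, rfl⟩)
          rwa [aeval_eq_eval] at this
        rw [h2]
        simp
      rw [vanishingIdeal_zeroLocus_eq_radical] at h1
      exact h1
    choose n hn using hX
    refine ⟨∑ j, n j, fun j => ?_⟩
    have h1 : n j ≤ ∑ j, n j := Finset.single_le_sum (fun _ _ => Nat.zero_le _) (Finset.mem_univ j)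
    have h2 : (X j : MvPolynomial (Fin d) ℂ) ^ (∑ j, n j + 2)
        = X j ^ (∑ j, n j + 2 - n j) * X j ^ n j := by
      rw [← pow_add]
      congr 1
      omega
    rw [h2]
    exact Ideal.mul_mem_left _ _ (hn j)
  obtain ⟨N, hN⟩ := hN
  choose h hh hred using fun j => red q r hq N j (hN j)
  set S : Set (Fin d → ℂ) := {a | ∀ i, eval a (q i) = r i} with hS
  have hli : LinearIndependent ℂ (fun a : S => (chi (a : Fin d → ℂ) : Multiplicative (Fin d → ℕ) → ℂ)) :=
    (linearIndependent_monoidHom (Multiplicative (Fin d → ℕ)) ℂ).comp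
      (fun a : S => chi (a : Fin d → ℂ)) (chi_inj.comp Subtype.val_injective)
  have key : LinearIndependent ℂ
      (fun (a : S) (t : Fin d → Fin (N + 2)) => ∏ i, (a : Fin d → ℂ) i ^ (t i : ℕ)) := by
    rw [linearIndependent_iff'] at hli ⊢
    intro s g hg
    refine hli s g ?_
    have claim : ∀ n : ℕ, ∀ m : Fin d → ℕ, ∑ i, m i = n →
        ∑ a ∈ s, g a * ∏ i, (a : Fin d → ℂ) i ^ m i = 0 := by
      intro n
      induction n using Nat.strong_induction_on with
      | _ n ih =>
        intro m hm
        by_cases hlt : ∀ i, m i < N + 2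
        · have h1 := congrFun hg (fun i => ⟨m i, hlt i⟩)
          simpa [Finset.sum_apply] using h1
        · push Not at hlt
          obtain ⟨j, hj⟩ := hlt
          set m' : Fin d → ℕ := Function.update m j (m j - (N + 2)) with hm'
          have hm'j : m' j = m j - (N + 2) := by simp [hm']
          have hm'k : ∀ k, k ≠ j → m' k = m k := by
            intro k hk; simp [hm', hk]
          have hsum : ∑ i, m' i + (N + 2) = n := by
            rw [← hm, ← Finset.add_sum_erase _ _ (Finset.mem_univ j),
              ← Finset.add_sum_erase Finset.univ m (Finset.mem_univ j), hm'j]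
            have : ∑ x ∈ Finset.univ.erase j, m' x = ∑ x ∈ Finset.univ.erase j, m x :=
              Finset.sum_congr rfl fun k hk => hm'k k (Finset.ne_of_mem_erase hk)
            rw [this]
            omega
          have hprod : ∀ x : Fin d → ℂ, ∏ i, x i ^ m i = x j ^ (N + 2) * ∏ i, x i ^ m' i := by
            intro x
            rw [← Finset.mul_prod_erase _ _ (Finset.mem_univ j),
              ← Finset.mul_prod_erase Finset.univ (fun i => x i ^ m' i) (Finset.mem_univ j), hm'j,
              ← mul_assoc, ← pow_add]
            congr 1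
            · congr 1; omega
            · exact Finset.prod_congr rfl fun k hk => by
                rw [hm'k k (Finset.ne_of_mem_erase hk)]
          have hterm : ∀ a : S, g a * ∏ i, (a : Fin d → ℂ) i ^ m i
              = ∑ k ∈ (h j).support, (h j).coeff k *
                (g a * ∏ i, (a : Fin d → ℂ) i ^ (k i + m' i)) := by
            intro a
            rw [hprod, hred j a a.2, eval_eq', Finset.sum_mul, Finset.mul_sum]
            refine Finset.sum_congr rfl fun k _ => ?_
            simp only [pow_add, Finset.prod_mul_distrib]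
            ring
          simp only [hterm]
          rw [Finset.sum_comm]
          refine Finset.sum_eq_zero fun k hk => ?_
          rw [← Finset.mul_sum]
          have hkdeg : ∑ i, k i = N := by
            have h1 := (hh j) (mem_support_iff.mp hk)
            rw [← h1, Finsupp.weight_apply, Finsupp.sum_fintype _ _ (fun i => by simp)]
            simp
          have h2 : ∑ i, (k i + m' i) = n - 2 := by
            rw [Finset.sum_add_distrib, hkdeg]
            omega
          rw [ih (n - 2) (by omega) (fun i => k i + m' i) h2, mul_zero]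
    funext m
    have := claim _ (Multiplicative.toAdd m) rfl
    rw [Finset.sum_apply]
    simpa [chi] using this
  have := key.finite
  exact Set.toFinite S

end Pool.Agent.HH
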