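import Pool.Agent.Lib.MP_7dc3d9_gt.ThA.Stm

set_option autoImplicit false

/-!
# MP_7dc3d9_gt, theorem B: piece BFIN
-/

namespace Pool.Agent.HH

open Complex Set Topology

private theorem bf_at {f : E3 → ℝ} (hf : IsSupp f) {u : E3} (hu : u ≠ 0) : ContDiffAt ℝ 2 f u :=
  hf.smooth.contDiffAt (isOpen_ne.mem_nhds hu)

private theorem bf_d {f : E3 → ℝ} (hf : IsSupp f) {u : E3} (hu : u ≠ 0) :
    DifferentiableAt ℝ f u :=
  (bf_at hf hu).differentiableAt (by norm_num)

private theorem bf_dd {f : E3 → ℝ} (hf : IsSupp f) {u : E3} (hu : u ≠ 0) :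
    DifferentiableAt ℝ (fderiv ℝ f) u :=
  ((bf_at hf hu).fderiv_right (m := 1) (by norm_num)).differentiableAt (by norm_num)

private theorem bf_add {f g : E3 → ℝ} (hf : IsSupp f) (hg : IsSupp g) {u : E3} (hu : u ≠ 0) :
    fderiv ℝ (fderiv ℝ (f + g)) u = fderiv ℝ (fderiv ℝ f) u + fderiv ℝ (fderiv ℝ g) u := by
  have h : fderiv ℝ (f + g) =ᶠ[𝓝 u] fderiv ℝ f + fderiv ℝ g := by
    filter_upwards [isOpen_ne.mem_nhds hu] with x hx
    exact fderiv_add (bf_d hf hx) (bf_d hg hx)
  rw [h.fderiv_eq]
  exact fderiv_add (bf_dd hf hu) (bf_dd hg hu)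

private theorem bf_smul {f : E3 → ℝ} (c : ℝ) (hf : IsSupp f) {u : E3} (hu : u ≠ 0) :
    fderiv ℝ (fderiv ℝ (c • f)) u = c • fderiv ℝ (fderiv ℝ f) u := by
  have h : fderiv ℝ (c • f) =ᶠ[𝓝 u] c • fderiv ℝ f := by
    filter_upwards [isOpen_ne.mem_nhds hu] with x hx
    exact fderiv_const_smul (bf_d hf hx) c
  rw [h.fderiv_eq]
  exact fderiv_const_smul (bf_dd hf hu) c

/-- the space of the support functions -/
private def bfS : Submodule ℝ (E3 → ℝ) where
  carrier := {f | IsSupp f}
  zero_mem' := ⟨fun x c _ => by simp, contDiffOn_const⟩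
  add_mem' := fun {f g} hf hg => ⟨fun x c hc => by
    simp only [Pi.add_apply]; rw [hf.hom x c hc, hg.hom x c hc]; ring,
    hf.smooth.add hg.smooth⟩
  smul_mem' := fun c f hf => ⟨fun x r hr => by
    simp only [Pi.smul_apply, smul_eq_mul]; rw [hf.hom x r hr]; ring,
    contDiffOn_const.smul hf.smooth⟩

private theorem bfS_mem {f : E3 → ℝ} : f ∈ bfS ↔ IsSupp f := Iff.rfl

/-- the second derivative as a linear map -/
private noncomputable def bfH (u : E3) (hu : u ≠ 0) (i j : Fin 3) : bfS →ₗ[ℝ] ℝ where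
  toFun f := hessEntry f.1 u i j
  map_add' f g := by
    show hessEntry (f.1 + g.1) u i j = _
    unfold hessEntry
    rw [bf_add f.2 g.2 hu]
    rfl
  map_smul' c f := by
    show hessEntry (c • f.1) u i j = c • hessEntry f.1 u i j
    unfold hessEntry
    rw [bf_smul c f.2 hu]
    rfl

/-- `hat` as a linear map -/
private noncomputable def bfHat : (E3 → ℝ) →ₗ[ℝ] (E3 → ℝ) where
  toFun := hat
  map_add' f g := by
    funext x
    simp only [hat, Pi.add_apply, Fin.sum_univ_three]
    ring
  map_smul' c f := by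
    funext x
    simp only [hat, Pi.smul_apply, smul_eq_mul, Fin.sum_univ_three, RingHom.id_apply]
    ring

private theorem bf_lin {f : E3 → ℝ} (L : E3 →L[ℝ] ℝ) (h : ∀ x, f x = L x) (u : E3) (i j : Fin 3) :
    hessEntry f u i j = 0 := by
  have h1 : f = fun x => L x := funext h
  have h2 : fderiv ℝ f = fun _ => L := by
    funext x
    rw [h1]
    exact L.fderiv
  unfold hessEntry
  have h3 : fderiv ℝ (fun _ : E3 => L) u = 0 := fderiv_const_apply L
  rw [h2, h3]
  rfl

private theorem bf_hat0 {f : E3 → ℝ} (h : hat f = 0) (u : E3) (i j : Fin 3) :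
    hessEntry f u i j = 0 := by
  let L : E3 →L[ℝ] ℝ := ∑ k : Fin 3, (f (ev k)) • (EuclideanSpace.proj (𝕜 := ℝ) k)
  refine bf_lin L (fun x => ?_) u i j
  have h1 : hat f x = 0 := by rw [h]; rfl
  unfold hat at h1
  have h2 : L x = ∑ k : Fin 3, x k * f (ev k) := by
    simp only [L, sum_apply, smul_apply, smul_eq_mul]
    refine Finset.sum_congr rfl fun k _ => ?_
    rw [mul_comm]
    rfl
  rw [h2]
  linarith

private theorem bf_inner (a : E3) : hat (fun x => inner ℝ a x) = 0 := by
  funext x
  simp [hat, ev, PiLp.inner_apply, Fin.sum_univ_three]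

theorem p_BFIN (h1 : S_THA) (h2 : S_B1) : S_BFIN := by
  intro N b R hb
  let W : Submodule ℝ (E3 → ℝ) := Submodule.span ℝ (Set.range b)
  have hWS : W ≤ bfS := by
    rw [Submodule.span_le]
    rintro _ ⟨i, rfl⟩
    exact hb i
  have : FiniteDimensional ℝ W := FiniteDimensional.span_of_finite ℝ (Set.finite_range b)
  let P : W →ₗ[ℝ] (E3 → ℝ) := bfHat.domRestrict W
  let d := Module.finrank ℝ (LinearMap.range P)
  let v : Module.Basis (Fin d) ℝ (LinearMap.range P) := Module.finBasis ℝ _
  have hlift : ∀ k, ∃ f : W, P f = (v k : E3 → ℝ) := fun k => (v k).2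
  choose f hf using hlift
  let fs : Fin d → bfS := fun k => ⟨(f k).1, hWS (f k).2⟩
  -- values of the Hessian of combinations
  have hcomb : ∀ (u : E3) (hu : u ≠ 0) (i j : Fin 3) (c : Fin d → ℝ),
      hessEntry (∑ k, c k • (f k).1) u i j = ∑ k, c k * hessEntry (f k).1 u i j := by
    intro u hu i j c
    have h3 := map_sum (bfH u hu i j) (fun k => c k • fs k) Finset.univ
    have h4 : ((∑ k, c k • fs k : bfS) : E3 → ℝ) = ∑ k, c k • (f k).1 := by
      rw [Submodule.coe_sum]
      rfl
    have h5 : bfH u hu i j (∑ k, c k • fs k) = hessEntry (∑ k, c k • (f k).1) u i j := by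
      rw [← h4]
      rfl
    rw [← h5, h3]
    refine Finset.sum_congr rfl fun k _ => ?_
    rw [map_smul]
    rfl
  -- the quadratic polynomials
  let ell : E3 → Fin 3 → Fin 3 → MvPolynomial (Fin d) ℂ := fun u i j =>
    ∑ k, MvPolynomial.C ((hessEntry (f k).1 u i j : ℝ) : ℂ) * MvPolynomial.X k
  have hell : ∀ u i j, (ell u i j).IsHomogeneous 1 := fun u i j =>
    MvPolynomial.IsHomogeneous.sum _ _ _ fun k _ => MvPolynomial.isHomogeneous_C_mul_X _ _
  let q : Metric.sphere (0 : E3) 1 → MvPolynomial (Fin d) ℂ := fun u =>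
    (ell u 0 0 * ell u 1 1 - ell u 0 1 * ell u 1 0) + (ell u 0 0 * ell u 2 2 - ell u 0 2 * ell u 2 0)
      + (ell u 1 1 * ell u 2 2 - ell u 1 2 * ell u 2 1)
  have hq : ∀ u, (q u).IsHomogeneous 2 := fun u => by
    have h3 : ∀ i j k l, (ell u i j * ell u k l).IsHomogeneous 2 := fun i j k l =>
      (hell u i j).mul (hell u k l)
    exact (((h3 _ _ _ _).sub (h3 _ _ _ _)).add ((h3 _ _ _ _).sub (h3 _ _ _ _))).add
      ((h3 _ _ _ _).sub (h3 _ _ _ _))
  have hev : ∀ (a : Fin d → ℂ) u i j, MvPolynomial.eval a (ell u i j)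
      = ∑ k, ((hessEntry (f k).1 u i j : ℝ) : ℂ) * a k := by
    intro a u i j
    simp only [ell, map_sum, map_mul, MvPolynomial.eval_C, MvPolynomial.eval_X]
  have hne : ∀ u : Metric.sphere (0 : E3) 1, (u : E3) ≠ 0 := by
    intro u h
    have := u.2
    rw [mem_sphere_zero_iff_norm, h, norm_zero] at this
    exact zero_ne_one this
  have hsupp : ∀ c : Fin d → ℝ, IsSupp (∑ k, c k • (f k).1) := by
    intro c
    exact bfS.sum_mem fun k _ => bfS.smul_mem _ (hWS (f k).2)
  -- real points
  have hreal : ∀ (c : Fin d → ℝ) (u : Metric.sphere (0 : E3) 1),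
      MvPolynomial.eval (fun k => (c k : ℂ)) (q u)
        = ((curvatureFunction (∑ k, c k • (f k).1) u : ℝ) : ℂ) := by
    intro c u
    have h3 : ∀ i j, MvPolynomial.eval (fun k => (c k : ℂ)) (ell u i j)
        = ((hessEntry (∑ k, c k • (f k).1) u i j : ℝ) : ℂ) := by
      intro i j
      rw [hev, hcomb u (hne u)]
      push_cast
      exact Finset.sum_congr rfl fun k _ => mul_comm _ _
    simp only [q, map_add, map_sub, map_mul, h3, curvatureFunction]
    push_cast
    ring
  -- the only common zero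
  have hzero : ∀ a : Fin d → ℂ, (∀ u, MvPolynomial.eval a (q u) = 0) → a = 0 := by
    intro a ha
    set F : E3 → ℝ := ∑ k, (a k).re • (f k).1 with hF
    set G : E3 → ℝ := ∑ k, (a k).im • (f k).1 with hG
    have hFG : F + G = ∑ k, ((a k).re + (a k).im) • (f k).1 := by
      rw [hF, hG, ← Finset.sum_add_distrib]
      exact Finset.sum_congr rfl fun k _ => (add_smul _ _ _).symm
    have h3 : ∀ (u : Metric.sphere (0 : E3) 1) i j, MvPolynomial.eval a (ell u i j)
        = ⟨hessEntry F u i j, hessEntry G u i j⟩ := by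
      intro u i j
      rw [hev]
      apply Complex.ext
      · rw [Complex.re_sum, hF]
        refine Eq.trans ?_ (hcomb u (hne u) i j fun k => (a k).re).symm
        refine Finset.sum_congr rfl fun k _ => ?_
        simp [mul_comm]
      · rw [Complex.im_sum, hG]
        refine Eq.trans ?_ (hcomb u (hne u) i j fun k => (a k).im).symm
        refine Finset.sum_congr rfl fun k _ => ?_
        simp [mul_comm]
    have h4 : ∀ (u : Metric.sphere (0 : E3) 1) i j,
        hessEntry (F + G) u i j = hessEntry F u i j + hessEntry G u i j := by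
      intro u i j
      rw [hFG, hF, hG, hcomb u (hne u), hcomb u (hne u), hcomb u (hne u),
        ← Finset.sum_add_distrib]
      exact Finset.sum_congr rfl fun k _ => by ring
    have h5 : ∀ u : Metric.sphere (0 : E3) 1,
        curvatureFunction F u = curvatureFunction G u ∧
        curvatureFunction (F + G) u = curvatureFunction F u + curvatureFunction G u := by
      intro u
      have h6 := ha u
      simp only [q, map_add, map_sub, map_mul, h3] at h6
      have hre := congrArg Complex.re h6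
      have him := congrArg Complex.im h6
      simp only [Complex.add_re, Complex.sub_re, Complex.mul_re, Complex.zero_re, Complex.add_im,
        Complex.sub_im, Complex.mul_im, Complex.zero_im] at hre him
      constructor
      · simp only [curvatureFunction]
        linarith
      · simp only [curvatureFunction, h4]
        linarith
    obtain ⟨⟨a1, ha1⟩, ⟨a2, ha2⟩⟩ := h1 F G (hsupp _) (hsupp _)
      (fun u hu => (h5 ⟨u, hu⟩).1) (fun u hu => (h5 ⟨u, hu⟩).2)
    have h7 : ∀ (c : Fin d → ℝ) (e : E3), (∀ x, (∑ k, c k • (f k).1 : E3 → ℝ) x = inner ℝ e x) →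
        c = 0 := by
      intro c e he
      have h8 : bfHat (∑ k, c k • (f k).1 : E3 → ℝ) = 0 := by
        have h9 : (∑ k, c k • (f k).1 : E3 → ℝ) = fun x => inner ℝ e x := funext he
        rw [h9]
        exact bf_inner e
      rw [map_sum] at h8
      have h10 : ∑ k, c k • v k = 0 := by
        apply Subtype.ext
        rw [Submodule.coe_sum, Submodule.coe_zero, ← h8]
        refine Finset.sum_congr rfl fun k _ => ?_
        rw [Submodule.coe_smul, ← hf k, map_smul]
        rfl
      funext k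
      exact (Fintype.linearIndependent_iff.1 v.linearIndependent) c h10 k
    have hr := h7 _ a1 ha1
    have hi := h7 _ a2 ha2
    funext k
    exact Complex.ext (congrFun hr k) (congrFun hi k)
  have hfin := h2 d (Metric.sphere (0 : E3) 1) q (fun u => ((R u : ℝ) : ℂ)) hq hzero
  let emb : (Fin d → ℝ) → (Fin d → ℂ) := fun c k => (c k : ℂ)
  have hinj : Function.Injective emb := by
    intro c c' h
    funext k
    exact Complex.ofReal_injective (congrFun h k)
  have hfin2 : Set.Finite {c : Fin d → ℝ | ∀ u : Metric.sphere (0 : E3) 1,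
      MvPolynomial.eval (emb c) (q u) = ((R u : ℝ) : ℂ)} := hfin.preimage hinj.injOn
  refine (hfin2.image fun c => ∑ k, c k • (v k : E3 → ℝ)).subset ?_
  rintro h ⟨a, rfl, ha⟩
  have hFW : (fun x => ∑ i, a i * b i x) ∈ W := by
    have h3 : (fun x => ∑ i, a i * b i x) = ∑ i, a i • b i := by
      funext x
      simp [Finset.sum_apply]
    rw [h3]
    exact W.sum_mem fun i _ => W.smul_mem _ (Submodule.subset_span ⟨i, rfl⟩)
  set F : W := ⟨fun x => ∑ i, a i * b i x, hFW⟩ with hFdef
  let y : LinearMap.range P := ⟨P F, ⟨F, rfl⟩⟩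
  let c : Fin d → ℝ := fun k => v.repr y k
  have hc : ∑ k, c k • (v k : E3 → ℝ) = hat (fun x => ∑ i, a i * b i x) := by
    have h3 := v.sum_repr y
    have h4 := congrArg (Subtype.val) h3
    rw [Submodule.coe_sum] at h4
    exact h4
  refine ⟨c, ?_, hc⟩
  intro u
  rw [hreal c u, ← ha u.1 u.2]
  congr 1
  have h5 : hat ((fun x => ∑ i, a i * b i x) - ∑ k, c k • (f k).1) = 0 := by
    show bfHat _ = 0
    rw [map_sub, sub_eq_zero, map_sum]
    show hat (fun x => ∑ i, a i * b i x) = _
    rw [← hc]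
    refine Finset.sum_congr rfl fun k _ => ?_
    rw [map_smul, ← hf k]
    rfl
  have h6 : ∀ i j, hessEntry (fun x => ∑ i, a i * b i x) u i j
      = hessEntry (∑ k, c k • (f k).1) u i j := by
    intro i j
    have h7 := (bfH u (hne u) i j).map_sub ⟨(fun x => ∑ i, a i * b i x), hWS hFW⟩
      ⟨∑ k, c k • (f k).1, hsupp c⟩
    have h8 : bfH u (hne u) i j (⟨(fun x => ∑ i, a i * b i x), hWS hFW⟩
      - ⟨∑ k, c k • (f k).1, hsupp c⟩) = 0 := bf_hat0 h5 u i j
    rw [h8] at h7
    exact (sub_eq_zero.1 h7.symm)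
  simp only [curvatureFunction, h6]

end Pool.Agent.HH
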