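import Pool.Agent.Lib.MP_7dc3d9_gt.ThA.Stm

set_option autoImplicit false

namespace Pool.Agent.HH

open Complex Set MeasureTheory Topology

private theorem thb_const (φ : ℝ → ℝ) (hc : ContinuousOn φ (Icc 0 1))
    (hcnt : (φ '' Icc (0 : ℝ) 1).Countable) : ∀ t ∈ Icc (0 : ℝ) 1, φ t = φ 0 := by
  intro t ht
  have hpre : IsPreconnected (φ '' Icc (0 : ℝ) 1) := isPreconnected_Icc.image φ hc
  have hsub : (φ '' Icc (0 : ℝ) 1).Subsingleton := by
    by_contra hns
    rw [Set.not_subsingleton_iff] at hns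
    obtain ⟨x, hx, y, hy, hxy⟩ := hns
    wlog hlt : x < y generalizing x y
    · exact this y hy x hx hxy.symm (lt_of_le_of_ne (not_lt.mp hlt) hxy.symm)
    have hI : Icc x y ⊆ φ '' Icc (0 : ℝ) 1 := hpre.ordConnected.out hx hy
    have := (Cardinal.Real.Icc_countable_iff (x := x) (y := y)).mp (hcnt.mono hI)
    exact absurd this (not_le.mpr hlt)
  exact hsub (mem_image_of_mem φ ht) (mem_image_of_mem φ ⟨le_refl 0, zero_le_one⟩)

/-- an element of the span of a sequence is a combination of an initial segment -/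
private theorem thb_span (b : ℕ → E3 → ℝ) (F : E3 → ℝ) (hF : F ∈ Submodule.span ℝ (Set.range b)) :
    ∃ (N : ℕ) (a : Fin N → ℝ), F = fun x => ∑ i : Fin N, a i * b i x := by
  obtain ⟨c, hc⟩ := (Finsupp.mem_span_range_iff_exists_finsupp).mp hF
  refine ⟨c.support.sup id + 1, fun i => c i, ?_⟩
  funext x
  have h1 : F x = c.sum fun i r => r * b i x := by
    rw [← hc, Finsupp.sum, Finset.sum_apply, Finsupp.sum]
    exact Finset.sum_congr rfl fun i _ => by simp
  rw [h1, Finsupp.sum, Fin.sum_univ_eq_sum_range (fun i => c i * b i x)]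
  refine Finset.sum_subset ?_ ?_
  · intro i hi
    rw [Finset.mem_range, Nat.lt_succ_iff]
    exact Finset.le_sup (f := id) hi
  · intro i _ hi
    rw [Finsupp.notMem_support_iff.mp hi, zero_mul]

theorem p_THB (h1 : S_BFIN) : S_THB := by
  intro b H hb hspan hcont hcurv
  have hcnt : (Set.range fun t : Icc (0 : ℝ) 1 => hat (H t)).Countable := by
    have h2 : (⋃ N : ℕ, {h : E3 → ℝ | ∃ a : Fin N → ℝ, h = hat (fun x => ∑ i, a i * b i x) ∧
        ∀ u ∈ Metric.sphere (0 : E3) 1,
          curvatureFunction (fun x => ∑ i, a i * b i x) u = curvatureFunction (H 0) u}).Countable :=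
      Set.countable_iUnion fun N => (h1 N (fun i => b i) (curvatureFunction (H 0))
        (fun i => hb i)).countable
    refine h2.mono ?_
    rintro _ ⟨⟨t, ht⟩, rfl⟩
    obtain ⟨N, a, ha⟩ := thb_span b (H t) (hspan t ht)
    refine Set.mem_iUnion.mpr ⟨N, a, ?_, ?_⟩
    · simp only
      rw [ha]
    · intro u hu
      rw [← ha]
      exact hcurv t ht u hu
  have hhat : ∀ t ∈ Icc (0 : ℝ) 1, hat (H t) = hat (H 0) := by
    intro t ht
    funext x
    refine thb_const (fun t => hat (H t) x) ?_ ?_ t ht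
    · simp only [hat]
      refine (hcont x).sub ?_
      refine continuousOn_finsetSum _ fun i _ => ?_
      exact continuousOn_const.mul (hcont _)
    · refine (hcnt.image (fun h => h x)).mono ?_
      rintro _ ⟨t, ht, rfl⟩
      exact ⟨hat (H t), ⟨⟨t, ht⟩, rfl⟩, rfl⟩
  intro t ht
  refine ⟨WithLp.toLp 2 fun i => H t (ev i) - H 0 (ev i), fun x => ?_⟩
  have h3 := congrFun (hhat t ht) x
  simp only [hat] at h3
  have h4 : inner ℝ (WithLp.toLp 2 fun i => H t (ev i) - H 0 (ev i) : E3) x
      = ∑ i : Fin 3, x i * (H t (ev i) - H 0 (ev i)) := by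
    simp [PiLp.inner_apply]
  rw [h4]
  simp only [mul_sub, Finset.sum_sub_distrib]
  linarith

end Pool.Agent.HH
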