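import Pool.Agent.Lib.MP_7dc3d9_gt.ThA.AllA
import Pool.Agent.Lib.MP_7dc3d9_gt.ThA.P_B1
import Pool.Agent.Lib.MP_7dc3d9_gt.ThA.P_BFIN
import Pool.Agent.Lib.MP_7dc3d9_gt.ThA.P_THB

set_option autoImplicit false

/-! Assembly of Theorem B. -/

namespace Pool.Agent.HH

theorem all_BFIN : S_BFIN := p_BFIN all_THA p_B1
theorem all_THB : S_THB := p_THB all_BFIN

end Pool.Agent.HH
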