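import Pool.Agent.Lib.MP_7dc3d9_gt.ThA.AllB

set_option autoImplicit false

/-! Final form of Theorem B. -/

namespace Pool.Agent.HH

open Set

/-- `f` minus `hat f` is linear. -/
private theorem sub_hat (f : E3 → ℝ) : ∃ a : E3, ∀ x, f x = hat f x + inner ℝ a x := by
  refine ⟨WithLp.toLp 2 fun i => f (ev i), fun x => ?_⟩
  have h4 : inner ℝ (WithLp.toLp 2 fun i => f (ev i) : E3) x = ∑ i : Fin 3, x i * f (ev i) := by
    simp [PiLp.inner_apply]
  rw [h4]; simp only [hat]; ring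

private theorem span_comb {ι : Type} (b : ι → E3 → ℝ) [Fintype ι] (F : E3 → ℝ)
    (hF : F ∈ Submodule.span ℝ (Set.range b)) : ∃ a : ι → ℝ, F = fun x => ∑ i, a i * b i x := by
  obtain ⟨c, hc⟩ := (Submodule.mem_span_range_iff_exists_fun ℝ).mp hF
  refine ⟨c, ?_⟩
  funext x
  rw [← hc, Finset.sum_apply]
  exact Finset.sum_congr rfl fun i _ => by simp

private theorem span_seq (b : ℕ → E3 → ℝ) (F : E3 → ℝ) (hF : F ∈ Submodule.span ℝ (Set.range b)) :
    ∃ (N : ℕ) (a : Fin N → ℝ), F = fun x => ∑ i : Fin N, a i * b i x := by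
  obtain ⟨c, hc⟩ := (Finsupp.mem_span_range_iff_exists_finsupp).mp hF
  refine ⟨c.support.sup id + 1, fun i => c i, ?_⟩
  funext x
  have h1 : F x = c.sum fun i r => r * b i x := by
    rw [← hc, Finsupp.sum, Finset.sum_apply, Finsupp.sum]
    exact Finset.sum_congr rfl fun i _ => by simp
  rw [h1, Finsupp.sum, Fin.sum_univ_eq_sum_range (fun i => c i * b i x)]
  refine Finset.sum_subset ?_ ?_
  · intro i hi
    rw [Finset.mem_range, Nat.lt_succ_iff]
    exact Finset.le_sup (f := id) hi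
  · intro i _ hi
    rw [Finsupp.notMem_support_iff.mp hi, zero_mul]

theorem finite_classes (N : ℕ) (b : Fin N → E3 → ℝ) (R : E3 → ℝ) (hb : ∀ i, IsSupp (b i)) :
    ∃ S : Set (E3 → ℝ), S.Finite ∧ ∀ h ∈ Submodule.span ℝ (Set.range b),
      (∀ u ∈ Metric.sphere (0 : E3) 1, curvatureFunction h u = R u) →
      ∃ s ∈ S, ∃ a : E3, ∀ x, h x = s x + inner ℝ a x := by
  refine ⟨_, all_BFIN N b R hb, fun h hh hR => ?_⟩
  obtain ⟨a, ha⟩ := span_comb b h hh
  obtain ⟨v, hv⟩ := sub_hat h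
  refine ⟨hat h, ⟨a, by rw [← ha], ?_⟩, v, hv⟩
  rw [← ha]; exact hR

theorem countable_classes (b : ℕ → E3 → ℝ) (R : E3 → ℝ) (hb : ∀ i, IsSupp (b i)) :
    ∃ S : Set (E3 → ℝ), S.Countable ∧ ∀ h ∈ Submodule.span ℝ (Set.range b),
      (∀ u ∈ Metric.sphere (0 : E3) 1, curvatureFunction h u = R u) →
      ∃ s ∈ S, ∃ a : E3, ∀ x, h x = s x + inner ℝ a x := by
  refine ⟨⋃ N : ℕ, {h : E3 → ℝ | ∃ a : Fin N → ℝ, h = hat (fun x => ∑ i, a i * b i x) ∧
        ∀ u ∈ Metric.sphere (0 : E3) 1,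
          curvatureFunction (fun x => ∑ i, a i * b i x) u = R u},
    Set.countable_iUnion fun N => (all_BFIN N (fun i => b i) R (fun i => hb i)).countable,
    fun h hh hR => ?_⟩
  obtain ⟨N, a, ha⟩ := span_seq b h hh
  obtain ⟨v, hv⟩ := sub_hat h
  refine ⟨hat h, Set.mem_iUnion.mpr ⟨N, a, by rw [← ha], ?_⟩, v, hv⟩
  rw [← ha]; exact hR

/-- elements of the span of support functions are differentiable off the origin -/
private theorem diff_span {ι : Type} (b : ι → E3 → ℝ) (hb : ∀ i, IsSupp (b i)) (F : E3 → ℝ)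
    (hF : F ∈ Submodule.span ℝ (Set.range b)) {u : E3} (hu : u ≠ 0) : DifferentiableAt ℝ F u := by
  induction hF using Submodule.span_induction with
  | mem f hf =>
    obtain ⟨i, rfl⟩ := hf
    have hO : IsOpen {x : E3 | x ≠ 0} := isOpen_ne
    exact ((hb i).smooth.contDiffAt (hO.mem_nhds hu)).differentiableAt (by norm_num)
  | zero => exact differentiableAt_const 0
  | add f g _ _ hf hg => exact hf.add hg
  | smul c f _ hf => exact hf.const_smul c

private theorem grad_add_lin (g : E3 → ℝ) (a u : E3) (hg : DifferentiableAt ℝ g u) :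
    gradient (fun x => g x + inner ℝ a x) u = gradient g u + a := by
  have h1 : HasFDerivAt (fun x => g x + inner ℝ a x) (fderiv ℝ g u + innerSL ℝ a) u :=
    hg.hasFDerivAt.fun_add (innerSL ℝ a).hasFDerivAt
  simp only [gradient]
  rw [h1.fderiv, map_add]
  congr 1
  exact (InnerProductSpace.toDual ℝ E3).symm_apply_apply a

theorem families (b : ℕ → E3 → ℝ) (H : ℝ → E3 → ℝ) (hb : ∀ n, IsSupp (b n))
    (hs : ∀ t ∈ Icc (0 : ℝ) 1, H t ∈ Submodule.span ℝ (Set.range b))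
    (hc : ∀ x, ContinuousOn (fun t => H t x) (Icc 0 1))
    (hR : ∀ t ∈ Icc (0 : ℝ) 1, ∀ u ∈ Metric.sphere (0 : E3) 1,
      curvatureFunction (H t) u = curvatureFunction (H 0) u) :
    ∀ t ∈ Icc (0 : ℝ) 1, (∃ a : E3, ∀ x, H t x = H 0 x + inner ℝ a x) ∧
      ∃ Φ : E3 ≃ᵢ E3, Φ '' hedgehog (H 0) = hedgehog (H t) := by
  intro t ht
  obtain ⟨a, ha⟩ := all_THB b H hb hs hc hR t ht
  refine ⟨⟨a, ha⟩, IsometryEquiv.addRight a, ?_⟩
  have hgrad : ∀ u ∈ Metric.sphere (0 : E3) 1, gradient (H t) u = gradient (H 0) u + a := by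
    intro u hu
    have hu0 : u ≠ 0 := by
      intro h; rw [h] at hu; simp at hu
    have e : H t = fun x => H 0 x + inner ℝ a x := funext ha
    rw [e]
    exact grad_add_lin (H 0) a u (diff_span b hb (H 0) (hs 0 ⟨le_refl 0, zero_le_one⟩) hu0)
  simp only [hedgehog]
  rw [Set.image_image]
  exact Set.image_congr fun u hu => by rw [hgrad u hu]; rfl

end Pool.Agent.HH
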