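import Pool.Agent.Lib.MP_7dc3d9_gt.ThA.Stm

set_option autoImplicit false

/-! Piece L2: `∫ dΘ ∧ dG = 0`. -/

namespace Pool.Agent.HH

open Complex Set MeasureTheory Topology Filter

private lemma cont_fd {F : ℝ × ℝ → ℂ} (hF : ContDiff ℝ 1 F) (v : ℝ × ℝ) :
    Continuous (fun p => fderiv ℝ F p v) :=
  (hF.continuous_fderiv one_ne_zero).clm_apply continuous_const

private lemma ibp {f g : ℝ × ℝ → ℂ} (hf : ContDiff ℝ 1 f) (hg : ContDiff ℝ 1 g)
    (hgc : HasCompactSupport g) (v : ℝ × ℝ) :
    ∫ p, f p * fderiv ℝ g p v = - ∫ p, fderiv ℝ f p v * g p := by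
  apply integral_mul_fderiv_eq_neg_fderiv_mul_of_integrable
  · exact ((cont_fd hf v).mul hg.continuous).integrable_of_hasCompactSupport hgc.mul_left
  · exact (hf.continuous.mul (cont_fd hg v)).integrable_of_hasCompactSupport
      (hgc.fderiv_apply ℝ v).mul_left
  · exact (hf.continuous.mul hg.continuous).integrable_of_hasCompactSupport hgc.mul_left
  · intro x _; exact (hf.differentiable one_ne_zero) x
  · intro x _; exact (hg.differentiable one_ne_zero) x

/-- difference quotients: `∫ (Θ(p + v/c) - Θ p) * ∂_w G = ∫ ∂_w Θ * (G p - G (p - v/c))` -/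
private lemma dq {Θ G : ℝ × ℝ → ℂ} (hΘ : ContDiff ℝ 1 Θ)
    (hG : ContDiff ℝ 1 G) (hGc : HasCompactSupport G) (a w : ℝ × ℝ) :
    ∫ p, (Θ (p + a) - Θ p) * fderiv ℝ G p w = - ∫ p, fderiv ℝ Θ p w * (G (p - a) - G p) := by
  have hΘa : ContDiff ℝ 1 (fun p => Θ (p + a)) := hΘ.comp (contDiff_id.add contDiff_const)
  have h1 : ContDiff ℝ 1 (fun p => Θ (p + a) - Θ p) := hΘa.sub hΘ
  rw [ibp h1 hG hGc w]
  have hfd : ∀ p, fderiv ℝ (fun p => Θ (p + a) - Θ p) p w
      = fderiv ℝ Θ (p + a) w - fderiv ℝ Θ p w := by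
    intro p
    have e1 : fderiv ℝ (fun p => Θ (p + a) - Θ p) p
        = fderiv ℝ (fun p => Θ (p + a)) p - fderiv ℝ Θ p := by
      apply fderiv_fun_sub
      · exact (hΘa.differentiable one_ne_zero) p
      · exact (hΘ.differentiable one_ne_zero) p
    rw [e1, fderiv_comp_add_right]
    rfl
  simp_rw [hfd]
  have hGa : ContDiff ℝ 1 (fun p => G (p - a)) := hG.comp (contDiff_id.sub contDiff_const)
  have hGac : HasCompactSupport (fun p => G (p - a)) := by
    have := hGc.comp_homeomorph (Homeomorph.addRight (-a))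
    have e : (G ∘ (Homeomorph.addRight (-a) : ℝ × ℝ ≃ₜ ℝ × ℝ)) = fun p => G (p - a) := by
      funext p; simp [sub_eq_add_neg]
    rwa [e] at this
  have hshift : ∫ p, fderiv ℝ Θ (p + a) w * G p = ∫ p, fderiv ℝ Θ p w * G (p - a) := by
    have := integral_add_right_eq_self (μ := (volume : Measure (ℝ × ℝ)))
      (fun p => fderiv ℝ Θ p w * G (p - a)) a
    rw [← this]
    simp
  have hcs : Continuous (fun p : ℝ × ℝ => fderiv ℝ Θ (p + a) w) :=
    (cont_fd hΘ w).comp (continuous_id.add continuous_const)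
  have i1 : Integrable (fun p => fderiv ℝ Θ (p + a) w * G p) :=
    (hcs.mul hG.continuous).integrable_of_hasCompactSupport hGc.mul_left
  have i2 : Integrable (fun p => fderiv ℝ Θ p w * G p) :=
    ((cont_fd hΘ w).mul hG.continuous).integrable_of_hasCompactSupport hGc.mul_left
  have i3 : Integrable (fun p => fderiv ℝ Θ p w * G (p - a)) :=
    ((cont_fd hΘ w).mul hGa.continuous).integrable_of_hasCompactSupport hGac.mul_left
  congr 1
  simp_rw [sub_mul, mul_sub]
  rw [integral_sub i1 i2, integral_sub i3 i2, hshift]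

private lemma cc {Θ G : ℝ × ℝ → ℂ} (hΘ : ContDiff ℝ 1 Θ) (hΘc : HasCompactSupport Θ)
    (hG : ContDiff ℝ 1 G) (hGc : HasCompactSupport G) (v w : ℝ × ℝ) :
    ∫ p, fderiv ℝ Θ p v * fderiv ℝ G p w = ∫ p, fderiv ℝ Θ p w * fderiv ℝ G p v := by
  obtain ⟨K1, hK1⟩ := hΘ.lipschitzWith_of_hasCompactSupport hΘc one_ne_zero
  obtain ⟨K2, hK2⟩ := hG.lipschitzWith_of_hasCompactSupport hGc one_ne_zero
  let c : ℕ → ℝ := fun n => (n : ℝ) + 1
  have hcpos : ∀ n, 0 < c n := fun n => by positivity
  have hc : Tendsto (fun n => ‖c n‖) atTop atTop := by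
    have : (fun n => ‖c n‖) = fun n : ℕ => (n : ℝ) + 1 := by
      funext n
      simp only [c]
      rw [Real.norm_of_nonneg (by positivity)]
    rw [this]
    exact tendsto_atTop_add_const_right _ _ tendsto_natCast_atTop_atTop
  have hlip : ∀ (F : ℝ × ℝ → ℂ) (K : NNReal), LipschitzWith K F → ∀ (n : ℕ) (u p : ℝ × ℝ),
      ‖c n • (F (p + (c n)⁻¹ • u) - F p)‖ ≤ K * ‖u‖ := by
    intro F K hK n u p
    have h1 : ‖F (p + (c n)⁻¹ • u) - F p‖ ≤ K * ((c n)⁻¹ * ‖u‖) := by
      have := hK.dist_le_mul (p + (c n)⁻¹ • u) p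
      rw [dist_eq_norm, dist_eq_norm] at this
      have e : p + (c n)⁻¹ • u - p = (c n)⁻¹ • u := by abel
      rw [e, norm_smul, Real.norm_of_nonneg (inv_nonneg.2 (hcpos n).le)] at this
      exact this
    rw [norm_smul, Real.norm_of_nonneg (hcpos n).le]
    calc c n * ‖F (p + (c n)⁻¹ • u) - F p‖ ≤ c n * (K * ((c n)⁻¹ * ‖u‖)) :=
          mul_le_mul_of_nonneg_left h1 (hcpos n).le
      _ = K * ‖u‖ := by
          have := (hcpos n).ne'
          field_simp
  -- the two sides
  have hA : Tendsto (fun n => ∫ p, (c n • (Θ (p + (c n)⁻¹ • v) - Θ p)) * fderiv ℝ G p w) atTop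
      (𝓝 (∫ p, fderiv ℝ Θ p v * fderiv ℝ G p w)) := by
    apply tendsto_integral_of_dominated_convergence (fun p => (K1 * ‖v‖) * ‖fderiv ℝ G p w‖)
    · intro n
      apply Continuous.aestronglyMeasurable
      refine Continuous.mul ?_ (cont_fd hG w)
      exact ((hΘ.continuous.comp (continuous_id.add continuous_const)).sub
        hΘ.continuous).const_smul (c n)
    · exact (((cont_fd hG w).integrable_of_hasCompactSupport
        (hGc.fderiv_apply ℝ w)).norm).const_mul _
    · intro n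
      refine Eventually.of_forall fun p => ?_
      rw [norm_mul]
      exact mul_le_mul_of_nonneg_right (hlip Θ K1 hK1 n v p) (norm_nonneg _)
    · refine Eventually.of_forall fun p => ?_
      exact (((hΘ.differentiable one_ne_zero) p).hasFDerivAt.lim v hc).mul_const _
  have hB : Tendsto (fun n => ∫ p, fderiv ℝ Θ p w * (c n • (G (p + (c n)⁻¹ • (-v)) - G p))) atTop
      (𝓝 (∫ p, fderiv ℝ Θ p w * fderiv ℝ G p (-v))) := by
    apply tendsto_integral_of_dominated_convergence (fun p => ‖fderiv ℝ Θ p w‖ * (K2 * ‖-v‖))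
    · intro n
      apply Continuous.aestronglyMeasurable
      refine Continuous.mul (cont_fd hΘ w) ?_
      exact ((hG.continuous.comp (continuous_id.add continuous_const)).sub
        hG.continuous).const_smul (c n)
    · exact (((cont_fd hΘ w).integrable_of_hasCompactSupport
        (hΘc.fderiv_apply ℝ w)).norm).mul_const _
    · intro n
      refine Eventually.of_forall fun p => ?_
      rw [norm_mul]
      exact mul_le_mul_of_nonneg_left (hlip G K2 hK2 n (-v) p) (norm_nonneg _)
    · refine Eventually.of_forall fun p => ?_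
      exact (((hG.differentiable one_ne_zero) p).hasFDerivAt.lim (-v) hc).const_mul _
  have hAB : ∀ n, (∫ p, (c n • (Θ (p + (c n)⁻¹ • v) - Θ p)) * fderiv ℝ G p w)
      = - ∫ p, fderiv ℝ Θ p w * (c n • (G (p + (c n)⁻¹ • (-v)) - G p)) := by
    intro n
    have h := dq hΘ hG hGc ((c n)⁻¹ • v) w
    have e1 : (fun p => (c n • (Θ (p + (c n)⁻¹ • v) - Θ p)) * fderiv ℝ G p w)
        = fun p => c n • ((Θ (p + (c n)⁻¹ • v) - Θ p) * fderiv ℝ G p w) := by
      funext p; rw [smul_mul_assoc]
    have e2 : (fun p => fderiv ℝ Θ p w * (c n • (G (p + (c n)⁻¹ • (-v)) - G p)))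
        = fun p => c n • (fderiv ℝ Θ p w * (G (p - (c n)⁻¹ • v) - G p)) := by
      funext p
      rw [mul_smul_comm, smul_neg, ← sub_eq_add_neg]
    rw [e1, e2, integral_smul, integral_smul, h, smul_neg]
  have hlim := tendsto_nhds_unique hA ((tendsto_congr hAB).2 hB.neg)
  rw [hlim, ← integral_neg]
  congr 1
  funext p
  rw [map_neg, mul_neg, neg_neg]

theorem p_L2 : S_L2 := by
  intro W C Θ G hW hC hCW hΘ hΘ0 hG
  classical
  -- extension of `Θ`
  let T : ℝ × ℝ → ℂ := fun p => if p ∈ C then Θ p else 0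
  have hTW : ∀ p ∈ W, T p = Θ p := by
    intro p hp
    by_cases h : p ∈ C
    · simp [T, h]
    · simp [T, h, hΘ0 p hp h]
  have hTWe : ∀ p ∈ W, T =ᶠ[𝓝 p] Θ := by
    intro p hp
    filter_upwards [hW.mem_nhds hp] with q hq using hTW q hq
  have hTCe : ∀ p, p ∉ C → T =ᶠ[𝓝 p] fun _ => 0 := by
    intro p hp
    filter_upwards [hC.isClosed.isOpen_compl.mem_nhds hp] with q hq
    simp only [T]
    rw [if_neg hq]
  have hT : ContDiff ℝ 1 T := by
    rw [contDiff_iff_contDiffAt]
    intro p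
    by_cases hp : p ∈ W
    · exact ((hΘ.contDiffAt (hW.mem_nhds hp))).congr_of_eventuallyEq (hTWe p hp)
    · exact (contDiffAt_const (c := (0 : ℂ))).congr_of_eventuallyEq
        (hTCe p (fun h => hp (hCW h)))
  have hTc : HasCompactSupport T := HasCompactSupport.intro hC (fun p hp => by simp [T, hp])
  -- cutoff
  obtain ⟨L, hL, hCL, hLW⟩ := exists_compact_between hC hW hCW
  obtain ⟨χ, hχ1, hχ0, -⟩ := exists_contMDiffMap_one_nhds_of_subset_interior
    (modelWithCornersSelf ℝ (ℝ × ℝ)) (n := 1) hC.isClosed hCL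
  have hχs : ContDiff ℝ 1 (fun p : ℝ × ℝ => ((χ p : ℝ) : ℂ)) := by
    have h1 : ContDiff ℝ 1 (fun p : ℝ × ℝ => χ p) := by
      have := χ.contMDiff
      exact contMDiff_iff_contDiff.1 this
    exact Complex.ofRealCLM.contDiff.comp h1
  let g : ℝ × ℝ → ℂ := fun p => ((χ p : ℝ) : ℂ) * G p
  have hgL : ∀ p, p ∉ L → g p = 0 := by
    intro p hp
    simp [g, hχ0 p hp]
  have hg : ContDiff ℝ 1 g := by
    rw [contDiff_iff_contDiffAt]
    intro p
    by_cases hp : p ∈ W
    · exact (hχs.contDiffAt).mul (hG.contDiffAt (hW.mem_nhds hp))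
    · have : g =ᶠ[𝓝 p] fun _ => 0 := by
        filter_upwards [hL.isClosed.isOpen_compl.mem_nhds (fun h => hp (hLW h))] with q hq
        exact hgL q hq
      exact (contDiffAt_const (c := (0 : ℂ))).congr_of_eventuallyEq this
  have hgc : HasCompactSupport g := HasCompactSupport.intro hL hgL
  have hgC : ∀ p ∈ C, g =ᶠ[𝓝 p] G := by
    intro p hp
    have : ∀ᶠ q in 𝓝 p, χ q = 1 := by
      rw [eventually_nhdsSet_iff_forall] at hχ1
      exact hχ1 p hp
    filter_upwards [this] with q hq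
    simp [g, hq]
  -- comparison of the integrands
  have hTx0 : ∀ p, p ∉ C → ∀ v, fderiv ℝ T p v = 0 := by
    intro p hp v
    rw [(hTCe p hp).fderiv_eq]
    simp
  have key : ∀ p ∈ W, px Θ p * py G p - py Θ p * px G p
      = px T p * py g p - py T p * px g p := by
    intro p hp
    have e1 : fderiv ℝ T p = fderiv ℝ Θ p := (hTWe p hp).fderiv_eq
    by_cases h : p ∈ C
    · have e2 : fderiv ℝ g p = fderiv ℝ G p := (hgC p h).fderiv_eq
      simp only [px, py, e1, e2]
    · have z := hTx0 p h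
      have z' : ∀ v, fderiv ℝ Θ p v = 0 := fun v => by rw [← e1]; exact z v
      simp only [px, py, z, z', zero_mul, sub_self]
  have hout : ∀ p, p ∉ W → px T p * py g p - py T p * px g p = 0 := by
    intro p hp
    have z := hTx0 p (fun h => hp (hCW h))
    simp only [px, py, z, zero_mul, sub_self]
  have i1 : Integrable (fun p => px T p * py g p) :=
    ((cont_fd hT _).mul (cont_fd hg _)).integrable_of_hasCompactSupport
      (hgc.fderiv_apply ℝ _).mul_left
  have i2 : Integrable (fun p => py T p * px g p) :=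
    ((cont_fd hT _).mul (cont_fd hg _)).integrable_of_hasCompactSupport
      (hgc.fderiv_apply ℝ _).mul_left
  constructor
  · have := (i1.sub i2).integrableOn (s := W)
    exact this.congr_fun (fun p hp => (key p hp).symm) hW.measurableSet
  · rw [setIntegral_congr_fun hW.measurableSet key,
      setIntegral_eq_integral_of_forall_compl_eq_zero hout, integral_sub i1 i2, sub_eq_zero]
    exact cc hT hTc hg hgc (1, 0) (0, 1)

end Pool.Agent.HH
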