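import Pool.Agent.Lib.MP_7dc3d9_gt.ThA.Stm

set_option autoImplicit false

/-! STEP: the good set is open at its upper end. -/

namespace Pool.Agent.HH

open Complex Set MeasureTheory Topology

private theorem st_px {F : ℝ × ℝ → ℂ} (hF : ContDiff ℝ 2 F) : ContDiff ℝ 1 (px F) := by
  have h : ContDiff ℝ 1 (fderiv ℝ F) := hF.fderiv_right (by norm_num)
  exact h.clm_apply contDiff_const

private theorem st_cpx {F : ℝ × ℝ → ℂ} (hF : ContDiff ℝ 1 F) : Continuous (px F) := by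
  have h : Continuous (fderiv ℝ F) := hF.continuous_fderiv (by norm_num)
  exact h.clm_apply continuous_const

private theorem st_cpy {F : ℝ × ℝ → ℂ} (hF : ContDiff ℝ 1 F) : Continuous (py F) := by
  have h : Continuous (fderiv ℝ F) := hF.continuous_fderiv (by norm_num)
  exact h.clm_apply continuous_const

private theorem st_rect (a b δ : ℝ) : Rect a b δ = Metric.ball ((a, b) : ℝ × ℝ) δ := by
  rw [← ball_prod_same, Real.ball_eq_Ioo, Real.ball_eq_Ioo]
  rfl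

/-- two affine functions which agree at two points -/
private theorem st_lin {a b c d y y' : ℝ} (hy : y ≠ y') (h1 : a + b * y = c + d * y)
    (h2 : a + b * y' = c + d * y') : a = c ∧ b = d := by
  have h3 : (b - d) * (y - y') = 0 := by linear_combination h1 - h2
  have h4 : b - d = 0 := by
    rcases mul_eq_zero.1 h3 with h | h
    · exact h
    · exact absurd (sub_eq_zero.1 h) hy
  have h5 : b = d := sub_eq_zero.1 h4
  subst h5
  exact ⟨by linarith, rfl⟩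

/-- derivative of `y ↦ Re G(0, y)` -/
private theorem st_hasDeriv {G : ℝ × ℝ → ℂ} (hG : ContDiff ℝ 1 G) (x y : ℝ) :
    HasDerivAt (fun t : ℝ => (G (x, t)).re) (py G (x, y)).re y := by
  have h1 : HasFDerivAt G (fderiv ℝ G (x, y)) (x, y) :=
    ((hG.differentiable (by norm_num)) (x, y)).hasFDerivAt
  have h2 : HasDerivAt (fun t : ℝ => ((x, t) : ℝ × ℝ)) ((0, 1) : ℝ × ℝ) y :=
    (hasDerivAt_const y x).prodMk (hasDerivAt_id y)
  have h3 : HasDerivAt (fun t : ℝ => G (x, t)) (fderiv ℝ G (x, y) (0, 1)) y :=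
    h1.comp_hasDerivAt y h2
  exact (Complex.reCLM.hasFDerivAt (x := G (x, y))).comp_hasDerivAt y h3

/-- the values at `s0` of the functions given by AFF, from the data on a smaller interval -/
private theorem st_vals {ξ : ℝ × ℝ → ℝ} {P b : ℝ × ℝ → ℂ} {A B : ℝ → ℝ} {D : ℝ → ℂ}
    {s0 ya y0 lam kap : ℝ} (hy : ya < y0)
    (hA : ∀ y ∈ Ioo ya y0, ξ (s0, y) = A s0 + B s0 * y ∧ b (s0, y) = -((B s0 : ℝ) : ℂ) ∧
      px P (s0, y) = D s0 ∧ fderiv ℝ ξ (s0, y) (1, 0) = deriv A s0 + deriv B s0 * y)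
    (hd : ∀ y ∈ Ioo ya y0, ξ (s0, y) = 0 ∧ b (s0, y) = 0 ∧ px P (s0, y) = 1 ∧
      fderiv ℝ ξ (s0, y) (1, 0) = (1 + kap * y) / lam) :
    A s0 = 0 ∧ B s0 = 0 ∧ D s0 = 1 ∧ deriv A s0 = 1 / lam ∧ deriv B s0 = kap / lam := by
  obtain ⟨y, hy1, hy2⟩ := exists_between hy
  obtain ⟨z, hz1, hz2⟩ := exists_between hy1
  have hyI : y ∈ Ioo ya y0 := ⟨hy1, hy2⟩
  have hzI : z ∈ Ioo ya y0 := ⟨hz1, hz2.trans hy2⟩
  have hne : y ≠ z := ne_of_gt hz2
  have a1 := hA y hyI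
  have a2 := hA z hzI
  have d1 := hd y hyI
  have d2 := hd z hzI
  have e1 : A s0 = 0 ∧ B s0 = 0 := by
    apply st_lin hne
    · rw [← a1.1, d1.1]; ring
    · rw [← a2.1, d2.1]; ring
  have e2 : deriv A s0 = 1 / lam ∧ deriv B s0 = kap / lam := by
    apply st_lin hne
    · rw [← a1.2.2.2, d1.2.2.2]; ring
    · rw [← a2.2.2.2, d2.2.2.2]; ring
  exact ⟨e1.1, e1.2, by rw [← a1.2.2.1, d1.2.2.1], e2.1, e2.2⟩

theorem p_STEP (h1 : S_CH1) (h2 : S_CH2) (h3 : S_AFF) (h4 : S_R3) : S_STEP := by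
  intro F lam kap y1 hF hMA hlam hpos hG
  have hP1 : ContDiff ℝ 1 (px F) := st_px hF
  have hcxx : Continuous (px (px F)) := st_cpx hP1
  have hcxy : Continuous (py (px F)) := st_cpy hP1
  have hcl : Continuous (fun y : ℝ => ((0, y) : ℝ × ℝ)) := by fun_prop
  have hlam0 : lam ≠ 0 := hlam.ne'
  -- values at `y1`
  have hval1 : px (px F) (0, y1) * ((1 + kap * y1 : ℝ) : ℂ) = (lam : ℂ) := by
    have hc : Continuous (fun y : ℝ => px (px F) (0, y) * ((1 + kap * y : ℝ) : ℂ)) := by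
      apply (hcxx.comp hcl).mul
      exact Complex.continuous_ofReal.comp (by fun_prop)
    have t1 : Filter.Tendsto (fun y : ℝ => px (px F) (0, y) * ((1 + kap * y : ℝ) : ℂ))
        (𝓝[<] y1) (𝓝 (px (px F) (0, y1) * ((1 + kap * y1 : ℝ) : ℂ))) :=
      (hc.tendsto y1).mono_left nhdsWithin_le_nhds
    have t2 : Filter.Tendsto (fun y : ℝ => px (px F) (0, y) * ((1 + kap * y : ℝ) : ℂ))
        (𝓝[<] y1) (𝓝 (lam : ℂ)) := by
      apply tendsto_const_nhds.congr'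
      filter_upwards [hG] with y hy
      exact hy.2.2.symm
    exact tendsto_nhds_unique t1 t2
  have hval2 : py (px F) (0, y1) = 0 := by
    have t1 : Filter.Tendsto (fun y : ℝ => py (px F) (0, y)) (𝓝[<] y1)
        (𝓝 (py (px F) (0, y1))) :=
      ((hcxy.comp hcl).tendsto y1).mono_left nhdsWithin_le_nhds
    have t2 : Filter.Tendsto (fun y : ℝ => py (px F) (0, y)) (𝓝[<] y1) (𝓝 0) := by
      apply tendsto_const_nhds.congr'
      filter_upwards [hG] with y hy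
      exact hy.2.1.symm
    exact tendsto_nhds_unique t1 t2
  have hreval : ∀ y : ℝ, px (px F) (0, y) * ((1 + kap * y : ℝ) : ℂ) = (lam : ℂ) →
      0 < 1 + kap * y → px (px F) (0, y) = ((lam / (1 + kap * y) : ℝ) : ℂ) := by
    intro y h hp
    have hne : ((1 + kap * y : ℝ) : ℂ) ≠ 0 := by
      exact_mod_cast hp.ne'
    rw [Complex.ofReal_div, eq_div_iff hne]
    exact h
  have hxx1 := hreval y1 hval1 hpos
  have hre1 : 0 < (px (px F) (0, y1)).re := by
    rw [hxx1, Complex.ofReal_re]; exact div_pos hlam hpos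
  obtain ⟨δ, hδ, ξ, hξ1, hξ0, hξ, ε, hε, hεp⟩ := h1 F 0 y1 hF hre1
  set s0 : ℝ := (px F (0, y1)).re with hs0
  -- choice of `η`
  have hopenpos : ∀ᶠ y in 𝓝 y1, 0 < 1 + kap * y := by
    have hc : Continuous (fun y : ℝ => 1 + kap * y) := by fun_prop
    exact hc.continuousAt.eventually (lt_mem_nhds hpos)
  obtain ⟨η1, hη1, hη1s⟩ := Metric.eventually_nhds_iff.1 hopenpos
  obtain ⟨l, hl1, hl2⟩ := (mem_nhdsLT_iff_exists_Ioo_subset).1 hG
  obtain ⟨η, hη0, hη⟩ : ∃ η : ℝ, 0 < η ∧ η ≤ δ ∧ η ≤ ε ∧ η ≤ η1 ∧ η ≤ y1 - l := by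
    have : 0 < y1 - l := sub_pos.2 hl1
    refine ⟨min (min δ ε) (min η1 (y1 - l)), by positivity, ?_, ?_, ?_, ?_⟩
    · exact (min_le_left _ _).trans (min_le_left _ _)
    · exact (min_le_left _ _).trans (min_le_right _ _)
    · exact (min_le_right _ _).trans (min_le_left _ _)
    · exact (min_le_right _ _).trans (min_le_right _ _)
  obtain ⟨hηδ, hηε, hηη1, hηl⟩ := hη
  have hGood : ∀ y, y1 - η < y → y < y1 → Good F lam kap y := by
    intro y ha hb
    exact hl2 ⟨by linarith, hb⟩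
  have hposη : ∀ y, y1 - η < y → y < y1 + η → 0 < 1 + kap * y := by
    intro y ha hb
    apply hη1s
    rw [Real.dist_eq, abs_lt]
    constructor <;> linarith
  -- `Re F_x (0, y) = s0`
  have hsconst : ∀ y, y1 - η < y → y < y1 → (px F (0, y)).re = s0 := by
    intro y ha hb
    have hc : ContinuousOn (fun t : ℝ => (px F (0, t)).re) (Icc y y1) :=
      (Complex.continuous_re.comp (hP1.continuous.comp hcl)).continuousOn
    have hd : ∀ t ∈ Ico y y1, HasDerivWithinAt (fun t : ℝ => (px F (0, t)).re) 0 (Ici t) t := by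
      intro t ht
      have hg := hGood t (lt_of_lt_of_le ha ht.1) ht.2
      have := (st_hasDeriv hP1 0 t)
      rw [hg.2.1, Complex.zero_re] at this
      exact this.hasDerivWithinAt
    have := constant_of_has_deriv_right_zero hc hd y1 ⟨hb.le, le_refl _⟩
    rw [hs0]
    exact this.symm
  have hξzero : ∀ y, y1 - η < y → y < y1 → ξ (s0, y) = 0 := by
    intro y ha hb
    have hmem : ((0, y) : ℝ × ℝ) ∈ Rect 0 y1 ε := by
      refine ⟨⟨by simpa using hε, by simpa using hε⟩, ⟨?_, ?_⟩⟩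
      · change y1 - ε < y; linarith
      · change y < y1 + ε; linarith
    have := (hεp _ hmem).2
    change ξ ((px F (0, y)).re, y) = 0 at this
    rwa [hsconst y ha hb] at this
  -- the interval of heights
  set yb : ℝ := y1 - η / 2 with hyb
  set y0 : ℝ := y1 - η / 4 with hy0
  set q : ℝ := y1 + η / 2 with hq
  have hbo : yb < y0 := by rw [hyb, hy0]; linarith
  have hoq : y0 < q := by rw [hy0, hq]; linarith
  have hRopen : IsOpen (Rect s0 y1 δ) := isOpen_Ioo.prod isOpen_Ioo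
  have hmemR : ∀ y, y1 - η < y → y < y1 + η → ((s0, y) : ℝ × ℝ) ∈ Rect s0 y1 δ := by
    intro y ha hb
    refine ⟨⟨by simpa using hδ, by simpa using hδ⟩, ⟨?_, ?_⟩⟩
    · change y1 - δ < y; linarith
    · change y < y1 + δ; linarith
  obtain ⟨cP, cQ, cX, cb, hch⟩ := h2 F (Rect s0 y1 δ) ξ hF hMA hRopen hξ1 hξ
  -- the function `I`
  set I : ℝ × ℝ → ℝ := fun p => ((starRingEnd ℂ) (px (px F) p) * py (px F) p).im with hI
  have hξcont : ContinuousOn ξ (Rect s0 y1 δ) := hξ1.continuousOn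
  -- tube
  have htube : ∃ δ' : ℝ, 0 < δ' ∧ δ' ≤ δ ∧ ∀ s y, s0 - δ' < s → s < s0 + δ' → yb ≤ y → y ≤ y0 →
      I (ξ (s, y), y) = 0 := by
    let N : Set (ℝ × ℝ) := {r | ∀ᶠ r' in 𝓝 r, I (ξ r', r'.2) = 0}
    have hN : IsOpen N := isOpen_setOfPred_eventually_nhds
    have hsub : ({s0} : Set ℝ) ×ˢ Icc yb y0 ⊆ N := by
      rintro ⟨s, y⟩ ⟨hs, hy⟩
      have hs' : s = s0 := hs
      subst hs'
      have ha : y1 - η < y := by
        have := hy.1
        change yb ≤ y at this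
        rw [hyb] at this; linarith
      have hb : y < y1 := by
        have := hy.2
        change y ≤ y0 at this
        rw [hy0] at this; linarith
      have hg := (hGood y ha hb).1
      have hct : ContinuousAt (fun r : ℝ × ℝ => ((ξ r, r.2) : ℝ × ℝ)) (s0, y) := by
        have := hξcont.continuousAt (hRopen.mem_nhds (hmemR y ha (by linarith)))
        exact this.prodMk continuousAt_snd
      have hv : ((ξ (s0, y), y) : ℝ × ℝ) = (0, y) := by rw [hξzero y ha hb]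
      have hg' : ∀ᶠ p in 𝓝 ((ξ (s0, y), y) : ℝ × ℝ), I p = 0 := by
        rw [hv]; exact hg
      exact hct.eventually hg'
    obtain ⟨u, v, hu, hv, hsu, hsv, huv⟩ :=
      generalized_tube_lemma isCompact_singleton isCompact_Icc hN hsub
    have hs0u : s0 ∈ u := hsu rfl
    obtain ⟨ρ, hρ, hρu⟩ := Metric.isOpen_iff.1 hu s0 hs0u
    refine ⟨min ρ δ, by positivity, min_le_right _ _, ?_⟩
    intro s y hs1 hs2 hy1 hy2
    have hsu' : s ∈ u := by
      apply hρu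
      rw [Metric.mem_ball, Real.dist_eq, abs_lt]
      have := min_le_left ρ δ
      constructor <;> linarith
    have hmem : ((s, y) : ℝ × ℝ) ∈ N := huv ⟨hsu', hsv ⟨hy1, hy2⟩⟩
    exact hmem.self_of_nhds
  obtain ⟨δ', hδ'0, hδ'δ, hδ'⟩ := htube
  -- data at `s0` below `y0`
  have hsub1 : ∀ t : ℝ, 0 < t → t ≤ δ → ∀ yt, yt ≤ y1 + δ →
      Ioo (s0 - t) (s0 + t) ×ˢ Ioo yb yt ⊆ Rect s0 y1 δ := by
    rintro t ht0 ht yt hyt ⟨s, y⟩ ⟨hs, hy⟩
    have e1 := hs.1
    have e2 := hs.2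
    have e3 := hy.1
    have e4 := hy.2
    change s0 - t < s at e1
    change s < s0 + t at e2
    change yb < y at e3
    change y < yt at e4
    rw [hyb] at e3
    refine ⟨⟨?_, ?_⟩, ⟨?_, ?_⟩⟩
    · change s0 - δ < s; linarith
    · change s < s0 + δ; linarith
    · change y1 - δ < y; linarith
    · change y < y1 + δ; linarith
  have hdata : ∀ y ∈ Ioo yb y0, ξ (s0, y) = 0 ∧ chb F ξ (s0, y) = 0 ∧
      px (chP F ξ) (s0, y) = 1 ∧ fderiv ℝ ξ (s0, y) (1, 0) = (1 + kap * y) / lam := by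
    intro y hy
    have ha : y1 - η < y := by
      have := hy.1
      rw [hyb] at this; linarith
    have hb : y < y1 := by
      have := hy.2
      rw [hy0] at this; linarith
    have hg := hGood y ha hb
    have hpy := hposη y ha (by linarith)
    have hx0 := hξzero y ha hb
    have hxx := hreval y hg.2.2 hpy
    have hc := hch (s0, y) (hmemR y ha (by linarith))
    have hle : lam / (1 + kap * y) ≠ 0 := (div_pos hlam hpy).ne'
    refine ⟨hx0, ?_, ?_, ?_⟩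
    · change py (px F) (ξ (s0, y), y) / px (px F) (ξ (s0, y), y) = 0
      rw [hx0, hg.2.1, zero_div]
    · rw [hc.1]
      change px (px F) (ξ (s0, y), y) / (((px (px F) (ξ (s0, y), y)).re : ℝ) : ℂ) = 1
      rw [hx0, hxx, Complex.ofReal_re]
      exact div_self (by exact_mod_cast hle)
    · rw [hc.2.2.2.2.2.2.1]
      change 1 / (px (px F) (ξ (s0, y), y)).re = (1 + kap * y) / lam
      rw [hx0, hxx, Complex.ofReal_re, one_div_div]
  -- the hypotheses of AFF on a rectangle where `I` vanishes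
  have haff : ∀ t yt : ℝ, 0 < t → t ≤ δ → yb < yt → yt ≤ y1 + δ →
      (∀ p ∈ Ioo (s0 - t) (s0 + t) ×ˢ Ioo yb yt, Jac (chP F ξ) p = 0) →
      ∃ (A B : ℝ → ℝ) (D : ℝ → ℂ), ContDiffOn ℝ 1 A (Ioo (s0 - t) (s0 + t)) ∧
        ContDiffOn ℝ 1 B (Ioo (s0 - t) (s0 + t)) ∧
        ∀ q ∈ Ioo (s0 - t) (s0 + t) ×ˢ Ioo yb yt, ξ q = A q.1 + B q.1 * q.2 ∧
          chb F ξ q = -((B q.1 : ℝ) : ℂ) ∧ px (chP F ξ) q = D q.1 ∧
          fderiv ℝ ξ q (1, 0) = deriv A q.1 + deriv B q.1 * q.2 := by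
    intro t yt ht0 ht hyt hyt2 hJ
    have hs := hsub1 t ht0 ht yt hyt2
    apply h3 (s0 - t) (s0 + t) yb yt ξ (chP F ξ) (chQ F ξ) (chX F ξ) (chb F ξ) hyt
      (hξ1.mono hs) (cP.mono hs) (cQ.mono hs) (cX.mono hs)
    intro p hp
    obtain ⟨-, -, c3, c4, c5, c6, -, -⟩ := hch p (hs hp)
    exact ⟨(hξ p (hs hp)).1, hJ p hp, c3, c4, c5, c6⟩
  have hJlow : ∀ p ∈ Ioo (s0 - δ') (s0 + δ') ×ˢ Ioo yb y0, Jac (chP F ξ) p = 0 := by
    rintro ⟨s, y⟩ hp
    have hy0δ : y0 ≤ y1 + δ := by rw [hy0]; linarith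
    have hc := hch (s, y) (hsub1 δ' hδ'0 hδ'δ y0 hy0δ hp)
    rw [hc.2.1]
    have : I (ξ (s, y), y) = 0 := hδ' s y hp.1.1 hp.1.2 hp.2.1.le hp.2.2.le
    change I (ξ (s, y), y) / _ = 0
    rw [this, zero_div]
  obtain ⟨A, B, D, cA, cB, hAB⟩ := haff δ' y0 hδ'0 hδ'δ hbo (by rw [hy0]; linarith) hJlow
  have hs0mem : s0 ∈ Ioo (s0 - δ') (s0 + δ') := ⟨by linarith, by linarith⟩
  obtain ⟨vA, vB, vD, vA', vB'⟩ := st_vals (ξ := ξ) (P := chP F ξ) (b := chb F ξ) (A := A) (B := B)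
    (D := D) (lam := lam) (kap := kap) hbo (fun y hy => hAB (s0, y) ⟨hs0mem, hy⟩) hdata
  -- `ψ`
  let ψ : ℝ → ℝ := fun s => A s + q * B s
  have cψ : ContDiffOn ℝ 1 ψ (Ioo (s0 - δ') (s0 + δ')) := cA.add (contDiffOn_const.mul cB)
  have hqpos : 0 < 1 + kap * q := hposη q (by rw [hq]; linarith) (by rw [hq]; linarith)
  have hψ0 : 0 < deriv ψ s0 := by
    have dA : DifferentiableAt ℝ A s0 :=
      ((cA.differentiableOn (by norm_num)) s0 hs0mem).differentiableAt (isOpen_Ioo.mem_nhds hs0mem)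
    have dB : DifferentiableAt ℝ B s0 :=
      ((cB.differentiableOn (by norm_num)) s0 hs0mem).differentiableAt (isOpen_Ioo.mem_nhds hs0mem)
    have hd : HasDerivAt ψ (deriv A s0 + q * deriv B s0) s0 :=
      dA.hasDerivAt.add (dB.hasDerivAt.const_mul q)
    rw [hd.deriv, vA', vB']
    have : 1 / lam + q * (kap / lam) = (1 + kap * q) / lam := by ring
    rw [this]
    exact div_pos hqpos hlam
  have hψc : ContinuousOn (deriv ψ) (Ioo (s0 - δ') (s0 + δ')) :=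
    cψ.continuousOn_deriv_of_isOpen isOpen_Ioo (le_refl _)
  have hψev : ∀ᶠ s in 𝓝 s0, 0 < deriv ψ s :=
    (hψc.continuousAt (isOpen_Ioo.mem_nhds hs0mem)).eventually (lt_mem_nhds hψ0)
  obtain ⟨ρ, hρ0, hρs⟩ := Metric.eventually_nhds_iff.1 hψev
  obtain ⟨τ, hτ0, hτδ', hτρ⟩ : ∃ τ : ℝ, 0 < τ ∧ τ ≤ δ' ∧ τ ≤ ρ :=
    ⟨min δ' ρ, by positivity, min_le_left _ _, min_le_right _ _⟩
  have hτδ : τ ≤ δ := hτδ'.trans hδ'δ
  have hqδ : q ≤ y1 + δ := by rw [hq]; linarith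
  have hsubτ := hsub1 τ hτ0 hτδ q hqδ
  have hIooτ : Ioo (s0 - τ) (s0 + τ) ⊆ Ioo (s0 - δ') (s0 + δ') :=
    Ioo_subset_Ioo (by linarith) (by linarith)
  -- R3
  have hJall : ∀ p ∈ Ioo (s0 - τ) (s0 + τ) ×ˢ Ioo yb q, Jac (chP F ξ) p = 0 := by
    let G : ℝ × ℝ → ℂ := fun r => chX F ξ r - (q : ℂ) * chQ F ξ r
    let f : ℝ × ℝ → ℂ := fun r => (ξ r : ℂ) + ((r.2 : ℂ) - (q : ℂ)) * chb F ξ r
    have dX : ∀ r ∈ Rect s0 y1 δ, DifferentiableAt ℝ (chX F ξ) r := fun r hr =>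
      ((cX.differentiableOn (by norm_num)) r hr).differentiableAt (hRopen.mem_nhds hr)
    have dQ : ∀ r ∈ Rect s0 y1 δ, DifferentiableAt ℝ (chQ F ξ) r := fun r hr =>
      ((cQ.differentiableOn (by norm_num)) r hr).differentiableAt (hRopen.mem_nhds hr)
    have hGd : ∀ r ∈ Rect s0 y1 δ, ∀ v : ℝ × ℝ,
        fderiv ℝ G r v = fderiv ℝ (chX F ξ) r v - (q : ℂ) * fderiv ℝ (chQ F ξ) r v := by
      intro r hr v
      have hh : HasFDerivAt G (fderiv ℝ (chX F ξ) r - (q : ℂ) • fderiv ℝ (chQ F ξ) r) r :=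
        (dX r hr).hasFDerivAt.sub ((dQ r hr).hasFDerivAt.const_mul (q : ℂ))
      rw [hh.fderiv]
      rfl
    have him : ∀ r ∈ Rect s0 y1 δ, (f r).im = (r.2 - q) * (chb F ξ r).im := by
      intro r hr
      simp [f]
    have hJb : ∀ r ∈ Rect s0 y1 δ, Jac (chP F ξ) r =
        (chb F ξ r).im * (‖px (px F) (ξ r, r.2)‖ ^ 2 / (px (px F) (ξ r, r.2)).re) := by
      intro r hr
      obtain ⟨-, c2, -, -, -, -, -, c8⟩ := hch r hr
      rw [c2, ← c8, mul_div_assoc]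
    have hfac : ∀ r ∈ Rect s0 y1 δ,
        0 < ‖px (px F) (ξ r, r.2)‖ ^ 2 / (px (px F) (ξ r, r.2)).re := by
      intro r hr
      have hr2 := (hξ r hr).2
      have : px (px F) (ξ r, r.2) ≠ 0 := by
        intro h0
        rw [h0] at hr2
        simp at hr2
      have := norm_pos_iff.2 this
      positivity
    apply h4 (s0 - τ) (s0 + τ) yb y0 q (chP F ξ) G f ψ hbo hoq (cP.mono hsubτ)
    · exact (cX.sub (contDiffOn_const.mul cQ)).mono hsubτ
    · apply ContinuousOn.add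
      · exact Complex.continuous_ofReal.comp_continuousOn (hξcont.mono hsubτ)
      · apply ContinuousOn.mul
        · exact (by fun_prop : Continuous fun r : ℝ × ℝ => (r.2 : ℂ) - (q : ℂ)).continuousOn
        · exact cb.mono hsubτ
    · intro r hr
      exact (hξ r (hsubτ hr)).1
    · intro r hr
      obtain ⟨-, -, c3, -, c5, -, -, -⟩ := hch r (hsubτ hr)
      have e := hGd r (hsubτ hr) (1, 0)
      change px G r = px (chX F ξ) r - (q : ℂ) * px (chQ F ξ) r at e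
      rw [e, c3, c5]
      simp only [f]
      ring
    · intro r hr
      obtain ⟨-, -, -, c4, -, c6, -, -⟩ := hch r (hsubτ hr)
      have e := hGd r (hsubτ hr) (0, 1)
      change py G r = py (chX F ξ) r - (q : ℂ) * py (chQ F ξ) r at e
      rw [e, c4, c6]
      simp only [f]
      ring
    · intro r hr
      rw [him r (hsubτ hr), hJb r (hsubτ hr)]
      have hneg : r.2 - q ≤ 0 := sub_nonpos.2 hr.2.2.le
      have hf := hfac r (hsubτ hr)
      have e : (r.2 - q) * (chb F ξ r).im * ((chb F ξ r).im *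
          (‖px (px F) (ξ r, r.2)‖ ^ 2 / (px (px F) (ξ r, r.2)).re)) =
          (r.2 - q) * ((chb F ξ r).im ^ 2 *
          (‖px (px F) (ξ r, r.2)‖ ^ 2 / (px (px F) (ξ r, r.2)).re)) := by ring
      rw [e]
      exact mul_nonpos_of_nonpos_of_nonneg hneg (mul_nonneg (sq_nonneg _) hf.le)
    · intro r hr hne
      rw [him r (hsubτ hr)] at hne
      rw [hJb r (hsubτ hr)]
      exact mul_ne_zero (right_ne_zero_of_mul hne) (hfac r (hsubτ hr)).ne'
    · rintro ⟨s, y⟩ hr hlt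
      have hmem : ((s, y) : ℝ × ℝ) ∈ Ioo (s0 - δ') (s0 + δ') ×ˢ Ioo yb y0 :=
        ⟨hIooτ hr.1, ⟨hr.2.1, hlt⟩⟩
      refine ⟨hJlow _ hmem, ?_⟩
      obtain ⟨a1, a2, -, -⟩ := hAB _ hmem
      change (ξ (s, y) : ℂ) + ((y : ℂ) - (q : ℂ)) * chb F ξ (s, y) = ((A s + q * B s : ℝ) : ℂ)
      rw [a1, a2]
      push_cast
      ring
    · exact cψ.mono hIooτ
    · intro s hs
      apply hρs
      rw [Real.dist_eq, abs_lt]
      have := hs.1
      have := hs.2
      constructor <;> linarith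
  obtain ⟨A2, B2, D2', cA2, cB2, hAB2⟩ := haff τ q hτ0 hτδ (hbo.trans hoq) hqδ hJall
  have hs0τ : s0 ∈ Ioo (s0 - τ) (s0 + τ) := ⟨by linarith, by linarith⟩
  obtain ⟨wA, wB, wD, wA', wB'⟩ := st_vals (ξ := ξ) (P := chP F ξ) (b := chb F ξ) (A := A2)
    (B := B2) (D := D2') (lam := lam) (kap := kap) hbo
    (fun y hy => hAB2 (s0, y) ⟨hs0τ, ⟨hy.1, hy.2.trans hoq⟩⟩) hdata
  -- values on the whole interval
  have hfin : ∀ y ∈ Ioo yb q, py (px F) (0, y) = 0 ∧
      px (px F) (0, y) * ((1 + kap * y : ℝ) : ℂ) = (lam : ℂ) := by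
    intro y hy
    have ha : y1 - η < y := by
      have := hy.1
      rw [hyb] at this; linarith
    have hb : y < y1 + η := by
      have := hy.2
      rw [hq] at this; linarith
    have hR := hmemR y ha hb
    obtain ⟨c1, -, -, -, -, -, c7, -⟩ := hch (s0, y) hR
    have hpr := (hξ (s0, y) hR).2
    obtain ⟨a1, a2, a3, a4⟩ := hAB2 (s0, y) ⟨hs0τ, hy⟩
    change ξ (s0, y) = A2 s0 + B2 s0 * y at a1
    change chb F ξ (s0, y) = -((B2 s0 : ℝ) : ℂ) at a2
    change px (chP F ξ) (s0, y) = D2' s0 at a3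
    change fderiv ℝ ξ (s0, y) (1, 0) = deriv A2 s0 + deriv B2 s0 * y at a4
    change 0 < (px (px F) (ξ (s0, y), y)).re at hpr
    change px (chP F ξ) (s0, y) = px (px F) (ξ (s0, y), y) /
      (((px (px F) (ξ (s0, y), y)).re : ℝ) : ℂ) at c1
    change fderiv ℝ ξ (s0, y) (1, 0) = 1 / (px (px F) (ξ (s0, y), y)).re at c7
    have hx0 : ξ (s0, y) = 0 := by rw [a1, wA, wB]; ring
    rw [hx0] at c1 c7 hpr
    have hne : px (px F) (0, y) ≠ 0 := by
      intro h0
      rw [h0] at hpr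
      simp at hpr
    constructor
    · have e : py (px F) (ξ (s0, y), y) / px (px F) (ξ (s0, y), y) = -((B2 s0 : ℝ) : ℂ) := a2
      rw [hx0, wB, Complex.ofReal_zero, neg_zero, div_eq_zero_iff] at e
      exact e.resolve_right hne
    · have hrne : (((px (px F) (0, y)).re : ℝ) : ℂ) ≠ 0 := by exact_mod_cast hpr.ne'
      rw [a3, wD, eq_comm, div_eq_one_iff_eq hrne] at c1
      rw [a4, wA', wB'] at c7
      have e : (1 + kap * y) * (px (px F) (0, y)).re = lam := by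
        have e1 : (1 + kap * y) / lam = 1 / (px (px F) (0, y)).re := by
          rw [← c7]; ring
        rw [div_eq_div_iff hlam0 hpr.ne'] at e1
        linarith
      rw [c1, mul_comm, ← Complex.ofReal_mul, e]
  -- IntK at `(0, y1)`
  have hint : IntK F (0, y1) := by
    have hc : Continuous (fun p : ℝ × ℝ => (((px F p).re, p.2) : ℝ × ℝ)) :=
      (Complex.continuous_re.comp hP1.continuous).prodMk continuous_snd
    have hmem : ((s0, y1) : ℝ × ℝ) ∈ Ioo (s0 - τ) (s0 + τ) ×ˢ Ioo yb q :=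
      ⟨hs0τ, ⟨by change yb < y1; rw [hyb]; linarith, by change y1 < q; rw [hq]; linarith⟩⟩
    have e1 : ∀ᶠ p in 𝓝 ((0, y1) : ℝ × ℝ),
        (((px F p).re, p.2) : ℝ × ℝ) ∈ Ioo (s0 - τ) (s0 + τ) ×ˢ Ioo yb q :=
      hc.continuousAt.eventually ((isOpen_Ioo.prod isOpen_Ioo).mem_nhds hmem)
    have e2 : ∀ᶠ p in 𝓝 ((0, y1) : ℝ × ℝ), p ∈ Rect 0 y1 ε := by
      rw [st_rect]
      exact Metric.ball_mem_nhds _ hε
    filter_upwards [e1, e2] with p hp1 hp2
    obtain ⟨m1, m2⟩ := hεp p hp2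
    have hJ := hJall _ hp1
    obtain ⟨-, c2, -⟩ := hch _ (hsubτ hp1)
    rw [hJ, eq_comm, div_eq_zero_iff] at c2
    have hr := (hξ _ (hsubτ hp1)).2
    rw [m2] at c2 hr
    exact c2.resolve_right (ne_of_gt hr)
  have hintev : ∀ᶠ y in 𝓝 y1, IntK F (0, y) :=
    hcl.continuousAt.eventually (Filter.Eventually.eventually_nhds hint)
  have hyev : ∀ᶠ y in 𝓝 y1, y ∈ Ioo yb q :=
    isOpen_Ioo.mem_nhds ⟨by rw [hyb]; linarith, by rw [hq]; linarith⟩
  filter_upwards [hintev, hyev] with y hy1 hy2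
  exact ⟨hy1, (hfin y hy2).1, (hfin y hy2).2⟩

end Pool.Agent.HH
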