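import Pool.Agent.Lib.MP_7dc3d9_gt.ThA.Stm

set_option autoImplicit false

namespace Pool.Agent.HH

open Complex Set MeasureTheory Topology

private theorem tha_dual (l : E3 →L[ℝ] ℝ) : ∃ a : E3, ∀ x, l x = inner ℝ a x := by
  refine ⟨(InnerProductSpace.toDual ℝ E3).symm l, fun x => ?_⟩
  rw [InnerProductSpace.toDual_symm_apply]

theorem p_THA (h1 : S_NULL) (h2 : S_MAIN) : S_THA := by
  intro f g hf hg hR hS
  obtain ⟨L, hL⟩ := h2 _ (h1 f g hf hg hR hS)
  constructor
  · obtain ⟨a, ha⟩ := tha_dual (Complex.reCLM.comp L)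
    refine ⟨a, fun x => ?_⟩
    rw [← ha x]
    have := congrArg Complex.re (hL x)
    simpa using this
  · obtain ⟨a, ha⟩ := tha_dual (Complex.imCLM.comp L)
    refine ⟨a, fun x => ?_⟩
    rw [← ha x]
    have := congrArg Complex.im (hL x)
    simpa using this

end Pool.Agent.HH
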