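import Pool.Agent.Lib.MP_7dc3d9_gt.ThA.Stm

set_option autoImplicit false

namespace Pool.Agent.HH

open Complex Set MeasureTheory Topology

private theorem tops_path (A : Set E3) (hA : IsOpen A) (hc : IsConnected A) (h0 : (0 : E3) ∉ A)
    (hs : ∀ x ∈ A, ∀ c : ℝ, c ≠ 0 → c • x ∈ A) :
    ∃ a : ℝ → E3, ContinuousOn a (Icc 0 1) ∧ (∀ s ∈ Icc (0 : ℝ) 1, a s ∈ A) ∧
      (∀ s ∈ Icc (0 : ℝ) 1, a s ≠ 0) ∧ a 1 = - a 0 := by
  have hpc : IsPathConnected A := (hA.isConnected_iff_isPathConnected).1 hc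
  obtain ⟨p, hp⟩ := hc.nonempty
  have hnp : -p ∈ A := by
    have := hs p hp (-1) (by norm_num)
    simpa using this
  obtain ⟨γ, hγ⟩ := hpc.joinedIn p hp (-p) hnp
  have hmem : ∀ s ∈ Icc (0 : ℝ) 1, γ.extend s ∈ A := by
    intro s hs'
    rw [Path.extend_apply γ hs']
    exact hγ ⟨s, hs'⟩
  refine ⟨γ.extend, γ.continuous_extend.continuousOn, hmem, ?_, ?_⟩
  · intro s hs' h
    exact h0 (h ▸ hmem s hs')
  · rw [Path.extend_one, Path.extend_zero]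

theorem p_TOPS (h1 : S_TOPP) : S_TOPS := by
  intro A B hA hB hcA hcB h0A h0B hsA hsB
  obtain ⟨a, ac, am, an, ae⟩ := tops_path A hA hcA h0A hsA
  obtain ⟨b, bc, bm, bn, be⟩ := tops_path B hB hcB h0B hsB
  obtain ⟨s, hs, t, ht, m, hm, he⟩ := h1 a b ac bc an bn ae be
  refine ⟨a s, am s hs, ?_⟩
  rw [he]
  exact hsB _ (bm t ht) m hm

end Pool.Agent.HH
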