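import Pool.Agent.Lib.MP_7dc3d9_gt.ThA.Defs

set_option autoImplicit false

/-! Pieces of the proof of the two rigidity theorems on hedgehogs (MP_7dc3d9_gt). Every piece is a
`Prop`; its docstring has a complete informal proof. -/

namespace Pool.Agent.HH

open Complex Set MeasureTheory Topology

/-! ### Analysis in the plane -/

/-- **L2** (`∫ dΘ ∧ dG = 0`). `Θ` is `C¹` on the open set `W` and vanishes on `W` outside the compact
set `C ⊆ W`; `G` is `C¹` on `W`. Then `∫_W (Θ_x G_y - Θ_y G_x) = 0`.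

Proof. Extend `Θ` by `0` outside `W`: it is `C¹` on the plane with compact support `⊆ C`
(`Cᶜ` is open and `Θ = 0` there). Multiply `G` by a smooth cutoff which is `1` near `C` and has compact
support in `W` (`exists_contDiff_tsupport_subset` or similar): nothing changes, so we may assume
`Θ, G ∈ C_c¹(ℝ²)`. The integrand is continuous with compact support, so integrable. If moreover
`G ∈ C²`, two integrations by parts
(`integral_mul_fderiv_eq_neg_fderiv_mul_of_integrable` or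
`integral_bilinear_hasFDerivAt_right_eq_neg_left_of_integrable`) give
`∫ Θ_x G_y = - ∫ Θ G_xy`, `∫ Θ_y G_x = - ∫ Θ G_yx` and the two agree by symmetry of second
derivatives. In general, approximate `G` by `G * ρ_ε` (mollification with a `ContDiffBump`): the first
derivatives are `G_x * ρ_ε → G_x`, `G_y * ρ_ε → G_y` uniformly, all supports stay in one compact set.
(Alternatively mollify `Θ`.) -/
def S_L2 : Prop := ∀ (W C : Set (ℝ × ℝ)) (Θ G : ℝ × ℝ → ℂ), IsOpen W → IsCompact C → C ⊆ W →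
  ContDiffOn ℝ 1 Θ W → (∀ p ∈ W, p ∉ C → Θ p = 0) → ContDiffOn ℝ 1 G W →
  IntegrableOn (fun p => px Θ p * py G p - py Θ p * px G p) W ∧
    ∫ p in W, (px Θ p * py G p - py Θ p * px G p) = 0

/-- **HOL** (regularity of the quotient `dG / dP` where `P` is a local diffeomorphism).

Proof. The statement is local. At `p0 ∈ W`, `Jac P p0 ≠ 0` says that `fderiv ℝ P p0 : ℝ² → ℂ` is
invertible, so `P` has a local `C¹` inverse `s` near `z0 = P p0` (inverse function theorem,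
`ContDiffAt.toOpenPartialHomeomorph`; you may compose with `Complex.equivRealProdCLM`). The function
`g = G ∘ s` is `C¹` near `z0` with `fderiv g z v = f (s z) * v` (chain rule: `dG = f dP`, `P ∘ s = id`),
so `g` is complex differentiable with `deriv g = f ∘ s` near `z0`; hence `f ∘ s` is holomorphic
(analytic) near `z0`, and `f = (deriv g) ∘ P` near `p0` is `C¹` with `df = (deriv (deriv g))(P) dP`;
in particular `f_x P_y = f_y P_x`. -/
def S_HOL : Prop := ∀ (W : Set (ℝ × ℝ)) (P G f : ℝ × ℝ → ℂ), IsOpen W →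
  ContDiffOn ℝ 1 P W → ContDiffOn ℝ 1 G W → ContinuousOn f W →
  (∀ p ∈ W, px G p = f p * px P p) → (∀ p ∈ W, py G p = f p * py P p) →
  (∀ p ∈ W, Jac P p ≠ 0) →
  ContDiffOn ℝ 1 f W ∧ ∀ p ∈ W, px f p * py P p = py f p * px P p

/-- **KE** (approximate identity functions). Proof: let `η s = ∫_0^s θ`, `θ = Real.smoothTransition`
(smooth, nondecreasing, `0` for `s ≤ 0` and `1` for `s ≥ 1`; or use the piecewise polynomial
`θ s = 3 s² - 2 s³` on `[0,1]`), and `K t = ε η((t-ε)/ε)` for `t ≥ 0`, `K (-t) = - K t`, i.e.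
`K t = ε η((t-ε)/ε) - ε η((-t-ε)/ε)`. For `t ≥ 0`: `max (t - 2ε) 0 ≤ K t ≤ max (t - ε) 0`,
`K'' t = θ'((t-ε)/ε)/ε ≥ 0`. -/
def S_KE : Prop := ∀ ε : ℝ, 0 < ε → ∃ K : ℝ → ℝ, ContDiff ℝ 2 K ∧ (∀ t, |t| ≤ ε → K t = 0) ∧
  (∀ t, |K t| ≤ |t|) ∧ (∀ t, |K t - t| ≤ 2 * ε) ∧ (∀ t, 0 ≤ t * deriv (deriv K) t)

/-- **SH** (subharmonicity of the sheet sum of `|Im f|`). `P, G` are `C¹` and `f` continuous on `W`,
`dG = f dP`, `Im f * Jac P ≤ 0`, and `Jac P ≠ 0` where `Im f ≠ 0`. `g ≥ 0` is smooth and the points of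
`W` with `Im f ≠ 0` and `P ∈ tsupport g` lie in a compact `C ⊆ W`. Then
`∫_W (Δg)(P) * Im f * Jac P ≤ 0` (and the integral exists).

Proof. `U = {p ∈ W : Im f ≠ 0}` is open and `Jac P ≠ 0` on it, so by HOL `f` is `C¹` on `U` with
`df = f' dP` (`f' = f_x / P_x`, continuous on `U`). Put `v = Im f`. Let `K` be as in KE for `ε > 0`.
`K(v)` and `K'(v)` vanish where `|v| ≤ ε`; so they are `C¹` on `W`, and `K(v) φ(P)`, `K'(v) φ(P)` with
`φ` smooth, `tsupport φ ⊆ tsupport g`, vanish outside the compact set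
`C_ε = {p ∈ C : |v| ≥ ε, P p ∈ tsupport g} ⊆ U`. Write `g_z = (g1 g - i g2 g)/2`,
`g_z̄ = (g1 g + i g2 g)/2`, `4 g_{z z̄} = lap g`; `d(φ(P)) = φ_z(P) dP + φ_z̄(P) dP̄`,
`dP̄ ∧ dP = 2 i Jac dx dy` and, as `dv = (f' dP - conj f' dP̄)/(2i)`, `dv ∧ dP = - conj f' Jac dx dy`,
`dv ∧ d f̄ = - |f'|² Jac dx dy`.
(1) L2 on `U` (or `W`) with `Θ = K(v) g_z(P)`, `G = P`:
`0 = ∫ K'(v) g_z dv ∧ dP + ∫ K(v) g_{z z̄} dP̄ ∧ dP`, i.e. `2i ∫ K(v) g_{z z̄}(P) Jac = ∫ K'(v) g_z(P) conj f' Jac`.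
(2) L2 on `U` with `Θ = K'(v) g(P)`, `G = conj f` (`C¹` on `U`):
`0 = ∫ K''(v) g dv ∧ d f̄ + ∫ K'(v) g_z dP ∧ conj f' dP̄ = - ∫ K'' g |f'|² Jac - 2i ∫ K' g_z conj f' Jac`.
Together `∫ K(v) (Δg)(P) Jac = 4 ∫ K(v) g_{z z̄} Jac = ∫ K''(v) g(P) |f'|² Jac`. Since `t K''(t) ≥ 0`,
`v Jac ≤ 0` on `U`: `K''(v) Jac ≤ 0`. So `∫_W K(v) (Δg)(P) Jac ≤ 0` for every `ε`. Let `ε → 0`:
`|K(v) - v| ≤ 2ε` and the integrands vanish outside `C ∩ {P ∈ tsupport g}`, where `(Δg)(P) Jac` is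
bounded (continuous on a compact set); `C` has finite measure. (The integrand of the claim is
supported in `C ∩ P⁻¹(tsupport g)`, a compact subset of `W` on which it is continuous, so it is
integrable.) -/
def S_SH : Prop := ∀ (W C : Set (ℝ × ℝ)) (P G f : ℝ × ℝ → ℂ) (g : ℂ → ℝ), IsOpen W →
  IsCompact C → C ⊆ W → ContDiffOn ℝ 1 P W → ContDiffOn ℝ 1 G W → ContinuousOn f W →
  (∀ p ∈ W, px G p = f p * px P p) → (∀ p ∈ W, py G p = f p * py P p) →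
  (∀ p ∈ W, (f p).im * Jac P p ≤ 0) → (∀ p ∈ W, (f p).im ≠ 0 → Jac P p ≠ 0) →
  ContDiff ℝ (⊤ : ℕ∞) g → (∀ z, 0 ≤ g z) →
  (∀ p ∈ W, (f p).im ≠ 0 → P p ∈ tsupport g → p ∈ C) →
  IntegrableOn (fun p => lap g (P p) * (f p).im * Jac P p) W ∧
    ∫ p in W, lap g (P p) * (f p).im * Jac P p ≤ 0

/-- **R3** (extension of the degenerate region upwards). On the rectangle
`W = (s1,s2) × (yb,yt)`, points `(s,y)`: `P = s + i φ(s,y)` is `C¹`, `dG = f dP`,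
`Im f * Jac P ≤ 0`, `Jac P ≠ 0` where `Im f ≠ 0`, and for `y < y0`: `Jac P = 0` and `f = ψ(s)` is
real, with `ψ` of class `C¹` and `ψ' > 0`. Then `Jac P = 0` on `W`. (`px P = 1 + i φ_s`,
`py P = i φ_y`, `Jac P = φ_y`.)

Proof. For `y < y0`, `φ_y = 0`, so `P(s,y) = P̂(s) = s + i φ0(s)` there, `C¹` in `s`. If
`P(s,y) = P̂(s)` on all of `W` then `py P = 0` and we are done. Otherwise take `(s',y') ∈ W` with
`P(s',y') ≠ z* := P̂(s')`; `y' ≥ y0`. Choose `r > 0` small: `[s'-r,s'+r] ⊆ (s1,s2)` and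
`|P(s,y') - z*| > r` for all `s ∈ (s1,s2)` (for `|s-s'| > r` by the real part; near `s'` by continuity).
By compactness there is `δ' > 0` with `y' + δ' < yt` and `|P(s,y) - z*| > r` for `|s-s'| ≤ r`,
`|y-y'| ≤ δ'`; then `y'-δ' ≥ y0` because `P(s',y) = z*` for `y < y0`. Let `g : ℂ → ℝ` be a smooth bump
with `g ≥ 0`, `g z* > 0`, `tsupport g = closedBall z* r` (`ContDiffBump`). Let `W' = (s1,s2) × (yb,y')`.
SH on `W'` with `C = [s'-r,s'+r] × [y0, y'-δ']` gives `∫_{W'} (Δg)(P) Im f Jac P ≤ 0`.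
Let `χ = χ(y)` be smooth, `χ = 0` for `y ≤ y1`, `χ = 1` for `y ≥ y2`, `yb < y1 < y2 < y0`. L2 on `W'`
with `Θ = χ(y) g_z(P)` (`g_z = (g1 g - i g2 g)/2`), compact set `[s'-r,s'+r] × [y1, y'-δ']`, and `G`:
`Θ_s G_y - Θ_y G_s = - χ' g_z(P) f P_s + χ (Δg/4)(P) f (conj P_s P_y - conj P_y P_s)`, and the last
bracket is `2 i Jac P`. Where `χ' ≠ 0` we have `f = ψ(s)` real, `P = P̂(s)`, and
`Re (g_z(P̂) P̂') = (1/2) (g ∘ P̂)'` as `g` is real. The real part of the identity is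
`0 = - (1/2) ∫ χ'(y) dy ∫ (g∘P̂)'(s) ψ(s) ds - (1/2) ∫_{W'} χ (Δg)(P) Im f Jac P`.
`∫ χ' = 1`, `∫ (g∘P̂)' ψ = - ∫ (g∘P̂) ψ'` (compact support in `s`), and `χ = 1` where
`Im f * Jac P ≠ 0`. So `∫ g(P̂(s)) ψ'(s) ds = ∫_{W'} (Δg)(P) Im f Jac P ≤ 0`, but the left side is
`> 0`. Contradiction. -/
def S_R3 : Prop := ∀ (s1 s2 yb y0 yt : ℝ) (P G f : ℝ × ℝ → ℂ) (ψ : ℝ → ℝ), yb < y0 → y0 < yt →
  ContDiffOn ℝ 1 P (Ioo s1 s2 ×ˢ Ioo yb yt) → ContDiffOn ℝ 1 G (Ioo s1 s2 ×ˢ Ioo yb yt) →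
  ContinuousOn f (Ioo s1 s2 ×ˢ Ioo yb yt) → (∀ p ∈ Ioo s1 s2 ×ˢ Ioo yb yt, (P p).re = p.1) →
  (∀ p ∈ Ioo s1 s2 ×ˢ Ioo yb yt, px G p = f p * px P p) →
  (∀ p ∈ Ioo s1 s2 ×ˢ Ioo yb yt, py G p = f p * py P p) →
  (∀ p ∈ Ioo s1 s2 ×ˢ Ioo yb yt, (f p).im * Jac P p ≤ 0) →
  (∀ p ∈ Ioo s1 s2 ×ˢ Ioo yb yt, (f p).im ≠ 0 → Jac P p ≠ 0) →
  (∀ p ∈ Ioo s1 s2 ×ˢ Ioo yb yt, p.2 < y0 → Jac P p = 0 ∧ f p = (ψ p.1 : ℂ)) →
  ContDiffOn ℝ 1 ψ (Ioo s1 s2) → (∀ s ∈ Ioo s1 s2, 0 < deriv ψ s) →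
  ∀ p ∈ Ioo s1 s2 ×ˢ Ioo yb yt, Jac P p = 0

/-- **CH1** (the coordinates `s = Re F_x`, `y`). Proof: inverse function theorem at `(x1,y1)` for the
`C¹` map `Ψ(x,y) = (Re F_x(x,y), y)`, whose derivative is `(a,b) ↦ (Re F_xx a + Re F_xy b, b)`,
invertible as `Re F_xx(x1,y1) > 0` (`ContDiffAt.toOpenPartialHomeomorph`, `ContDiffAt.to_localInverse`; shrink
so that `Re F_xx > 0` and the derivative of `Ψ` is invertible, and the inverse `C¹`, on the source).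
`ξ` is the first coordinate of the local inverse; the square `Rect … δ` is taken inside the target,
and `Rect x1 y1 ε` inside the source and the preimage of `Rect … δ`. -/
def S_CH1 : Prop := ∀ (F : ℝ × ℝ → ℂ) (x1 y1 : ℝ), ContDiff ℝ 2 F →
  0 < (px (px F) (x1, y1)).re →
  ∃ δ : ℝ, 0 < δ ∧ ∃ ξ : ℝ × ℝ → ℝ, ContDiffOn ℝ 1 ξ (Rect (px F (x1, y1)).re y1 δ) ∧
    ξ ((px F (x1, y1)).re, y1) = x1 ∧
    (∀ q ∈ Rect (px F (x1, y1)).re y1 δ,
      (px F (ξ q, q.2)).re = q.1 ∧ 0 < (px (px F) (ξ q, q.2)).re) ∧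
    ∃ ε : ℝ, 0 < ε ∧ ∀ p ∈ Rect x1 y1 ε,
      ((px F p).re, p.2) ∈ Rect (px F (x1, y1)).re y1 δ ∧ ξ ((px F p).re, p.2) = p.1

/-- **CH2** (the structure equations in the coordinates `(s,y)`). With `x = ξ(s,y)`,
`Re F_x(ξ(s,y), y) = s`, `Re F_xx > 0` along `(ξ(s,y),y)` and `F_xx F_yy = F_xy²`; `P = chP F ξ`,
`Q = chQ F ξ`, `X = chX F ξ`, `b = chb F ξ` (all derivatives of `F` below are at `(ξ(q), q.2)`).

Proof. Differentiate `Re F_x(ξ,y) = s`: `ξ_s = 1/Re F_xx`, `ξ_y = - Re F_xy / Re F_xx`. Chain rule: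
`P_s = F_xx ξ_s`, `P_y = F_xx ξ_y + F_xy`; so
`Jac P = Im(conj(F_xx) ξ_s (F_xx ξ_y + F_xy)) = Im(conj F_xx F_xy) / Re F_xx`.
`Q_s = F_xy ξ_s = b P_s`; `Q_y = F_xy ξ_y + F_yy = b (F_xx ξ_y + F_xy)` as `F_yy = F_xy²/F_xx`
(symmetric second derivatives: `px (py F) = py (px F)` for `C²` `F`).
`X = x F_x + y F_y - F`: `X_s = ξ P_s + y Q_s`, `X_y = ξ P_y + y Q_y` (the other terms cancel), both
`= (ξ + y b) * P_•`. `Im b = Im(F_xy conj F_xx)/|F_xx|²`. -/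
def S_CH2 : Prop := ∀ (F : ℝ × ℝ → ℂ) (R : Set (ℝ × ℝ)) (ξ : ℝ × ℝ → ℝ), ContDiff ℝ 2 F → MA F →
  IsOpen R → ContDiffOn ℝ 1 ξ R →
  (∀ q ∈ R, (px F (ξ q, q.2)).re = q.1 ∧ 0 < (px (px F) (ξ q, q.2)).re) →
  ContDiffOn ℝ 1 (chP F ξ) R ∧ ContDiffOn ℝ 1 (chQ F ξ) R ∧ ContDiffOn ℝ 1 (chX F ξ) R ∧
  ContinuousOn (chb F ξ) R ∧
  ∀ q ∈ R,
    px (chP F ξ) q = px (px F) (ξ q, q.2) / (((px (px F) (ξ q, q.2)).re : ℝ) : ℂ) ∧
    Jac (chP F ξ) q = ((starRingEnd ℂ) (px (px F) (ξ q, q.2)) * py (px F) (ξ q, q.2)).im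
      / (px (px F) (ξ q, q.2)).re ∧
    px (chQ F ξ) q = chb F ξ q * px (chP F ξ) q ∧
    py (chQ F ξ) q = chb F ξ q * py (chP F ξ) q ∧
    px (chX F ξ) q = ((ξ q : ℂ) + (q.2 : ℂ) * chb F ξ q) * px (chP F ξ) q ∧
    py (chX F ξ) q = ((ξ q : ℂ) + (q.2 : ℂ) * chb F ξ q) * py (chP F ξ) q ∧
    fderiv ℝ ξ q (1, 0) = 1 / (px (px F) (ξ q, q.2)).re ∧
    (chb F ξ q).im * ‖px (px F) (ξ q, q.2)‖ ^ 2 =
      ((starRingEnd ℂ) (px (px F) (ξ q, q.2)) * py (px F) (ξ q, q.2)).im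

/-- **AFF** (affine structure in the degenerate region). On `R = (s1,s2) × (y1,y2)`: `Re P = s`,
`dQ = b dP`, `dX = (ξ + y b) dP`, `ξ` real `C¹`, `Jac P = 0`.

Proof. `px P = 1 + i φ_s`, `py P = i φ_y`, `Jac P = φ_y = 0`; so `py P = 0`, hence `py Q = 0`,
`py X = 0`, and `P, Q, X` do not depend on `y` (`R` is a product of intervals): `P = P̂(s)` etc., `C¹`
functions of `s`, `P̂' = 1 + i φ_s ≠ 0` (`D = P̂'`). So `b = Q̂'/P̂'` and `ξ + y b = X̂'/P̂'` are functions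
of `s` only: `ξ(s,y) = a(s) - y b(s)` with `a, b : ℝ → ℂ`. `ξ` is real for two different `y`, so
`b(s)` and `a(s)` are real; and `C¹` because `ξ(s,y) - ξ(s,y') = (y'-y) b(s)` and
`a(s) = ξ(s,y) + y b(s)`. Put `A = a`, `B = -b`. -/
def S_AFF : Prop := ∀ (s1 s2 y1 y2 : ℝ) (ξ : ℝ × ℝ → ℝ) (P Q X b : ℝ × ℝ → ℂ), y1 < y2 →
  ContDiffOn ℝ 1 ξ (Ioo s1 s2 ×ˢ Ioo y1 y2) → ContDiffOn ℝ 1 P (Ioo s1 s2 ×ˢ Ioo y1 y2) →
  ContDiffOn ℝ 1 Q (Ioo s1 s2 ×ˢ Ioo y1 y2) → ContDiffOn ℝ 1 X (Ioo s1 s2 ×ˢ Ioo y1 y2) →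
  (∀ q ∈ Ioo s1 s2 ×ˢ Ioo y1 y2, (P q).re = q.1 ∧ Jac P q = 0 ∧
    px Q q = b q * px P q ∧ py Q q = b q * py P q ∧
    px X q = ((ξ q : ℂ) + (q.2 : ℂ) * b q) * px P q ∧
    py X q = ((ξ q : ℂ) + (q.2 : ℂ) * b q) * py P q) →
  ∃ (A B : ℝ → ℝ) (D : ℝ → ℂ), ContDiffOn ℝ 1 A (Ioo s1 s2) ∧ ContDiffOn ℝ 1 B (Ioo s1 s2) ∧
    ∀ q ∈ Ioo s1 s2 ×ˢ Ioo y1 y2, ξ q = A q.1 + B q.1 * q.2 ∧ b q = -((B q.1 : ℝ) : ℂ) ∧
      px P q = D q.1 ∧ fderiv ℝ ξ q (1, 0) = deriv A q.1 + deriv B q.1 * q.2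

/-- **INIT**. Proof. Write `s0 = Re F_x(0,0)`. Take `δ, ξ, ε` from CH1 at `(0,0)`. By continuity of
`(s,y) ↦ (ξ(s,y),y)` at `(s0,0) ↦ (0,0)` and since `IntK F` is an open condition, there is `δ' ≤ δ`
with `Im(conj F_xx F_xy) = 0` at `(ξ(s,y),y)` for `(s,y) ∈ Rect s0 0 δ'`. By CH2, `Jac P = 0` there.
AFF gives `A, B, D`. At `(s0,0)`: `ξ = 0` and `b = F_xy/F_xx = 0`, so `B(s0) = 0`, `A(s0) = 0`; so for
`|y| < δ'`: `ξ(s0,y) = 0`, `b(s0,y) = 0`, i.e. `F_xy(0,y) = 0`;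
`D(s0) = px P(s0,0) = F_xx/Re F_xx = 1` so `F_xx(0,y) = Re F_xx(0,y)`, and
`1/Re F_xx(0,y) = ξ_s(s0,y) = A'(s0) + B'(s0) y`. At `y = 0`: `A'(s0) = 1/lam`. With
`kap = lam B'(s0)`: `F_xx(0,y) (1 + kap y) = lam`. `IntK F (0,y)` holds for `y` near `0`
(`eventually_eventually_nhds`). -/
def S_INIT : Prop := ∀ (F : ℝ × ℝ → ℂ) (lam : ℝ), ContDiff ℝ 2 F → MA F → 0 < lam →
  px (px F) (0, 0) = (lam : ℂ) → py (px F) (0, 0) = 0 → IntK F (0, 0) →
  ∃ kap : ℝ, ∀ᶠ y in 𝓝 (0 : ℝ), Good F lam kap y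

/-- **STEP**. Proof. By continuity `F_xx(0,y1) (1 + kap y1) = lam`, `F_xy(0,y1) = 0`, so
`F_xx(0,y1) > 0` is real. Let `s0 = Re F_x(0,y1)`; take `δ, ξ, ε` from CH1 at `(0,y1)`. On the left
of `y1` (close to it) `∂_y Re F_x(0,y) = Re F_xy(0,y) = 0`, so `Re F_x(0,y) = s0` and by the
uniqueness part of CH1 `ξ(s0,y) = 0`. Choose `y1 - min(δ,ε,..) < yb < y0 < y1` such that `Good F lam kap`
holds on `[yb,y0]`, and `q > y1` with `1 + kap q > 0` (and `1 + kap y > 0` on `[yb,q]`), `yt = min q (y1+δ)`.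
Tube lemma: as `(ξ(s0,y),y) = (0,y)` has a neighbourhood in `{Im(conj F_xx F_xy) = 0}` for
`y ∈ [yb,y0]`, there is an interval `I = (s0-δ',s0+δ')`, `δ' ≤ δ`, with
`Im(conj F_xx F_xy) = 0` at `(ξ(s,y),y)` for `s ∈ I`, `y ∈ [yb,y0]`. By CH2 `Jac P = 0` on
`I × (yb,y0)`; AFF gives `A, B, D` there; as in INIT `A(s0) = B(s0) = 0`, and comparing
`1/Re F_xx(0,y) = A'(s0) + B'(s0) y` with `Good`: `A'(s0) = 1/lam`, `B'(s0) = kap/lam`, `D(s0) = 1`.
Let `G = X - q Q`, `f = ξ + (y - q) b`: `dG = f dP`; for `y < q`, `Im f = (y-q) Im b` has the sign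
opposite to `Jac P` and vanishes iff `Jac P` does (CH2). For `y < y0`: `f = A + B y - (y-q) B = A + q B
=: ψ(s)`, `ψ'(s0) = (1 + kap q)/lam > 0`; shrink `I` so that `ψ' > 0` on `I`. R3 on `I × (yb,yt)`:
`Jac P = 0` there, so `Im(conj F_xx F_xy) = 0` at `(ξ(s,y),y)`; every point `p` near `(0,y1)` is such a
point (CH1: `p = (ξ(Re F_x p, p.2), p.2)`), so `IntK F (0,y1)`, hence `IntK F (0,y)` for `y` near `y1`.
AFF on `I × (yb,yt)` gives `A~,B~,D~` that agree with `A,B,D` (they are determined by `ξ`, `b`, `P_s`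
below `y0`), so for `y` near `y1`: `ξ(s0,y) = 0`, `F_xy(0,y) = 0`, `F_xx(0,y)` real and
`1/F_xx(0,y) = (1 + kap y)/lam`. -/
def S_STEP : Prop := ∀ (F : ℝ × ℝ → ℂ) (lam kap y1 : ℝ), ContDiff ℝ 2 F → MA F → 0 < lam →
  0 < 1 + kap * y1 → (∀ᶠ y in 𝓝[<] y1, Good F lam kap y) → ∀ᶠ y in 𝓝 y1, Good F lam kap y

/-- **S3N**. Proof. INIT gives `kap`. By the reflection `F(x,-y)` (which satisfies the same hypotheses:
`F_xy` changes sign, `Im(conj F_xx F_xy)` changes sign, `kap` becomes `-kap`) we may assume `kap ≤ 0`.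
For every `Y > 0` with `1 + kap y > 0` on `[0,Y]`, `Good F lam kap y` holds on `[0,Y]`: otherwise let
`y1` be the infimum of the `y ∈ [0,Y]` where it fails; `y1 > 0` by INIT, it holds on `[0,y1)`, and
STEP gives a contradiction. If `kap = 0`: `F_xx(0,y) = lam` for all `y ≥ 0`, contradicting
`‖F_xx(0,y)‖ ≤ C/√(1+y²) → 0`. If `kap < 0`, let `Y = -1/kap`: `F_xx(0,y)(1 + kap y) = lam` for
`0 ≤ y < Y`; by continuity it holds at `Y`, where the left side is `0`. -/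
def S_S3N : Prop := ∀ (F : ℝ × ℝ → ℂ) (lam C : ℝ), ContDiff ℝ 2 F → MA F → 0 < lam →
  (∀ p : ℝ × ℝ, ‖px (px F) p‖ ≤ C / Real.sqrt (1 + p.1 ^ 2 + p.2 ^ 2)) →
  px (px F) (0, 0) = (lam : ℂ) → py (px F) (0, 0) = 0 → IntK F (0, 0) → False

/-- **CUR** (`∫ χ_z̄(P) a Jac P = 0`; `a dP` is closed). Proof. L2 with `Θ = χ(P) a` (zero on `W` outside
`C`), `G = P`: `Θ_x P_y - Θ_y P_x = χ(P) (a_x P_y - a_y P_x) + a (χ(P)_x P_y - χ(P)_y P_x)`. The first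
bracket is `0`. With `χ_z = (g1 χ - i g2 χ)/2`, `χ_z̄ = (g1 χ + i g2 χ)/2`:
`χ(P)_x = χ_z P_x + χ_z̄ conj P_x`, so the second bracket is
`χ_z̄ (conj P_x P_y - conj P_y P_x) = 2 i χ_z̄ Jac P`. -/
def S_CUR : Prop := ∀ (W C : Set (ℝ × ℝ)) (P a : ℝ × ℝ → ℂ) (χ : ℂ → ℝ), IsOpen W →
  IsCompact C → C ⊆ W → ContDiffOn ℝ 1 P W → ContDiffOn ℝ 1 a W →
  (∀ p ∈ W, px a p * py P p = py a p * px P p) → ContDiff ℝ 2 χ →
  (∀ p ∈ W, P p ∈ tsupport χ → p ∈ C) →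
  ∫ p in W, ((g1 χ (P p) : ℂ) + Complex.I * (g2 χ (P p) : ℂ)) * a p * (Jac P p : ℂ) = 0

/-- **HZ**. Proof. For `z` with `Re z > c + ε` put `h(z) = ∫_W ρ(P - z) a Jac P`; the integrand
vanishes outside `{p ∈ W : Re P ≥ Re z - ε}`, which is compact and contained in `W`, and on it `a`,
`Jac P` are continuous, so bounded. Locally in `z` the supports stay in one compact set
`{p ∈ W : Re P ≥ c'}`, `c' > c`; so `h` is real differentiable with derivative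
`v ↦ - ∫ (Dρ)(P - z) v * a Jac P` (`hasFDerivAt_integral_of_dominated_of_fderiv_le`; or do the two real
directions and continuity). By CUR for `χ = ρ(· - z)`:
`∫ (ρ_1 + i ρ_2)(P - z) a Jac P = 0`, i.e. `h_1 + i h_2 = 0`: Cauchy-Riemann, `h` is complex
differentiable on the half plane `{Re z > c + ε}`. For `Re z > M + ε` (or `|z| > M + ε`) no point of `W`
has `|P - z| < ε`, so `h = 0` there. By the identity theorem
(`AnalyticOnNhd.eqOn_zero_of_preconnected_of_eventuallyEq_zero`, half planes are convex) `h = 0`. -/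
def S_HZ : Prop := ∀ (W : Set (ℝ × ℝ)) (P a : ℝ × ℝ → ℂ) (c M ε : ℝ) (ρ : ℂ → ℝ) (z : ℂ),
  IsOpen W → ContDiffOn ℝ 1 P W → ContDiffOn ℝ 1 a W →
  (∀ p ∈ W, px a p * py P p = py a p * px P p) → (∀ p ∈ W, ‖P p‖ ≤ M) →
  (∀ c', c < c' → IsCompact {p | p ∈ W ∧ c' ≤ (P p).re}) →
  ContDiff ℝ (⊤ : ℕ∞) ρ → 0 < ε → (∀ z, ε ≤ ‖z‖ → ρ z = 0) → c + ε < z.re →
  ∫ p in W, (ρ (P p - z) : ℂ) * a p * (Jac P p : ℂ) = 0

/-- **STK** (stack of records). Proof. The fibre `{p ∈ W : P p = z0}` is compact (closed in the compact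
set of the hypothesis, as `P` is continuous on it) and discrete (inverse function theorem), so finite:
`p_1, …, p_n`. Each `p_j` has an open neighbourhood `N_j ⊆ W`, pairwise disjoint, on which `Jac P ≠ 0` and
`P` is injective, with `P(N_j)` open and a `C¹` inverse `s_j : P(N_j) → N_j`
(`ContDiffAt.toOpenPartialHomeomorph`; you may compose with `Complex.equivRealProdCLM`). The set
`{p ∈ W : |P p - z0| ≤ r0} ∖ ⋃ N_j` is compact and `P ≠ z0` on it, so `|P - z0| ≥ r1 > 0` there. Take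
`r < r0, r1` with `ball z0 r ⊆ ⋂ P(N_j)`. If `p ∈ W`, `P p = z ∈ ball z0 r` then `p ∈ N_j` for exactly
one `j` and `p = s_j z`; and `s_i z ∉ N_j` for `i ≠ j`. -/
def S_STK : Prop := ∀ (W : Set (ℝ × ℝ)) (P : ℝ × ℝ → ℂ) (z0 : ℂ) (r0 : ℝ), IsOpen W →
  ContDiffOn ℝ 1 P W → 0 < r0 → IsCompact {p | p ∈ W ∧ P p ∈ Metric.closedBall z0 r0} →
  (∀ p ∈ W, P p = z0 → Jac P p ≠ 0) →
  ∃ (n : ℕ) (s : Fin n → ℂ → ℝ × ℝ) (r : ℝ), 0 < r ∧
    (∀ j, ContDiffOn ℝ 1 (s j) (Metric.ball z0 r)) ∧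
    (∀ j, ∀ z ∈ Metric.ball z0 r, s j z ∈ W ∧ P (s j z) = z ∧ Jac P (s j z) ≠ 0) ∧
    (∀ z ∈ Metric.ball z0 r, ∀ p ∈ W, P p = z → ∃! j, s j z = p)

/-- **DEG** (degree formula: the signed sum of `a` over a regular fibre vanishes). Proof. With
`c < c' < Re z0` the set `{p ∈ W : P p ∈ closedBall z0 (Re z0 - c')}` is closed in the compact set
`{p ∈ W : Re P ≥ c'}`, so compact, and STK applies: sections `s_j` on `ball z0 r`. `S` is the image
`{s_j z0}` (injective in `j`). Let `ρ_ε` be smooth, `≥ 0`, supported in `closedBall 0 (ε/2)` with integral one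
(`ContDiffBump.normed`), `ε < r`, `c + ε < Re z0`. HZ: `∫_W ρ_ε(P - z0) a Jac P = 0`. The set of
`p ∈ W` with `P p ∈ ball z0 r` is the disjoint union of the open sets `U_j = s_j(ball z0 r)`, `P : U_j → ball`
is a bijection with inverse `s_j`, and `Jac P` has constant sign `e_j` on `U_j` (connected). Change of
variables (`integral_image_eq_integral_abs_det_fderiv_smul` on `ℝ × ℝ`, through
`Complex.equivRealProd`, `Complex.volume_preserving_equiv_real_prod`; the determinant of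
`equivRealProdCLM ∘ fderiv P p` is `Jac P p`):
`∫_{U_j} ρ_ε(P - z0) a Jac P = e_j ∫_{ball z0 r} ρ_ε(ζ - z0) a(s_j ζ) dζ → e_j a(s_j z0)` as `ε → 0`. -/
def S_DEG : Prop := ∀ (W : Set (ℝ × ℝ)) (P a : ℝ × ℝ → ℂ) (c M : ℝ) (z0 : ℂ)
  (S : Finset (ℝ × ℝ)), IsOpen W → ContDiffOn ℝ 1 P W → ContDiffOn ℝ 1 a W →
  (∀ p ∈ W, px a p * py P p = py a p * px P p) → (∀ p ∈ W, ‖P p‖ ≤ M) →
  (∀ c', c < c' → IsCompact {p | p ∈ W ∧ c' ≤ (P p).re}) → c < z0.re →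
  (∀ p, p ∈ S ↔ p ∈ W ∧ P p = z0) → (∀ p ∈ S, Jac P p ≠ 0) →
  ∑ p ∈ S, ((Jac P p / |Jac P p| : ℝ) : ℂ) * a p = 0

/-- **E2D** (a partner point). Proof. `P(U0)` contains an open disc (inverse function theorem at a point
of `U0`), while `P({p ∈ W : Jac P = 0})` has measure zero
(`addHaar_image_eq_zero_of_det_fderiv_eq_zero` on `ℝ × ℝ`). So there is `z0 ∈ P(U0)` with
`Jac P ≠ 0` on the whole fibre of `z0` in `W`; `Re z0 > c`. STK (the compactness hypothesis as in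
DEG): sections `s_j` (`j : Fin n`) over `ball z0 r`; one of them, `j0`, has `s_{j0} z0 ∈ U0`; shrink `r`
so that `s_{j0} z ∈ U0` for all `z ∈ ball z0 r`. Fix `z ∈ ball z0 r`; its fibre is
`S = {s_j z}` with `Jac P ≠ 0`. Let `Y = (X_i(s_{j0} z))_i`. The functions
`a = ∏_{j : X(s_j z) ≠ Y} (X_{i(j)} - X_{i(j)}(s_j z))/(Y_{i(j)} - X_{i(j)}(s_j z))`
(`i(j)` a coordinate where they differ) are `C¹` and satisfy `a_x P_y = a_y P_x` (Leibniz), so DEG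
gives `∑_{j : X(s_j z) = Y} (± 1) = 0`; hence there is `j ≠ j0` with `X_i(s_j z) = X_i(s_{j0} z)` for all
`i`. So the ball is the union of the finitely many relatively closed sets
`D_j = {z : ∀ i, X_i(s_j z) = X_i(s_{j0} z)}`, `j ≠ j0`; one of them contains a nonempty open set `O`
(finite union of nowhere dense sets is nowhere dense, or Baire). On `O`, differentiating
`X_i ∘ s_j = X_i ∘ s_{j0}` in the direction `v`, and `P ∘ s_j = id`: since `dX_i = γ_i dP` at every point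
with `Jac P ≠ 0`, where `γ_i = px X_i / px P` (`X_{i,x} P_y = X_{i,y} P_x` and `P_x ≠ 0`, if `Jac P ≠ 0`),
the derivative of `X_i ∘ s_j` at `z` in the direction `v` is `γ_i(s_j z) v`. So
`γ_i(s_j z) = γ_i(s_{j0} z)`. Take any `z ∈ O`, `u = s_{j0} z`, `v = s_j z`. -/
def S_E2D : Prop := ∀ (W U0 : Set (ℝ × ℝ)) (P : ℝ × ℝ → ℂ) (X : Fin 3 → ℝ × ℝ → ℂ) (c M : ℝ),
  IsOpen W → ContDiffOn ℝ 1 P W → (∀ i, ContDiffOn ℝ 1 (X i) W) →
  (∀ i, ∀ p ∈ W, px (X i) p * py P p = py (X i) p * px P p) →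
  (∀ p ∈ W, c < (P p).re) → (∀ p ∈ W, ‖P p‖ ≤ M) →
  (∀ c', c < c' → IsCompact {p | p ∈ W ∧ c' ≤ (P p).re}) →
  IsOpen U0 → U0.Nonempty → U0 ⊆ W → (∀ p ∈ U0, Jac P p ≠ 0) →
  ∃ u ∈ U0, ∃ v ∈ W, v ≠ u ∧ Jac P v ≠ 0 ∧ (∀ i, X i v = X i u) ∧
    (∀ i, px (X i) u * px P v = px (X i) v * px P u)

/-! ### Geometry of `ℝ³` -/

/-- **ONB** (completing orthonormal systems in `ℝ³`). -/
def S_ONB : Prop := (∀ k : E3, ‖k‖ = 1 → ∃ e f : E3, Orthonormal ℝ ![e, f, k]) ∧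
  (∀ e k : E3, ‖e‖ = 1 → ‖k‖ = 1 → inner ℝ e k = 0 → ∃ f : E3, Orthonormal ℝ ![e, f, k])

/-- **SIG** (the stereographic chart `σ = sig e f k`, `σ(x,y) = 2x e + 2y f + (x²+y²-1) k`;
`‖σ p‖ = 1 + x² + y²`). Items: (1) `σ ≠ 0`; (2) smooth, with the two derivatives; (3) injective up
to positive scaling (if `σ p = c σ p'`: compare norms and the `k` components:
`x²+y²-1 = c(x'²+y'²-1)`, `x²+y²+1 = c(x'²+y'²+1)`, so `c = 1`, and then compare `e`, `f` components);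
(4) onto the directions different from `k`: for `x` not a positive multiple of `k`,
`‖x‖ - ⟨x,k⟩ > 0` (equality case of Cauchy-Schwarz) and `p = (⟨x,e⟩,⟨x,f⟩)/(‖x‖-⟨x,k⟩)` works;
(5) if `T` is a cone, relatively closed in `ℝ³ ∖ 0`, without `k`, then `σ⁻¹(T)` is compact: closed by
continuity, bounded since `σ(p)/‖σ(p)‖ → k` as `p → ∞` and `T` avoids a neighbourhood of `k`;
(6) `σ, σ_x, σ_y` span `ℝ³` (their determinant in the basis `e,f,k` is `-4(1+x²+y²)`), so if `L(σ p) = 0` then every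
`L v` is a real combination of `L σ_x` and `L σ_y` and if `L σ_x, L σ_y` were real-dependent so would be
all values of `L`, i.e. `Im(conj (L v) (L w)) = 0` for all `v, w`. -/
def S_SIG : Prop := ∀ e f k : E3, Orthonormal ℝ ![e, f, k] →
  (∀ p, sig e f k p ≠ 0) ∧
  (ContDiff ℝ (⊤ : ℕ∞) (sig e f k) ∧ ∀ p : ℝ × ℝ,
    fderiv ℝ (sig e f k) p (1, 0) = (2 : ℝ) • e + (2 * p.1) • k ∧
    fderiv ℝ (sig e f k) p (0, 1) = (2 : ℝ) • f + (2 * p.2) • k) ∧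
  (∀ (p p' : ℝ × ℝ) (c : ℝ), 0 < c → sig e f k p = c • sig e f k p' → p = p') ∧
  (∀ x : E3, x ≠ 0 → (∀ c : ℝ, 0 < c → x ≠ c • k) → ∃ p, ∃ c : ℝ, 0 < c ∧ sig e f k p = c • x) ∧
  (∀ T : Set E3, (∀ x ∈ T, ∀ c : ℝ, 0 < c → c • x ∈ T) → (∀ x : E3, x ≠ 0 → x ∈ closure T → x ∈ T) →
    k ∉ T → IsCompact {p | sig e f k p ∈ T}) ∧
  (∀ (p : ℝ × ℝ) (L : E3 →L[ℝ] ℂ), L (sig e f k p) = 0 →
    (∃ v w : E3, ((starRingEnd ℂ) (L v) * L w).im ≠ 0) →
    ((starRingEnd ℂ) (L ((2 : ℝ) • e + (2 * p.1) • k)) * L ((2 : ℝ) • f + (2 * p.2) • k)).im ≠ 0)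

/-- **TOPP** (two symmetric closed curves on the sphere meet). Paths `a` from `a 0` to `-a 0` and `b`
from `b 0` to `-b 0` in `ℝ³ ∖ 0`; then some `a s` is a nonzero multiple of some `b t`.

Proof. Suppose not: `a s`, `b t` are linearly independent for all `s,t ∈ [0,1]`. For independent `a, x`
and any `y` independent of `a` put
`r(a;x,y) = (|a|²⟨x,y⟩ - ⟨a,x⟩⟨a,y⟩ + i |a| det(a,x,y)) / (|a|²|x|² - ⟨a,x⟩²)`,
the complex ratio of the projections of `y` and `x` to the oriented plane `a^⊥`; it is continuous, the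
denominator is `> 0` and `r ≠ 0`: `(|a|²⟨x,y⟩ - ⟨a,x⟩⟨a,y⟩)² + |a|² det(a,x,y)²
= (|a|²|x|² - ⟨a,x⟩²)(|a|²|y|² - ⟨a,y⟩²) > 0` (polynomial identity).
`R(s,t) = r(a s; b 0, b t)` is continuous on `[0,1]²`, nonzero, `R(s,0) = 1`, `R(s,1) = -1`, and
`R(1,t) = conj R(0,t)` since `a 1 = - a 0`. By uniform continuity choose `N` with
`|R(s,t)/R(s,t') - 1| < 1` for `|t-t'| ≤ 1/N`. `L(s) = ∑_{i<N} log(R(s,(i+1)/N)/R(s,i/N))` is
continuous, `exp L(s) = R(s,1)/R(s,0) = -1`, `L(1) = conj L(0)`. `L` is continuous with values in the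
discrete set `{π i (2k+1)}` (`exp L = -1`), so constant: `L(0) = L(1) = conj L(0)` is real and
`exp L(0) > 0`, contradiction. -/
def S_TOPP : Prop := ∀ a b : ℝ → E3, ContinuousOn a (Icc 0 1) → ContinuousOn b (Icc 0 1) →
  (∀ s ∈ Icc (0 : ℝ) 1, a s ≠ 0) → (∀ s ∈ Icc (0 : ℝ) 1, b s ≠ 0) → a 1 = - a 0 → b 1 = - b 0 →
  ∃ s ∈ Icc (0 : ℝ) 1, ∃ t ∈ Icc (0 : ℝ) 1, ∃ m : ℝ, m ≠ 0 ∧ a s = m • b t

/-- **TOPS** (two symmetric connected open cones meet). Proof: open connected subsets of `ℝ³` are path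
connected (`IsOpen.isConnected_iff_isPathConnected`); take `p ∈ A`, a path in `A` from `p` to `-p`, the
same in `B`; TOPP gives `a s = m • b t`; as `A` and `B` are invariant under nonzero real scaling,
`a s ∈ A ∩ B`. -/
def S_TOPS : Prop := ∀ A B : Set E3, IsOpen A → IsOpen B → IsConnected A → IsConnected B →
  (0 : E3) ∉ A → (0 : E3) ∉ B → (∀ x ∈ A, ∀ c : ℝ, c ≠ 0 → c • x ∈ A) →
  (∀ x ∈ B, ∀ c : ℝ, c ≠ 0 → c • x ∈ B) → (A ∩ B).Nonempty

/-! ### Null functions on `ℝ³ ∖ 0` -/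

/-- **BAS** (homogeneity facts). Proof. Differentiate `H(c x) = c H(x)` in `x`: `DH(cx) = DH(x)`; in
`c` at `c = 1`: `DH(x) x = H(x)` (Euler). Differentiate `DH(cx) = DH(x)`: `c D²H(cx) = D²H(x)`, and in
`c` at `1`: `D²H(x)(x) = 0`. Symmetry: `ContDiffAt.isSymmSndFDerivAt`. `D²H` is continuous on
`ℝ³ ∖ 0`, so bounded on the compact unit sphere; same for `DH`. -/
def S_BAS : Prop := ∀ H : E3 → ℂ, IsNull H →
  (∀ x : E3, x ≠ 0 → ∀ c : ℝ, 0 < c → fderiv ℝ H (c • x) = fderiv ℝ H x) ∧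
  (∀ x : E3, x ≠ 0 → fderiv ℝ H x x = H x) ∧
  (∀ x : E3, x ≠ 0 → ∀ c : ℝ, 0 < c → ∀ a b, D2 H (c • x) a b = ((c⁻¹ : ℝ) : ℂ) * D2 H x a b) ∧
  (∀ x : E3, x ≠ 0 → ∀ a, D2 H x x a = 0 ∧ D2 H x a x = 0) ∧
  (∀ x : E3, x ≠ 0 → ∀ a b, D2 H x a b = D2 H x b a) ∧
  ContDiffOn ℝ 1 (fderiv ℝ H) {x : E3 | x ≠ 0} ∧
  ContinuousOn (fderiv ℝ (fderiv ℝ H)) {x : E3 | x ≠ 0} ∧
  (∃ C : ℝ, ∀ x : E3, x ≠ 0 → ‖fderiv ℝ (fderiv ℝ H) x‖ ≤ C / ‖x‖) ∧
  (∃ M : ℝ, ∀ x : E3, x ≠ 0 → ‖fderiv ℝ H x‖ ≤ M)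

/-- **INTK** (the Hessian vanishes inside the degenerate region). Proof. Suppose `D²H(x0) ≠ 0`. By
homogeneity (BAS; the hypothesis and the conclusion are invariant under `x ↦ c x`) assume `‖x0‖ = 1`.
`D²H(x0)(a,b) = w a * w b`, `w ≠ 0`; choose `v` with `w v ≠ 0`. The hypothesis at `x0` gives
`|w v|² Im(conj (w v) w b) = 0`, so `β(b) = w b / w v` is real; it is a real linear functional,
`β(b) = ⟨n,b⟩` with `n ≠ 0`, and `⟨n,x0⟩ = 0` since `w x0 = 0` (`w x0 * w x0 = D²H(x0)(x0,x0) = 0`).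
Let `e = n/‖n‖`, and `f` with `(e,f,x0)` orthonormal (ONB). `w f = 0`, `w e ≠ 0`. Let
`θ = conj(w e * w e)`, `F(x,y) = θ H(x0 + x e + y f)`; the argument never vanishes and has norm
`√(1+x²+y²)`. `F` is `C²`, `px (px F) = θ D²H(e,e)`, `py (px F) = θ D²H(e,f)`,
`py (py F) = θ D²H(f,f)` at `x0 + x e + y f`. So `MA F` by rank one; the decay bound from BAS;
`px (px F) (0,0) = |w e|⁴ =: lam > 0`, `py (px F) (0,0) = 0`; `IntK F (0,0)` from the hypothesis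
with `v = e`, `w = f` (the factor `|θ|²` comes out). S3N gives a contradiction. -/
def S_INTK : Prop := ∀ (H : E3 → ℂ) (x0 : E3), IsNull H → x0 ≠ 0 →
  (∀ᶠ x in 𝓝 x0, ∀ v w : E3, ((starRingEnd ℂ) (D2 H x v v) * D2 H x v w).im = 0) →
  ∀ a b : E3, D2 H x0 a b = 0

/-- **E3D** (antipodal partner). `P = θ ∂_i H`; `V` is an open cone, relatively closed in
`{x ≠ 0 : Re P > c}` and contained in it, which misses a point `k ≠ 0`; `U0 ⊆ V` is a nonempty open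
cone on which `DP` has real rank two. Then some `u ∈ U0` has `-u ∈ V` and `DH(-u) = DH(u)`.

Proof. We may take `‖k‖ = 1` (`V` is a cone). ONB: `(e,f,k)` orthonormal; `σ = sig e f k`,
`W = σ⁻¹(V)`, `X_j = (p ↦ DH(σ p) (ev j))`, `P = θ X_i` as functions of `p`. `W` is open; all are `C¹` (BAS); with
`D2 H x a b = w_x a * w_x b`: `px X_j = w(σ_x) w(ev j)`, `py X_j = w(σ_y) w(ev j)` at `σ p`, so
`px X_j * py P = py X_j * px P`. `P` is bounded (BAS). For `c' > c`,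
`T = {x ∈ V : Re P ≥ c'}` is a cone (`DH` is 0-homogeneous), relatively closed in `ℝ³ ∖ 0`, `k ∉ T`, so
`σ⁻¹(T)` is compact (SIG 5). `σ⁻¹(U0)` is open and nonempty (SIG 4: a point of `U0` is not a positive
multiple of `k`) and `Jac P ≠ 0` on it (SIG 6 for `L = DP(σ p)`, `L b = θ w b w(ev i)`, `L(σ p) = 0`).
E2D: `u ∈ σ⁻¹(U0)`, `v ∈ W`, `v ≠ u`. Let `x = σ u`, `y = σ v`, `DH(x) = DH(y)` (all coordinates).
`px X_j(u) px P(v) = px X_j(v) px P(u)` reads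
`w_x(σ_x) w_x(ev j) θ w_y(σ_x') w_y(ev i) = w_y(σ_x') w_y(ev j) θ w_x(σ_x) w_x(ev i)`, and
`w_x(σ_x), w_x(ev i), w_y(σ_x'), w_y(ev i) ≠ 0` as `Jac P ≠ 0` at `u`, `v`. So `w_x` and `w_y` are
proportional: `w_y = m w_x`, `m ≠ 0`. `w_x x = 0`, `w_y y = 0` (BAS: `D2 H x x x = 0`), so `w_x y = 0`. `w_x`
has real rank two, so its kernel is one dimensional: `y = t x`, `t ≠ 0` real. If `t > 0` then `u = v`
(SIG 3). So `t < 0`, `-x = y/|t| ∈ V` and `DH(-x) = DH(y) = DH(x)`. -/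
def S_E3D : Prop := ∀ (H : E3 → ℂ) (i : Fin 3) (θ : ℂ) (c : ℝ) (V U0 : Set E3) (k : E3),
  IsNull H → θ ≠ 0 → IsOpen V → (∀ x ∈ V, x ≠ 0 ∧ c < (θ * fderiv ℝ H x (ev i)).re) →
  (∀ x ∈ V, ∀ t : ℝ, 0 < t → t • x ∈ V) →
  (∀ x : E3, x ≠ 0 → c < (θ * fderiv ℝ H x (ev i)).re → x ∈ closure V → x ∈ V) →
  k ≠ 0 → k ∉ V → IsOpen U0 → U0.Nonempty → U0 ⊆ V → (∀ x ∈ U0, ∀ t : ℝ, 0 < t → t • x ∈ U0) →
  (∀ x ∈ U0, ∃ v w : E3, ((starRingEnd ℂ) (D2 H x v (ev i)) * D2 H x w (ev i)).im ≠ 0) →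
  ∃ u ∈ U0, -u ∈ V ∧ fderiv ℝ H (-u) = fderiv ℝ H u

/-- **EVEN** (`DH` is even). Proof. Let
`Ω = {x ≠ 0 : ∃ v w, Im(conj D²H(v,v) D²H(v,w)) ≠ 0}`; open cone. With `D²H = w ⊗ w`, `x ∈ Ω` iff `w` has
real rank two. (a) `DH(-x) = DH(x)` on `Ω`: the set where this holds is closed, so it is enough to
find such a point in every nonempty open cone `U0 ⊆ Ω` (given an open set `U ⊆ Ω` take the cone over it). Take
`x1 ∈ U0` and `i` with `w_{x1}(ev i) ≠ 0`; shrink `U0` so that `D²H(ev i, ev i) ≠ 0` on `U0`. The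
function `P = ∂_i H` has `DP(x) b = w b w(ev i)` of rank two on `U0`. As `DP(x1)` is onto, there is
`k` near `x1` with `Re P(k) < Re P(x1)`. Let `c = Re P(k)`, `V = {x ≠ 0 : Re P > c}`, `U0' = U0 ∩ V` (contains
`x1`). E3D (`θ = 1`) gives `u ∈ U0' ⊆ U0` with `DH(-u) = DH(u)`. (b) Differentiating (a) on the open set `Ω`:
`-D²H(-x) = D²H(x)`, so `-x ∈ Ω`: `Ω = -Ω`. (c) Let `K°` be the interior of
`{x ≠ 0} ∖ Ω`; `K° = -K°` and `D²H = 0` on `K°` (INTK). `E(x) = DH(-x) - DH(x)` is `C¹` on `ℝ³ ∖ 0`; its derivative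
`-D²H(-x) - D²H(x)` vanishes on `Ω` and on `K°`, and `Ω ∪ K°` is dense, so it vanishes. `ℝ³ ∖ 0` is
open and connected (`isConnected_compl_singleton_of_one_lt_rank`), so `E` is constant
(`IsOpen.is_const_of_fderiv_eq_zero`), and `E(-x) = -E(x)` gives `E = 0`. -/
def S_EVEN : Prop := ∀ H : E3 → ℂ, IsNull H → ∀ x : E3, x ≠ 0 → fderiv ℝ H (-x) = fderiv ℝ H x

/-- **COMP** (components of `{Re (θ ∂_i H) > c}` are symmetric). Proof. Let
`S = {x ≠ 0 : ρ(x) > c}`, `ρ = Re(θ ∂_i H)`, an open set; `V` its component at `x1`: open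
(`IsOpen.connectedComponentIn`), connected, invariant under positive scaling (the ray through a point
of `V` is connected and in `S`), relatively closed in `S` (if `x ∈ S ∩ closure V`, a small ball around
`x` in `S` is connected and meets `V`). As `ρ` is even, `-V` is the component of `-x1`; so it is enough
to find `u ∈ V` with `-u ∈ V` (then `V` and `-V` both are the component of `-u`). Let
`U0 = {x ∈ V : ∃ v w, Im(conj D²H(v, ev i) D²H(w, ev i)) ≠ 0}`, an open cone. If `U0 ≠ ∅`, E3D with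
`k = x2 ∉ V` gives `u`. If `U0 = ∅`: for every `x ∈ V`, `D²H(·, ev i) = w(·) w(ev i)` has real rank
`< 2`. If `w_x` has rank two (`x ∈ Ω` of EVEN) then `w(ev i) = 0`, so `D²H(x)(·, ev i) = 0`; if `x` is in
the interior of `{x ≠ 0} ∖ Ω` then `D²H(x) = 0` by INTK; these points are dense in `V`, so
`D²H(x)(·, ev i) = 0` on `V` by continuity, and `∂_i H` is constant on the open connected set `V`, so
`ρ = ρ(x1) > c` on `V`, and by continuity on `closure V ∖ 0`; so `V` is closed in `ℝ³ ∖ 0`, hence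
`V = ℝ³ ∖ 0` (connected), contradicting `x2 ∉ V`. -/
def S_COMP : Prop := ∀ (H : E3 → ℂ) (i : Fin 3) (θ : ℂ) (c : ℝ) (x1 x2 : E3), IsNull H →
  (∀ x : E3, x ≠ 0 → fderiv ℝ H (-x) = fderiv ℝ H x) → θ ≠ 0 → x1 ≠ 0 → x2 ≠ 0 →
  c < (θ * fderiv ℝ H x1 (ev i)).re → (θ * fderiv ℝ H x2 (ev i)).re ≤ c →
  ∀ V : Set E3, V = connectedComponentIn {x : E3 | x ≠ 0 ∧ c < (θ * fderiv ℝ H x (ev i)).re} x1 →
  IsOpen V ∧ IsConnected V ∧ ∀ x ∈ V, ∀ t : ℝ, t ≠ 0 → t • x ∈ V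

/-- **MAIN** (null functions are linear). Proof. EVEN: `DH` is even. If `DH` is not constant on
`ℝ³ ∖ 0` there are `i`, `θ ∈ {1, -i}` such that `ρ = Re(θ ∂_i H)` is not constant: `ρ(x2) < c < ρ(x1)`.
COMP for `(θ, c, x1, x2)` and for `(-θ, -c, x2, x1)` gives two disjoint open connected sets (`ρ > c` on
the first, `ρ < c` on the second) invariant under nonzero real scaling, contradicting TOPS. So
`DH(x) = L` for all `x ≠ 0`, and `H(x) = DH(x) x = L x` by Euler's relation (BAS); `H 0 = 0` from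
`H(2•0) = 2 H 0`. -/
def S_MAIN : Prop := ∀ H : E3 → ℂ, IsNull H → ∃ L : E3 →L[ℝ] ℂ, ∀ x, H x = L x

/-! ### Theorem A -/

/-- **ALG** (a complex symmetric `3 × 3` matrix with a real unit vector in its kernel and vanishing sum
of principal `2 × 2` minors is `w wᵀ`). Proof. Let `C` be the cofactor matrix, `C_{ki} = C_{ik}`. Every row
of `M` is orthogonal to `u`; the cross product of two rows is a row of `C`, and `v = a × b` with
`a·u = b·u = 0` satisfies `u × v = 0`, so `v = (v·u) u`; so `C_{ki} = c_k u_i`, by symmetry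
`C_{ki} = c_i u_k`, so `c_k = u_k (c·u)` and `C = (tr C) u uᵀ = 0`. So all `2 × 2` minors vanish:
`M i j * M k l = M i l * M k j`. If all diagonal entries vanish, `M i j ^ 2 = M i i * M j j = 0`, take
`w = 0`. Otherwise `M i i ≠ 0`, let `z² = M i i`, `w j = M i j / z`. -/
def S_ALG : Prop := ∀ (M : Fin 3 → Fin 3 → ℂ) (u : Fin 3 → ℝ), (∀ i j, M i j = M j i) →
  (∑ i, (u i) ^ 2 = 1) → (∀ i, ∑ j, M i j * (u j : ℂ) = 0) →
  (M 0 0 * M 1 1 - M 0 1 * M 1 0) + (M 0 0 * M 2 2 - M 0 2 * M 2 0)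
    + (M 1 1 * M 2 2 - M 1 2 * M 2 1) = 0 →
  ∃ w : Fin 3 → ℂ, ∀ i j, M i j = w i * w j

/-- **NULL**. `H = f + i g` is a null function if `R_f = R_g` and `R_{f+g} = R_f + R_g`. Proof.
Homogeneity and smoothness are clear. At a unit vector `u`: `D²H = D²f + i D²g` is symmetric with
kernel containing `u` (differentiate the 0-homogeneous `DH`), and its sum of principal `2 × 2`
minors is `R_f - R_g + i (R_{f+g} - R_f - R_g) = 0`; ALG gives `w` on the basis, extend linearly. For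
general `x ≠ 0` use `D²H(c x) = c⁻¹ D²H(x)` and `w_{cx} = c^{-1/2} w_x`. -/
def S_NULL : Prop := ∀ f g : EuclideanSpace ℝ (Fin 3) → ℝ, IsSupp f → IsSupp g →
  (∀ u ∈ Metric.sphere (0 : EuclideanSpace ℝ (Fin 3)) 1,
    curvatureFunction f u = curvatureFunction g u) →
  (∀ u ∈ Metric.sphere (0 : EuclideanSpace ℝ (Fin 3)) 1,
    curvatureFunction (fun x => f x + g x) u = curvatureFunction f u + curvatureFunction g u) →
  IsNull (fun x => (f x : ℂ) + Complex.I * (g x : ℂ))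

/-- **THA** (Theorem A). Proof: NULL and MAIN: `f + i g = L`; real and imaginary parts of `L` are
real linear functionals, i.e. inner products (`InnerProductSpace.toDual`). -/
def S_THA : Prop := ∀ f g : EuclideanSpace ℝ (Fin 3) → ℝ, IsSupp f → IsSupp g →
  (∀ u ∈ Metric.sphere (0 : EuclideanSpace ℝ (Fin 3)) 1,
    curvatureFunction f u = curvatureFunction g u) →
  (∀ u ∈ Metric.sphere (0 : EuclideanSpace ℝ (Fin 3)) 1,
    curvatureFunction (fun x => f x + g x) u = curvatureFunction f u + curvatureFunction g u) →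
  (∃ a : E3, ∀ x, f x = inner ℝ a x) ∧ (∃ a : E3, ∀ x, g x = inner ℝ a x)

/-- **PEN** (pencils). If `R_f`, `R_g` and the mixed curvature function are multiples of one function
then a nontrivial combination of `f` and `g` is linear. Proof. The complex quadratic form
`α s² + 2 γ s t + β t²` has a zero `(s,t) ≠ 0` in `ℂ²`. Write `s = s1 + i s2`, `t = t1 + i t2`,
`F = s1 f + t1 g`, `G = s2 f + t2 g`. The curvature function is a quadratic form: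
`R_{s f + t g} = s² R_f + 2 s t R_(f,g) + t² R_g` at unit vectors (`2 R_(f,g) = R_{f+g} - R_f - R_g`), so
`R_F - R_G = ρ Re(α s² + 2γ s t + β t²) = 0` and `R_{F+G} - R_F - R_G = ρ Im(…) = 0`. THA: `F` and `G`
are linear; one of `(s1,t1)`, `(s2,t2)` is nonzero. -/
def S_PEN : Prop := ∀ f g : EuclideanSpace ℝ (Fin 3) → ℝ, IsSupp f → IsSupp g →
  ∀ (α β γ : ℝ) (ρ : EuclideanSpace ℝ (Fin 3) → ℝ),
  (∀ u ∈ Metric.sphere (0 : EuclideanSpace ℝ (Fin 3)) 1,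
    curvatureFunction f u = α * ρ u ∧ curvatureFunction g u = β * ρ u ∧
    curvatureFunction (fun x => f x + g x) u - curvatureFunction f u - curvatureFunction g u
      = 2 * γ * ρ u) →
  ∃ s t : ℝ, (s ≠ 0 ∨ t ≠ 0) ∧ ∃ a : E3, ∀ x, s * f x + t * g x = inner ℝ a x

/-! ### Theorem B -/

/-- **B1** (quadrics whose only common zero is the origin: every fibre is finite). Proof. Let `A =
MvPolynomial (Fin d) ℂ`, `J = (q i)_i`. By the Nullstellensatz (`MvPolynomial.vanishingIdeal_zeroLocus_eq_radical`)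
some power `x_j^N` lies in `J` for all `j` (one `N ≥ 2`): `x_j^N = ∑ c_i q_i`, where after taking the
homogeneous component of degree `N` we may take `c_i` homogeneous of degree `N - 2`. Modulo the ideal
`I = (q_i - r_i)`: `x_j^N ≡ ∑ c_i r_i`, of degree `< N`. So every monomial of degree `≥ d N` (which
contains some `x_j^N`) is congruent to a polynomial of smaller degree, and `A/I` is spanned by the
monomials of degree `< d N + 1`: finite dimensional. Each point `a` of the set gives an algebra homomorphism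
`A/I → ℂ`, different points different ones, and distinct algebra homomorphisms to `ℂ` are linearly
independent (`linearIndependent_monoidHom`) in the finite dimensional dual of `A/I`. -/
def S_B1 : Prop := ∀ (d : ℕ) (ι : Type) (q : ι → MvPolynomial (Fin d) ℂ) (r : ι → ℂ),
  (∀ i, (q i).IsHomogeneous 2) →
  (∀ a : Fin d → ℂ, (∀ i, MvPolynomial.eval a (q i) = 0) → a = 0) →
  Set.Finite {a : Fin d → ℂ | ∀ i, MvPolynomial.eval a (q i) = r i}

/-- **BFIN** (finitely many classes in a finite dimensional space). Proof. `hat` is linear and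
`hat F = 0` iff `F` is the linear function with the same values on the basis, so `F - hat F` is linear
and `curvatureFunction F = curvatureFunction (hat F)` for `F` in the span of support functions. Choose
a maximal subset `I ⊆ Fin N` with `(hat (b i))_{i ∈ I}` linearly independent (`d = |I|`). For
`F = ∑ a_i b_i`, `hat F = ∑_{i ∈ I} c_i hat (b_i)` with unique real `c`, and
`curvatureFunction F u = Q_u(c)`, where `Q_u` is the real quadratic form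
`Q_u(c) = ∑_{i,j} c_i c_j R_(b_i,b_j)(u)`, `R_(f,g)(u) = (R_{f+g} - R_f - R_g)(u)/2` (bilinear).
The homogeneous quadratic polynomials `Q_u` (`u` a unit vector) have only the common complex zero `0`: if
`c = c' + i c''` is a common zero then `f = ∑ c'_i b_i`, `g = ∑ c''_i b_i` satisfy
`R_f = R_g`, `R_{f+g} = R_f + R_g` on the sphere, so by THA they are linear, `∑ c'_i hat(b_i) = 0`, and
`c' = 0 = c''`. B1 gives finiteness of the set of `c`, hence of the set of `hat F`. -/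
def S_BFIN : Prop := ∀ (N : ℕ) (b : Fin N → E3 → ℝ) (R : E3 → ℝ), (∀ i, IsSupp (b i)) →
  Set.Finite {h : E3 → ℝ | ∃ a : Fin N → ℝ, h = hat (fun x => ∑ i, a i * b i x) ∧
    ∀ u ∈ Metric.sphere (0 : E3) 1, curvatureFunction (fun x => ∑ i, a i * b i x) u = R u}

/-- **THB** (Theorem B). Proof. For `t ∈ [0,1]`, `H t` is in the span of `b 0, …, b (N-1)` for some
`N`; so by BFIN (`R = curvatureFunction (H 0)`) the set `{hat (H t) : t ∈ [0,1]}` is countable. For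
fixed `x`, `t ↦ hat (H t) x` is continuous on `[0,1]` with countable image, so constant (a
connected subset of `ℝ` with two points is uncountable; e.g. `IsPreconnected` image is an interval
`Set.Countable` impossible: `Set.Countable` versus `Cardinal.mk_Icc_real`, or
`Set.Countable.isTotallyDisconnected`-like lemmas). So `hat (H t) = hat (H 0)`, and
`H t x - H 0 x = ∑ x_i (H t (ev i) - H 0 (ev i))` is linear. -/
def S_THB : Prop := ∀ (b : ℕ → E3 → ℝ) (H : ℝ → E3 → ℝ), (∀ n, IsSupp (b n)) →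
  (∀ t ∈ Icc (0 : ℝ) 1, H t ∈ Submodule.span ℝ (Set.range b)) →
  (∀ x, ContinuousOn (fun t => H t x) (Icc 0 1)) →
  (∀ t ∈ Icc (0 : ℝ) 1, ∀ u ∈ Metric.sphere (0 : E3) 1,
    curvatureFunction (H t) u = curvatureFunction (H 0) u) →
  ∀ t ∈ Icc (0 : ℝ) 1, ∃ a : E3, ∀ x, H t x = H 0 x + inner ℝ a x

end Pool.Agent.HH
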